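import Pool.Agent.Lib.MP_9d59e9_gt.KO.Spec

/-!
# MP_9d59e9_gt, project KO: `R` has rank one at every point with `t₂ ≠ 0`
-/

set_option autoImplicit false

namespace Pool.Agent.Lib.MP_9d59e9_gt.KO

noncomputable section

theorem tA3 (hA3a : S_A3a) (hA3b : S_A3b) : S_A3 := by
  intro V _ _ B R Ro M t1 t2 β h hne
  obtain ⟨hT, hA⟩ := hA3a V B R Ro M t1 t2 β h
  obtain ⟨a₀, b₀, hab⟩ := hne
  obtain ⟨T, hT⟩ := hT a₀ b₀ hab
  obtain ⟨-, -, p3, p4, p5⟩ := hA a₀ T hT
  apply p3
  by_contra hcon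
  have hex : ∃ a b c d, t2 a₀ a = 0 ∧ t2 a₀ b = 0 ∧ t2 a₀ c = 0 ∧ t2 a₀ d = 0 ∧
      R T a T b * R T c T d ≠ R T a T d * R T c T b := by
    by_contra h'
    apply hcon
    intro a b c d ha hb hc hd
    by_contra h''
    exact h' ⟨a, b, c, d, ha, hb, hc, hd, h''⟩
  obtain ⟨q1, q2⟩ := hA3b V B R Ro M t1 t2 β h a₀ T hT hex
  obtain ⟨a, b, c, d, ha, hb, hc, hd, hx⟩ := hex
  apply hx
  by_cases h1 : ∃ x₀, t2 a₀ x₀ = 0 ∧ t1 x₀ ≠ 0
  · obtain ⟨x₀, hx₀, hx₁⟩ := h1
    have key : ∀ x y, t2 a₀ x = 0 → t2 a₀ y = 0 → R T x T y =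
        t1 x * (B T T * (β T a₀ y - t1 T * β x₀ a₀ y / t1 x₀)) := by
      intro x y hx hy
      have e1 := q1 x₀ x y hx₀ hx hy
      have e2 : β x a₀ y = t1 x * β x₀ a₀ y / t1 x₀ := by
        rw [eq_div_iff hx₁]
        linarith
      rw [q2 x y hx hy, e2]
      ring
    rw [key a b ha hb, key c d hc hd, key a d ha hd, key c b hc hb]
    ring
  · have h0 : ∀ x, t2 a₀ x = 0 → t1 x = 0 := by
      intro x hx
      by_contra h'
      exact h1 ⟨x, hx, h'⟩
    have key : ∀ x y, t2 a₀ x = 0 → t2 a₀ y = 0 → R T x T y = -(B T T * t1 T) * β x a₀ y := by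
      intro x y hx hy
      rw [q2 x y hx hy, h0 x hx]
      ring
    have sy : ∀ x y, R T x T y = R T y T x := fun x y => h.cR.sw T y T x
    -- second Bianchi identity for `c`, `a`, `T`, evaluated on `b`, `d`
    have b2 := h.cM.bi2 c a T b d
    have z1 : M T c a b d = 0 := p5 T c a b d hc ha hb hd
    have z2 : M c a T b d = -(β c a₀ b * R T d T a - β c a₀ d * R T b T a) := by
      rw [← p4 c b d T a hb hd, ← (h.cM.cur c).a34 b d T a]
      exact ((h.cM.cur c).sw a T b d).symm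
    have z3 : M a T c b d = β a a₀ b * R T d T c - β a a₀ d * R T b T c := by
      rw [← p4 a b d T c hb hd]
      exact ((h.cM.cur a).sw T c b d).symm
    have b3 : -(β c a₀ b * R T d T a - β c a₀ d * R T b T a) +
        (β a a₀ b * R T d T c - β a a₀ d * R T b T c) = 0 := by
      rw [← z2, ← z3]
      linarith
    have k1 := key c b hc hb
    have k2 := key c d hc hd
    have k3 := key a b ha hb
    have k4 := key a d ha hd
    have s1 := sy d a
    have s2 := sy b a
    have s3 := sy d c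
    have s4 := sy b c
    rw [s1, s2, s3, s4] at b3
    have fin : 2 * (R T a T b * R T c T d - R T a T d * R T c T b) = 0 := by
      have e : -(B T T * t1 T) * (-(β c a₀ b * R T a T d - β c a₀ d * R T a T b) +
        (β a a₀ b * R T c T d - β a a₀ d * R T c T b)) = 0 := by
        rw [b3, mul_zero]
      linear_combination e - R T a T d * k1 + R T a T b * k2 + R T c T d * k3 - R T c T b * k4
    linarith

end

end Pool.Agent.Lib.MP_9d59e9_gt.KO
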