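import Pool.Agent.Lib.MP_9d59e9_gt.KO.Spec

/-!
# MP_9d59e9_gt, project KO: structure of `R` at a point with `t₂ ≠ 0`
-/

set_option autoImplicit false

namespace Pool.Agent.Lib.MP_9d59e9_gt.KO

noncomputable section

section aux
variable {V : Type} [AddCommGroup V] [Module ℝ V]

private lemma l_zero {f : V → ℝ} (h : Lin1 f) : f 0 = 0 := by
  have := h.smul 0 0
  simpa using this

private lemma l_sub {f : V → ℝ} (h : Lin1 f) (a b : V) : f (a - b) = f a - f b := by
  have h1 : a - b = a + (-1 : ℝ) • b := by rw [neg_one_smul, sub_eq_add_neg]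
  rw [h1, h.add, h.smul]; ring

private lemma c_lin2 {R : V → V → V → V → ℝ} (h : Crvt R) (a c d : V) :
    Lin1 fun b => R a b c d := by
  constructor
  · intro x y
    have := (h.lin a c d).add x y
    have e1 := h.a12 a (x + y) c d
    have e2 := h.a12 a x c d
    have e3 := h.a12 a y c d
    show R a (x + y) c d = R a x c d + R a y c d
    linarith
  · intro r x
    have := (h.lin a c d).smul r x
    have e1 := h.a12 a (r • x) c d
    have e2 := h.a12 a x c d
    show R a (r • x) c d = r * R a x c d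
    have e3 : R a x c d = -R x a c d := by linarith
    rw [e3]
    linarith

private lemma c_lin4 {R : V → V → V → V → ℝ} (h : Crvt R) (a b c : V) :
    Lin1 fun d => R a b c d := by
  have hl := c_lin2 h c a b
  constructor
  · intro x y
    have := hl.add x y
    show R a b c (x + y) = R a b c x + R a b c y
    rw [← h.sw a b c (x + y), ← h.sw a b c x, ← h.sw a b c y]
    exact this
  · intro r x
    have := hl.smul r x
    show R a b c (r • x) = r * R a b c x
    rw [← h.sw a b c (r • x), ← h.sw a b c x]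
    exact this

/-- the first two slots -/
private lemma red12 {R : V → V → V → V → ℝ} (h : Crvt R) {τ : V → ℝ} (hτ : Lin1 τ) {T : V}
    (hT : τ T = 1) (h0 : ∀ c d w z, τ c = 0 → τ d = 0 → R c d w z = 0) (u v w z : V) :
    R u v w z = τ u * R T v w z - τ v * R T u w z := by
  have hu : τ (u - τ u • T) = 0 := by rw [l_sub hτ, hτ.smul, hT]; ring
  have hv : τ (v - τ v • T) = 0 := by rw [l_sub hτ, hτ.smul, hT]; ring
  have h1 := h0 _ _ w z hu hv
  have e1 : R (u - τ u • T) (v - τ v • T) w z
      = R u (v - τ v • T) w z - R (τ u • T) (v - τ v • T) w z :=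
    l_sub (h.lin (v - τ v • T) w z) u (τ u • T)
  have e2 : R (τ u • T) (v - τ v • T) w z = τ u * R T (v - τ v • T) w z :=
    (h.lin (v - τ v • T) w z).smul (τ u) T
  have e3 : R u (v - τ v • T) w z = R u v w z - R u (τ v • T) w z :=
    l_sub (c_lin2 h u w z) v (τ v • T)
  have e4 : R u (τ v • T) w z = τ v * R u T w z := (c_lin2 h u w z).smul (τ v) T
  have e5 : R T (v - τ v • T) w z = R T v w z - R T (τ v • T) w z :=
    l_sub (c_lin2 h T w z) v (τ v • T)
  have e6 : R T (τ v • T) w z = τ v * R T T w z := (c_lin2 h T w z).smul (τ v) T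
  have e7 : R T T w z = 0 := by have := h.a12 T T w z; linarith
  have e8 : R u T w z = -R T u w z := h.a12 T u w z
  rw [e1, e2, e3, e4, e5, e6, e7, e8] at h1
  linarith

private lemma redH {R : V → V → V → V → ℝ} (h : Crvt R) {τ : V → ℝ} (hτ : Lin1 τ) {T : V}
    (hT : τ T = 1) (h0 : ∀ c d w z, τ c = 0 → τ d = 0 → R c d w z = 0) (u v w z : V) :
    R u v w z = R T (τ u • v - τ v • u) T (τ w • z - τ z • w) := by
  have e1 := red12 h hτ hT h0 u v w z
  have f1 : ∀ x y p q : V, R x (τ u • v - τ v • u) p q = τ u * R x v p q - τ v * R x u p q := by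
    intro x y p q
    have a1 := l_sub (c_lin2 h x p q) (τ u • v) (τ v • u)
    have a2 := (c_lin2 h x p q).smul (τ u) v
    have a3 := (c_lin2 h x p q).smul (τ v) u
    rw [a1, a2, a3]
  have f2 : ∀ x p q : V, R x p q (τ w • z - τ z • w) = τ w * R x p q z - τ z * R x p q w := by
    intro x p q
    have a1 := l_sub (c_lin4 h x p q) (τ w • z) (τ z • w)
    have a2 := (c_lin4 h x p q).smul (τ w) z
    have a3 := (c_lin4 h x p q).smul (τ z) w
    rw [a1, a2, a3]
  have g1 : ∀ p : V, R T p w z = τ w * R T p T z - τ z * R T p T w := by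
    intro p
    have b1 := red12 h hτ hT h0 w z T p
    have b2 := h.sw T p w z
    have b3 := h.sw T p T z
    have b4 := h.sw T p T w
    rw [← b2, b1, b3, b4]
  rw [f1 T T T _, f2, f2, e1, g1 v, g1 u]

end aux

theorem tA3a : S_A3a := by
  intro V _ _ B R Ro M t1 t2 β h
  refine ⟨?_, ?_⟩
  · intro a₀ b hb
    obtain ⟨T', hT'⟩ := h.ip.riesz (t2 a₀) (h.l2 a₀)
    have hne : T' ≠ 0 := by
      intro h0
      have h1 := hT' b
      rw [h0] at h1
      have h2 : B 0 b = 0 := l_zero (h.ip.lin b)
      exact hb (by rw [← h1, h2])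
    have hpos := h.ip.pos T' hne
    have hq := hT' T'
    have hqne : B T' T' ≠ 0 := hpos.ne'
    have hB : ∀ v, B ((B T' T')⁻¹ • T') v = (B T' T')⁻¹ * t2 a₀ v := by
      intro v
      have := (h.ip.lin v).smul (B T' T')⁻¹ T'
      rw [this, hT' v]
    have hone : t2 a₀ ((B T' T')⁻¹ • T') = 1 := by
      rw [(h.l2 a₀).smul, ← hq]
      exact inv_mul_cancel₀ hqne
    refine ⟨(B T' T')⁻¹ • T', hone, ?_⟩
    intro v
    rw [hB v, hB _, hone, mul_one]
  · intro a₀ T hT
    have hτ : Lin1 (t2 a₀) := h.l2 a₀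
    have hT1 : t2 a₀ T = 1 := hT.one
    have h0 : ∀ c d w z, t2 a₀ c = 0 → t2 a₀ d = 0 → R c d w z = 0 := by
      intro c d w z hc hd
      have := h.ii a₀ T c d w z
      rw [hT1, hc, hd] at this
      linarith
    have h4 : ∀ X c d w z, t2 a₀ c = 0 → t2 a₀ d = 0 →
        M X c d w z = β X a₀ c * R T d w z - β X a₀ d * R T c w z := by
      intro X c d w z hc hd
      have h1 := h.ii' X a₀ T c d w z
      have h2 := h.cR.a12 T d w z
      rw [hT1, hc, hd, h0 c d w z hc hd, h2] at h1
      linarith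
    refine ⟨?_, h0, ?_, h4, ?_⟩
    · apply h.ip.pos
      intro hz
      rw [hz, l_zero hτ] at hT1
      exact zero_ne_one hT1
    · intro hH a a' b b' c c' d d'
      have hk : ∀ x y : V, t2 a₀ (t2 a₀ x • y - t2 a₀ y • x) = 0 := by
        intro x y
        rw [l_sub hτ, hτ.smul, hτ.smul]; ring
      rw [redH h.cR hτ hT1 h0 a a' b b', redH h.cR hτ hT1 h0 c c' d d',
        redH h.cR hτ hT1 h0 a a' d d', redH h.cR hτ hT1 h0 c c' b b']
      exact hH _ _ _ _ (hk _ _) (hk _ _) (hk _ _) (hk _ _)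
    · intro X c d e f hc hd he hf
      rw [h4 X c d e f hc hd, ← h.cR.sw T d e f, ← h.cR.sw T c e f, h0 e f T d he hf,
        h0 e f T c he hf]
      ring

end

end Pool.Agent.Lib.MP_9d59e9_gt.KO
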