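import Pool.Agent.Lib.MP_9d59e9_gt.KO.Spec

set_option autoImplicit false

namespace Pool.Agent.Lib.MP_9d59e9_gt.KO

section
variable {V : Type} [AddCommGroup V] [Module ℝ V]

private theorem A3b_z1 {R : V → V → V → V → ℝ} (cR : Crvt R) (d e f : V) : R 0 d e f = 0 := by
  have h := (cR.lin d e f).smul 0 0
  simpa using h

private theorem A3b_z2 {R : V → V → V → V → ℝ} (cR : Crvt R) (c e f : V) : R c 0 e f = 0 := by
  have h := cR.a12 0 c e f
  rw [A3b_z1 cR] at h
  linarith

private theorem A3b_z3 {R : V → V → V → V → ℝ} (cR : Crvt R) (c d f : V) : R c d 0 f = 0 := by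
  have h := cR.sw c d 0 f
  rw [A3b_z1 cR] at h
  linarith

private theorem A3b_z4 {R : V → V → V → V → ℝ} (cR : Crvt R) (c d e : V) : R c d e 0 = 0 := by
  have h := cR.a34 c d 0 e
  rw [A3b_z3 cR] at h
  linarith

/-- linear in the fourth slot -/
private theorem A3b_l4 {R : V → V → V → V → ℝ} (cR : Crvt R) (a b c v T : V) (s : ℝ) :
    R a b c (v - s • T) = R a b c v - s * R a b c T := by
  have key : ∀ d, R a b c d = -R d c a b := by
    intro d
    have h1 := cR.sw a b c d
    have h2 := cR.a12 c d a b
    linarith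
  have h3 : R (v - s • T) c a b = R v c a b - s * R T c a b := by
    have e1 := (cR.lin c a b).add v ((-s) • T)
    have e2 := (cR.lin c a b).smul (-s) T
    rw [e2] at e1
    have e3 : v - s • T = v + (-s) • T := by rw [neg_smul, sub_eq_add_neg]
    rw [e3, e1]; ring
  rw [key, key v, key T, h3]; ring

end

theorem tA3b (hLemL : S_LemL) (hA3a : S_A3a) : S_A3b := by
  intro V _ _ B R Ro M t1 t2 β H a₀ T HT hrk
  obtain ⟨-, hA⟩ := hA3a V B R Ro M t1 t2 β H
  obtain ⟨hTT, h1, -, h4, -⟩ := hA a₀ T HT
  have cR := H.cR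
  have hsym : ∀ a b, R T a T b = R T b T a := fun a b => cR.sw T b T a
  have hL : ∀ v : V → ℝ, (∀ c d z, t2 a₀ c = 0 → t2 a₀ d = 0 → t2 a₀ z = 0 →
      v c * R T d T z = v d * R T c T z) → ∀ c, t2 a₀ c = 0 → v c = 0 := by
    intro v hv
    refine hLemL V (fun x => t2 a₀ x = 0) (fun a b => R T a T b) v hsym ?_ hv
    obtain ⟨a, b, c, d, ha, hb, hc, hd, hne⟩ := hrk
    exact ⟨a, b, c, d, ha, hb, hc, hd, hne⟩
  -- step 1
  have s1 : ∀ a b, t2 a₀ b = 0 → t2 a b = 0 := by
    intro a
    apply hL
    intro c d z hc hd hz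
    have e := H.ii a c d T T z
    rw [h1 c d T z hc hd] at e
    have e2 := cR.a12 T d T z
    rw [e2] at e
    linarith
  have hzero : ∀ u : V, B u u = 0 → u = 0 := by
    intro u hu
    by_contra hne
    have := H.ip.pos u hne
    linarith
  constructor
  · -- step 2
    intro x y c hx hy hc
    have hRo : ∀ v, Ro x y v = 0 := by
      intro v
      apply hzero
      rw [H.op, h1 x y _ _ hx hy]
    have hq : ∀ c d e f, t1 x * M y c d e f = t1 y * M x c d e f := by
      intro c d e f
      have e1 := H.qr x y c d e f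
      unfold act4 at e1
      rw [hRo, hRo, hRo, hRo, A3b_z1 cR, A3b_z2 cR, A3b_z3 cR, A3b_z4 cR,
        s1 x y hy, s1 y x hx] at e1
      linarith
    have hv := hL (fun c => t1 x * β y a₀ c - t1 y * β x a₀ c) (by
      intro c d z hc hd hz
      have e1 := hq c d T z
      rw [h4 y c d T z hc hd, h4 x c d T z hc hd] at e1
      linarith) c hc
    linarith
  · -- step 3
    intro x c hx hc
    have hB : B T T ≠ 0 := hTT.ne'
    have hRo : ∀ c, t2 a₀ c = 0 → Ro x T c = (R T x T c / B T T) • T := by
      intro c hc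
      have hall : ∀ v, B (Ro x T c - (R T x T c / B T T) • T) v = 0 := by
        intro v
        have e1 := (H.ip.lin v).add (Ro x T c) ((-(R T x T c / B T T)) • T)
        have e2 := (H.ip.lin v).smul (-(R T x T c / B T T)) T
        rw [e2] at e1
        have e3 : Ro x T c - (R T x T c / B T T) • T
            = Ro x T c + (-(R T x T c / B T T)) • T := by rw [neg_smul, sub_eq_add_neg]
        rw [e3, e1, H.op, HT.dual v]
        -- R x T c v = H(x,c) τ(v)
        have hv' : t2 a₀ (v - t2 a₀ v • T) = 0 := by
          have f1 := (H.l2 a₀).add v ((-(t2 a₀ v)) • T)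
          have f2 := (H.l2 a₀).smul (-(t2 a₀ v)) T
          rw [f2, HT.one] at f1
          have f3 : v - t2 a₀ v • T = v + (-(t2 a₀ v)) • T := by rw [neg_smul, sub_eq_add_neg]
          rw [f3, f1]; ring
        have g1 : R x T c (v - t2 a₀ v • T) = 0 := by
          have := cR.sw x T c (v - t2 a₀ v • T)
          rw [h1 c _ x T hc hv'] at this
          exact this.symm
        rw [A3b_l4 cR] at g1
        have g2 : R x T c T = R T x T c := by
          have a1 := cR.a12 T x c T
          have a2 := cR.a34 T x T c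
          linarith
        rw [g2] at g1
        have g3 : R x T c v = t2 a₀ v * R T x T c := by linarith
        rw [g3]
        field_simp
        ring
      have h0 := hzero _ (hall (Ro x T c - (R T x T c / B T T) • T))
      exact sub_eq_zero.mp h0
    have hv := hL (fun c => R T x T c / B T T - t1 x * β T a₀ c + t1 T * β x a₀ c) (by
      intro c d z hc hd hz
      have e1 := H.qr x T c d T z
      unfold act4 at e1
      rw [hRo c hc, hRo d hd, h1 c d _ z hc hd, h1 c d T _ hc hd, h1 c d T z hc hd,
        h4 T c d T z hc hd, h4 x c d T z hc hd] at e1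
      have e2 := (cR.lin d T z).smul (R T x T c / B T T) T
      have e3 := (cR.lin c T z).smul (R T x T d / B T T) T
      have e4 := cR.a12 ((R T x T d / B T T) • T) c T z
      rw [e2, e4, e3] at e1
      linarith) c hc
    have : R T x T c / B T T = t1 x * β T a₀ c - t1 T * β x a₀ c := by linarith
    field_simp at this
    linarith

end Pool.Agent.Lib.MP_9d59e9_gt.KO
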