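import Pool.Agent.Lib.MP_9d59e9_gt.KO.Spec

/-!
# MP_9d59e9_gt, project KO: part A4
-/

set_option autoImplicit false

namespace Pool.Agent.Lib.MP_9d59e9_gt.KO

theorem tA4 : S_A4 := by
  intro ι R M hRs hMs ro ro' no A B C D
  by_cases h : ∀ E, R E E = 0
  · have hR : ∀ A B, R A B = 0 := by
      intro A B
      have h1 := ro A B B A
      rw [hRs B A, h A, zero_mul] at h1
      exact mul_self_eq_zero.mp h1
    rw [hR, hR, mul_zero, mul_zero]
  · push Not at h
    obtain ⟨E, hE⟩ := h
    have hs : ∀ A, R E E * M A E = M E E * R A E := by
      intro A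
      have h1 := ro A A E E
      have h2 := ro' A A E E
      have h3 := no A A E E
      rw [hRs E A] at h1 h2
      rw [hMs E A] at h2 h3
      have h4 : (R E E * M A E - M E E * R A E) ^ 2 = 0 := by
        linear_combination (- (R E E) ^ 2) * h3 + (R E E * M E E) * h2 - (M E E) ^ 2 * h1
      have h5 := pow_eq_zero_iff (two_ne_zero) |>.mp h4
      linarith
    have key : ∀ A B, R E E * M A B = M E E * R A B := by
      intro A B
      have h1 := ro A B E E
      have h2 := ro' A B E E
      rw [hRs E B] at h1 h2
      rw [hMs E B] at h2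
      have hA := hs A
      have hB := hs B
      have h4 : R E E * (R E E * M A B - M E E * R A B) = 0 := by
        linear_combination (R E E) * h2 + (R B E) * hA + (R A E) * hB - 2 * (M E E) * h1
      rcases mul_eq_zero.mp h4 with h5 | h5
      · exact absurd h5 hE
      · linarith
    have k1 := key A B
    have k2 := key C D
    have h6 : R E E * (M A B * R C D - M C D * R A B) = 0 := by
      linear_combination (R C D) * k1 - (R A B) * k2
    rcases mul_eq_zero.mp h6 with h7 | h7
    · exact absurd h7 hE
    · linarith

end Pool.Agent.Lib.MP_9d59e9_gt.KO
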