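import Pool.Agent.Lib.MP_9d59e9_gt.KO.Spec

/-!
# MP_9d59e9_gt, project KO: the algebraic part of the case `t₂ = 0`
-/

set_option autoImplicit false

namespace Pool.Agent.Lib.MP_9d59e9_gt.KO

noncomputable section

private theorem Lin1.zero' {V : Type} [AddCommGroup V] [Module ℝ V] {f : V → ℝ} (h : Lin1 f) :
    f 0 = 0 := by
  have := h.smul 0 0
  simpa using this

private theorem Lin1.sub' {V : Type} [AddCommGroup V] [Module ℝ V] {f : V → ℝ} (h : Lin1 f)
    (a b : V) : f (a - b) = f a - f b := by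
  have h1 := h.add a ((-1 : ℝ) • b)
  have h2 := h.smul (-1) b
  have h3 : a - b = a + (-1 : ℝ) • b := by simp [sub_eq_add_neg]
  rw [h3, h1, h2]; ring

theorem tA5 (hA5a : S_A5a) (hA5b : S_A5b) (hA5k : S_A5k) : S_A5 := by
  intro V _ _ B M Mo k h
  have hip := h.ip
  have hM := h.cM
  have l1 : ∀ b c d e, Lin1 fun a => M a b c d e := hM.lin
  have l2 : ∀ z c d e, Lin1 fun b => M z b c d e := fun z c d e => (hM.cur z).lin c d e
  have a12 : ∀ z a b c d, M z b a c d = -M z a b c d := fun z => (hM.cur z).a12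
  have a34 : ∀ z a b c d, M z a b d c = -M z a b c d := fun z => (hM.cur z).a34
  have sw : ∀ z a b c d, M z c d a b = M z a b c d := fun z => (hM.cur z).sw
  have bi : ∀ z a b c d, M z a b c d + M z b c a d + M z c a b d = 0 := fun z => (hM.cur z).bi
  -- the two subspaces
  let K₀ : Submodule ℝ V :=
    { carrier := {a | ∀ c d e f, M a c d e f = 0}
      zero_mem' := fun c d e f => (l1 c d e f).zero'
      add_mem' := by
        intro a b ha hb c d e f
        have := (l1 c d e f).add a b
        rw [this, ha c d e f, hb c d e f, add_zero]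
      smul_mem' := by
        intro r a ha c d e f
        have := (l1 c d e f).smul r a
        rw [this, ha c d e f, mul_zero] }
  have hK : ∀ a, a ∈ K₀ ↔ ∀ c d e f, M a c d e f = 0 := fun a => Iff.rfl
  let E : Submodule ℝ V :=
    { carrier := {e | ∀ a, (∀ c d e f, M a c d e f = 0) → B e a = 0}
      zero_mem' := fun a _ => (hip.lin a).zero'
      add_mem' := by
        intro x y hx hy a ha
        have := (hip.lin a).add x y
        rw [this, hx a ha, hy a ha, add_zero]
      smul_mem' := by
        intro r x hx a ha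
        have := (hip.lin a).smul r x
        rw [this, hx a ha, mul_zero] }
  have hEm : ∀ e, e ∈ E ↔ ∀ a, (∀ c d e f, M a c d e f = 0) → B e a = 0 := fun e => Iff.rfl
  have hdec : ∀ v, ∃ u e, v = u + e ∧ u ∈ K₀ ∧ e ∈ E := by
    intro v
    obtain ⟨u, hu, hv⟩ := h.ort K₀ v
    exact ⟨u, v - u, by abel, hu, fun a ha => hv a ha⟩
  -- the main claim
  have hE : ∀ z ∈ E, ∀ x ∈ E, ∀ y ∈ E, ∀ w ∈ E, ∀ v ∈ E, M z x y w v = 0 := by
    by_cases hc : ∀ x ∈ E, ∃ y ∈ E, y ≠ 0 ∧ B x y = 0
    · have hb : ∀ w ∈ E, ∀ z ∈ E, ∀ x ∈ E, ∀ y ∈ E,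
          Mo z x y w + Mo w x y z = k w z x • y - k w z y • x := by
        intro w hw z hz x hx y hy
        exact hA5b V B M Mo k h w z x y hw hz hx hy
      have hk : ∀ w ∈ E, ∀ z ∈ E, ∀ x ∈ E, k w z x = 0 := by
        refine hA5k V B k E hip h.k1 h.k2 h.k3 h.ks ?_ ?_ hc
        · intro w hw z hz x hx y hy
          rw [← hb w hw z hz x hx y hy, ← hb z hz w hw x hx y hy, add_comm]
        · intro z hz x hx y hy
          have h1 := hb z hz z hz x hx y hy
          have h2 : M z x y z z = 0 := by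
            have := a34 z x y z z
            linarith
          have h3 : B (Mo z x y z) z = 0 := by rw [h.op]; exact h2
          have h4 := congrArg (fun u => B u z) h1
          have h5 := (hip.lin z).add (Mo z x y z) (Mo z x y z)
          have h6 := (hip.lin z).sub' (k z z x • y) (k z z y • x)
          have h7 := (hip.lin z).smul (k z z x) y
          have h8 := (hip.lin z).smul (k z z y) x
          rw [h5, h6, h7, h8, h3] at h4
          linarith
      have hA : ∀ z ∈ E, ∀ x ∈ E, ∀ y ∈ E, ∀ w ∈ E, ∀ v, M z x y w v = -M w x y z v := by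
        intro z hz x hx y hy w hw v
        have h1 := hb w hw z hz x hx y hy
        rw [hk w hw z hz x hx, hk w hw z hz y hy, zero_smul, zero_smul, sub_zero] at h1
        have h2 := (hip.lin v).add (Mo z x y w) (Mo w x y z)
        rw [h1, (hip.lin v).zero', h.op, h.op] at h2
        linarith
      have hA' : ∀ z ∈ E, ∀ x ∈ E, ∀ y ∈ E, ∀ w ∈ E, ∀ v ∈ E, M z x y w v = -M x z y w v := by
        intro z hz x hx y hy w hw v hv
        rw [← sw z x y w v, hA z hz w hw v hv x hx y, sw x z y w v]
      have hC : ∀ z ∈ E, ∀ x ∈ E, ∀ y ∈ E, ∀ w ∈ E, ∀ v ∈ E, M z x y w v = -M z w y x v := by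
        intro z hz x hx y hy w hw v hv
        have e1' := hA z hz x hx y hy w hw v
        have e2' := hA' w hw x hx y hy z hz v hv
        have e3' := hA x hx w hw y hy z hz v
        linarith
      intro z hz x hx y hy w hw v hv
      have c1 := hC z hz x hx y hy w hw v hv
      have b1 := bi z x y w v
      have a1 := a12 z w y x v
      have c2 := hC z hz w hw x hx y hy v hv
      have a2 := a12 z x y w v
      linarith
    · push Not at hc
      obtain ⟨x₀, hx₀, hB⟩ := hc
      have hB' : ∀ y ∈ E, B x₀ y = 0 → y = 0 := by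
        intro y hy h0
        by_contra hne
        exact hB y hy hne h0
      have hmul : ∀ y ∈ E, ∃ c : ℝ, y = c • x₀ := by
        intro y hy
        by_cases h0 : x₀ = 0
        · refine ⟨0, ?_⟩
          rw [zero_smul]
          apply hB' y hy
          rw [h0]
          exact (hip.lin y).zero'
        · have hpos := hip.pos x₀ h0
          refine ⟨B x₀ y / B x₀ x₀, ?_⟩
          have hmem : y - (B x₀ y / B x₀ x₀) • x₀ ∈ E := E.sub_mem hy (E.smul_mem _ hx₀)
          have h1 : B x₀ (y - (B x₀ y / B x₀ x₀) • x₀) = 0 := by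
            have h2 := (hip.lin x₀).sub' y ((B x₀ y / B x₀ x₀) • x₀)
            have h3 := (hip.lin x₀).smul (B x₀ y / B x₀ x₀) x₀
            rw [hip.symm, h2, h3, hip.symm y x₀]
            field_simp
            ring
          exact sub_eq_zero.mp (hB' _ hmem h1)
      intro z _ x hx y hy w _ v _
      obtain ⟨c, rfl⟩ := hmul x hx
      obtain ⟨d, rfl⟩ := hmul y hy
      have h1 := (l2 z (d • x₀) w v).smul c x₀
      have h2 := a12 z (d • x₀) x₀ w v
      have h3 := (l2 z x₀ w v).smul d x₀
      have h4 := a12 z x₀ x₀ w v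
      have h5 : M z x₀ x₀ w v = 0 := by linarith
      rw [h1, h2, h3, h5]
      ring
  -- reduction to `E`
  have s1 : ∀ u ∈ K₀, ∀ a x y w v, M (u + a) x y w v = M a x y w v := by
    intro u hu a x y w v
    have := (l1 x y w v).add u a
    rw [this, hu x y w v, zero_add]
  have s2 : ∀ u ∈ K₀, ∀ z a y w v, M z (u + a) y w v = M z a y w v := by
    intro u hu z a y w v
    have := (l2 z y w v).add u a
    rw [this, (hA5a V B M Mo k h u hu z y w v).1, zero_add]
  have s3 : ∀ u ∈ K₀, ∀ z x a w v, M z x (u + a) w v = M z x a w v := by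
    intro u hu z x a w v
    rw [a12 z (u + a) x w v, s2 u hu z a x w v, a12 z x a w v, neg_neg]
  have s4 : ∀ u ∈ K₀, ∀ z x y a v, M z x y (u + a) v = M z x y a v := by
    intro u hu z x y a v
    rw [← sw z x y (u + a) v, s2 u hu z a v x y, sw z x y a v]
  have s5 : ∀ u ∈ K₀, ∀ z x y w a, M z x y w (u + a) = M z x y w a := by
    intro u hu z x y w a
    rw [a34 z x y (u + a) w, s4 u hu z x y a w, a34 z x y w a, neg_neg]
  intro a b c d e
  obtain ⟨u1, a', rfl, hu1, ha'⟩ := hdec a
  obtain ⟨u2, b', rfl, hu2, hb'⟩ := hdec b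
  obtain ⟨u3, c', rfl, hu3, hc'⟩ := hdec c
  obtain ⟨u4, d', rfl, hu4, hd'⟩ := hdec d
  obtain ⟨u5, e', rfl, hu5, he'⟩ := hdec e
  rw [s1 u1 hu1, s2 u2 hu2, s3 u3 hu3, s4 u4 hu4, s5 u5 hu5]
  exact hE a' ha' b' hb' c' hc' d' hd' e' he'

end

end Pool.Agent.Lib.MP_9d59e9_gt.KO
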