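import Pool.Agent.Lib.MP_9d59e9_gt.KO.Spec

/-!
# MP_9d59e9_gt, KO/A5a: the kernel of `a ↦ M_a`
-/

set_option autoImplicit false

namespace Pool.Agent.Lib.MP_9d59e9_gt.KO

theorem tA5a : S_A5a := by
  intro V _ _ B M Mo k H a ha z x y w
  have hcur := fun z => H.cM.cur z
  -- the kernel as a submodule
  let K : Submodule ℝ V :=
    { carrier := {a | ∀ c d e f, M a c d e f = 0}
      add_mem' := by
        intro a b ha hb c d e f
        rw [(H.cM.lin c d e f).add, ha, hb, add_zero]
      zero_mem' := by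
        intro c d e f
        have h := (H.cM.lin c d e f).smul 0 0
        simpa using h
      smul_mem' := by
        intro r a ha c d e f
        rw [(H.cM.lin c d e f).smul, ha, mul_zero] }
  have hK : ∀ b, b ∈ K ↔ ∀ c d e f, M b c d e f = 0 := fun b => Iff.rfl
  -- (1)
  have h1 : ∀ a, (∀ c d e f, M a c d e f = 0) → ∀ z x y, ∀ c d e f, M (Mo z x y a) c d e f = 0 := by
    intro a ha z x y c d e f
    have h := H.pr z x y a c d e f
    unfold act5 at h
    rw [ha, ha, ha, ha] at h
    linarith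
  -- (2)
  have h2 : ∀ a, (∀ c d e f, M a c d e f = 0) → ∀ e, (∀ b ∈ K, B e b = 0) → ∀ z x y,
      M z a e x y = 0 := by
    intro a ha e he z x y
    rw [← (hcur z).sw, ← H.op, H.ip.symm]
    exact he _ (h1 a ha z x y)
  -- (3)
  have h3 : ∀ a b, (∀ c d e f, M a c d e f = 0) → (∀ c d e f, M b c d e f = 0) → ∀ z x y,
      M z a b x y = 0 := by
    intro a b ha hb z x y
    have h := H.cM.bi2 z a b x y
    rw [ha, hb] at h
    linarith
  -- (4)
  have h4 : ∀ z v x y, M z v a x y = 0 := by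
    intro z v x y
    obtain ⟨u, hu, hv⟩ := H.ort K v
    have e1 : v = u + (v - u) := by abel
    rw [e1, ((hcur z).lin a x y).add, (hcur z).a12 a u, (hcur z).a12 a (v - u),
      h3 a u ha ((hK u).1 hu), h2 a ha (v - u) hv]
    simp
  have h5 : ∀ z v x y, M z a v x y = 0 := by
    intro z v x y
    rw [(hcur z).a12 v a, h4, neg_zero]
  refine ⟨h5 z x y w, h4 z x y w, ?_, ?_⟩
  · rw [← (hcur z).sw]; exact h5 z w x y
  · rw [← (hcur z).sw]; exact h4 z w x y

end Pool.Agent.Lib.MP_9d59e9_gt.KO
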