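import Pool.Agent.Lib.MP_9d59e9_gt.KO.Spec

/-!
# MP_9d59e9_gt, project KO: the vector identity on `E`
-/

set_option autoImplicit false

namespace Pool.Agent.Lib.MP_9d59e9_gt.KO

noncomputable section

private theorem lin_comb {V : Type} [AddCommGroup V] [Module ℝ V] {f : V → ℝ} (h : Lin1 f)
    (a b x y : V) (r s : ℝ) :
    f (a + b - (r • y - s • x)) = f a + f b - (r * f y - s * f x) := by
  have h1 : a + b - (r • y - s • x) = a + b + ((-r) • y + s • x) := by
    rw [neg_smul]
    abel
  rw [h1, h.add, h.add, h.add, h.smul, h.smul]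
  ring

theorem tA5b (hA5a : S_A5a) : S_A5b := by
  intro V _ _ B M Mo k h w z x y hw hz hx hy
  set q : V := Mo z x y w + Mo w x y z - (k w z x • y - k w z y • x) with hq
  have hMq : ∀ c d e f, M q c d e f = 0 := by
    intro c d e f
    rw [hq, lin_comb (h.cM.lin c d e f), h.d2]
    ring
  have hBq : ∀ a, (∀ c d e f, M a c d e f = 0) → B q a = 0 := by
    intro a ha
    have h1 := hA5a V B M Mo k h a ha
    rw [hq, lin_comb (h.ip.lin a), h.op, h.op, (h1 z x y w).2.2.2, (h1 w x y z).2.2.2, hx a ha,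
      hy a ha]
    ring
  have h0 : B q q = 0 := hBq q hMq
  have h2 : q = 0 := by
    by_contra hne
    exact (h.ip.pos q hne).ne' h0
  exact sub_eq_zero.1 h2

end

end Pool.Agent.Lib.MP_9d59e9_gt.KO
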