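import Pool.Agent.Lib.MP_9d59e9_gt.KO.Spec

/-!
# MP_9d59e9_gt, project KO: vanishing of a trilinear form
-/

set_option autoImplicit false

namespace Pool.Agent.Lib.MP_9d59e9_gt.KO

noncomputable section

theorem tA5k : S_A5k := by
  intro V _ _ B k P hip l1 l2 l3 ks h1 h2 h3
  have A1 : ∀ a b z x, k (a + b) z x = k a z x + k b z x := fun a b z x => (l1 z x).add a b
  have A2 : ∀ w a b x, k w (a + b) x = k w a x + k w b x := fun w a b x => (l2 w x).add a b
  have A3 : ∀ w z a b, k w z (a + b) = k w z a + k w z b := fun w z a b => (l3 w z).add a b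
  have S1 : ∀ (r : ℝ) a z x, k (r • a) z x = r * k a z x := fun r a z x => (l1 z x).smul r a
  have S2 : ∀ (r : ℝ) w a x, k w (r • a) x = r * k w a x := fun r w a x => (l2 w x).smul r a
  have S3 : ∀ (r : ℝ) w z a, k w z (r • a) = r * k w z a := fun r w z a => (l3 w z).smul r a
  have BA : ∀ a b c, B (a + b) c = B a c + B b c := fun a b c => (hip.lin c).add a b
  have BS : ∀ (r : ℝ) a c, B (r • a) c = r * B a c := fun r a c => (hip.lin c).smul r a
  have Bsub : ∀ a b c, B (a - b) c = B a c - B b c := by
    intro a b c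
    have h : a - b = a + (-1 : ℝ) • b := by simp [sub_eq_add_neg]
    rw [h, BA, BS]; ring
  -- (a) symmetry in the first two slots
  have sy : ∀ w ∈ P, ∀ z ∈ P, ∀ x ∈ P, k w z x = k z w x := by
    intro w hw z hz x hx
    obtain ⟨y, hy, hy0, hxy⟩ := h3 x hx
    have e := congrArg (fun u => B u y) (h1 w hw z hz x hx y hy)
    have e' : B (k w z x • y - k w z y • x) y = B (k z w x • y - k z w y • x) y := e
    rw [Bsub, Bsub, BS, BS, BS, BS, hxy, mul_zero, mul_zero, sub_zero, sub_zero] at e'
    exact mul_right_cancel₀ (ne_of_gt (hip.pos y hy0)) e'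
  -- (b)
  have hb : ∀ z ∈ P, ∀ x ∈ P, B x z = 0 → k z z x = 0 := by
    intro z hz x hx hxz
    by_cases h0 : z = 0
    · subst h0
      have := S1 0 0 0 x
      simpa using this
    · have e := h2 z hz x hx z hz
      rw [hxz, mul_zero] at e
      rcases mul_eq_zero.mp e with e | e
      · exact e
      · exact absurd e (ne_of_gt (hip.pos z h0))
  -- (c)
  have hc : ∀ z ∈ P, k z z z = 0 := by
    intro z hz
    obtain ⟨y, hy, hy0, hzy⟩ := h3 z hz
    have hyz : B y z = 0 := by rw [hip.symm]; exact hzy
    have hβ := hip.pos y hy0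
    have k1 : k z z y = 0 := hb z hz y hy hyz
    have k2 : k y y z = 0 := hb y hy z hz hzy
    have k3 : k z y z = 0 := by rw [ks]; exact k1
    have k4 : k y z z = 0 := by rw [sy y hy z hz z hz]; exact k3
    have k5 : k y z y = 0 := by rw [ks]; exact k2
    have k6 : k z y y = 0 := by rw [sy z hz y hy y hy]; exact k5
    have main : ∀ s : ℝ, s * B y y * k z z z - B z z * s ^ 2 * k y y y = 0 := by
      intro s
      have hZ : z + s • y ∈ P := P.add_mem hz (P.smul_mem _ hy)
      have hX : (s * B y y) • z + (-(B z z)) • y ∈ P :=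
        P.add_mem (P.smul_mem _ hz) (P.smul_mem _ hy)
      have hor : B ((s * B y y) • z + (-(B z z)) • y) (z + s • y) = 0 := by
        rw [BA, BS, BS, hip.symm z (z + s • y), hip.symm y (z + s • y), BA, BA, BS, BS, hzy, hyz]
        ring
      have e := hb _ hZ _ hX hor
      simp only [A1, A2, A3, S1, S2, S3] at e
      rw [k1, k2, k3, k4, k5, k6] at e
      linarith
    have m1 := main 1
    have m2 := main (-1)
    have m3 : B y y * k z z z = 0 := by linarith
    rcases mul_eq_zero.mp m3 with e | e
    · exact absurd e (ne_of_gt hβ)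
    · exact e
  -- (d) polarisation
  have hd : ∀ x ∈ P, ∀ y ∈ P, k x x y = 0 := by
    intro x hx y hy
    have e1 := hc (x + y) (P.add_mem hx hy)
    have e2 := hc (x + (-1 : ℝ) • y) (P.add_mem hx (P.smul_mem _ hy))
    have ex := hc x hx
    have ey := hc y hy
    have t1 : k x y x = k x x y := ks x y x
    have t2 : k y x x = k x x y := by rw [sy y hy x hx x hx, t1]
    have t3 : k y x y = k x y y := sy y hy x hx y hy
    have t4 : k y y x = k x y y := by rw [ks y y x, t3]
    simp only [A1, A2, A3, S1, S2, S3] at e1 e2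
    rw [ex, ey, t1, t2, t3, t4] at e1 e2
    linarith
  intro w hw z hz x hx
  have e1 := hd (w + z) (P.add_mem hw hz) x hx
  simp only [A1, A2] at e1
  rw [hd w hw x hx, hd z hz x hx, sy z hz w hw x hx] at e1
  linarith

end

end Pool.Agent.Lib.MP_9d59e9_gt.KO
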