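import Pool.Agent.Lib.MP_9d59e9_gt.KO.Spec

/-!
# KO/Bi2: second Bianchi identity and the symmetries of the covariant derivative of the curvature
-/

set_option autoImplicit false

namespace Pool.Agent.Lib.MP_9d59e9_gt.KO

open scoped BigOperators ContDiff
open Set

noncomputable section

variable {n : ℕ}

/-- the parallel curve of vectors -/
private def par (g : Pt n → Matrix (Fin n) (Fin n) ℝ) (p X v₀ : Pt n) : ℝ → Pt n :=
  fun t => v₀ - t • Chr g p X v₀

private theorem par_cv (hCvb : S_Cvb) (g : Pt n → Matrix (Fin n) (Fin n) ℝ) (p X v₀ : Pt n) :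
    Cv g p X (par g p X v₀) v₀ 0 := (hCvb n g p X).1 v₀

/-- the points of the curve are in `Ω` for small `t` -/
private theorem ev_mem {Ω : Set (Pt n)} (hΩ : IsOpen Ω) {p : Pt n} (hp : p ∈ Ω) (X : Pt n) :
    ∀ᶠ t : ℝ in nhds 0, p + t • X ∈ Ω := by
  have hc : ContinuousAt (fun t : ℝ => p + t • X) 0 := by fun_prop
  refine hc.eventually_mem ?_
  rw [zero_smul, add_zero]
  exact hΩ.mem_nhds hp

private theorem Lin1.zero {V : Type} [AddCommGroup V] [Module ℝ V] {f : V → ℝ} (h : Lin1 f) :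
    f 0 = 0 := by
  have := h.smul 0 0
  rwa [zero_smul, zero_mul] at this

/-- the derivative of the curvature along parallel curves -/
private theorem par4 (hLin : S_Lin) (hCvE : S_CvE) (hCvb : S_Cvb) (hSmo : S_Smo)
    {g : Pt n → Matrix (Fin n) (Fin n) ℝ} {Ω : Set (Pt n)} (hg : IsMetricOn g Ω) {p : Pt n}
    (hp : p ∈ Ω) (X a b c d : Pt n) :
    HasDerivAt (fun t : ℝ => e4 (R4 g) (p + t • X) (par g p X a t) (par g p X b t)
      (par g p X c t) (par g p X d t)) (e5 (N g) p X a b c d) 0 := by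
  have hsm : Sm Ω (R4 g) := (hSmo n g Ω hg).2.2.2.2.2.1
  have h := (hCvE n g Ω hg.isOpen p hp X).2.2.1 (R4 g) hsm _ a 0 _ b 0 _ c 0 _ d 0
    (par_cv hCvb g p X a) (par_cv hCvb g p X b) (par_cv hCvb g p X c) (par_cv hCvb g p X d)
  obtain ⟨l4, l3, l2, l1⟩ := (hLin n p).2.2.2.2.2.2.1 (R4 g)
  rw [(l1 b c d).zero, (l2 a c d).zero, (l3 a b d).zero, (l4 a b c).zero] at h
  simpa only [add_zero, N] using h

theorem tBi2 (hCrv : S_Crv) (hRic : S_Ric) (hSym : S_Sym) (hCvE : S_CvE) (hCvb : S_Cvb)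
    (hCvR : S_CvR) (hLin : S_Lin) (hSmo : S_Smo) (hUp : S_Up) (hOpn : S_Opn) : S_Bi2 := by
  intro n g Ω hg p hp
  obtain ⟨-, -, -, hD, -, hR4, -⟩ := hSmo n g Ω hg
  have hpos := hg.pos p hp
  obtain ⟨l5, l4, l3, l2, l1⟩ := (hLin n p).2.2.2.2.2.2.2.1 (N g)
  have hcr : ∀ y ∈ Ω, Crvt (e4 (R4 g) y) := fun y hy => (hSym n g Ω hg y hy).1
  have hmem := fun X : Pt n => ev_mem hg.isOpen hp X
  have hpar := fun X a b c d : Pt n => par4 hLin hCvE hCvb hSmo hg hp X a b c d
  refine ⟨fun X => ⟨fun b c d => l2 X b c d, fun a b c d => ?_, fun a b c d => ?_,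
    fun a b c d => ?_, fun a b c d => ?_⟩, fun b c d e => l1 b c d e, fun X Y Z w z => ?_⟩
  · refine (hpar X b a c d).unique ((hpar X a b c d).neg.congr_of_eventuallyEq ?_)
    filter_upwards [hmem X] with t ht
    exact (hcr _ ht).a12 _ _ _ _
  · refine (hpar X a b d c).unique ((hpar X a b c d).neg.congr_of_eventuallyEq ?_)
    filter_upwards [hmem X] with t ht
    exact (hcr _ ht).a34 _ _ _ _
  · refine (hpar X c d a b).unique ((hpar X a b c d).congr_of_eventuallyEq ?_)
    filter_upwards [hmem X] with t ht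
    exact (hcr _ ht).sw _ _ _ _
  · have h0 : HasDerivAt (fun _ : ℝ => (0 : ℝ)) 0 0 := hasDerivAt_const 0 0
    refine (((hpar X a b c d).add (hpar X b c a d)).add (hpar X c a b d)).unique
      (h0.congr_of_eventuallyEq ?_)
    filter_upwards [hmem X] with t ht
    exact (hcr _ ht).bi _ _ _ _
  · -- second Bianchi identity
    set ξ : Fin n → ℝ := fun i => ∑ j, g p i j * z j with hξ
    set θ : TF n 1 := fun I _ => ξ (I 0) with hθ
    have hθs : Sm Ω θ := fun I => contDiffOn_const
    have hθ1 : Sm Ω (D g θ) := hD 1 θ hθs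
    have hθ2 : Sm Ω (D g (D g θ)) := hD 2 _ hθ1
    have hθe : ∀ y u, e1 θ y u = ∑ i, ξ i * u i := by
      intro y u
      unfold e1 ev
      rw [← (Equiv.funUnique (Fin 1) (Fin n)).symm.sum_comp]
      simp [hθ]
    have hθip : ∀ u, e1 θ p u = ip g p u z := by
      intro u
      rw [hθe, ip]
      refine Finset.sum_congr rfl fun i _ => ?_
      rw [hξ, Finset.sum_mul]
      exact Finset.sum_congr rfl fun j _ => by ring
    have ipadd : ∀ u v w : Pt n, ip g p (u + v) w = ip g p u w + ip g p v w := by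
      intro u v w
      simp only [ip, Pi.add_apply, add_mul, mul_add, Finset.sum_add_distrib]
    have ip0 : ∀ w : Pt n, ip g p 0 w = 0 := fun w => by simp [ip]
    -- (1)
    have h1 : ∀ X Y Z w : Pt n, e4 (D g (D g (D g θ))) p X Y Z w -
        e4 (D g (D g (D g θ))) p Y X Z w =
          -(e2 (D g θ) p (Rv g p X Y Z) w + e2 (D g θ) p Z (Rv g p X Y w)) := by
      intro X Y Z w
      have h := hRic n g Ω hg p hp 2 (D g θ) hθ1 X Y ![Z, w]
      have u0 : Function.update ![Z, w] (0 : Fin 2) (Rv g p X Y Z) = ![Rv g p X Y Z, w] := by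
        ext i; fin_cases i <;> rfl
      have u1 : Function.update ![Z, w] (1 : Fin 2) (Rv g p X Y w) = ![Z, Rv g p X Y w] := by
        ext i; fin_cases i <;> rfl
      rw [Fin.sum_univ_two] at h
      change ev (D g (D g (D g θ))) p ![X, Y, Z, w] - ev (D g (D g (D g θ))) p ![Y, X, Z, w] =
        -(ev (D g θ) p (Function.update ![Z, w] 0 (Rv g p X Y Z)) +
          ev (D g θ) p (Function.update ![Z, w] 1 (Rv g p X Y w))) at h
      rw [u0, u1] at h
      exact h
    -- (2)
    have h2 : ∀ X Y Z w : Pt n, e4 (D g (D g (D g θ))) p X Y Z w -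
        e4 (D g (D g (D g θ))) p X Z Y w =
          -(e2 (D g θ) p X (Rv g p Y Z w) + e1 θ p (Nv g p X Y Z w)) := by
      intro X Y Z w
      have h3 : ∀ y ∈ Ω, ∀ Y Z w : Pt n, e3 (D g (D g θ)) y Y Z w - e3 (D g (D g θ)) y Z Y w =
          -e1 θ y (Rv g y Y Z w) := by
        intro y hy Y Z w
        have h := hRic n g Ω hg y hy 1 θ hθs Y Z ![w]
        have u0 : Function.update ![w] (0 : Fin 1) (Rv g y Y Z w) = ![Rv g y Y Z w] := by
          ext i; fin_cases i; rfl
        rw [Fin.sum_univ_one] at h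
        change ev (D g (D g θ)) y ![Y, Z, w] - ev (D g (D g θ)) y ![Z, Y, w] =
          -(ev θ y (Function.update ![w] 0 (Rv g y Y Z w))) at h
        rw [u0] at h
        exact h
      have h4 : ∀ Y Z w : Pt n, HasDerivAt (fun t : ℝ => e3 (D g (D g θ)) (p + t • X)
          (par g p X Y t) (par g p X Z t) (par g p X w t))
          (e4 (D g (D g (D g θ))) p X Y Z w) 0 := by
        intro Y Z w
        have h := hCrv n g Ω hg.isOpen 3 (D g (D g θ)) hθ2 p hp X
          ![par g p X Y, par g p X Z, par g p X w] ![Y, Z, w] ![0, 0, 0] (by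
            intro j
            fin_cases j
            · exact par_cv hCvb g p X Y
            · exact par_cv hCvb g p X Z
            · exact par_cv hCvb g p X w)
        have hz : ∀ j : Fin 3, ev (D g (D g θ)) p
            (Function.update ![Y, Z, w] j ((![0, 0, 0] : Fin 3 → Pt n) j)) = 0 := by
          intro j
          have e : (![0, 0, 0] : Fin 3 → Pt n) j = 0 := by fin_cases j <;> rfl
          rw [e]
          exact ((hLin n p).1 3 (D g (D g θ)) ![Y, Z, w] j).zero
        rw [Finset.sum_eq_zero fun j _ => hz j, add_zero] at h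
        have hf : (fun t : ℝ => ev (D g (D g θ)) (p + t • X)
            (fun j => (![par g p X Y, par g p X Z, par g p X w] : Fin 3 → ℝ → Pt n) j t)) =
            fun t : ℝ => e3 (D g (D g θ)) (p + t • X) (par g p X Y t) (par g p X Z t)
              (par g p X w t) := by
          funext t
          unfold e3
          congr 1
          funext j
          fin_cases j <;> rfl
        rw [hf] at h
        exact h
      have hRv0 : Rv g p 0 Z w = 0 ∧ Rv g p Y 0 w = 0 ∧ Rv g p Y Z 0 = 0 := by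
        refine ⟨?_, ?_, ?_⟩ <;> · funext a; simp [Rv]
      have hcv := (hCvR n g Ω hg p hp X (par g p X 0) 0 0 (par g p X Y) Y 0 (par g p X Z) Z 0
        (par g p X w) w 0 (par_cv hCvb g p X 0) (par_cv hCvb g p X Y) (par_cv hCvb g p X Z)
        (par_cv hCvb g p X w)).1
      rw [hRv0.1, hRv0.2.1, hRv0.2.2] at hcv
      simp only [add_zero] at hcv
      have h5 := (hCvE n g Ω hg.isOpen p hp X).1 θ hθs _ _ _ hcv
      refine ((h4 Y Z w).sub (h4 Z Y w)).unique (h5.neg.congr_of_eventuallyEq ?_)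
      filter_upwards [hmem X] with t ht
      exact h3 _ ht _ _ _
    -- first Bianchi identity
    have hb : ∀ X Y Z : Pt n, Rv g p X Y Z + Rv g p Y Z X + Rv g p Z X Y = 0 := by
      intro X Y Z
      refine (hUp n g p hpos).2 _ _ fun w => ?_
      obtain ⟨hc, hiR, -⟩ := hSym n g Ω hg p hp
      rw [ipadd, ipadd, hiR, hiR, hiR, ip0]
      exact hc.bi X Y Z w
    have hlin2 : ∀ w, Lin1 fun a => e2 (D g θ) p a w :=
      ((hLin n p).2.2.2.2.1 (D g θ)).2
    have hb2 : e2 (D g θ) p (Rv g p X Y Z) w + e2 (D g θ) p (Rv g p Y Z X) w +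
        e2 (D g θ) p (Rv g p Z X Y) w = 0 := by
      rw [← (hlin2 w).add, ← (hlin2 w).add, hb]
      exact (hlin2 w).zero
    have key : e1 θ p (Nv g p X Y Z w) + e1 θ p (Nv g p Y Z X w) + e1 θ p (Nv g p Z X Y w) = 0 := by
      have a1 := h1 X Y Z w
      have a2 := h1 Y Z X w
      have a3 := h1 Z X Y w
      have b1 := h2 X Y Z w
      have b2 := h2 Y Z X w
      have b3 := h2 Z X Y w
      linarith
    rw [hθip, hθip, hθip] at key
    have ho := (hOpn n g p hpos).1
    rw [ho, ho, ho] at key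
    exact key

end

end Pool.Agent.Lib.MP_9d59e9_gt.KO
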