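import Pool.Agent.Lib.MP_9d59e9_gt.KO.Spec

/-!
# MP_9d59e9_gt, project KO: Bi3 (second Bianchi identity differentiated)
-/

set_option autoImplicit false

namespace Pool.Agent.Lib.MP_9d59e9_gt.KO

open scoped BigOperators ContDiff

noncomputable section

private lemma b3lin0 {V : Type} [AddCommGroup V] [Module ℝ V] {f : V → ℝ} (h : Lin1 f) :
    f 0 = 0 := by
  have := h.smul 0 0
  simpa using this

/-- the parallel curve -/
private def b3p {n : ℕ} (g : Pt n → Matrix (Fin n) (Fin n) ℝ) (p X v : Pt n) (t : ℝ) : Pt n :=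
  v - t • Chr g p X v

private lemma b3ev {n : ℕ} {Ω : Set (Pt n)} (hO : IsOpen Ω) {x : Pt n} (hx : x ∈ Ω) (X : Pt n) :
    ∀ᶠ t in nhds (0 : ℝ), x + t • X ∈ Ω := by
  have hc : ContinuousAt (fun t : ℝ => x + t • X) 0 := by fun_prop
  apply hc.eventually_mem
  simpa using hO.mem_nhds hx

private lemma b3der (hCvE : S_CvE) (hCvb : S_Cvb) (hLin : S_Lin) (hSmo : S_Smo) {n : ℕ}
    {g : Pt n → Matrix (Fin n) (Fin n) ℝ} {Ω : Set (Pt n)} (hg : IsMetricOn g Ω) {x : Pt n}
    (hx : x ∈ Ω) (X a b c d e : Pt n) :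
    HasDerivAt (fun t : ℝ => e5 (N g) (x + t • X) (b3p g x X a t) (b3p g x X b t)
      (b3p g x X c t) (b3p g x X d t) (b3p g x X e t)) (e6 (N2 g) x X a b c d e) 0 := by
  obtain ⟨_, _, _, _, _, _, hN, _⟩ := hSmo n g Ω hg
  obtain ⟨_, _, _, h5⟩ := hCvE n g Ω hg.isOpen x hx X
  have hC := (hCvb n g x X).1
  have h := h5 (N g) hN _ a 0 _ b 0 _ c 0 _ d 0 _ e 0 (hC a) (hC b) (hC c) (hC d) (hC e)
  obtain ⟨_, _, _, _, _, _, _, hL, _⟩ := hLin n x
  obtain ⟨l5, l4, l3, l2, l1⟩ := hL (N g)
  have z1 : e5 (N g) x 0 b c d e = 0 := b3lin0 (l1 b c d e)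
  have z2 : e5 (N g) x a 0 c d e = 0 := b3lin0 (l2 a c d e)
  have z3 : e5 (N g) x a b 0 d e = 0 := b3lin0 (l3 a b d e)
  have z4 : e5 (N g) x a b c 0 e = 0 := b3lin0 (l4 a b c e)
  have z5 : e5 (N g) x a b c d 0 = 0 := b3lin0 (l5 a b c d)
  rw [z1, z2, z3, z4, z5] at h
  simp only [add_zero] at h
  exact h

private lemma b3zero {f : ℝ → ℝ} {f' : ℝ} (h : HasDerivAt f f' 0)
    (hz : ∀ᶠ t in nhds (0 : ℝ), f t = 0) : f' = 0 := by
  have h0 : HasDerivAt f 0 0 := by
    have := (hasDerivAt_const (0 : ℝ) (0 : ℝ))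
    exact this.congr_of_eventuallyEq hz
  exact h.unique h0

private lemma b3slot (hLin : S_Lin) {n : ℕ} (T : TF n 6) (x a b c d e : Pt n) :
    Lin1 fun u => e6 T x a b u c d e := by
  have h := (hLin n x).1 6 T ![a, b, 0, c, d, e] 2
  have hu : ∀ u, Function.update ![a, b, 0, c, d, e] (2 : Fin 6) u = ![a, b, u, c, d, e] := by
    intro u
    ext i j
    fin_cases i <;> rfl
  constructor
  · intro u v
    have := h.add u v
    simp only [hu] at this
    exact this
  · intro r u
    have := h.smul r u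
    simp only [hu] at this
    exact this

theorem tBi3 (hBi2 : S_Bi2) (hCvE : S_CvE) (hCvb : S_Cvb) (hLin : S_Lin) (hSmo : S_Smo) :
    S_Bi3 := by
  intro n g Ω hg x hx X
  have hev := b3ev hg.isOpen hx X
  have dr := fun a b c d e => b3der hCvE hCvb hLin hSmo hg hx X a b c d e
  obtain ⟨_, _, _, _, _, _, _, _, hL6⟩ := hLin n x
  refine ⟨?_, ?_, ?_⟩
  · intro a
    refine ⟨?_, ?_, ?_, ?_, ?_⟩
    · intro b c d
      exact b3slot hLin (N2 g) x X a b c d
    · intro b c d e
      have h := b3zero ((dr a c b d e).add (dr a b c d e)) (by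
        filter_upwards [hev] with t ht
        have := ((hBi2 n g Ω hg _ ht).cur (b3p g x X a t)).a12 (b3p g x X b t) (b3p g x X c t)
          (b3p g x X d t) (b3p g x X e t)
        simp only [Pi.add_apply]
        linarith)
      linarith
    · intro b c d e
      have h := b3zero ((dr a b c e d).add (dr a b c d e)) (by
        filter_upwards [hev] with t ht
        have := ((hBi2 n g Ω hg _ ht).cur (b3p g x X a t)).a34 (b3p g x X b t) (b3p g x X c t)
          (b3p g x X d t) (b3p g x X e t)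
        simp only [Pi.add_apply]
        linarith)
      linarith
    · intro b c d e
      have h := b3zero ((dr a d e b c).sub (dr a b c d e)) (by
        filter_upwards [hev] with t ht
        have := ((hBi2 n g Ω hg _ ht).cur (b3p g x X a t)).sw (b3p g x X b t) (b3p g x X c t)
          (b3p g x X d t) (b3p g x X e t)
        simp only [Pi.sub_apply]
        linarith)
      linarith
    · intro b c d e
      have h := b3zero (((dr a b c d e).add (dr a c d b e)).add (dr a d b c e)) (by
        filter_upwards [hev] with t ht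
        have := ((hBi2 n g Ω hg _ ht).cur (b3p g x X a t)).bi (b3p g x X b t) (b3p g x X c t)
          (b3p g x X d t) (b3p g x X e t)
        simp only [Pi.add_apply]
        linarith)
      linarith
  · intro b c d e
    exact (hL6 (N2 g)).2.1 X b c d e
  · intro a b c d e
    have h := b3zero (((dr a b c d e).add (dr b c a d e)).add (dr c a b d e)) (by
      filter_upwards [hev] with t ht
      have := (hBi2 n g Ω hg _ ht).bi2 (b3p g x X a t) (b3p g x X b t) (b3p g x X c t)
        (b3p g x X d t) (b3p g x X e t)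
      simp only [Pi.add_apply]
      linarith)
    linarith

end

end Pool.Agent.Lib.MP_9d59e9_gt.KO
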