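import Mathlib

/-!
# MP_9d59e9_gt, project KO: definitions

First part: the definitions which occur in the final statement (the same as in the hand-in
`ProductCounterexample`).  Second part: internal formalism (tensor fields by components, evaluation
on vectors, covariant derivative), and the algebraic structures.
-/

set_option autoImplicit false

namespace Pool.Agent.Lib.MP_9d59e9_gt.KO

open scoped BigOperators ContDiff

noncomputable section

/-! ## part 1: definitions of the final statement -/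

/-- points of the coordinate space -/
abbrev Pt (n : ℕ) := Fin n → ℝ

/-- `i`-th partial derivative of a function on `ℝⁿ` -/
def pd {n : ℕ} (i : Fin n) (f : Pt n → ℝ) (x : Pt n) : ℝ :=
  fderiv ℝ f x (Pi.single i 1)

/-- Christoffel symbol `Γ^k_{ij}` of the metric `g` -/
def Gam {n : ℕ} (g : Pt n → Matrix (Fin n) (Fin n) ℝ) (k i j : Fin n) (x : Pt n) : ℝ :=
  (1 / 2) * ∑ l, ((g x)⁻¹) k l *
    (pd i (fun y => g y j l) x + pd j (fun y => g y i l) x - pd l (fun y => g y i j) x)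

/-- curvature component `R^a_{b m p}`, i.e. `R(∂_m, ∂_p) ∂_b = R^a_{b m p} ∂_a` with
`R(X,Y)Z = ∇_X ∇_Y Z - ∇_Y ∇_X Z - ∇_{[X,Y]} Z` -/
def curv {n : ℕ} (g : Pt n → Matrix (Fin n) (Fin n) ℝ) (a b m p : Fin n) (x : Pt n) : ℝ :=
  pd m (Gam g a p b) x - pd p (Gam g a m b) x
    + ∑ l, (Gam g a m l x * Gam g l p b x - Gam g a p l x * Gam g l m b x)

/-- components of a tensor field with one upper index and a list of lower indices -/
abbrev Tens (n : ℕ) := Fin n → List (Fin n) → Pt n → ℝ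

/-- covariant derivative: the new lower index is put in front,
`(∇T)^a_{c b₁ … b_k} = ∂_c T^a_{b₁ … b_k} + Γ^a_{c s} T^s_{b₁ … b_k}
   - ∑_j Γ^s_{c b_j} T^a_{b₁ … s … b_k}` -/
def cov {n : ℕ} (g : Pt n → Matrix (Fin n) (Fin n) ℝ) (T : Tens n) : Tens n
  | _, [], _ => 0
  | a, c :: l, x => pd c (T a l) x + ∑ s, Gam g a c s x * T s l x
      - ∑ j : Fin l.length, ∑ s, Gam g s c (l.get j) x * T a (l.set j s) x

/-- the curvature tensor as a `Tens` (lower indices `[b, m, p]`) -/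
def curvT {n : ℕ} (g : Pt n → Matrix (Fin n) (Fin n) ℝ) : Tens n
  | a, [b, m, p], x => curv g a b m p x
  | _, _, _ => 0

/-- `∇^r R`, lower indices `[c₁, …, c_r, b, m, p]` -/
def nablaR {n : ℕ} (g : Pt n → Matrix (Fin n) (Fin n) ℝ) : ℕ → Tens n
  | 0 => curvT g
  | r + 1 => cov g (nablaR g r)

/-- the equation `∇^r R + t¹ ⊗ ∇^{r-1} R + … + t^r ⊗ R = 0` holds at the point `x`, where
`t m` is a covariant tensor of rank `m` (its components are indexed by lists of length `m`) -/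
def KSAt {n : ℕ} (g : Pt n → Matrix (Fin n) (Fin n) ℝ) (r : ℕ) (t : ℕ → List (Fin n) → ℝ)
    (x : Pt n) : Prop :=
  ∀ (a : Fin n) (l : List (Fin n)), l.length = r + 3 →
    nablaR g r a l x + ∑ m ∈ Finset.Icc 1 r, t m (l.take m) * nablaR g (r - m) a (l.drop m) x = 0

/-- `g` is a smooth Riemannian metric on the open set `Ω ⊆ ℝⁿ` -/
structure IsMetricOn {n : ℕ} (g : Pt n → Matrix (Fin n) (Fin n) ℝ) (Ω : Set (Pt n)) : Prop where
  isOpen : IsOpen Ω
  smooth : ∀ i j, ContDiffOn ℝ ∞ (fun x => g x i j) Ω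
  pos : ∀ x ∈ Ω, (g x).PosDef

/-- covariant derivative `(∇_c S)_{ab}` of a tensor field with two lower indices -/
def cov2 {n : ℕ} (g : Pt n → Matrix (Fin n) (Fin n) ℝ) (S : Fin n → Fin n → Pt n → ℝ)
    (c a b : Fin n) (x : Pt n) : ℝ :=
  pd c (S a b) x - ∑ s, Gam g s c a x * S s b x - ∑ s, Gam g s c b x * S a s x

/-- `w` is a smooth parallel simple 2-form with `w_{ab} w^{ab} = 2` on `V`, i.e. the area form of
a parallel field of planes -/
structure IsParallelArea {n : ℕ} (g : Pt n → Matrix (Fin n) (Fin n) ℝ)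
    (w : Fin n → Fin n → Pt n → ℝ) (V : Set (Pt n)) : Prop where
  smooth : ∀ a b, ContDiffOn ℝ ∞ (w a b) V
  skew : ∀ x ∈ V, ∀ a b, w a b x = -w b a x
  simple : ∀ x ∈ V, ∀ a b c d, w a b x * w c d x + w b c x * w a d x + w c a x * w b d x = 0
  norm : ∀ x ∈ V, ∑ a, ∑ b, ∑ c, ∑ d, (g x)⁻¹ a c * (g x)⁻¹ b d * (w a b x * w c d x) = 2
  parallel : ∀ x ∈ V, ∀ c a b, cov2 g w c a b x = 0

/-- `S` (two lower indices; `S^a_b = g^{ac} S_{cb}`) is a smooth parallel field of `g`-orthogonal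
projections of rank `k` on `V` -/
structure IsParallelProjection {n : ℕ} (g : Pt n → Matrix (Fin n) (Fin n) ℝ)
    (S : Fin n → Fin n → Pt n → ℝ) (k : ℕ) (V : Set (Pt n)) : Prop where
  smooth : ∀ a b, ContDiffOn ℝ ∞ (S a b) V
  symm : ∀ x ∈ V, ∀ a b, S a b x = S b a x
  idem : ∀ x ∈ V, ((g x)⁻¹ * Matrix.of fun a b => S a b x) * ((g x)⁻¹ * Matrix.of fun a b => S a b x)
    = (g x)⁻¹ * Matrix.of fun a b => S a b x
  trace : ∀ x ∈ V, ((g x)⁻¹ * Matrix.of fun a b => S a b x).trace = k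
  parallel : ∀ x ∈ V, ∀ c a b, cov2 g S c a b x = 0

/-! ## part 2: internal formalism -/

/-- covariant tensor fields of rank `k`, given by components -/
abbrev TF (n k : ℕ) := (Fin k → Fin n) → Pt n → ℝ

/-- smooth on `Ω` -/
def Sm {n k : ℕ} (Ω : Set (Pt n)) (T : TF n k) : Prop := ∀ I, ContDiffOn ℝ ∞ (T I) Ω

/-- evaluation `T_x(v₀, …, v_{k-1})` -/
def ev {n k : ℕ} (T : TF n k) (x : Pt n) (v : Fin k → Pt n) : ℝ := ∑ I, T I x * ∏ j, v j (I j)

/-- covariant derivative of a covariant tensor field; the new slot is slot `0` -/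
def D {n k : ℕ} (g : Pt n → Matrix (Fin n) (Fin n) ℝ) (T : TF n k) : TF n (k + 1) := fun I x =>
  pd (I 0) (T (Fin.tail I)) x
    - ∑ j : Fin k, ∑ s, Gam g s (I 0) (I j.succ) x * T (Function.update (Fin.tail I) j s) x

/-- inner product -/
def ip {n : ℕ} (g : Pt n → Matrix (Fin n) (Fin n) ℝ) (x u v : Pt n) : ℝ :=
  ∑ i, ∑ j, g x i j * (u i * v j)

/-- `Γ_x(u, v)` -/
def Chr {n : ℕ} (g : Pt n → Matrix (Fin n) (Fin n) ℝ) (x u v : Pt n) : Pt n := fun k =>
  ∑ i, ∑ j, Gam g k i j x * (u i * v j)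

/-- the vector `R_x(u, v) w` -/
def Rv {n : ℕ} (g : Pt n → Matrix (Fin n) (Fin n) ℝ) (x u v w : Pt n) : Pt n := fun a =>
  ∑ b, ∑ m, ∑ p, curv g a b m p x * (w b * (u m * v p))

/-- the metric as a tensor field -/
def G2 {n : ℕ} (g : Pt n → Matrix (Fin n) (Fin n) ℝ) : TF n 2 := fun I x => g x (I 0) (I 1)

/-- the curvature tensor `R4(u,v,w,z) = g(R(u,v)w, z)` -/
def R4 {n : ℕ} (g : Pt n → Matrix (Fin n) (Fin n) ℝ) : TF n 4 := fun I x =>
  ∑ e, g x e (I 3) * curv g e (I 2) (I 0) (I 1) x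

/-- `∇R` -/
def N {n : ℕ} (g : Pt n → Matrix (Fin n) (Fin n) ℝ) : TF n 5 := D g (R4 g)

/-- `∇²R` -/
def N2 {n : ℕ} (g : Pt n → Matrix (Fin n) (Fin n) ℝ) : TF n 6 := D g (N g)

/-- `∇_{x₀} R` for a constant vector `x₀` -/
def Nc {n : ℕ} (g : Pt n → Matrix (Fin n) (Fin n) ℝ) (x₀ : Pt n) : TF n 4 := fun I x =>
  ∑ a, x₀ a * N g (Fin.cons a I) x

/-- raising the last index: the vector `w` with `g(w, z) = T(v, z)` -/
def up {n k : ℕ} (g : Pt n → Matrix (Fin n) (Fin n) ℝ) (T : TF n (k + 1)) (x : Pt n)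
    (v : Fin k → Pt n) : Pt n := fun a =>
  ∑ b, (g x)⁻¹ a b * ev T x (Fin.snoc v (Pi.single b 1))

/-- the vector `(∇_a R)_x(u, v) w` -/
def Nv {n : ℕ} (g : Pt n → Matrix (Fin n) (Fin n) ℝ) (x a u v w : Pt n) : Pt n :=
  up g (N g) x ![a, u, v, w]

/-- the vector `(∇²_{a,b} R)_x(u, v) w` -/
def N2v {n : ℕ} (g : Pt n → Matrix (Fin n) (Fin n) ℝ) (x a b u v w : Pt n) : Pt n :=
  up g (N2 g) x ![a, b, u, v, w]

/-- evaluation of tensor fields of rank `1, …, 6` -/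
def e1 {n : ℕ} (T : TF n 1) (x a : Pt n) : ℝ := ev T x ![a]
@[inherit_doc e1] def e2 {n : ℕ} (T : TF n 2) (x a b : Pt n) : ℝ := ev T x ![a, b]
@[inherit_doc e1] def e3 {n : ℕ} (T : TF n 3) (x a b c : Pt n) : ℝ := ev T x ![a, b, c]
@[inherit_doc e1] def e4 {n : ℕ} (T : TF n 4) (x a b c d : Pt n) : ℝ := ev T x ![a, b, c, d]
@[inherit_doc e1] def e5 {n : ℕ} (T : TF n 5) (x a b c d e : Pt n) : ℝ := ev T x ![a, b, c, d, e]
@[inherit_doc e1] def e6 {n : ℕ} (T : TF n 6) (x a b c d e f : Pt n) : ℝ :=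
  ev T x ![a, b, c, d, e, f]

/-- coordinate vector -/
abbrev bv {n : ℕ} (i : Fin n) : Pt n := Pi.single i 1

/-- full contraction `g^{ik} g^{jl} T_{ijkl}` -/
def scal {n : ℕ} (g : Pt n → Matrix (Fin n) (Fin n) ℝ) (T : TF n 4) (x : Pt n) : ℝ :=
  ∑ i, ∑ j, ∑ k, ∑ l, (g x)⁻¹ i k * (g x)⁻¹ j l * T ![i, j, k, l] x

/-- the curve `v` of vectors along `t ↦ p + t X` has the value `v₀` and the covariant derivative
`δ` at `t = 0` -/
def Cv {n : ℕ} (g : Pt n → Matrix (Fin n) (Fin n) ℝ) (p X : Pt n) (v : ℝ → Pt n)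
    (v₀ δ : Pt n) : Prop :=
  v 0 = v₀ ∧ HasDerivAt v (-(Chr g p X v₀) + δ) 0

/-- the tensor field `h(z,x) = -(∇_z t₁)(x) + t₁(z) t₁(x)` -/
def hT {n : ℕ} (g : Pt n → Matrix (Fin n) (Fin n) ℝ) (t1 : TF n 1) : TF n 2 := fun I x =>
  -(D g t1 I x) + t1 ![I 0] x * t1 ![I 1] x

/-- the data of the theorem in the internal formalism -/
structure KS2 {n : ℕ} (g : Pt n → Matrix (Fin n) (Fin n) ℝ) (Ω : Set (Pt n)) (t1 : TF n 1)
    (t2 : TF n 2) : Prop where
  met : IsMetricOn g Ω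
  s1 : Sm Ω t1
  s2 : Sm Ω t2
  ks : ∀ x ∈ Ω, ∀ a b u v w z, e6 (N2 g) x a b u v w z + e1 t1 x a * e5 (N g) x b u v w z
    + e2 t2 x a b * e4 (R4 g) x u v w z = 0

/-! ## part 3: algebra -/

section algebra
variable {V : Type} [AddCommGroup V] [Module ℝ V]

/-- linear function -/
structure Lin1 (f : V → ℝ) : Prop where
  add : ∀ a b, f (a + b) = f a + f b
  smul : ∀ (r : ℝ) a, f (r • a) = r * f a

/-- inner product, with the Riesz property -/
structure IP (B : V → V → ℝ) : Prop where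
  lin : ∀ b, Lin1 fun a => B a b
  symm : ∀ a b, B a b = B b a
  pos : ∀ a, a ≠ 0 → 0 < B a a
  riesz : ∀ f : V → ℝ, Lin1 f → ∃ T : V, ∀ v, B T v = f v

/-- algebraic curvature tensor -/
structure Crvt (R : V → V → V → V → ℝ) : Prop where
  lin : ∀ b c d, Lin1 fun a => R a b c d
  a12 : ∀ a b c d, R b a c d = -R a b c d
  a34 : ∀ a b c d, R a b d c = -R a b c d
  sw : ∀ a b c d, R c d a b = R a b c d
  bi : ∀ a b c d, R a b c d + R b c a d + R c a b d = 0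

/-- algebraic covariant derivative of a curvature tensor -/
structure Dcrv (M : V → V → V → V → V → ℝ) : Prop where
  cur : ∀ a, Crvt (M a)
  lin : ∀ b c d e, Lin1 fun a => M a b c d e
  bi2 : ∀ a b c d e, M a b c d e + M b c a d e + M c a b d e = 0

/-- action of an endomorphism on a 4-tensor, with the sign of a derivation:
`(Φ·T)(c,d,e,f) = -T(Φc,d,e,f) - T(c,Φd,e,f) - T(c,d,Φe,f) - T(c,d,e,Φf)` -/
def act4 (Φ : V → V) (T : V → V → V → V → ℝ) (c d e f : V) : ℝ :=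
  -(T (Φ c) d e f + T c (Φ d) e f + T c d (Φ e) f + T c d e (Φ f))

/-- action of an endomorphism on a 5-tensor -/
def act5 (Φ : V → V) (T : V → V → V → V → V → ℝ) (a c d e f : V) : ℝ :=
  -(T (Φ a) c d e f + T a (Φ c) d e f + T a c (Φ d) e f + T a c d (Φ e) f + T a c d e (Φ f))

/-- the algebraic situation at a point with `t₂ ≠ 0` -/
structure A3H (B : V → V → ℝ) (R : V → V → V → V → ℝ) (Ro : V → V → V → V)
    (M : V → V → V → V → V → ℝ) (t1 : V → ℝ) (t2 : V → V → ℝ) (β : V → V → V → ℝ) : Prop where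
  ip : IP B
  cR : Crvt R
  cM : Dcrv M
  op : ∀ u v w z, B (Ro u v w) z = R u v w z
  l1 : Lin1 t1
  l2 : ∀ a, Lin1 (t2 a)
  l2' : ∀ b, Lin1 fun a => t2 a b
  lβ : ∀ X a, Lin1 (β X a)
  lβ' : ∀ a b, Lin1 fun X => β X a b
  ii : ∀ a b c d w z, t2 a b * R c d w z + t2 a c * R d b w z + t2 a d * R b c w z = 0
  ii' : ∀ X a b c d w z, β X a b * R c d w z + β X a c * R d b w z + β X a d * R b c w z
    + (t2 a b * M X c d w z + t2 a c * M X d b w z + t2 a d * M X b c w z) = 0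
  qr : ∀ x y c d e f, act4 (Ro x y) R c d e f
    = -(t1 x * M y c d e f) + t1 y * M x c d e f - (t2 x y - t2 y x) * R c d e f

/-- the vector `T` for `A3H`: `τ = t₂(a₀, ·)`, `τ(T) = 1`, `B(T, v) = B(T,T) τ(v)` -/
structure A3T (B : V → V → ℝ) (t2 : V → V → ℝ) (a₀ T : V) : Prop where
  one : t2 a₀ T = 1
  dual : ∀ v, B T v = B T T * t2 a₀ v

/-- `R_{AB} R_{CD} = R_{AD} R_{CB}` for pairs `A, B, C, D` of vectors -/
def RkOne (R : V → V → V → V → ℝ) : Prop :=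
  ∀ a a' b b' c c' d d', R a a' b b' * R c c' d d' = R a a' d d' * R c c' b b'

/-- the algebraic situation in the case `t₂ = 0` -/
structure A5H (B : V → V → ℝ) (M : V → V → V → V → V → ℝ) (Mo : V → V → V → V → V)
    (k : V → V → V → ℝ) : Prop where
  ip : IP B
  cM : Dcrv M
  op : ∀ z x y w v, B (Mo z x y w) v = M z x y w v
  k1 : ∀ z x, Lin1 fun w => k w z x
  k2 : ∀ w x, Lin1 fun z => k w z x
  k3 : ∀ w z, Lin1 fun x => k w z x
  ks : ∀ w z x, k w z x = k w x z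
  pr : ∀ z x y a c d e f, act5 (Mo z x y) M a c d e f = 0
  d2 : ∀ w z x y c d e f, M (Mo z x y w) c d e f + M (Mo w x y z) c d e f
    = k w z x * M y c d e f - k w z y * M x c d e f
  ort : ∀ K : Submodule ℝ V, ∀ v : V, ∃ u ∈ K, ∀ a ∈ K, B (v - u) a = 0

end algebra

end

end Pool.Agent.Lib.MP_9d59e9_gt.KO
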