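import Mathlib
import Pool.Agent.Lib.MP_9d59e9_gt.KO.Defs

/-!
# MP_9d59e9_gt, project KO (owner helper8): Riemannian KS manifolds of order 2

THEOREM (`S_End`).  Let `g` be a smooth Riemannian metric on an open set `Ω ⊆ ℝⁿ` and let
`∇²R + t¹ ⊗ ∇R + t² ⊗ R = 0` on `Ω` with smooth `t¹, t²`.  Then near every point where `∇R ≠ 0` the
curvature is `R = K w ⊗ w` with a parallel simple 2-form `w` (surface × flat space); if no open
subset carries a parallel field of orthogonal projections of rank 2, then `∇R = 0`.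

Every `S_X` is a statement with its complete proof in the docstring; it is to be proved as
`theorem tX (h… : the statements listed as Available, in that order) : S_X` in the file `X.lean` of
this directory.

Notation: `R(u,v,w,z) = e4 (R4 g) x u v w z = g(R(u,v)w, z)`, `N(a;u,v,w,z) = (∇_a R)(u,v,w,z)`.
-/

set_option autoImplicit false

namespace Pool.Agent.Lib.MP_9d59e9_gt.KO

open scoped BigOperators ContDiff
open Set

noncomputable section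

/-! ## A. calculus -/

/-- **Smo** (smoothness).  Proof: `det (g x) ≠ 0` on `Ω`, `(g x)⁻¹ = (det)⁻¹ • adjugate`, the entries
of the adjugate are polynomials in the entries (`Matrix.inv_def`, `Matrix.adjugate_apply`,
`Matrix.det_apply`, finite sums and products of smooth functions; `Ring.inverse` of a real number is
its inverse).  `pd i f` is smooth on the open set `Ω` if `f` is (`ContDiffOn.fderiv_of_isOpen`, apply
to a fixed vector).  The rest are finite sums of products.  -/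
def S_Smo : Prop :=
  ∀ (n : ℕ) (g : Pt n → Matrix (Fin n) (Fin n) ℝ) (Ω : Set (Pt n)), IsMetricOn g Ω →
    (∀ i j, ContDiffOn ℝ ∞ (fun x => (g x)⁻¹ i j) Ω) ∧
    (∀ k i j, ContDiffOn ℝ ∞ (Gam g k i j) Ω) ∧
    (∀ a b m p, ContDiffOn ℝ ∞ (curv g a b m p) Ω) ∧
    (∀ (k : ℕ) (T : TF n k), Sm Ω T → Sm Ω (D g T)) ∧
    Sm Ω (G2 g) ∧ Sm Ω (R4 g) ∧ Sm Ω (N g) ∧ Sm Ω (N2 g) ∧ (∀ x₀, Sm Ω (Nc g x₀)) ∧
    (∀ T : TF n 4, Sm Ω T → ContDiffOn ℝ ∞ (scal g T) Ω) ∧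
    (∀ t1 : TF n 1, Sm Ω t1 → Sm Ω (hT g t1)) ∧
    (∀ (k : ℕ) (T : TF n k), Sm Ω T → ∀ v, ContDiffOn ℝ ∞ (fun x => ev T x v) Ω)

/-- **Lin** (evaluation is multilinear).  Proof: `∏ j, (update v i u) j (I j) =
u (I i) * ∏ j ∈ univ.erase i, v j (I j)` (`Finset.prod_update_of_mem` or `Finset.mul_prod_erase`
with `Finset.prod_congr`), so linear in `u`.  For basis vectors the product is `1` if all indices
agree and `0` otherwise (`Finset.sum_eq_single`).  The last statement: expand the basis vectors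
(if all components vanish then `ev` is a sum of zeros; conversely evaluate on basis vectors).
The forms `e1, …, e6`: `![a, b, …]` is an `update` of itself at the slot in question
(`Function.update` on `Fin`; `ext i; fin_cases i; simp`), or directly: expand the product with
`Fin.prod_univ_succ`. -/
def S_Lin : Prop :=
  ∀ (n : ℕ) (x : Pt n),
    (∀ (k : ℕ) (T : TF n k) (v : Fin k → Pt n) (j : Fin k),
      Lin1 fun u => ev T x (Function.update v j u)) ∧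
    (∀ (k : ℕ) (T : TF n k) (I : Fin k → Fin n), ev T x (fun j => bv (I j)) = T I x) ∧
    (∀ (k : ℕ) (T : TF n k), (∀ v, ev T x v = 0) ↔ ∀ I, T I x = 0) ∧
    (∀ T : TF n 1, Lin1 (e1 T x)) ∧
    (∀ (T : TF n 2), (∀ a, Lin1 (e2 T x a)) ∧ ∀ b, Lin1 fun a => e2 T x a b) ∧
    (∀ (T : TF n 3), (∀ a b, Lin1 (e3 T x a b)) ∧ (∀ a c, Lin1 fun b => e3 T x a b c) ∧
      ∀ b c, Lin1 fun a => e3 T x a b c) ∧
    (∀ (T : TF n 4), (∀ a b c, Lin1 (e4 T x a b c)) ∧ (∀ a b d, Lin1 fun c => e4 T x a b c d) ∧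
      (∀ a c d, Lin1 fun b => e4 T x a b c d) ∧ ∀ b c d, Lin1 fun a => e4 T x a b c d) ∧
    (∀ (T : TF n 5), (∀ a b c d, Lin1 (e5 T x a b c d)) ∧
      (∀ a b c e, Lin1 fun d => e5 T x a b c d e) ∧ (∀ a b d e, Lin1 fun c => e5 T x a b c d e) ∧
      (∀ a c d e, Lin1 fun b => e5 T x a b c d e) ∧ ∀ b c d e, Lin1 fun a => e5 T x a b c d e) ∧
    (∀ (T : TF n 6), (∀ a b c d e, Lin1 (e6 T x a b c d e)) ∧
      (∀ a c d e f, Lin1 fun b => e6 T x a b c d e f) ∧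
      ∀ b c d e f, Lin1 fun a => e6 T x a b c d e f)

/-- **Crv** (the curve lemma: the covariant derivative as a derivative along curves of vectors).
Proof.  The derivative at `0` of
`ev T (p + t X) (v t) = ∑_I T_I(p + tX) ∏_j (v t j)(I j)` is (chain rule for
`t ↦ T_I (p + t • X)`: `fderiv (T_I) p X = ∑_c X_c pd c (T_I) p`; product rule
`HasDerivAt.fun_finset_prod`)
`∑_I (∑_c X_c pd c (T_I) p) ∏_j v_j(I_j) + ∑_I T_I ∑_j (-Γ(X,v_j) + δ_j)(I_j) ∏_{l≠j} v_l(I_l)`, and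
`∑_I T_I (w)(I_j) ∏_{l≠j} v_l(I_l) = ev T p (update v j w)`.  On the other side
`ev (D g T) p (cons X v) = ∑_c ∑_I X_c (pd c (T_I) p - ∑_j ∑_s Γ^s_{c,I_j} T_{update I j s}) ∏ v_l(I_l)`
(`Fin.consEquiv`/`Fin.prod_univ_succ` to split the index), and for fixed `j` the map
`(I, s) ↦ (update I j s, I j)` is an involution of `(Fin k → Fin n) × Fin n`, so
`∑_I ∑_s Γ^s_{c,I_j} T_{update I j s} ∏_l v_l(I_l) = ∑_I ∑_i Γ^{I_j}_{c,i} T_I v_j(i) ∏_{l≠j} v_l(I_l)`;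
multiplied by `X_c` and summed over `c` this is `ev T p (update v j (Chr g p X (v j)))`. -/
def S_Crv : Prop :=
  ∀ (n : ℕ) (g : Pt n → Matrix (Fin n) (Fin n) ℝ) (Ω : Set (Pt n)), IsOpen Ω →
    ∀ (k : ℕ) (T : TF n k), Sm Ω T → ∀ p ∈ Ω, ∀ (X : Pt n) (v : Fin k → ℝ → Pt n)
      (v₀ δ : Fin k → Pt n), (∀ j, Cv g p X (v j) (v₀ j) (δ j)) →
      HasDerivAt (fun t : ℝ => ev T (p + t • X) (fun j => v j t))
        (ev (D g T) p (Fin.cons X v₀) + ∑ j, ev T p (Function.update v₀ j (δ j))) 0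

/-- **Cvb** (rules for `Cv`).  Proof: `Chr` is bilinear (finite sums), product rule. -/
def S_Cvb : Prop :=
  ∀ (n : ℕ) (g : Pt n → Matrix (Fin n) (Fin n) ℝ) (p X : Pt n),
    (∀ v₀, Cv g p X (fun t => v₀ - t • Chr g p X v₀) v₀ 0) ∧
    (∀ v₀, Cv g p X (fun _ => v₀) v₀ (Chr g p X v₀)) ∧
    (∀ u u₀ δ v v₀ ε, Cv g p X u u₀ δ → Cv g p X v v₀ ε →
      Cv g p X (fun t => u t + v t) (u₀ + v₀) (δ + ε)) ∧
    (∀ (f : ℝ → ℝ) (f' : ℝ) u u₀ δ, HasDerivAt f f' 0 → Cv g p X u u₀ δ →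
      Cv g p X (fun t => f t • u t) (f 0 • u₀) (f' • u₀ + f 0 • δ))

/-- **CvE** (covariant derivative of tensors of rank 1 to 5 along curves).  Available: `S_Crv`.
Proof: the curve lemma with `v = ![u, v, …]`; `Fin.cons X ![u, v, …] = ![X, u, v, …]` (definition
of `Matrix.vecCons`), `Fin.sum_univ_succ`, `Function.update ![…] j w` computed by
`ext i; fin_cases i; rfl` or `simp`. -/
def S_CvE : Prop :=
  ∀ (n : ℕ) (g : Pt n → Matrix (Fin n) (Fin n) ℝ) (Ω : Set (Pt n)), IsOpen Ω →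
    ∀ p ∈ Ω, ∀ (X : Pt n),
    (∀ T : TF n 1, Sm Ω T → ∀ a a₀ α, Cv g p X a a₀ α →
      HasDerivAt (fun t : ℝ => e1 T (p + t • X) (a t)) (e2 (D g T) p X a₀ + e1 T p α) 0) ∧
    (∀ T : TF n 2, Sm Ω T → ∀ a a₀ α b b₀ β, Cv g p X a a₀ α → Cv g p X b b₀ β →
      HasDerivAt (fun t : ℝ => e2 T (p + t • X) (a t) (b t))
        (e3 (D g T) p X a₀ b₀ + (e2 T p α b₀ + e2 T p a₀ β)) 0) ∧
    (∀ T : TF n 4, Sm Ω T → ∀ a a₀ α b b₀ β c c₀ γ d d₀ δ, Cv g p X a a₀ α → Cv g p X b b₀ β →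
      Cv g p X c c₀ γ → Cv g p X d d₀ δ →
      HasDerivAt (fun t : ℝ => e4 T (p + t • X) (a t) (b t) (c t) (d t))
        (e5 (D g T) p X a₀ b₀ c₀ d₀ + (e4 T p α b₀ c₀ d₀ + e4 T p a₀ β c₀ d₀
          + e4 T p a₀ b₀ γ d₀ + e4 T p a₀ b₀ c₀ δ)) 0) ∧
    (∀ T : TF n 5, Sm Ω T → ∀ a a₀ α b b₀ β c c₀ γ d d₀ δ e e₀ ε, Cv g p X a a₀ α →
      Cv g p X b b₀ β → Cv g p X c c₀ γ → Cv g p X d d₀ δ → Cv g p X e e₀ ε →
      HasDerivAt (fun t : ℝ => e5 T (p + t • X) (a t) (b t) (c t) (d t) (e t))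
        (e6 (D g T) p X a₀ b₀ c₀ d₀ e₀ + (e5 T p α b₀ c₀ d₀ e₀ + e5 T p a₀ β c₀ d₀ e₀
          + e5 T p a₀ b₀ γ d₀ e₀ + e5 T p a₀ b₀ c₀ δ e₀ + e5 T p a₀ b₀ c₀ d₀ ε)) 0)

/-- **Met** (the Levi-Civita connection).  Proof: (i) `Gam g k i j x = Gam g k j i x` on `Ω`
because `g` is symmetric on the open set `Ω` (the partial derivatives at `x ∈ Ω` of two functions
which agree near `x` are equal).  (ii) `∑_s Γ^s_{ca} g_{sb} = ½ (∂_c g_{ab} + ∂_a g_{cb} - ∂_b g_{ca})`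
from `g⁻¹ g = 1`; add the same with `a, b` exchanged: `∂_c g_{ab} = ∑ Γ^s_{ca} g_{sb} + ∑ Γ^s_{cb} g_{as}`.
(iii) clear (`Fin.sum_univ` over `Fin 2 → Fin n`; e.g. via `Fin.consEquiv` or
`Fintype.sum_equiv (finTwoArrowEquiv _)`). -/
def S_Met : Prop :=
  ∀ (n : ℕ) (g : Pt n → Matrix (Fin n) (Fin n) ℝ) (Ω : Set (Pt n)), IsMetricOn g Ω → ∀ x ∈ Ω,
    (∀ k i j, Gam g k i j x = Gam g k j i x) ∧ (∀ u v, Chr g x u v = Chr g x v u) ∧
    (∀ I, D g (G2 g) I x = 0) ∧ (∀ u v, ip g x u v = e2 (G2 g) x u v) ∧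
    (∀ c a b, pd c (fun y => g y a b) x = ∑ s, Gam g s c a x * g x s b + ∑ s, Gam g s c b x * g x a s)

/-- **Onb** (orthonormal basis and inner product axioms at a point).  Proof: `g x` is positive
definite.  Orthonormal basis: e.g. `(g x)` defines an inner product
(`Matrix.toInnerProductSpace`/`InnerProductSpace.ofMatrix` or an `InnerProductSpace.Core` on a type
synonym), take `stdOrthonormalBasis` (dimension `n`); or use that a positive definite matrix is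
`Bᵀ B` with `B` invertible (`Matrix.posSemidef_iff_eq_conjTranspose_mul_self`, square root) and take
`e i = B⁻¹ (basis vector)`.  Riesz: `T = ∑ f(e_i) e_i`.  The orthogonal decomposition with respect
to a subspace `K`: minimise, or use the projection onto `K` in the inner product space above. -/
def S_Onb : Prop :=
  ∀ (n : ℕ) (g : Pt n → Matrix (Fin n) (Fin n) ℝ) (x : Pt n), (g x).PosDef →
    (∃ e : Fin n → Pt n, (∀ i j, ip g x (e i) (e j) = if i = j then 1 else 0) ∧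
      ∀ v, v = ∑ i, ip g x v (e i) • e i) ∧
    IP (ip g x) ∧
    ∀ K : Submodule ℝ (Pt n), ∀ v : Pt n, ∃ u ∈ K, ∀ a ∈ K, ip g x (v - u) a = 0

/-- **Up** (raising an index).  Proof: `ip g x (up g T x v) z = ∑_{a,c} g_{ac} (∑_b g^{ab} T(v,e_b)) z_c
= ∑_c T(v, e_c) z_c = T(v, z)` (`g⁻¹ g = 1`, symmetry, linearity in the last slot).  Nondegeneracy:
`ip g x (u - w) (u - w) = 0` (or `z = e_i` and `g` invertible). -/
def S_Up : Prop :=
  ∀ (n : ℕ) (g : Pt n → Matrix (Fin n) (Fin n) ℝ) (x : Pt n), (g x).PosDef →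
    (∀ (k : ℕ) (T : TF n (k + 1)) (v : Fin k → Pt n) (z : Pt n),
      ip g x (up g T x v) z = ev T x (Fin.snoc v z)) ∧
    ∀ u w, (∀ z, ip g x u z = ip g x w z) → u = w

/-- **CvI** (metric compatibility along curves).  Available: `S_CvE`, `S_Met`, `S_Smo`.
Proof: `ip = e2 (G2 g)` on `Ω` (near `t = 0` the point `p + t X` is in `Ω`), and `D (G2 g) = 0` at `p`,
so `e3 (D g (G2 g)) p … = 0` (a sum of zeros). -/
def S_CvI : Prop :=
  ∀ (n : ℕ) (g : Pt n → Matrix (Fin n) (Fin n) ℝ) (Ω : Set (Pt n)), IsMetricOn g Ω → ∀ p ∈ Ω,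
    ∀ (X : Pt n) (u : ℝ → Pt n) (u₀ δ : Pt n) (v : ℝ → Pt n) (v₀ ε : Pt n),
    Cv g p X u u₀ δ → Cv g p X v v₀ ε →
      HasDerivAt (fun t : ℝ => ip g (p + t • X) (u t) (v t)) (ip g p δ v₀ + ip g p u₀ ε) 0

/-- **CvU** (raising an index commutes with the covariant derivative).  Available: `S_Crv`, `S_CvI`,
`S_Up`, `S_Smo`, `S_Cvb`, `S_Lin`.
Proof.  The curve `W(t) = up g T (p + tX) (v t)` is differentiable at `0` (its components are finite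
sums of products of `(g x)⁻¹ a b`, smooth along `p + tX`, and of
`ev T (p + tX) (snoc (v t) e_b)`, differentiable by the curve lemma, with the constant curve `e_b`),
so `W'(0) = -Γ(X, W(0)) + η` for some vector `η`, i.e. `Cv g p X W W(0) η`.  For a vector `z` let
`z(t) = z - t Γ(X,z)` (covariant derivative `0`).  Near `t = 0`:
`ip (W(t)) (z(t)) = ev T (p+tX) (snoc (v t) (z t))`.  Differentiate both sides at `0`, by `S_CvI` and
by the curve lemma: `ip g p η z = ev (D g T) p (cons X (snoc v₀ z)) + ∑_{j<k} ev T p (snoc (update v₀ j (δ j)) z)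
+ ev T p (snoc v₀ 0)`, the last term is `0`; `cons X (snoc v₀ z) = snoc (cons X v₀) z`
(`Fin.cons_snoc_eq_snoc_cons`), so the right side is
`ip (up (D g T) p (cons X v₀) + ∑_j up T p (update v₀ j (δ j))) z`; nondegeneracy. -/
def S_CvU : Prop :=
  ∀ (n : ℕ) (g : Pt n → Matrix (Fin n) (Fin n) ℝ) (Ω : Set (Pt n)), IsMetricOn g Ω → ∀ p ∈ Ω,
    ∀ (X : Pt n) (k : ℕ) (T : TF n (k + 1)), Sm Ω T → ∀ (v : Fin k → ℝ → Pt n)
      (v₀ δ : Fin k → Pt n), (∀ j, Cv g p X (v j) (v₀ j) (δ j)) →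
      Cv g p X (fun t => up g T (p + t • X) (fun j => v j t)) (up g T p v₀)
        (up g (D g T) p (Fin.cons X v₀) + ∑ j, up g T p (Function.update v₀ j (δ j)))

/-- **Ric** (Ricci identity).  Available: `S_Smo`, `S_Crv`, `S_Cvb`, `S_Met`, `S_Lin`.
Proof.  Fix the constant vectors `X, Y, v_j` and let `F(x) = ev T x v`, smooth on `Ω`.  For `x ∈ Ω` and
a vector `Z`, the curve lemma for the constant curves (`Cv g x Z (const u) u (Chr g x Z u)`) gives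
`fderiv F x Z = ev (D T) x (cons Z v) + ∑_j ev T x (update v j (Chr g x Z v_j))`.        (1)
Put `F_Y(x) = fderiv F x Y` and differentiate (1) (with `Z = Y`) at `p` in the direction `X`.  The
first term: curve lemma for `D T` and the constant curves `cons Y v`.  For the `j`-th term of the sum:
the curve lemma for `T` and the curves `update v j (Chr g (p + tX) Y v_j)`; the curve
`t ↦ Chr g (p+tX) Y v_j` has derivative `C_j := (∂_X Γ)(Y, v_j)`, components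
`∑_{i,l} (fderiv (Gam g k i l) p X) Y_i (v_j)_l`, so its covariant derivative is
`C_j + Γ(X, Γ(Y, v_j))`.  Hence
`fderiv F_Y p X = ev (DDT)(X,Y,v) + ev (DT)(Γ(X,Y), v) + ∑_l ev (DT)(Y, update v l Γ(X,v_l))
 + ∑_j ev (DT)(X, update v j Γ(Y,v_j)) + ∑_j ev T (update v j (C_j + Γ(X,Γ(Y,v_j))))
 + ∑_j ∑_{l≠j} ev T (update (update v j Γ(Y,v_j)) l Γ(X,v_l))`.
Exchange `X` and `Y` and subtract.  The left side: second derivatives of the smooth function `F`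
are symmetric (`ContDiffAt.isSymmSndFDerivAt` or `second_derivative_symmetric`).  On the right the
second term (symmetry of `Γ`), the sum of the third and fourth, and the last double sum
(`Function.update_comm`, exchange of the names `j, l`) are symmetric in `X, Y`.  There remains
`0 = ev (DDT)(X,Y,v) - ev (DDT)(Y,X,v) + ∑_j ev T (update v j (A_j))`,
`A_j = (∂_XΓ)(Y,v_j) - (∂_YΓ)(X,v_j) + Γ(X,Γ(Y,v_j)) - Γ(Y,Γ(X,v_j)) = Rv g p X Y v_j` by the definition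
of `curv` (`fderiv f p X = ∑_m X_m pd m f p`). -/
def S_Ric : Prop :=
  ∀ (n : ℕ) (g : Pt n → Matrix (Fin n) (Fin n) ℝ) (Ω : Set (Pt n)), IsMetricOn g Ω → ∀ p ∈ Ω,
    ∀ (k : ℕ) (T : TF n k), Sm Ω T → ∀ (X Y : Pt n) (v : Fin k → Pt n),
      ev (D g (D g T)) p (Fin.cons X (Fin.cons Y v)) - ev (D g (D g T)) p (Fin.cons Y (Fin.cons X v))
        = -∑ j, ev T p (Function.update v j (Rv g p X Y (v j)))

/-- **Sym** (symmetries of the curvature).  Available: `S_Met`, `S_Ric`, `S_Up`, `S_Lin`, `S_Smo`.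
Proof: `ip g x (Rv g x u v w) z = e4 (R4 g) x u v w z`: both are
`∑ g_{ez} curv^e_{w u v}` (expand; symmetry of `g`).  `Rv = up (R4 g)`: `S_Up`, nondegeneracy
(`![u,v,w,z] = Fin.snoc ![u,v,w] z`).
Linear in the first slot: `S_Lin`.  `a12`: `curv g a b m p = -curv g a b p m` (definition).  `bi`:
`curv^a_{bmp} + curv^a_{mpb} + curv^a_{pbm} = 0` from the symmetry of `Γ` on `Ω` (also of its partial
derivatives).  `a34`: the Ricci identity for `T = G2 g`, whose `D` vanishes on `Ω`: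
`0 = ip (R(X,Y)v, w) + ip (v, R(X,Y)w)` (`D g (D g (G2 g)) = 0` at `p` since `D g (G2 g)` vanishes
near `p`: all the terms in the definition of `D` vanish).  `sw` follows from the other three:
add the Bianchi identities for `(a,b,c,d), (b,c,d,a), (c,d,a,b), (d,a,b,c)` (`linarith`). -/
def S_Sym : Prop :=
  ∀ (n : ℕ) (g : Pt n → Matrix (Fin n) (Fin n) ℝ) (Ω : Set (Pt n)), IsMetricOn g Ω → ∀ x ∈ Ω,
    Crvt (e4 (R4 g) x) ∧ (∀ u v w z, ip g x (Rv g x u v w) z = e4 (R4 g) x u v w z) ∧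
    (∀ u v w, Rv g x u v w = up g (R4 g) x ![u, v, w]) ∧
    (∀ a b c d, ∑ e, g x a e * curv g e b c d x = e4 (R4 g) x (bv c) (bv d) (bv b) (bv a))

/-- **CvR** (covariant derivative of the curvature vectors along curves).  Available: `S_CvU`,
`S_Sym`, `S_Smo`.  Proof: `S_CvU` for `T = R4 g`, `N g` with `v = ![u, v, w]`, resp. `![a, u, v, w]`;
`Rv = up (R4 g)` near `p`; `Function.update ![…] j w` by `ext i; fin_cases i`.  The last statement: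
`up` is characterised by `S_Up`; here: `ip g x (Nv …) z = e5 (N g) …`, by `S_Up`. -/
def S_CvR : Prop :=
  ∀ (n : ℕ) (g : Pt n → Matrix (Fin n) (Fin n) ℝ) (Ω : Set (Pt n)), IsMetricOn g Ω → ∀ p ∈ Ω,
    ∀ (X : Pt n) (a : ℝ → Pt n) (a₀ α : Pt n) (u : ℝ → Pt n) (u₀ μ : Pt n)
      (v : ℝ → Pt n) (v₀ ν : Pt n) (w : ℝ → Pt n) (w₀ ζ : Pt n),
      Cv g p X a a₀ α → Cv g p X u u₀ μ → Cv g p X v v₀ ν → Cv g p X w w₀ ζ →
      Cv g p X (fun t => Rv g (p + t • X) (u t) (v t) (w t)) (Rv g p u₀ v₀ w₀)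
        (Nv g p X u₀ v₀ w₀ + (Rv g p μ v₀ w₀ + Rv g p u₀ ν w₀ + Rv g p u₀ v₀ ζ)) ∧
      Cv g p X (fun t => Nv g (p + t • X) (a t) (u t) (v t) (w t)) (Nv g p a₀ u₀ v₀ w₀)
        (N2v g p X a₀ u₀ v₀ w₀ + (Nv g p α u₀ v₀ w₀ + Nv g p a₀ μ v₀ w₀ + Nv g p a₀ u₀ ν w₀
          + Nv g p a₀ u₀ v₀ ζ))

/-- **Opn** (the raised vectors).  Available: `S_Up`.  Proof: `S_Up`;
`![a, u, v, w, z] = Fin.snoc ![a, u, v, w] z`. -/
def S_Opn : Prop :=
  ∀ (n : ℕ) (g : Pt n → Matrix (Fin n) (Fin n) ℝ) (x : Pt n), (g x).PosDef →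
    (∀ a u v w z, ip g x (Nv g x a u v w) z = e5 (N g) x a u v w z) ∧
    (∀ a b u v w z, ip g x (N2v g x a b u v w) z = e6 (N2 g) x a b u v w z)

/-- **Bi2** (second Bianchi identity and the symmetries of `∇R`).  Available: `S_Crv`, `S_Ric`,
`S_Sym`, `S_CvE`, `S_Cvb`, `S_CvR`, `S_Lin`, `S_Smo`, `S_Up`, `S_Opn`.
Proof.  The symmetries `a12, a34, sw, bi` of `N(a;…)`: differentiate those of `R4` along parallel
curves (`Cv` with `δ = 0`, `S_CvE` for rank 4; terms with a zero vector vanish by linearity).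
Second Bianchi at `p`: let `θ : TF n 1` have constant components.  Ricci identity for `D θ` (rank 2)
at `p`:  `ev (DDDθ)(X,Y,Z,w) - ev (DDDθ)(Y,X,Z,w) = -(Dθ)(R(X,Y)Z, w) - (Dθ)(Z, R(X,Y)w)`.   (1)
Ricci identity for `θ` on `Ω`: `ev (DDθ)(Y,Z,w) - ev (DDθ)(Z,Y,w) = -θ(R(Y,Z)w)`; differentiate it at
`p` along `X` with parallel curves and `S_CvR` for the right side:
(rank 3: `S_Crv`) `ev (DDDθ)(X,Y,Z,w) - ev (DDDθ)(X,Z,Y,w) = -(Dθ)(X, R(Y,Z)w) - θ(Nv X Y Z w)`.   (2)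
Sum (1) and (2) cyclically over `X, Y, Z`: the left sides agree; on the right
`∑_cyc (Dθ)(R(X,Y)Z, w) = 0` by the first Bianchi identity and the terms `(Dθ)(Z, R(X,Y)w)` agree.
So `θ(Nv X Y Z w + Nv Y Z X w + Nv Z X Y w) = 0` for all `θ`: take `θ = ip g p · z` (components
`∑_j g_{ij} z_j`): `N(X;Y,Z,w,z) + cyc = 0`. -/
def S_Bi2 : Prop :=
  ∀ (n : ℕ) (g : Pt n → Matrix (Fin n) (Fin n) ℝ) (Ω : Set (Pt n)), IsMetricOn g Ω → ∀ x ∈ Ω,
    Dcrv (e5 (N g) x)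

/-- **Bi3** (second Bianchi identity differentiated: `∇²R(a,b;…)` has the symmetries of `∇R` in the
last five slots).  Available: `S_Bi2`, `S_CvE`, `S_Cvb`, `S_Lin`, `S_Smo`.  Proof: differentiate the
identities of `S_Bi2` along parallel curves. -/
def S_Bi3 : Prop :=
  ∀ (n : ℕ) (g : Pt n → Matrix (Fin n) (Fin n) ℝ) (Ω : Set (Pt n)), IsMetricOn g Ω → ∀ x ∈ Ω,
    ∀ a, Dcrv (e6 (N2 g) x a)

/-- **Brg** (from the index formalism of the problem to `KS2`).  Available: `S_Smo`, `S_Met`, `S_Lin`.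
Proof.  For `x ∈ Ω`:
(1) `∑_e g_{ed} nablaR g 0 e [b,m,p] = R4 ![m,p,b,d]` (definition, symmetry of `g`).
(2) `∑_e g_{ed} nablaR g 1 e [c,b,m,p] = N ![c,m,p,b,d]` and
(3) `∑_e g_{ed} nablaR g 2 e [c,c',b,m,p] = N2 ![c,c',m,p,b,d]`.
General lemma: if `S` has components `S(l, d) = ∑_e g_{ed} T^e_l` on `Ω` then
`∂_c S(l,d) - ∑_j Γ^s_{c l_j} S(l[j:=s], d) - Γ^s_{cd} S(l, s) = ∑_e g_{ed} (cov T)^e_{c l}`: product rule
and `∂_c g_{ed} = ∑ Γ^s_{ce} g_{sd} + ∑ Γ^s_{cd} g_{es}` (`S_Met`); the slots of `R4` are ordered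
differently, so it is simplest to expand the sums over `j` for lists of length 3 and 4
(`Fin.sum_univ_succ`, `List.get`, `List.set`, `Function.update` on `![…]`).
The equation `KSAt g 2`, applied to `e` and the list `[c,c',b,m,p]` (`Finset.Icc 1 2 = {1,2}`),
multiplied by `g_{ed}` and summed over `e`, gives `ks` on coordinate vectors; both sides are
multilinear (expand `ev`: a sum of component identities).  Last statement: if `N g I p = 0` for all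
`I` then `∑_e g_{ed} nablaR g 1 e [c,b,m,q] p = 0` for all `d`, and `g p` is invertible; and
conversely. -/
def S_Brg : Prop :=
  ∀ (n : ℕ) (g : Pt n → Matrix (Fin n) (Fin n) ℝ) (Ω : Set (Pt n)), IsMetricOn g Ω →
    (∀ t : ℕ → List (Fin n) → Pt n → ℝ, (∀ m l, ContDiffOn ℝ ∞ (t m l) Ω) →
      (∀ x ∈ Ω, KSAt g 2 (fun m l => t m l x) x) →
      KS2 g Ω (fun I => t 1 [I 0]) (fun I => t 2 [I 0, I 1])) ∧
    ∀ p ∈ Ω, ((∃ a c b m q, nablaR g 1 a [c, b, m, q] p ≠ 0) ↔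
      ∃ a u v w z, e5 (N g) p a u v w z ≠ 0)

/-! ## B. the case `t₂ ≠ 0` -/

/-- **Q1** (equation (II) and its derivative (II')).  Available: `S_Bi3`, `S_Bi2`, `S_CvE`, `S_Cvb`,
`S_Lin`, `S_Smo`.  Proof.  (II): cyclic sum over `(b,c,d)` of the equation `ks` for
`N2(a,b;c,d,w,z)`: the sums of `N2` (`S_Bi3`) and of `N` (`S_Bi2`) vanish.  (II'): differentiate (II) at
`x` along `X` with parallel curves for `a, b, c, d, w, z` (`S_CvE` for rank 2 and rank 4, product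
rule), `N g = D g (R4 g)`. -/
def S_Q1 : Prop :=
  ∀ (n : ℕ) (g : Pt n → Matrix (Fin n) (Fin n) ℝ) (Ω : Set (Pt n)) (t1 : TF n 1) (t2 : TF n 2),
    KS2 g Ω t1 t2 → ∀ x ∈ Ω, ∀ X a b c d w z,
      e2 t2 x a b * e4 (R4 g) x c d w z + e2 t2 x a c * e4 (R4 g) x d b w z
        + e2 t2 x a d * e4 (R4 g) x b c w z = 0 ∧
      e3 (D g t2) x X a b * e4 (R4 g) x c d w z + e3 (D g t2) x X a c * e4 (R4 g) x d b w z
        + e3 (D g t2) x X a d * e4 (R4 g) x b c w z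
        + (e2 t2 x a b * e5 (N g) x X c d w z + e2 t2 x a c * e5 (N g) x X d b w z
          + e2 t2 x a d * e5 (N g) x X b c w z) = 0

/-- **QR** (Ricci identity with the equation inserted).  Available: `S_Ric`, `S_Smo`.  Proof: the
Ricci identity for `R4 g` (rank 4, `![x,y,c,d,e,f] = Fin.cons x (Fin.cons y ![c,d,e,f])`, the sum over
`j` has four terms), and `ks` twice. -/
def S_QR : Prop :=
  ∀ (n : ℕ) (g : Pt n → Matrix (Fin n) (Fin n) ℝ) (Ω : Set (Pt n)) (t1 : TF n 1) (t2 : TF n 2),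
    KS2 g Ω t1 t2 → ∀ p ∈ Ω, ∀ x y c d e f,
      act4 (Rv g p x y) (e4 (R4 g) p) c d e f
        = -(e1 t1 p x * e5 (N g) p y c d e f) + e1 t1 p y * e5 (N g) p x c d e f
          - (e2 t2 p x y - e2 t2 p y x) * e4 (R4 g) p c d e f

/-- **LemL** (a linear algebra lemma).  `H` symmetric and linear in each slot on the set `P`
(a subspace, given as a predicate) and not of rank `≤ 1` there; if `v(c) H(d,z) = v(d) H(c,z)` on `P`
then `v = 0` on `P`.  Proof: if `v(c₀) ≠ 0` then `H(d,z) = v(d) H(c₀,z)/v(c₀)` and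
`H(c₀,z) = H(z,c₀) = v(z) H(c₀,c₀)/v(c₀)`, so `H(d,z) = v(d) v(z) h` with `h = H(c₀,c₀)/v(c₀)²`: then
`H(a,b) H(c,d) = H(a,d) H(c,b)` on `P`, a contradiction.  (No linearity is needed.) -/
def S_LemL : Prop :=
  ∀ (V : Type) (P : V → Prop) (H : V → V → ℝ) (v : V → ℝ),
    (∀ a b, H a b = H b a) →
    (∃ a b c d, P a ∧ P b ∧ P c ∧ P d ∧ H a b * H c d ≠ H a d * H c b) →
    (∀ c d z, P c → P d → P z → v c * H d z = v d * H c z) → ∀ c, P c → v c = 0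

/-- **A3a** (structure of `R` at a point with `t₂ ≠ 0`).  Put `τ = t2 a₀`, `D = ker τ`,
`H(a,b) = R(T,a,T,b)`.  Existence of `T`: Riesz gives `T'` with `B(T',v) = τ(v)`, `τ ≠ 0` so `T' ≠ 0`
and `B(T',T') > 0`, `τ(T') = B(T',T')`; put `T = T'/B(T',T')`: `τ(T) = 1`,
`B(T,v) = τ(v)/B(T',T')`, `B(T,T) = 1/B(T',T')`.
(1) (ii) with `a = a₀`, `b = T`, `c, d ∈ D`: `R(c,d,w,z) = 0`.  By `sw` also `R(w,z,c,d) = 0`.
(2) for arbitrary `u, v`: `u = τ(u) T + u'`, `u' = u - τ(u) T ∈ D`, so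
`R(u,v,w,z) = τ(u) R(T,v',w,z) - τ(v) R(T,u',w,z) = R(T, τ(u) v - τ(v) u, w, z)` (`R(T,T,…) = 0`), and
the same in the last two slots: `R(u,v,w,z) = H(τ(u)v - τ(v)u, τ(w)z - τ(z)w)`; here
`τ(u)v - τ(v)u ∈ D`.  (3) So if `H(a,b)H(c,d) = H(a,d)H(c,b)` on `D` then `RkOne R`.
(4) (ii') with `a = a₀`, `b = T`, `c, d ∈ D`, by (1):
`M(X;c,d,w,z) = β(X,a₀,c) R(T,d,w,z) - β(X,a₀,d) R(T,c,w,z)` (the term with `β(X,a₀,T)` has the factor
`R(c,d,…) = 0`; `R(d,T) = -R(T,d)`; `t2 a₀ T = 1`).  (5) `M(X;c,d,e,f) = 0` on `D`. -/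
def S_A3a : Prop :=
  ∀ (V : Type) [AddCommGroup V] [Module ℝ V] (B : V → V → ℝ) (R : V → V → V → V → ℝ)
    (Ro : V → V → V → V) (M : V → V → V → V → V → ℝ) (t1 : V → ℝ) (t2 : V → V → ℝ)
    (β : V → V → V → ℝ), A3H B R Ro M t1 t2 β →
    (∀ a₀ b, t2 a₀ b ≠ 0 → ∃ T, A3T B t2 a₀ T) ∧
    ∀ a₀ T, A3T B t2 a₀ T →
      (0 < B T T) ∧
      (∀ c d w z, t2 a₀ c = 0 → t2 a₀ d = 0 → R c d w z = 0) ∧
      ((∀ a b c d, t2 a₀ a = 0 → t2 a₀ b = 0 → t2 a₀ c = 0 → t2 a₀ d = 0 →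
        R T a T b * R T c T d = R T a T d * R T c T b) → RkOne R) ∧
      (∀ X c d w z, t2 a₀ c = 0 → t2 a₀ d = 0 →
        M X c d w z = β X a₀ c * R T d w z - β X a₀ d * R T c w z) ∧
      ∀ X c d e f, t2 a₀ c = 0 → t2 a₀ d = 0 → t2 a₀ e = 0 → t2 a₀ f = 0 → M X c d e f = 0

/-- **A3b** (consequences of the Ricci identity if `H` has rank `≥ 2` on `D`).  Available: `S_LemL`,
`S_A3a`.  Notation as in `A3a`; assume that `H` is not of rank `≤ 1` on `D`.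
(1) (ii) with `b, c ∈ D`, `d = T`, `(w,z) = (T,z)`, `z ∈ D`, arbitrary `a`: `R(b,c,…) = 0`,
`-t2(a,b) H(c,z) + t2(a,c) H(b,z) = 0`, so `t2(a,·) = 0` on `D` by Lemma L.
(2) `x, y ∈ D`: `R(x,y,v,z) = 0` for all `v, z`, so `Ro x y v = 0` (`B(Ro x y v, Ro x y v) = 0`), the
left side of (qr) vanishes (linearity) and `t2(x,y) = t2(y,x) = 0` by (1); so
`t1(x) M(y;…) = t1(y) M(x;…)`.  On `(c,d,T,z)`, `c,d,z ∈ D`, by `A3a` (4):
`(t1(x)β_y(c) - t1(y)β_x(c)) H(d,z) = (t1(x)β_y(d) - t1(y)β_x(d)) H(c,z)` with `β_x(c) = β(x,a₀,c)`, so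
`t1(x)β_y(c) = t1(y)β_x(c)` for `x,y,c ∈ D`.
(3) (qr) for `(x,T)`, `x ∈ D`, evaluated on `(c,d,T,z)`, `c,d,z ∈ D`.  `R(c,d,T,z) = 0`.  For `c ∈ D`:
`B(Ro x T c, z) = R(x,T,c,z) = 0` for `z ∈ D` and `B(Ro x T c, T) = R(x,T,c,T) = H(x,c)`, so
`Ro x T c = (H(x,c)/|T|²) T`, `|T|² = B(T,T)` (both sides have the same inner product with `D` and
with `T`, hence with all vectors `v = τ(v)T + v'`; `B(T, z) = 0` for `z ∈ D`).  The terms of `act4` with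
`Ro x T T` and `Ro x T z` vanish because `R(c,d,·,·) = 0`.  So the left side is
`-(H(x,c)H(d,z) - H(x,d)H(c,z))/|T|²` (`R(T,d,T,z) = H(d,z)`, `R(c,T,T,z) = -H(c,z)`), and the right
side is `-t1(x)(β_T(c)H(d,z) - β_T(d)H(c,z)) + t1(T)(β_x(c)H(d,z) - β_x(d)H(c,z))`.  Lemma L for
`v(c) = H(x,c)/|T|² - t1(x)β_T(c) + t1(T)β_x(c)`. -/
def S_A3b : Prop :=
  ∀ (V : Type) [AddCommGroup V] [Module ℝ V] (B : V → V → ℝ) (R : V → V → V → V → ℝ)
    (Ro : V → V → V → V) (M : V → V → V → V → V → ℝ) (t1 : V → ℝ) (t2 : V → V → ℝ)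
    (β : V → V → V → ℝ), A3H B R Ro M t1 t2 β → ∀ a₀ T, A3T B t2 a₀ T →
    (∃ a b c d, t2 a₀ a = 0 ∧ t2 a₀ b = 0 ∧ t2 a₀ c = 0 ∧ t2 a₀ d = 0 ∧
      R T a T b * R T c T d ≠ R T a T d * R T c T b) →
    (∀ x y c, t2 a₀ x = 0 → t2 a₀ y = 0 → t2 a₀ c = 0 →
      t1 x * β y a₀ c = t1 y * β x a₀ c) ∧
    ∀ x c, t2 a₀ x = 0 → t2 a₀ c = 0 →
      R T x T c = B T T * (t1 x * β T a₀ c - t1 T * β x a₀ c)

/-- **A3** (`R` has rank one at every point with `t₂ ≠ 0`).  Available: `S_A3a`, `S_A3b`.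
Proof: choose `a₀, T` by `A3a`; by `A3a` (3) it is enough that `H` has rank `≤ 1` on `D`.  Suppose
not, so `A3b` applies; `H(x,c) = |T|²(t1(x)β_T(c) - t1(T)β_x(c))` on `D`.
Case 1: `t1(x₀) ≠ 0` for some `x₀ ∈ D`.  Then `β_y(c) = t1(y) β_{x₀}(c)/t1(x₀)`, so
`H(x,c) = t1(x) ξ(c)` on `D` with `ξ(c) = |T|²(β_T(c) - t1(T)β_{x₀}(c)/t1(x₀))`: rank `≤ 1`,
contradiction.  Case 2: `t1 = 0` on `D`: `H(x,c) = -|T|² t1(T) β_x(c)`, put `κ = |T|² t1(T)`.  Second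
Bianchi identity for `(X,c,T)` with `X,c ∈ D`, evaluated on `(y,z)`, `y,z ∈ D`:
`M(X;c,T,y,z) + M(c;T,X,y,z) + M(T;X,c,y,z) = 0`, the last is `0` (`A3a` (5)); by `sw`, `a34` and
`A3a` (4) `M(X;c,T,y,z) = M(X;y,z,c,T) = -M(X;y,z,T,c) = -(β_X(y)H(z,c) - β_X(z)H(y,c))` and
`M(c;T,X,y,z) = M(c;y,z,T,X) = β_c(y)H(z,X) - β_c(z)H(y,X)`.  Multiply by `-κ` and insert
`-κβ_x(c) = H(x,c)`: `-(H(X,y)H(z,c) - H(X,z)H(y,c)) + H(c,y)H(z,X) - H(c,z)H(y,X) = 0`, i.e.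
`2 H(c,y)H(z,X) = 2 H(c,z)H(y,X)` by the symmetry of `H`: rank `≤ 1`, contradiction. -/
def S_A3 : Prop :=
  ∀ (V : Type) [AddCommGroup V] [Module ℝ V] (B : V → V → ℝ) (R : V → V → V → V → ℝ)
    (Ro : V → V → V → V) (M : V → V → V → V → V → ℝ) (t1 : V → ℝ) (t2 : V → V → ℝ)
    (β : V → V → V → ℝ), A3H B R Ro M t1 t2 β → (∃ a b, t2 a b ≠ 0) → RkOne R

/-- **P3** (`R` has rank one where `t₂ ≠ 0`).  Available: `S_A3`, `S_Q1`, `S_QR`, `S_Sym`, `S_Bi2`,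
`S_Onb`, `S_Lin`.  Proof: the data at `x` satisfy `A3H` with `B = ip g x`, `R = e4 (R4 g) x`,
`Ro = Rv g x`, `M = e5 (N g) x`, `t1 = e1 t1 x`, `t2 = e2 t2 x`, `β = e3 (D g t2) x`. -/
def S_P3 : Prop :=
  ∀ (n : ℕ) (g : Pt n → Matrix (Fin n) (Fin n) ℝ) (Ω : Set (Pt n)) (t1 : TF n 1) (t2 : TF n 2),
    KS2 g Ω t1 t2 → ∀ x ∈ Ω, (∃ a b, e2 t2 x a b ≠ 0) → RkOne (e4 (R4 g) x)

/-- **A4** (algebra: `M` is proportional to `R`).  Proof.  From (ro) with `C = B`, `D = A`: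
`R_AB² = R_AA R_BB` (symmetry).  If all `R_AA = 0` then `R = 0` and both sides vanish.  Otherwise fix
`0` with `r = R_00 ≠ 0`; `q_A = R_A0`, `m = M_00`, `s_A = M_A0`.  (ro) with `C = D = 0`:
`R_AB r = q_A q_B`.  (ro') with `C = D = 0`: `M_AB r + R_AB m = s_A q_B + q_A s_B`.  (no) with
`C = D = 0`: `M_AB m = s_A s_B`.  With `A = B`, times `r` etc.: `r² s_A² = r² m M_AA =
r m (2 s_A q_A) - m² q_A²` (use `r² M_AA = 2 r s_A q_A - m q_A²`), so `(r s_A - m q_A)² = 0` and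
`r s_A = m q_A`.  So `r² M_AB = r s_A q_B + r q_A s_B - m q_A q_B = m q_A q_B = m r R_AB`, i.e.
`r M_AB = m R_AB` for all `A, B`, and so `r M_AB R_CD = m R_AB R_CD = r M_CD R_AB`. -/
def S_A4 : Prop :=
  ∀ (ι : Type) (R M : ι → ι → ℝ), (∀ A B, R A B = R B A) → (∀ A B, M A B = M B A) →
    (∀ A B C D, R A B * R C D = R A D * R C B) →
    (∀ A B C D, M A B * R C D + R A B * M C D = M A D * R C B + R A D * M C B) →
    (∀ A B C D, M A B * M C D = M A D * M C B) →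
    ∀ A B C D, M A B * R C D = M C D * R A B

/-- **P4** (`∇_X R` is proportional to `R` where `t₂ ≠ 0`).  Available: `S_P3`, `S_A4`, `S_CvE`,
`S_Cvb`, `S_Lin`, `S_Smo`, `S_Sym`, `S_Bi2`.
Proof.  `G = {x ∈ Ω : t₂ ≠ 0}` is open (components of `t2` are continuous on `Ω`), and `R` has rank
one on `G`.  Write `A = (a,a')` etc., `R_AB = R(a,a',b,b')`, `N_{X,AB} = N(X;a,a',b,b')`.  Differentiate
`R_AB R_CD = R_AD R_CB` at `x ∈ G` along `Y` with parallel curves (also for the vectors):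
(RO') `N_{Y,AB} R_CD + R_AB N_{Y,CD} = N_{Y,AD} R_CB + R_AD N_{Y,CB}`.  This holds on `G` for all `Y`, and
can be differentiated along `X` (with a parallel curve through `Y`):
(RO'') `N2_{XY,AB} R_CD + N_{Y,AB} N_{X,CD} + N_{X,AB} N_{Y,CD} + R_AB N2_{XY,CD} = (the same with B, D
exchanged)`.  Insert `ks`: `N2_{XY} = -t1(X) N_Y - t2(X,Y) R`: the terms with `N2` give
`-t1(X)·(RO' for Y) - 2 t2(X,Y)·(RO)`, equal on both sides.  With `Y = X`: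
`N_{X,AB} N_{X,CD} = N_{X,AD} N_{X,CB}`.  Apply `A4` with `ι = Pt n × Pt n`. -/
def S_P4 : Prop :=
  ∀ (n : ℕ) (g : Pt n → Matrix (Fin n) (Fin n) ℝ) (Ω : Set (Pt n)) (t1 : TF n 1) (t2 : TF n 2),
    KS2 g Ω t1 t2 → ∀ x ∈ Ω, (∃ a b, e2 t2 x a b ≠ 0) → ∀ X a a' b b' c c' d d',
      e5 (N g) x X a a' b b' * e4 (R4 g) x c c' d d'
        = e5 (N g) x X c c' d d' * e4 (R4 g) x a a' b b'

/-! ## C. the case `t₂ = 0` -/

/-- **Skw** (skew endomorphisms have no nonzero real eigenvalue on tensors).  Available: `S_Onb`,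
`S_Lin`.  Proof: let `e_i` be an orthonormal basis, `Φ_{si} = ip (Φ e_i) e_s`, `Φ e_i = ∑_s Φ_{si} e_s`,
`Φ_{si} = -Φ_{is}`.  Put `t_I = ev T x (e ∘ I)`.  The hypothesis for `v = e ∘ I`, times `t_I`, summed
over `I`: `∑_j ∑_I ∑_s Φ_{s,I_j} t_{update I j s} t_I = c ∑_I t_I²`.  For fixed `j` the involution
`(I,s) ↦ (update I j s, I j)` changes the sign of the terms (`Φ_{s,I_j} t_{update I j s} t_I`), so the
left side is `0`.  So `c = 0` or all `t_I = 0`, and then `ev T x = 0` by multilinearity (expand every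
vector in the basis; e.g. `MultilinearMap` extensionality on a basis, or induction on the number of
slots). -/
def S_Skw : Prop :=
  ∀ (n : ℕ) (g : Pt n → Matrix (Fin n) (Fin n) ℝ) (x : Pt n), (g x).PosDef →
    ∀ (k : ℕ) (T : TF n k) (Φ : Pt n → Pt n) (c : ℝ),
      (∀ u v, ip g x (Φ u) v = -ip g x u (Φ v)) →
      (∀ v : Fin k → Pt n, ∑ j, ev T x (Function.update v j (Φ (v j))) = c * ev T x v) →
      c = 0 ∨ ∀ v, ev T x v = 0

/-- **P5a** (first consequences of `∇²R = σ ⊗ ∇R`, `σ = -t₁`).  Available: `S_QR`, `S_Ric`, `S_Crv`,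
`S_CvE`, `S_Cvb`, `S_Lin`, `S_Smo`, `S_Sym`, `S_Skw`.
Proof.  First statement: `S_QR`.  Now let `A = N2 g = D g (N g)`; on `Ω` `A(y;v) = -t1(y) N(v)` for
`v = (z,c,d,e,f)`.  Differentiate at `p` along `X` with parallel curves (curve lemma `S_Crv`, rank 6):
`(D A)(X,Y,v) = -(D t1)(X,Y) N(v) - t1(Y) A(X,v) = (-(D t1)(X,Y) + t1(X) t1(Y)) N(v)`.  By the Ricci
identity for `N g` (rank 5): `(D A)(X,Y,v) - (D A)(Y,X,v) = act5 (Rv g p X Y) N (v)`.  So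
`act5 (Rv g p X Y) N = -((D t1)(X,Y) - (D t1)(Y,X)) N`.  `Rv g p X Y` is skew (`S_Sym`), so by `Skw`
(rank 5) the factor is `0` or `N = 0` at `p`; in both cases `act5 (Rv g p X Y) N = 0`, and if `N ≠ 0`
at `p` then `(D t1)(X,Y) = (D t1)(Y,X)`, so `hT` is symmetric. -/
def S_P5a : Prop :=
  ∀ (n : ℕ) (g : Pt n → Matrix (Fin n) (Fin n) ℝ) (Ω : Set (Pt n)) (t1 : TF n 1) (t2 : TF n 2),
    KS2 g Ω t1 t2 → (∀ x ∈ Ω, ∀ a b, e2 t2 x a b = 0) → ∀ p ∈ Ω,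
      (∀ x y c d e f, act4 (Rv g p x y) (e4 (R4 g) p) c d e f
        = -(e1 t1 p x * e5 (N g) p y c d e f) + e1 t1 p y * e5 (N g) p x c d e f) ∧
      (∀ x y a c d e f, act5 (Rv g p x y) (e5 (N g) p) a c d e f = 0) ∧
      ((∃ a u v w z, e5 (N g) p a u v w z ≠ 0) → ∀ x y, e2 (hT g t1) p x y = e2 (hT g t1) p y x)

/-- **P5b** (the next two derivatives).  Available: `S_P5a`, `S_CvE`, `S_CvR`, `S_Cvb`, `S_Lin`,
`S_Smo`, `S_Up`, `S_Opn`.
Notation: `N_z = N(z;·,·,·,·)`; `h = hT g t1`, i.e. `h(z,x) = -(D t1)(z,x) + t1(z)t1(x)`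
(`e2 (hT g t1) p z x = -(e2 (D g t1) p z x) + e1 t1 p z * e1 t1 p x`, expand).
(α') Differentiate the first statement of `P5a` at `p` along `z`, with parallel curves through
`x,y,c,d,e,f`: the curve `Rv (x,y,c)` has covariant derivative `Nv z x y c` (`S_CvR`), so the left side
gives `act4 (Nv g p z x y) R (c,d,e,f) + act4 (Rv g p x y) N_z (c,d,e,f)`, and by the second statement
of `P5a` `act4 (Rv g p x y) N_z (c,d,e,f) = act5 (…)(z,c,…) + N(R(x,y)z; c,d,e,f) = N(Rv g p x y z; c,…)`.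
Right side: `-(D t1)(z,x) N_y - t1(x) N2(z,y;…) + (D t1)(z,y) N_x + t1(y) N2(z,x;…)` with
`N2(z,y;…) = -t1(z) N_y` (`ks`, `t₂ = 0`): `h(z,x) N_y - h(z,y) N_x`.
(β') Differentiate the second statement of `P5a` at `p` along `z`:
`act5 (Nv g p z x y) N (a,c,d,e,f) + act5 (Rv g p x y) (N2(z,·;…))(a,c,d,e,f) = 0` and the second term is
`-t1(z) act5 (Rv g p x y) N = 0`. -/
def S_P5b : Prop :=
  ∀ (n : ℕ) (g : Pt n → Matrix (Fin n) (Fin n) ℝ) (Ω : Set (Pt n)) (t1 : TF n 1) (t2 : TF n 2),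
    KS2 g Ω t1 t2 → (∀ x ∈ Ω, ∀ a b, e2 t2 x a b = 0) → ∀ p ∈ Ω,
      (∀ z x y c d e f, act4 (Nv g p z x y) (e4 (R4 g) p) c d e f
          + e5 (N g) p (Rv g p x y z) c d e f
        = e2 (hT g t1) p z x * e5 (N g) p y c d e f - e2 (hT g t1) p z y * e5 (N g) p x c d e f) ∧
      ∀ z x y a c d e f, act5 (Nv g p z x y) (e5 (N g) p) a c d e f = 0

/-- **P5c** (the key identity).  Available: `S_P5b`, `S_CvE`, `S_CvR`, `S_Cvb`, `S_Lin`, `S_Smo`,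
`S_Up`, `S_Opn`.  Proof: differentiate (α') (first statement of `P5b`) at `p` along `w` with parallel
curves.  Left side: the curve `Nv (z,x,y,c)` has covariant derivative
`N2v w z x y c = -t1(w) Nv z x y c` (`S_Opn`, `ks` with `t₂ = 0`, nondegeneracy), so
`act4 (Nv z x y) R` gives `-t1(w) act4 (Nv z x y) R + act4 (Nv z x y) N_w`, and by (β')
`act4 (Nv z x y) N_w (c,d,e,f) = N(Nv z x y w; c,d,e,f)`; `N(Rv x y z; …)` gives
`N2(w, Rv x y z; …) + N(Nv w x y z; …) = -t1(w) N(Rv x y z;…) + N(Nv w x y z;…)`.  Right side: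
`(D h)(w,z,x) N_y - (D h)(w,z,y) N_x - t1(w)(h(z,x) N_y - h(z,y) N_x)`.  Subtract `-t1(w)`·(α'). -/
def S_P5c : Prop :=
  ∀ (n : ℕ) (g : Pt n → Matrix (Fin n) (Fin n) ℝ) (Ω : Set (Pt n)) (t1 : TF n 1) (t2 : TF n 2),
    KS2 g Ω t1 t2 → (∀ x ∈ Ω, ∀ a b, e2 t2 x a b = 0) → ∀ p ∈ Ω, ∀ w z x y c d e f,
      e5 (N g) p (Nv g p z x y w) c d e f + e5 (N g) p (Nv g p w x y z) c d e f
        = e3 (D g (hT g t1)) p w z x * e5 (N g) p y c d e f
          - e3 (D g (hT g t1)) p w z y * e5 (N g) p x c d e f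

/-- **A5a** (the kernel of `a ↦ M_a`).  Let `K₀ = {a : M(a;·,·,·,·) = 0}` (a subspace).
(1) For `a ∈ K₀` and all `z,x,y`: `Mo z x y a ∈ K₀`: (pr) with this `a`: the four terms
`M(a; …)` vanish, so `M(Mo z x y a; c,d,e,f) = 0`.
(2) Let `E = {e : B(e,a) = 0 for all a ∈ K₀}`.  For `a ∈ K₀`, `e ∈ E`:
`M(z;x,y,a,e) = B(Mo z x y a, e) = 0`; by `sw` `M(z;a,e,x,y) = 0` for all `x, y`.
(3) For `a, b ∈ K₀`: `bi2` gives `M(z;a,b,u,v) = -M(a;b,z,u,v) - M(b;z,a,u,v) = 0`.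
(4) Every `v` is `u + e` with `u ∈ K₀`, `e ∈ E` (`ort`), so `M(z;a,v,x,y) = 0` for `a ∈ K₀`: `M` vanishes
as soon as one of its five arguments is in `K₀` (symmetries `a12`, `sw`, `a34`). -/
def S_A5a : Prop :=
  ∀ (V : Type) [AddCommGroup V] [Module ℝ V] (B : V → V → ℝ) (M : V → V → V → V → V → ℝ)
    (Mo : V → V → V → V → V) (k : V → V → V → ℝ), A5H B M Mo k →
    ∀ a, (∀ c d e f, M a c d e f = 0) →
      ∀ z x y w, M z a x y w = 0 ∧ M z x a y w = 0 ∧ M z x y a w = 0 ∧ M z x y w a = 0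

/-- **A5b** (the vector identity on `E`).  Available: `S_A5a`.  Let
`E = {e : B(e,a) = 0 for all a with M_a = 0}`.  For `w,z,x,y ∈ E` put
`q = Mo z x y w + Mo w x y z - k(w,z,x) y + k(w,z,y) x`.  By (d2) and linearity `M_q = 0`.  And `q ∈ E`:
for `a` with `M_a = 0`, `B(Mo z x y w, a) = M(z;x,y,w,a) = 0` by `A5a`, and `x, y ∈ E`.  So
`B(q,q) = 0`, `q = 0`. -/
def S_A5b : Prop :=
  ∀ (V : Type) [AddCommGroup V] [Module ℝ V] (B : V → V → ℝ) (M : V → V → V → V → V → ℝ)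
    (Mo : V → V → V → V → V) (k : V → V → V → ℝ), A5H B M Mo k →
    ∀ w z x y, (∀ a, (∀ c d e f, M a c d e f = 0) → B w a = 0) →
      (∀ a, (∀ c d e f, M a c d e f = 0) → B z a = 0) →
      (∀ a, (∀ c d e f, M a c d e f = 0) → B x a = 0) →
      (∀ a, (∀ c d e f, M a c d e f = 0) → B y a = 0) →
      Mo z x y w + Mo w x y z = k w z x • y - k w z y • x

/-- **A5k** (`k = 0`).  `P` is a subspace (given as a predicate), `k` trilinear and symmetric in the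
last two slots, `B` an inner product; for `w,z,x,y ∈ P`
(1) `k(w,z,x) y - k(w,z,y) x` is unchanged when `w` and `z` are exchanged;
(2) `k(z,z,x) B(y,z) = k(z,z,y) B(x,z)`.
If `P` contains two linearly independent vectors, given in the form: for every `x ∈ P` there is
`y ∈ P`, `y ≠ 0`, with `B(x,y) = 0`, then `k = 0` on `P`.
Proof.  (a) `k` is symmetric in the first two slots on `P`: let `w,z,x ∈ P`.  If `x = 0` clear.
Otherwise choose `y ≠ 0` in `P` with `B(x,y) = 0`; (1) says `(k(w,z,x) - k(z,w,x)) y =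
(k(w,z,y) - k(z,w,y)) x`; take the inner product with `y`: `(k(w,z,x) - k(z,w,x)) B(y,y) = 0`.  So `k` is
totally symmetric on `P`.  (b) If `B(x,z) = 0`, `z ≠ 0` then (2) with `y = z`:
`k(z,z,x) B(z,z) = k(z,z,z) B(x,z) = 0`, so `k(z,z,x) = 0`; for `z = 0` also.  (c) Let `z ∈ P`,
`z ≠ 0`; choose `x ∈ P`, `x ≠ 0`, `B(x,z) = 0`, and rescale `x` so that `B(x,x) = B(z,z)` (divide by
square roots).  For every real `s` the vectors `z + s x` and `x - s z` are orthogonal, so by (b)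
`0 = k(z+sx, z+sx, x-sz)`; expand with total symmetry and `k(z,z,x) = 0 = k(x,x,z)`:
`= s² k(x,x,x) - s k(z,z,z)`.  With `s = 1` and `s = -1`: `k(z,z,z) = 0`.  (d) A totally symmetric
trilinear form with `k(z,z,z) = 0` for all `z ∈ P` vanishes on `P`: polarisation,
`6 k(x,y,z) = k(x+y+z,…) - k(x+y,…) - k(y+z,…) - k(x+z,…) + k(x,…) + k(y,…) + k(z,…)` (cubes). -/
def S_A5k : Prop :=
  ∀ (V : Type) [AddCommGroup V] [Module ℝ V] (B : V → V → ℝ) (k : V → V → V → ℝ)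
    (P : Submodule ℝ V), IP B → (∀ z x, Lin1 fun w => k w z x) → (∀ w x, Lin1 fun z => k w z x) →
    (∀ w z, Lin1 fun x => k w z x) → (∀ w z x, k w z x = k w x z) →
    (∀ w ∈ P, ∀ z ∈ P, ∀ x ∈ P, ∀ y ∈ P, k w z x • y - k w z y • x = k z w x • y - k z w y • x) →
    (∀ z ∈ P, ∀ x ∈ P, ∀ y ∈ P, k z z x * B y z = k z z y * B x z) →
    (∀ x ∈ P, ∃ y ∈ P, y ≠ 0 ∧ B x y = 0) →
    ∀ w ∈ P, ∀ z ∈ P, ∀ x ∈ P, k w z x = 0

/-- **A5** (`M = 0`).  Available: `S_A5a`, `S_A5b`, `S_A5k`.  Proof.  `K₀ = {a : M_a = 0}` and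
`E = {e : B(e,a) = 0 ∀ a ∈ K₀}` are subspaces.  By `A5a` and the decomposition `v = u + e` (`ort`) it is
enough that `M` vanishes for arguments in `E` (replace the arguments one by one: the difference of
`v` and its `E`-component is in `K₀`; for the first argument: `M_u = 0` for `u ∈ K₀`).
Case 1: for every `x ∈ E` there is `y ∈ E`, `y ≠ 0`, `B(x,y) = 0`.  By `A5b` (its left side is symmetric
under exchange of `w` and `z`) hypothesis (1) of `A5k` holds; (2): `A5b` with `w = z`, inner product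
with `z`: `2 B(Mo z x y z, z) = 2 M(z;x,y,z,z) = 0` (`a34`) `= k(z,z,x)B(y,z) - k(z,z,y)B(x,z)`.  So
`k = 0` on `E` and `Mo z x y w = -Mo w x y z` on `E`, i.e. `M(z;x,y,w,v) = -M(w;x,y,z,v)` on `E`.
With `sw`, `a12`, `a34`: `M(z;x,y,w,v) = M(z;w,v,x,y) = -M(x;w,v,z,y) = -M(x;z,y,w,v)`: antisymmetric
under the exchange of `z, x`; also under `w, v` and under `x, y`, and under `z, w`.  So
`M(z;x,y,w,v) = -M(w;x,y,z,v) = M(x;w,y,z,v) = -M(z;w,y,x,v)`: antisymmetric in `x, w`.  First Bianchi: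
`M(z;x,y,w,v) + M(z;y,w,x,v) + M(z;w,x,y,v) = 0`, and `M(z;y,w,x,v) = -M(z;w,y,x,v) = M(z;x,y,w,v)`,
`M(z;w,x,y,v) = -M(z;x,w,y,v)`, and antisymmetry in `y, w` (from that in `x, w` and `x, y`):
`= M(z;x,y,w,v)`.  So `3 M = 0`.
Case 2: there is `x₀ ∈ E` such that every `y ∈ E` with `B(x₀,y) = 0` is `0`.  Then every `y ∈ E` is a
multiple of `x₀`: if `x₀ = 0` then `E = 0` (`B(0,y) = 0`); otherwise
`y - (B(x₀,y)/B(x₀,x₀)) x₀ = 0`.  So `M(z;x,y,…) = 0` for `x, y ∈ E` by `a12`. -/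
def S_A5 : Prop :=
  ∀ (V : Type) [AddCommGroup V] [Module ℝ V] (B : V → V → ℝ) (M : V → V → V → V → V → ℝ)
    (Mo : V → V → V → V → V) (k : V → V → V → ℝ), A5H B M Mo k →
    ∀ a b c d e, M a b c d e = 0

/-- **P5** (the case `t₂ = 0`: locally symmetric).  Available: `S_A5`, `S_P5a`, `S_P5b`, `S_P5c`,
`S_Onb`, `S_Bi2`, `S_Opn`, `S_Lin`, `S_Smo`, `S_CvE`, `S_Cvb`.
Proof: suppose `N ≠ 0` at some point of `U`, and let `U' ⊆ U` be the set of points with `N ≠ 0`, which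
is open (continuity of the components of `N`).  On `U'` `h = hT g t1` is symmetric (`P5a`), so
`(D h)(w,z,x) = (D h)(w,x,z)` at points of `U'` (differentiate along parallel curves, `S_CvE` rank 2).
So at a point `p ∈ U'` the data `B = ip g p`, `M = e5 (N g) p`, `Mo = Nv g p`, `k = e3 (D g h) p` satisfy
`A5H`; `A5` gives `N = 0` at `p`, a contradiction. -/
def S_P5 : Prop :=
  ∀ (n : ℕ) (g : Pt n → Matrix (Fin n) (Fin n) ℝ) (U : Set (Pt n)) (t1 : TF n 1) (t2 : TF n 2),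
    KS2 g U t1 t2 → (∀ x ∈ U, ∀ a b, e2 t2 x a b = 0) →
      ∀ x ∈ U, ∀ a u v w z, e5 (N g) x a u v w z = 0

/-! ## D. conclusion -/

/-- the good set -/
def Gset {n : ℕ} (g : Pt n → Matrix (Fin n) (Fin n) ℝ) (Ω : Set (Pt n)) (t2 : TF n 2) :
    Set (Pt n) :=
  {x | x ∈ Ω ∧ (∃ a u v w z, e5 (N g) x a u v w z ≠ 0) ∧ (∃ a b, e2 t2 x a b ≠ 0) ∧
    ∃ u v w z, e4 (R4 g) x u v w z ≠ 0}

/-- **Den** (density of the good set).  Available: `S_P5`, `S_Smo`, `S_Lin`.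
Proof: `Gset` is open: each of the three conditions says that some component is `≠ 0`, components
are continuous on the open set `Ω`.  Density: let `p ∈ Ω`, `N ≠ 0` at `p`, and `W` an open set
containing `p`; let `W' = {x ∈ W ∩ Ω : N ≠ 0}`, open, contains `p`.  Suppose `W' ∩ Gset = ∅`: at every
point of `W'` `t₂ = 0` or `R = 0`.  If `t₂(q) ≠ 0` for some `q ∈ W'` then `R = 0` on the open
neighbourhood `{x ∈ W' : t₂ ≠ 0}` of `q`, so all components of `R4 g` vanish near `q`, so `N = 0` at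
`q` (definition of `D`), a contradiction.  So `t₂ = 0` on `W'`, `KS2 g W' t1 t2` (restriction), `S_P5`
gives `N = 0` on `W'`, a contradiction. -/
def S_Den : Prop :=
  ∀ (n : ℕ) (g : Pt n → Matrix (Fin n) (Fin n) ℝ) (Ω : Set (Pt n)) (t1 : TF n 1) (t2 : TF n 2),
    KS2 g Ω t1 t2 → IsOpen (Gset g Ω t2) ∧
      ∀ p ∈ Ω, (∃ a u v w z, e5 (N g) p a u v w z ≠ 0) → p ∈ closure (Gset g Ω t2)

/-- **Scl** (covariant derivative of the full contraction).  Available: `S_Smo`, `S_Met`, `S_Crv`,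
`S_Cvb`, `S_Lin`.
Proof: `pd m (g⁻¹)^{ik} = -∑_s Γ^i_{ms} g^{sk} - ∑_s Γ^k_{ms} g^{is}` (differentiate `g⁻¹ g = 1` and use
the last statement of `S_Met`), and
`pd m (T_{ijkl}) = (D T)_{mijkl} + ∑_s Γ^s_{mi} T_{sjkl} + Γ^s_{mj} T_{iskl} + Γ^s_{mk} T_{ijsl} +
Γ^s_{ml} T_{ijks}` by the definition of `D`.  In `∂_m (g^{ik} g^{jl} T_{ijkl})` the terms with `Γ`
cancel in pairs (rename the indices).  Contract with `X_m`. -/
def S_Scl : Prop :=
  ∀ (n : ℕ) (g : Pt n → Matrix (Fin n) (Fin n) ℝ) (Ω : Set (Pt n)), IsMetricOn g Ω →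
    ∀ p ∈ Ω, ∀ (T : TF n 4), Sm Ω T → ∀ X : Pt n,
      HasDerivAt (fun t : ℝ => scal g T (p + t • X))
        (∑ i, ∑ j, ∑ k, ∑ l, (g p)⁻¹ i k * (g p)⁻¹ j l *
          e5 (D g T) p X (bv i) (bv j) (bv k) (bv l)) 0

/-- **Nrm** (rank one tensors).  Available: `S_Lin`.  Let `g x` be positive definite.
(1) `Q(M) = ∑ g^{ik} g^{jl} M_{ij} M_{kl} ≥ 0` with equality iff `M = 0`: `g⁻¹` is positive definite,
write `g⁻¹ = Bᵀ B` with `B` invertible, then `Q(M) = ∑ (B M Bᵀ)_{ij}²`.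
(2) Let `T` be of rank one and pair symmetric, `A = (a,a')`:
`T(a,a',a,a') · scal T = ∑ g^{ik} g^{jl} T(a,a',a,a') T(i,j,k,l) =
∑ g^{ik} g^{jl} T(a,a',k,l) T(i,j,a,a') = Q(T(a,a',·,·)) ≥ 0`.
(3) If `T ≠ 0` then some `T(a,a',b,b') ≠ 0` on coordinate vectors, its square is
`T(a,a',a,a') T(b,b',b,b')`, so `T(a,a',a,a') ≠ 0`, and `Q(T(a,a',·,·)) > 0`, so `scal T ≠ 0`. -/
def S_Nrm : Prop :=
  ∀ (n : ℕ) (g : Pt n → Matrix (Fin n) (Fin n) ℝ) (x : Pt n), (g x).PosDef →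
    ∀ T : TF n 4, RkOne (e4 T x) → (∀ a a' b b', e4 T x b b' a a' = e4 T x a a' b b') →
      (∀ a a', 0 ≤ e4 T x a a' a a' * scal g T x) ∧
      ((∃ a a' b b', e4 T x a a' b b' ≠ 0) → scal g T x ≠ 0 ∧
        ∃ c d : Fin n, e4 T x (bv c) (bv d) (bv c) (bv d) ≠ 0)

/-- **NN** (the `N_x` are proportional and of rank one everywhere).  Available: `S_Den`, `S_P3`,
`S_P4`, `S_Lin`, `S_Smo`.
Proof.  On `Gset`: `R ≠ 0` at `x`, so there are `0 = (c₀,c₀')`, `0' = (d₀,d₀')` with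
`r = R_{00'} ≠ 0`; by `S_P4` `N_{X,AB} = κ(X) R_AB`, `κ(X) = N_{X,00'}/r`; with `S_P3` all the products
agree: `N_{X,AB} N_{Y,CD} = κ(X)κ(Y) R_AB R_CD = κ(X)κ(Y) R_AD R_CB = N_{X,AD} N_{Y,CB}` and
`= N_{Y,AB} N_{X,CD}`.  Both sides are continuous functions of the point on `Ω` for fixed vectors, so
the identities hold on `Ω ∩ closure (Gset)`; if `N = 0` at the point they are trivial. -/
def S_NN : Prop :=
  ∀ (n : ℕ) (g : Pt n → Matrix (Fin n) (Fin n) ℝ) (Ω : Set (Pt n)) (t1 : TF n 1) (t2 : TF n 2),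
    KS2 g Ω t1 t2 → ∀ x ∈ Ω, ∀ X Y a a' b b' c c' d d',
      e5 (N g) x X a a' b b' * e5 (N g) x Y c c' d d'
          = e5 (N g) x X a a' d d' * e5 (N g) x Y c c' b b' ∧
        e5 (N g) x X a a' b b' * e5 (N g) x Y c c' d d'
          = e5 (N g) x Y a a' b b' * e5 (N g) x X c c' d d'

/-- `Π = ∇_{x₀}R / scal(∇_{x₀}R)` -/
def Pit {n : ℕ} (g : Pt n → Matrix (Fin n) (Fin n) ℝ) (x₀ : Pt n) : TF n 4 := fun I x =>
  Nc g x₀ I x / scal g (Nc g x₀) x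

/-- **Pi1** (the tensor `Π`).  Available: `S_NN`, `S_Nrm`, `S_Lin`, `S_Smo`, `S_Bi2`.
Let `f = scal g (Nc g x₀)`.  Proof: `e4 (Nc g x₀) x u v w z = e5 (N g) x x₀ u v w z` (expand the sum
over `Fin 5 → Fin n` by `Fin.consEquiv`).  (1) If `e5 (N g) p x₀ … ≠ 0` somewhere then `f(p) ≠ 0`:
`S_Nrm` for `Nc g x₀`, of rank one by `S_NN` with `X = Y = x₀`, pair symmetric by `S_Bi2`.
(2) On the open set `V₀ = {x ∈ Ω : f(x) ≠ 0}` `Π` is smooth, has the symmetries of a curvature tensor,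
rank one, and `scal Π = 1` (`scal` is linear).  -/
def S_Pi1 : Prop :=
  ∀ (n : ℕ) (g : Pt n → Matrix (Fin n) (Fin n) ℝ) (Ω : Set (Pt n)) (t1 : TF n 1) (t2 : TF n 2),
    KS2 g Ω t1 t2 → ∀ x₀ : Pt n,
      (∀ x u v w z, e4 (Nc g x₀) x u v w z = e5 (N g) x x₀ u v w z) ∧
      (∀ p ∈ Ω, (∃ u v w z, e5 (N g) p x₀ u v w z ≠ 0) → scal g (Nc g x₀) p ≠ 0) ∧
      IsOpen {x | x ∈ Ω ∧ scal g (Nc g x₀) x ≠ 0} ∧
      Sm {x | x ∈ Ω ∧ scal g (Nc g x₀) x ≠ 0} (Pit g x₀) ∧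
      ∀ x ∈ Ω, scal g (Nc g x₀) x ≠ 0 →
        Crvt (e4 (Pit g x₀) x) ∧ RkOne (e4 (Pit g x₀) x) ∧ scal g (Pit g x₀) x = 1 ∧
        ∀ u v w z, e5 (N g) x x₀ u v w z
          = scal g (Nc g x₀) x * e4 (Pit g x₀) x u v w z

/-- **Pi2** (`Π` is parallel and `R = scal(R) Π`).  Available: `S_Pi1`, `S_Den`, `S_P4`, `S_Scl`,
`S_CvE`, `S_Cvb`, `S_Lin`, `S_Smo`.
Proof.  `V₀ = {x ∈ Ω : f(x) ≠ 0}`, `f = scal g (Nc g x₀)`; at points of `V₀` `N ≠ 0` (otherwise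
`f = 0`), so `Gset ∩ V₀` is open and dense in `V₀` (`S_Den`).  Let `x ∈ Gset ∩ V₀`.  Contract
`N_{X,AB} R_CD = N_{X,CD} R_AB` (`S_P4`) over `CD` (coordinate vectors, with `g^{ik}g^{jl}`):
`N_{X,AB} scal(R) = scal(N_X) R_AB`, with `scal(N_X) = ∑ g^{ik}g^{jl} N(X;e_i,e_j,e_k,e_l)`.   (1)
`X = x₀`: `f Π_AB scal(R) = f R_AB`, so `R_AB = scal(R) Π_AB` on `Gset ∩ V₀` (and `scal R ≠ 0` there
since `R ≠ 0`).  (2)  Differentiate (2) at `x` along `X` (parallel curves; `S_Scl` for `R4 g`,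
`S_CvE`): `N_{X,AB} = scal(N_X) Π_AB + scal(R) (DΠ)_{X,AB}`.  By (1), (2) and `scal R ≠ 0`:
`N_{X,AB} = scal(N_X) Π_AB`.  So `(DΠ)_{X,AB} = 0` on `Gset ∩ V₀`.  Both (2) and `DΠ = 0` extend by
continuity to `V₀`. -/
def S_Pi2 : Prop :=
  ∀ (n : ℕ) (g : Pt n → Matrix (Fin n) (Fin n) ℝ) (Ω : Set (Pt n)) (t1 : TF n 1) (t2 : TF n 2),
    KS2 g Ω t1 t2 → ∀ x₀ : Pt n, ∀ x ∈ Ω, scal g (Nc g x₀) x ≠ 0 →
      (∀ u v w z, e4 (R4 g) x u v w z = scal g (R4 g) x * e4 (Pit g x₀) x u v w z) ∧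
      ∀ X u v w z, e5 (D g (Pit g x₀)) x X u v w z = 0

/-- **Wed** (from `Π` to the area form `w`).  Available: `S_Nrm`, `S_CvE`, `S_Cvb`, `S_Lin`, `S_Smo`.
Let `Π` be smooth on the open set `V₀`, with the symmetries of a curvature tensor, of rank one,
`scal Π = 1`, `DΠ = 0`.
Proof.  By `S_Nrm` there are indices `c, d` with `Π(c,d,c,d)(p) ≠ 0` (`Π ≠ 0` as `scal Π = 1`), and
`0 ≤ Π(c,d,c,d) scal Π`, so it is `> 0`.  Let `V = {x ∈ V₀ : Π_{cdcd}(x) > 0}`, open, `p ∈ V`, and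
`w_{ab} = √2 Π_{abcd}/√(Π_{cdcd})`, smooth on `V`.  Rank one with `(A,B) = (ab,cd)`, `(C,D) = (cd,a'b')`:
`w_{ab} w_{a'b'} = 2 Π_{abcd} Π_{a'b'cd}/Π_{cdcd} = 2 Π_{aba'b'}`.  (1)
`skew`: `a12`.  `simple`: (1) and the first Bianchi identity of `Π`.  `norm`: (1) and `scal Π = 1`.
`parallel`: let `W : TF n 2` be `W I = w (I 0) (I 1)`, so (by linearity) `e2 W a b * e2 W a' b' =
2 e4 Π a b a' b'` for all vectors on `V`.  Differentiate at `x ∈ V` along `X` with parallel curves: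
`(DW)(X,a,b) W(a',b') + W(a,b) (DW)(X,a',b') = 0`.  With `(a,b) = (a',b') = (e_c,e_d)`, where
`W(e_c,e_d) = √(2Π_{cdcd}) > 0`: `(DW)(X,e_c,e_d) = 0`; then with `(a',b') = (e_c,e_d)`:
`(DW)(X,a,b) = 0`.  On coordinate vectors this is `cov2 g w = 0` (definition of `D` with `Fin 2`,
`S_Lin`). -/
def S_Wed : Prop :=
  ∀ (n : ℕ) (g : Pt n → Matrix (Fin n) (Fin n) ℝ) (V₀ : Set (Pt n)) (P : TF n 4),
    IsMetricOn g V₀ → Sm V₀ P → (∀ x ∈ V₀, Crvt (e4 P x)) → (∀ x ∈ V₀, RkOne (e4 P x)) →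
    (∀ x ∈ V₀, scal g P x = 1) → (∀ x ∈ V₀, ∀ X u v w z, e5 (D g P) x X u v w z = 0) →
    ∀ p ∈ V₀, ∃ V ⊆ V₀, IsOpen V ∧ p ∈ V ∧ ∃ w : Fin n → Fin n → Pt n → ℝ,
      IsParallelArea g w V ∧
      ∀ x ∈ V, ∀ a b c d, w a b x * w c d x = 2 * e4 P x (bv a) (bv b) (bv c) (bv d)

/-- **Prj** (from the area form to the projection).  Available: `S_Smo`, `S_Met`.
`S_{ab} = ∑_{c,d} g^{cd} w_{ac} w_{bd}`.
Proof.  Matrices: `W = (w_{ab})`, `G = g x`; `S = W G⁻¹ Wᵀ = -W G⁻¹ W`.  Smooth, symmetric.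
`W G⁻¹ W G⁻¹ W = -W`: simplicity gives `w_{ae} w_{bf} = w_{ab} w_{ef} + w_{af} w_{be}`
(`w_{ae} w_{bf} + w_{eb} w_{af} + w_{ba} w_{ef} = 0` and skewness); contract with
`g^{ee'} w_{e'c} g^{cb}` (sum over `e, e', c, b`): left side `(W G⁻¹ W G⁻¹ W)_{af}`; first term
`∑ w_{ab} g^{bc} w_{e'c} g^{ee'} w_{ef} = -(W G⁻¹ W G⁻¹ W)_{af}` (skewness of `w_{e'c}`); second term
`w_{af} ∑ w_{be} g^{ee'} w_{e'c} g^{cb} = -w_{af} ∑ w_{eb} w_{e'c} g^{ee'} g^{bc} = -2 w_{af}`.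
So with `P = G⁻¹ S = -G⁻¹ W G⁻¹ W`: `P² = G⁻¹ W G⁻¹ (W G⁻¹ W G⁻¹ W) = -G⁻¹ W G⁻¹ W = P`, and
`trace P = ∑ g^{ba} g^{cd} w_{ac} w_{bd} = 2`.  Parallel: `∂_m g^{cd} = -∑ Γ^c_{ms} g^{sd} -
∑ Γ^d_{ms} g^{cs}` and `∂_m w_{ac} = ∑ Γ^s_{ma} w_{sc} + ∑ Γ^s_{mc} w_{as}`; in
`∂_m (g^{cd} w_{ac} w_{bd})` the terms with a `Γ` at `c` or `d` cancel. -/
def S_Prj : Prop :=
  ∀ (n : ℕ) (g : Pt n → Matrix (Fin n) (Fin n) ℝ) (V : Set (Pt n))
    (w : Fin n → Fin n → Pt n → ℝ), IsMetricOn g V → IsParallelArea g w V →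
    IsParallelProjection g (fun a b x => ∑ c, ∑ d, (g x)⁻¹ c d * (w a c x * w b d x)) 2 V

/-- **Thm** (the structure theorem in the internal formalism).  Available: `S_Pi1`, `S_Pi2`, `S_Wed`,
`S_Sym`, `S_Smo`, `S_Lin`.
Proof: choose `x₀` (the first vector) with `N(p;x₀,…) ≠ 0`, `V₀ = {x ∈ Ω : scal(N_{x₀}) ≠ 0}`,
`P = Pit g x₀`; `S_Wed` gives `V`, `w`.  `K = -½ scal g (R4 g)`.
`∑_e g_{ae} curv^e_{bcd} = R4(e_c,e_d,e_b,e_a)` (`S_Sym`) `= scal(R) Π(e_c,e_d,e_b,e_a) =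
½ scal(R) w_{cd} w_{ba} = K w_{ab} w_{cd}`. -/
def S_Thm : Prop :=
  ∀ (n : ℕ) (g : Pt n → Matrix (Fin n) (Fin n) ℝ) (Ω : Set (Pt n)) (t1 : TF n 1) (t2 : TF n 2),
    KS2 g Ω t1 t2 → ∀ p ∈ Ω, (∃ a u v w z, e5 (N g) p a u v w z ≠ 0) →
    ∃ V ⊆ Ω, IsOpen V ∧ p ∈ V ∧ ∃ (K : Pt n → ℝ) (w : Fin n → Fin n → Pt n → ℝ),
      ContDiffOn ℝ ∞ K V ∧ IsParallelArea g w V ∧
      ∀ x ∈ V, ∀ a b c d, ∑ e, g x a e * curv g e b c d x = K x * (w a b x * w c d x)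

/-- **End** (the hand-in).  Available: `S_Thm`, `S_Brg`, `S_Prj`.  Proof: first part `S_Brg` and
`S_Thm`.  Second part: if `∇R ≠ 0` at a point `x`, then the first part gives `V` and `w`, and `S_Prj`
a parallel projection of rank 2 on the nonempty open set `V ⊆ Ω` (`IsMetricOn` restricts to `V`). -/
def S_End : Prop :=
  ∀ (n : ℕ) (g : Pt n → Matrix (Fin n) (Fin n) ℝ) (Ω : Set (Pt n)), IsMetricOn g Ω →
    ∀ t : ℕ → List (Fin n) → Pt n → ℝ, (∀ m l, ContDiffOn ℝ ∞ (t m l) Ω) →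
    (∀ x ∈ Ω, KSAt g 2 (fun m l => t m l x) x) →
    (∀ p ∈ Ω, (∃ a c b m q, nablaR g 1 a [c, b, m, q] p ≠ 0) →
      ∃ V ⊆ Ω, IsOpen V ∧ p ∈ V ∧ ∃ (K : Pt n → ℝ) (w : Fin n → Fin n → Pt n → ℝ),
        ContDiffOn ℝ ∞ K V ∧ IsParallelArea g w V ∧
        ∀ x ∈ V, ∀ a b c d, ∑ e, g x a e * curv g e b c d x = K x * (w a b x * w c d x)) ∧
    ((∀ V ⊆ Ω, IsOpen V → V.Nonempty → ∀ S, ¬ IsParallelProjection g S 2 V) →
      ∀ x ∈ Ω, ∀ a c b m q, nablaR g 1 a [c, b, m, q] x = 0)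

end

end Pool.Agent.Lib.MP_9d59e9_gt.KO
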