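import Mathlib
import Pool.Agent.Lib.MP_9d59e9_gt.KO.Spec

/-!
# KO/Crv: the curve lemma
-/

set_option autoImplicit false

namespace Pool.Agent.Lib.MP_9d59e9_gt.KO

open scoped BigOperators ContDiff
open Set

noncomputable section

private lemma crv_upd {n k : ℕ} (T : TF n k) (p : Pt n) (v : Fin k → Pt n) (j : Fin k)
    (w : Pt n) :
    ev T p (Function.update v j w)
      = ∑ I, T I p * (w (I j) * ∏ l ∈ Finset.univ.erase j, v l (I l)) := by
  unfold ev
  refine Finset.sum_congr rfl fun I _ => ?_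
  congr 1
  rw [← Finset.mul_prod_erase Finset.univ _ (Finset.mem_univ j)]
  rw [Function.update_self]
  congr 1
  refine Finset.prod_congr rfl fun l hl => ?_
  rw [Function.update_of_ne (Finset.ne_of_mem_erase hl)]

private def crvE {n k : ℕ} (j : Fin k) : ((Fin k → Fin n) × Fin n) ≃ ((Fin k → Fin n) × Fin n) where
  toFun := fun q => (Function.update q.1 j q.2, q.1 j)
  invFun := fun q => (Function.update q.1 j q.2, q.1 j)
  left_inv := by
    rintro ⟨I, s⟩
    simp
  right_inv := by
    rintro ⟨I, s⟩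
    simp

private lemma crv_swap {n k : ℕ} (G : Fin n → Fin n → ℝ) (T : (Fin k → Fin n) → ℝ)
    (v : Fin k → Pt n) (j : Fin k) :
    ∑ I : Fin k → Fin n, (∑ s, G s (I j) * T (Function.update I j s)) * ∏ l, v l (I l)
      = ∑ I : Fin k → Fin n, T I * ((∑ i, G (I j) i * v j i)
          * ∏ l ∈ Finset.univ.erase j, v l (I l)) := by
  have h1 : ∑ I : Fin k → Fin n, (∑ s, G s (I j) * T (Function.update I j s)) * ∏ l, v l (I l)
      = ∑ q : (Fin k → Fin n) × Fin n,
        (G q.2 (q.1 j) * T (Function.update q.1 j q.2)) * ∏ l, v l (q.1 l) := by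
    rw [Fintype.sum_prod_type]
    refine Finset.sum_congr rfl fun I _ => ?_
    rw [Finset.sum_mul]
  have h2 : ∑ I : Fin k → Fin n, T I * ((∑ i, G (I j) i * v j i)
          * ∏ l ∈ Finset.univ.erase j, v l (I l))
      = ∑ q : (Fin k → Fin n) × Fin n,
        T q.1 * ((G (q.1 j) q.2 * v j q.2) * ∏ l ∈ Finset.univ.erase j, v l (q.1 l)) := by
    rw [Fintype.sum_prod_type]
    refine Finset.sum_congr rfl fun I _ => ?_
    rw [Finset.sum_mul, Finset.mul_sum]
  rw [h1, h2, ← Equiv.sum_comp (crvE j)]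
  refine Finset.sum_congr rfl fun q _ => ?_
  obtain ⟨I, s⟩ := q
  simp only [crvE, Equiv.coe_fn_mk, Function.update_self]
  have h3 : ∏ l ∈ Finset.univ.erase j, v l (Function.update I j s l)
      = ∏ l ∈ Finset.univ.erase j, v l (I l) := by
    refine Finset.prod_congr rfl fun l hl => ?_
    rw [Function.update_of_ne (Finset.ne_of_mem_erase hl)]
  have h4 : ∏ l, v l (Function.update I j s l)
      = v j s * ∏ l ∈ Finset.univ.erase j, v l (I l) := by
    rw [← Finset.mul_prod_erase Finset.univ _ (Finset.mem_univ j), Function.update_self, h3]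
  simp only [Function.update_idem, Function.update_eq_self]
  rw [h4]
  ring

private lemma crv_D {n k : ℕ} (g : Pt n → Matrix (Fin n) (Fin n) ℝ) (T : TF n k) (p X : Pt n)
    (v : Fin k → Pt n) :
    ev (D g T) p (Fin.cons X v)
      = ∑ I : Fin k → Fin n, (∑ c, X c * pd c (T I) p) * ∏ j, v j (I j)
        - ∑ j, ev T p (Function.update v j (Chr g p X (v j))) := by
  have h1 : ev (D g T) p (Fin.cons X v)
      = ∑ c, ∑ I : Fin k → Fin n, (pd c (T I) p
          - ∑ j : Fin k, ∑ s, Gam g s c (I j) p * T (Function.update I j s) p)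
          * (X c * ∏ j, v j (I j)) := by
    unfold ev
    rw [← (Fin.consEquiv (fun _ : Fin (k + 1) => Fin n)).sum_comp, Fintype.sum_prod_type]
    refine Finset.sum_congr rfl fun c _ => Finset.sum_congr rfl fun I _ => ?_
    rw [Fin.prod_univ_succ]
    simp [Fin.consEquiv, D, Fin.tail_cons]
  rw [h1]
  have h2 : ∀ j, ev T p (Function.update v j (Chr g p X (v j)))
      = ∑ c, ∑ I : Fin k → Fin n, (∑ s, Gam g s c (I j) p * T (Function.update I j s) p)
          * (X c * ∏ l, v l (I l)) := by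
    intro j
    rw [crv_upd]
    have h3 : ∀ c, ∑ I : Fin k → Fin n, (∑ s, Gam g s c (I j) p * T (Function.update I j s) p)
          * (X c * ∏ l, v l (I l))
        = X c * ∑ I : Fin k → Fin n, T I p * ((∑ i, Gam g (I j) c i p * v j i)
          * ∏ l ∈ Finset.univ.erase j, v l (I l)) := by
      intro c
      rw [← crv_swap (fun s i => Gam g s c i p) (fun I => T I p) v j, Finset.mul_sum]
      refine Finset.sum_congr rfl fun I _ => ?_
      ring
    rw [Finset.sum_congr rfl fun c _ => h3 c]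
    have h4 : ∀ c, X c * ∑ I : Fin k → Fin n, T I p * ((∑ i, Gam g (I j) c i p * v j i)
          * ∏ l ∈ Finset.univ.erase j, v l (I l))
        = ∑ I : Fin k → Fin n, X c * (T I p * ((∑ i, Gam g (I j) c i p * v j i)
          * ∏ l ∈ Finset.univ.erase j, v l (I l))) := fun c => Finset.mul_sum _ _ _
    rw [Finset.sum_congr rfl fun c _ => h4 c, Finset.sum_comm]
    refine Finset.sum_congr rfl fun I _ => ?_
    have h5 : Chr g p X (v j) (I j) = ∑ c, X c * ∑ i, Gam g (I j) c i p * v j i := by
      unfold Chr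
      refine Finset.sum_congr rfl fun c _ => ?_
      rw [Finset.mul_sum]
      refine Finset.sum_congr rfl fun i _ => ?_
      ring
    rw [h5, Finset.sum_mul, Finset.mul_sum]
    refine Finset.sum_congr rfl fun c _ => ?_
    ring
  rw [Finset.sum_congr rfl fun j _ => h2 j]
  rw [Finset.sum_comm (s := (Finset.univ : Finset (Fin k))) (t := (Finset.univ : Finset (Fin n)))]
  have h6 : ∑ I : Fin k → Fin n, (∑ c, X c * pd c (T I) p) * ∏ j, v j (I j)
      = ∑ c, ∑ I : Fin k → Fin n, pd c (T I) p * (X c * ∏ j, v j (I j)) := by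
    rw [Finset.sum_comm]
    refine Finset.sum_congr rfl fun I _ => ?_
    rw [Finset.sum_mul]
    refine Finset.sum_congr rfl fun c _ => ?_
    ring
  rw [h6, ← Finset.sum_sub_distrib]
  refine Finset.sum_congr rfl fun c _ => ?_
  rw [Finset.sum_comm (s := (Finset.univ : Finset (Fin k))), ← Finset.sum_sub_distrib]
  refine Finset.sum_congr rfl fun I _ => ?_
  rw [← Finset.sum_mul]
  ring

private lemma crv_fderiv {n : ℕ} (f : Pt n → ℝ) (p X : Pt n) :
    fderiv ℝ f p X = ∑ c, X c * pd c f p := by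
  have h : X = ∑ c, X c • (Pi.single c (1 : ℝ) : Pt n) := by
    funext i
    simp [Finset.sum_apply, Pi.single_apply]
  conv_lhs => rw [h]
  rw [map_sum]
  refine Finset.sum_congr rfl fun c _ => ?_
  rw [map_smul, smul_eq_mul]
  rfl

theorem tCrv : S_Crv := by
  intro n g Ω hΩ k T hT p hp X v v₀ δ hv
  have hTI : ∀ I, HasDerivAt (fun t : ℝ => T I (p + t • X)) (∑ c, X c * pd c (T I) p) 0 := by
    intro I
    have h1 : DifferentiableAt ℝ (T I) p :=
      ((hT I).contDiffAt (hΩ.mem_nhds hp)).differentiableAt (by simp)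
    have h2 : HasFDerivAt (T I) (fderiv ℝ (T I) p) (p + (0 : ℝ) • X) := by
      rw [zero_smul, add_zero]
      exact h1.hasFDerivAt
    have h3 : HasDerivAt (fun t : ℝ => p + t • X) X 0 := by
      simpa using ((hasDerivAt_id (0 : ℝ)).smul_const X).const_add p
    have h4 := h2.comp_hasDerivAt (0 : ℝ) h3
    rw [crv_fderiv] at h4
    exact h4
  have hP : ∀ I : Fin k → Fin n, HasDerivAt (fun t : ℝ => ∏ j, v j t (I j))
      (∑ j, (∏ l ∈ Finset.univ.erase j, v₀ l (I l)) * ((-(Chr g p X (v₀ j)) + δ j) (I j))) 0 := by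
    intro I
    have h1 : ∀ j ∈ (Finset.univ : Finset (Fin k)), HasDerivAt (fun t : ℝ => v j t (I j))
        ((-(Chr g p X (v₀ j)) + δ j) (I j)) 0 := by
      intro j _
      exact (hasDerivAt_pi.1 (hv j).2) (I j)
    have h2 := HasDerivAt.fun_finsetProd h1
    have h3 : ∑ j, (∏ l ∈ Finset.univ.erase j, v₀ l (I l)) * ((-(Chr g p X (v₀ j)) + δ j) (I j))
        = ∑ i, (∏ j ∈ Finset.univ.erase i, v j 0 (I j)) • ((-(Chr g p X (v₀ i)) + δ i) (I i)) := by
      refine Finset.sum_congr rfl fun j _ => ?_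
      rw [smul_eq_mul]
      congr 1
      refine Finset.prod_congr rfl fun l _ => ?_
      rw [(hv l).1]
    rw [h3]
    exact h2
  have hsum : HasDerivAt (fun t : ℝ => ev T (p + t • X) (fun j => v j t))
      (∑ I : Fin k → Fin n, ((∑ c, X c * pd c (T I) p) * (∏ j, v j 0 (I j))
        + T I (p + (0 : ℝ) • X) *
          (∑ j, (∏ l ∈ Finset.univ.erase j, v₀ l (I l))
            * ((-(Chr g p X (v₀ j)) + δ j) (I j))))) 0 := by
    unfold ev
    exact HasDerivAt.fun_sum fun I _ => (hTI I).mul (hP I)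
  have hfin : ev (D g T) p (Fin.cons X v₀) + ∑ j, ev T p (Function.update v₀ j (δ j))
      = ∑ I : Fin k → Fin n, ((∑ c, X c * pd c (T I) p) * (∏ j, v j 0 (I j))
        + T I (p + (0 : ℝ) • X) *
          (∑ j, (∏ l ∈ Finset.univ.erase j, v₀ l (I l))
            * ((-(Chr g p X (v₀ j)) + δ j) (I j)))) := by
    rw [crv_D, Finset.sum_add_distrib]
    have e1 : ∑ I : Fin k → Fin n, (∑ c, X c * pd c (T I) p) * (∏ j, v j 0 (I j))
        = ∑ I : Fin k → Fin n, (∑ c, X c * pd c (T I) p) * (∏ j, v₀ j (I j)) := by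
      refine Finset.sum_congr rfl fun I _ => ?_
      congr 1
      refine Finset.prod_congr rfl fun l _ => ?_
      rw [(hv l).1]
    have e2 : ∑ I : Fin k → Fin n, T I (p + (0 : ℝ) • X) *
          (∑ j, (∏ l ∈ Finset.univ.erase j, v₀ l (I l))
            * ((-(Chr g p X (v₀ j)) + δ j) (I j)))
        = ∑ j, (ev T p (Function.update v₀ j (δ j))
            - ev T p (Function.update v₀ j (Chr g p X (v₀ j)))) := by
      have e3 : ∀ j, ev T p (Function.update v₀ j (δ j))
            - ev T p (Function.update v₀ j (Chr g p X (v₀ j)))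
          = ∑ I : Fin k → Fin n, T I p * ((∏ l ∈ Finset.univ.erase j, v₀ l (I l))
            * ((-(Chr g p X (v₀ j)) + δ j) (I j))) := by
        intro j
        rw [crv_upd, crv_upd, ← Finset.sum_sub_distrib]
        refine Finset.sum_congr rfl fun I _ => ?_
        simp only [Pi.add_apply, Pi.neg_apply]
        ring
      rw [Finset.sum_congr rfl fun j _ => e3 j, Finset.sum_comm]
      refine Finset.sum_congr rfl fun I _ => ?_
      rw [zero_smul, add_zero, Finset.mul_sum]
    rw [e1, e2, Finset.sum_sub_distrib]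
    ring
  rw [hfin]
  exact hsum

end

end Pool.Agent.Lib.MP_9d59e9_gt.KO
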