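import Pool.Agent.Lib.MP_9d59e9_gt.KO.Spec

/-!
# MP_9d59e9_gt, project KO: covariant derivative of tensors of rank 1 to 5 along curves
-/

set_option autoImplicit false

namespace Pool.Agent.Lib.MP_9d59e9_gt.KO

open scoped BigOperators ContDiff
open Set

noncomputable section

theorem tCvE (hCrv : S_Crv) : S_CvE := by
  intro n g Ω hΩ p hp X
  refine ⟨?_, ?_, ?_, ?_⟩
  · intro T hT a a₀ α ha
    have h := hCrv n g Ω hΩ 1 T hT p hp X ![a] ![a₀] ![α] (by
      intro j
      fin_cases j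
      · exact ha)
    have h1 : (fun t : ℝ => e1 T (p + t • X) (a t)) =
        fun t : ℝ => ev T (p + t • X) (fun j => (![a] : Fin 1 → ℝ → Pt n) j t) := by
      funext t
      unfold e1
      congr 1
      funext j
      fin_cases j <;> rfl
    rw [h1]
    refine h.congr_deriv ?_
    have u0 : Function.update (![a₀] : Fin 1 → Pt n) 0 ((![α] : Fin 1 → Pt n) 0) = ![α] := by
      funext j
      fin_cases j <;> rfl
    have u : (Fin.cons X (![a₀] : Fin 1 → Pt n) : Fin 2 → Pt n) = ![X, a₀] := rfl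
    rw [Fin.sum_univ_one, u0, u]
    rfl
  · intro T hT a a₀ α b b₀ β ha hb
    have h := hCrv n g Ω hΩ 2 T hT p hp X ![a, b] ![a₀, b₀] ![α, β] (by
      intro j
      fin_cases j
      · exact ha
      · exact hb)
    have h1 : (fun t : ℝ => e2 T (p + t • X) (a t) (b t)) =
        fun t : ℝ => ev T (p + t • X) (fun j => (![a, b] : Fin 2 → ℝ → Pt n) j t) := by
      funext t
      unfold e2
      congr 1
      funext j
      fin_cases j <;> rfl
    rw [h1]
    refine h.congr_deriv ?_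
    have u0 : Function.update (![a₀, b₀] : Fin 2 → Pt n) 0 ((![α, β] : Fin 2 → Pt n) 0) = ![α, b₀] := by
      funext j
      fin_cases j <;> rfl
    have u1 : Function.update (![a₀, b₀] : Fin 2 → Pt n) 1 ((![α, β] : Fin 2 → Pt n) 1) = ![a₀, β] := by
      funext j
      fin_cases j <;> rfl
    have u : (Fin.cons X (![a₀, b₀] : Fin 2 → Pt n) : Fin 3 → Pt n) = ![X, a₀, b₀] := rfl
    rw [Fin.sum_univ_two, u0, u1, u]
    rfl
  · intro T hT a a₀ α b b₀ β c c₀ γ d d₀ δ ha hb hc hd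
    have h := hCrv n g Ω hΩ 4 T hT p hp X ![a, b, c, d] ![a₀, b₀, c₀, d₀] ![α, β, γ, δ] (by
      intro j
      fin_cases j
      · exact ha
      · exact hb
      · exact hc
      · exact hd)
    have h1 : (fun t : ℝ => e4 T (p + t • X) (a t) (b t) (c t) (d t)) =
        fun t : ℝ => ev T (p + t • X) (fun j => (![a, b, c, d] : Fin 4 → ℝ → Pt n) j t) := by
      funext t
      unfold e4
      congr 1
      funext j
      fin_cases j <;> rfl
    rw [h1]
    refine h.congr_deriv ?_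
    have u0 : Function.update (![a₀, b₀, c₀, d₀] : Fin 4 → Pt n) 0 ((![α, β, γ, δ] : Fin 4 → Pt n) 0) = ![α, b₀, c₀, d₀] := by
      funext j
      fin_cases j <;> rfl
    have u1 : Function.update (![a₀, b₀, c₀, d₀] : Fin 4 → Pt n) 1 ((![α, β, γ, δ] : Fin 4 → Pt n) 1) = ![a₀, β, c₀, d₀] := by
      funext j
      fin_cases j <;> rfl
    have u2 : Function.update (![a₀, b₀, c₀, d₀] : Fin 4 → Pt n) 2 ((![α, β, γ, δ] : Fin 4 → Pt n) 2) = ![a₀, b₀, γ, d₀] := by
      funext j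
      fin_cases j <;> rfl
    have u3 : Function.update (![a₀, b₀, c₀, d₀] : Fin 4 → Pt n) 3 ((![α, β, γ, δ] : Fin 4 → Pt n) 3) = ![a₀, b₀, c₀, δ] := by
      funext j
      fin_cases j <;> rfl
    have u : (Fin.cons X (![a₀, b₀, c₀, d₀] : Fin 4 → Pt n) : Fin 5 → Pt n) = ![X, a₀, b₀, c₀, d₀] := rfl
    rw [Fin.sum_univ_four, u0, u1, u2, u3, u]
    rfl
  · intro T hT a a₀ α b b₀ β c c₀ γ d d₀ δ e e₀ ε ha hb hc hd he
    have h := hCrv n g Ω hΩ 5 T hT p hp X ![a, b, c, d, e] ![a₀, b₀, c₀, d₀, e₀] ![α, β, γ, δ, ε] (by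
      intro j
      fin_cases j
      · exact ha
      · exact hb
      · exact hc
      · exact hd
      · exact he)
    have h1 : (fun t : ℝ => e5 T (p + t • X) (a t) (b t) (c t) (d t) (e t)) =
        fun t : ℝ => ev T (p + t • X) (fun j => (![a, b, c, d, e] : Fin 5 → ℝ → Pt n) j t) := by
      funext t
      unfold e5
      congr 1
      funext j
      fin_cases j <;> rfl
    rw [h1]
    refine h.congr_deriv ?_
    have u0 : Function.update (![a₀, b₀, c₀, d₀, e₀] : Fin 5 → Pt n) 0 ((![α, β, γ, δ, ε] : Fin 5 → Pt n) 0) = ![α, b₀, c₀, d₀, e₀] := by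
      funext j
      fin_cases j <;> rfl
    have u1 : Function.update (![a₀, b₀, c₀, d₀, e₀] : Fin 5 → Pt n) 1 ((![α, β, γ, δ, ε] : Fin 5 → Pt n) 1) = ![a₀, β, c₀, d₀, e₀] := by
      funext j
      fin_cases j <;> rfl
    have u2 : Function.update (![a₀, b₀, c₀, d₀, e₀] : Fin 5 → Pt n) 2 ((![α, β, γ, δ, ε] : Fin 5 → Pt n) 2) = ![a₀, b₀, γ, d₀, e₀] := by
      funext j
      fin_cases j <;> rfl
    have u3 : Function.update (![a₀, b₀, c₀, d₀, e₀] : Fin 5 → Pt n) 3 ((![α, β, γ, δ, ε] : Fin 5 → Pt n) 3) = ![a₀, b₀, c₀, δ, e₀] := by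
      funext j
      fin_cases j <;> rfl
    have u4 : Function.update (![a₀, b₀, c₀, d₀, e₀] : Fin 5 → Pt n) 4 ((![α, β, γ, δ, ε] : Fin 5 → Pt n) 4) = ![a₀, b₀, c₀, d₀, ε] := by
      funext j
      fin_cases j <;> rfl
    have u : (Fin.cons X (![a₀, b₀, c₀, d₀, e₀] : Fin 5 → Pt n) : Fin 6 → Pt n) = ![X, a₀, b₀, c₀, d₀, e₀] := rfl
    rw [Fin.sum_univ_five, u0, u1, u2, u3, u4, u]
    rfl

end

end Pool.Agent.Lib.MP_9d59e9_gt.KO
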