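import Pool.Agent.Lib.MP_9d59e9_gt.KO.Spec

/-!
# MP_9d59e9_gt, project KO: metric compatibility along curves
-/

set_option autoImplicit false

namespace Pool.Agent.Lib.MP_9d59e9_gt.KO

open scoped BigOperators ContDiff Topology
open Set

theorem tCvI (hCvE : S_CvE) (hMet : S_Met) (hSmo : S_Smo) : S_CvI := by
  intro n g Ω hg p hp X u u₀ δ v v₀ ε hu hv
  have h2 := (hCvE n g Ω hg.isOpen p hp X).2.1 (G2 g) (hSmo n g Ω hg).2.2.2.2.1
    u u₀ δ v v₀ ε hu hv
  have h3 : e3 (D g (G2 g)) p X u₀ v₀ = 0 := by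
    rw [e3, ev]
    refine Finset.sum_eq_zero fun I _ => ?_
    rw [(hMet n g Ω hg p hp).2.2.1 I, zero_mul]
  rw [h3, zero_add, ← (hMet n g Ω hg p hp).2.2.2.1, ← (hMet n g Ω hg p hp).2.2.2.1] at h2
  refine h2.congr_of_eventuallyEq ?_
  have hc : Filter.Tendsto (fun t : ℝ => p + t • X) (𝓝 0) (𝓝 p) := by
    have h4 : Continuous fun t : ℝ => p + t • X := by fun_prop
    have h5 := h4.tendsto 0
    simpa using h5
  filter_upwards [hc (hg.isOpen.mem_nhds hp)] with t ht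
  exact (hMet n g Ω hg _ ht).2.2.2.1 _ _

end Pool.Agent.Lib.MP_9d59e9_gt.KO
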