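import Pool.Agent.Lib.MP_9d59e9_gt.KO.Spec

set_option autoImplicit false

namespace Pool.Agent.Lib.MP_9d59e9_gt.KO

open scoped BigOperators ContDiff Topology
open Set

noncomputable section

theorem tCvR (hCvU : S_CvU) (hSym : S_Sym) (hSmo : S_Smo) : S_CvR := by
  intro n g Ω hg p hp X a a₀ α u u₀ μ v v₀ ν w w₀ ζ ha hu hv hw
  obtain ⟨-, -, -, -, -, smR, smN, -⟩ := hSmo n g Ω hg
  have hp0 : p + (0 : ℝ) • X = p := by rw [zero_smul, add_zero]
  constructor
  · have h1 := hCvU n g Ω hg p hp X 3 (R4 g) smR ![u, v, w] ![u₀, v₀, w₀] ![μ, ν, ζ] (by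
      intro j
      fin_cases j
      · exact hu
      · exact hv
      · exact hw)
    have hS : ∀ x ∈ Ω, ∀ u v w, Rv g x u v w = up g (R4 g) x ![u, v, w] := fun x hx =>
      (hSym n g Ω hg x hx).2.2.1
    have hc : ∀ t : ℝ, (fun j => (![u, v, w] : Fin 3 → ℝ → Pt n) j t) = ![u t, v t, w t] := by
      intro t
      funext j
      fin_cases j <;> rfl
    have e0 : Function.update ![u₀, v₀, w₀] 0 (![μ, ν, ζ] 0) = ![μ, v₀, w₀] := by
      funext j
      fin_cases j <;> rfl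
    have e1 : Function.update ![u₀, v₀, w₀] 1 (![μ, ν, ζ] 1) = ![u₀, ν, w₀] := by
      funext j
      fin_cases j <;> rfl
    have e2 : Function.update ![u₀, v₀, w₀] 2 (![μ, ν, ζ] 2) = ![u₀, v₀, ζ] := by
      funext j
      fin_cases j <;> rfl
    obtain ⟨h2, h3⟩ := h1
    simp only [hc] at h2 h3
    rw [Fin.sum_univ_three, e0, e1, e2, ← hS p hp, ← hS p hp, ← hS p hp, ← hS p hp] at h3
    refine ⟨?_, ?_⟩
    · beta_reduce
      rw [hp0, hu.1, hv.1, hw.1]
    · refine HasDerivAt.congr_of_eventuallyEq h3 ?_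
      have hcn : ContinuousAt (fun t : ℝ => p + t • X) 0 := by fun_prop
      have hmem : Ω ∈ 𝓝 (p + (0 : ℝ) • X) := by
        rw [hp0]
        exact hg.isOpen.mem_nhds hp
      filter_upwards [hcn.preimage_mem_nhds hmem] with t ht
      exact hS _ ht _ _ _
  · have h1 := hCvU n g Ω hg p hp X 4 (N g) smN ![a, u, v, w] ![a₀, u₀, v₀, w₀] ![α, μ, ν, ζ] (by
      intro j
      fin_cases j
      · exact ha
      · exact hu
      · exact hv
      · exact hw)
    have hc : ∀ t : ℝ, (fun j => (![a, u, v, w] : Fin 4 → ℝ → Pt n) j t) =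
        ![a t, u t, v t, w t] := by
      intro t
      funext j
      fin_cases j <;> rfl
    have e0 : Function.update ![a₀, u₀, v₀, w₀] 0 (![α, μ, ν, ζ] 0) = ![α, u₀, v₀, w₀] := by
      funext j
      fin_cases j <;> rfl
    have e1 : Function.update ![a₀, u₀, v₀, w₀] 1 (![α, μ, ν, ζ] 1) = ![a₀, μ, v₀, w₀] := by
      funext j
      fin_cases j <;> rfl
    have e2 : Function.update ![a₀, u₀, v₀, w₀] 2 (![α, μ, ν, ζ] 2) = ![a₀, u₀, ν, w₀] := by
      funext j
      fin_cases j <;> rfl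
    have e3 : Function.update ![a₀, u₀, v₀, w₀] 3 (![α, μ, ν, ζ] 3) = ![a₀, u₀, v₀, ζ] := by
      funext j
      fin_cases j <;> rfl
    obtain ⟨h2, h3⟩ := h1
    simp only [hc] at h2 h3
    rw [Fin.sum_univ_four, e0, e1, e2, e3] at h3
    exact ⟨h2, h3⟩

end

end Pool.Agent.Lib.MP_9d59e9_gt.KO
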