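import Pool.Agent.Lib.MP_9d59e9_gt.KO.Spec

/-!
# MP_9d59e9_gt, KO: rules for curves of vectors
-/

set_option autoImplicit false

namespace Pool.Agent.Lib.MP_9d59e9_gt.KO

private theorem chr_add {n : ℕ} (g : Pt n → Matrix (Fin n) (Fin n) ℝ) (x u v w : Pt n) :
    Chr g x u (v + w) = Chr g x u v + Chr g x u w := by
  funext k
  simp only [Chr, Pi.add_apply, ← Finset.sum_add_distrib]
  refine Finset.sum_congr rfl fun i _ => Finset.sum_congr rfl fun j _ => ?_
  ring

private theorem chr_smul {n : ℕ} (g : Pt n → Matrix (Fin n) (Fin n) ℝ) (x u v : Pt n) (c : ℝ) :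
    Chr g x u (c • v) = c • Chr g x u v := by
  funext k
  simp only [Chr, Pi.smul_apply, smul_eq_mul, Finset.mul_sum]
  refine Finset.sum_congr rfl fun i _ => Finset.sum_congr rfl fun j _ => ?_
  ring

theorem tCvb : S_Cvb := by
  intro n g p X
  refine ⟨?_, ?_, ?_, ?_⟩
  · intro v₀
    refine ⟨by simp, ?_⟩
    have h := ((hasDerivAt_id (0 : ℝ)).smul_const (Chr g p X v₀)).const_sub v₀
    have he : -((1 : ℝ) • Chr g p X v₀) = -(Chr g p X v₀) + 0 := by simp
    rw [← he]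
    exact h
  · intro v₀
    refine ⟨rfl, ?_⟩
    rw [neg_add_cancel]
    exact hasDerivAt_const _ _
  · rintro u u₀ δ v v₀ ε ⟨hu, hu'⟩ ⟨hv, hv'⟩
    refine ⟨by simp only [hu, hv], ?_⟩
    have he : -(Chr g p X (u₀ + v₀)) + (δ + ε) =
        (-(Chr g p X u₀) + δ) + (-(Chr g p X v₀) + ε) := by
      rw [chr_add]
      abel
    rw [he]
    exact hu'.add hv'
  · rintro f f' u u₀ δ hf ⟨hu, hu'⟩
    refine ⟨by simp only [hu], ?_⟩
    have h := hf.smul hu'
    rw [hu] at h
    have he : -(Chr g p X (f 0 • u₀)) + (f' • u₀ + f 0 • δ) =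
        f 0 • (-(Chr g p X u₀) + δ) + f' • u₀ := by
      rw [chr_smul, smul_add, smul_neg]
      abel
    rw [he]
    exact h

end Pool.Agent.Lib.MP_9d59e9_gt.KO
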