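import Pool.Agent.Lib.MP_9d59e9_gt.KO.Spec

set_option autoImplicit false

namespace Pool.Agent.Lib.MP_9d59e9_gt.KO

open scoped BigOperators ContDiff Topology
open Set

private theorem ne5 (hLin : S_Lin) {n : ℕ} (T : TF n 5) (x : Pt n) :
    (∃ a u v w z, e5 T x a u v w z ≠ 0) ↔ ∃ I, T I x ≠ 0 := by
  have h := (hLin n x).2.2.1 5 T
  rw [← not_iff_not]
  push Not
  rw [← h]
  constructor
  · intro h1 v
    have h2 := h1 (v 0) (v 1) (v 2) (v 3) (v 4)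
    have h3 : v = ![v 0, v 1, v 2, v 3, v 4] := by
      ext i : 1
      fin_cases i <;> rfl
    rw [h3]
    exact h2
  · intro h1 a u v w z
    exact h1 _

private theorem ne4 (hLin : S_Lin) {n : ℕ} (T : TF n 4) (x : Pt n) :
    (∃ u v w z, e4 T x u v w z ≠ 0) ↔ ∃ I, T I x ≠ 0 := by
  have h := (hLin n x).2.2.1 4 T
  rw [← not_iff_not]
  push Not
  rw [← h]
  constructor
  · intro h1 v
    have h2 := h1 (v 0) (v 1) (v 2) (v 3)
    have h3 : v = ![v 0, v 1, v 2, v 3] := by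
      ext i : 1
      fin_cases i <;> rfl
    rw [h3]
    exact h2
  · intro h1 u v w z
    exact h1 _

private theorem ne2 (hLin : S_Lin) {n : ℕ} (T : TF n 2) (x : Pt n) :
    (∃ a b, e2 T x a b ≠ 0) ↔ ∃ I, T I x ≠ 0 := by
  have h := (hLin n x).2.2.1 2 T
  rw [← not_iff_not]
  push Not
  rw [← h]
  constructor
  · intro h1 v
    have h2 := h1 (v 0) (v 1)
    have h3 : v = ![v 0, v 1] := by
      ext i : 1
      fin_cases i <;> rfl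
    rw [h3]
    exact h2
  · intro h1 u v
    exact h1 _

private theorem op {n k : ℕ} {Ω : Set (Pt n)} (hΩ : IsOpen Ω) {T : TF n k} (hT : Sm Ω T) :
    IsOpen {x | x ∈ Ω ∧ ∃ I, T I x ≠ 0} := by
  have h : {x | x ∈ Ω ∧ ∃ I, T I x ≠ 0} = ⋃ I, Ω ∩ T I ⁻¹' {0}ᶜ := by
    ext x
    simp only [mem_ofPred_eq, mem_iUnion, mem_inter_iff, mem_preimage, mem_compl_iff,
      mem_singleton_iff]
    constructor
    · rintro ⟨h1, I, h2⟩
      exact ⟨I, h1, h2⟩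
    · rintro ⟨I, h1, h2⟩
      exact ⟨h1, I, h2⟩
  rw [h]
  exact isOpen_iUnion fun I => (hT I).continuousOn.isOpen_inter_preimage hΩ
    isOpen_compl_singleton

private theorem D_zero {n k : ℕ} (g : Pt n → Matrix (Fin n) (Fin n) ℝ) (T : TF n k) (q : Pt n)
    (h : ∀ᶠ x in 𝓝 q, ∀ I, T I x = 0) (I : Fin (k + 1) → Fin n) : D g T I q = 0 := by
  have h1 : ∀ I, T I q = 0 := h.self_of_nhds
  have h2 : fderiv ℝ (T (Fin.tail I)) q = 0 := by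
    have h3 : T (Fin.tail I) =ᶠ[𝓝 q] fun _ => 0 := h.mono fun x hx => hx _
    rw [h3.fderiv_eq]
    simp
  simp only [D, pd, h1, h2, mul_zero, Finset.sum_const_zero, sub_zero]
  rfl

private theorem ks_mono {n : ℕ} {g : Pt n → Matrix (Fin n) (Fin n) ℝ} {Ω W : Set (Pt n)}
    {t1 : TF n 1} {t2 : TF n 2} (h : KS2 g Ω t1 t2) (hW : IsOpen W) (hs : W ⊆ Ω) :
    KS2 g W t1 t2 :=
  ⟨⟨hW, fun i j => (h.met.smooth i j).mono hs, fun x hx => h.met.pos x (hs hx)⟩,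
    fun I => (h.s1 I).mono hs, fun I => (h.s2 I).mono hs, fun x hx => h.ks x (hs hx)⟩

theorem tDen (hP5 : S_P5) (hSmo : S_Smo) (hLin : S_Lin) : S_Den := by
  intro n g Ω t1 t2 hK
  have hΩ := hK.met.isOpen
  obtain ⟨-, -, -, -, -, sR, sN, -⟩ := hSmo n g Ω hK.met
  have oN := op hΩ sN
  have oR := op hΩ sR
  have o2 := op hΩ hK.s2
  constructor
  · have h : Gset g Ω t2 = {x | x ∈ Ω ∧ ∃ I, N g I x ≠ 0} ∩ ({x | x ∈ Ω ∧ ∃ I, t2 I x ≠ 0} ∩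
        {x | x ∈ Ω ∧ ∃ I, R4 g I x ≠ 0}) := by
      ext x
      simp only [Gset, ne5 hLin, ne4 hLin, ne2 hLin, mem_ofPred_eq, mem_inter_iff]
      tauto
    rw [h]
    exact oN.inter (o2.inter oR)
  · intro p hp hN
    rw [mem_closure_iff]
    intro W hW hpW
    by_contra hcon
    rw [Set.not_nonempty_iff_eq_empty] at hcon
    have hW' : IsOpen (W ∩ {x | x ∈ Ω ∧ ∃ I, N g I x ≠ 0}) := hW.inter oN
    have hpW' : p ∈ W ∩ {x | x ∈ Ω ∧ ∃ I, N g I x ≠ 0} := ⟨hpW, hp, (ne5 hLin _ _).1 hN⟩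
    have h0 : ∀ x ∈ W ∩ {x | x ∈ Ω ∧ ∃ I, N g I x ≠ 0}, (∃ I, t2 I x ≠ 0) →
        ∀ I, R4 g I x = 0 := by
      rintro x ⟨hx, hx1, hx2⟩ h2 I
      by_contra hI
      have : x ∈ W ∩ Gset g Ω t2 := ⟨hx, hx1, (ne5 hLin _ _).2 hx2, (ne2 hLin _ _).2 h2,
        (ne4 hLin _ _).2 ⟨I, hI⟩⟩
      rw [hcon] at this
      exact this
    have h1 : ∀ x ∈ W ∩ {x | x ∈ Ω ∧ ∃ I, N g I x ≠ 0}, ∀ a b, e2 t2 x a b = 0 := by
      intro q hq a b
      by_contra hab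
      have hq2 : ∃ I, t2 I q ≠ 0 := (ne2 hLin _ _).1 ⟨a, b, hab⟩
      obtain ⟨I, hI⟩ := hq.2.2
      apply hI
      refine D_zero g (R4 g) q ?_ I
      have h3 : (W ∩ {x | x ∈ Ω ∧ ∃ I, N g I x ≠ 0}) ∩ {x | x ∈ Ω ∧ ∃ I, t2 I x ≠ 0} ∈ 𝓝 q :=
        (hW'.inter o2).mem_nhds ⟨hq, hq.2.1, hq2⟩
      filter_upwards [h3] with x hx
      exact h0 x hx.1 hx.2.2
    have h2 := hP5 n g _ t1 t2 (ks_mono hK hW' fun x hx => hx.2.1) h1 p hpW'
    obtain ⟨a, u, v, w, z, h3⟩ := hN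
    exact h3 (h2 a u v w z)

end Pool.Agent.Lib.MP_9d59e9_gt.KO
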