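import Pool.Agent.Lib.MP_9d59e9_gt.KO.Spec

/-!
# MP_9d59e9_gt, project KO: the final statement from its parts
-/

set_option autoImplicit false

namespace Pool.Agent.Lib.MP_9d59e9_gt.KO

theorem tEnd (hThm : S_Thm) (hBrg : S_Brg) (hPrj : S_Prj) : S_End := by
  intro n g Ω hg t ht hks
  obtain ⟨h1, h2⟩ := hBrg n g Ω hg
  have hK := h1 t ht hks
  refine ⟨fun p hp hne => hThm n g Ω _ _ hK p hp ((h2 p hp).1 hne), ?_⟩
  intro hno x hx a c b m q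
  by_contra hne
  obtain ⟨V, hVΩ, hVo, hxV, K, w, -, hw, -⟩ :=
    hThm n g Ω _ _ hK x hx ((h2 x hx).1 ⟨a, c, b, m, q, hne⟩)
  have hgV : IsMetricOn g V :=
    ⟨hVo, fun i j => (hg.smooth i j).mono hVΩ, fun y hy => hg.pos y (hVΩ hy)⟩
  exact hno V hVΩ hVo ⟨x, hxV⟩ _ (hPrj n g V w hgV hw)

end Pool.Agent.Lib.MP_9d59e9_gt.KO
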