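import Pool.Agent.Lib.MP_9d59e9_gt.KO.Spec

/-!
# MP_9d59e9_gt, project KO: evaluation is multilinear (`tLin`)
-/

set_option autoImplicit false

namespace Pool.Agent.Lib.MP_9d59e9_gt.KO

open scoped BigOperators
open Finset

private theorem prod_upd {n k : ℕ} (v : Fin k → Pt n) (j : Fin k) (u : Pt n)
    (I : Fin k → Fin n) :
    ∏ l, (Function.update v j u) l (I l) = u (I j) * ∏ l ∈ univ.erase j, v l (I l) := by
  rw [← mul_prod_erase univ _ (mem_univ j), Function.update_self]
  congr 1
  refine prod_congr rfl fun l hl => ?_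
  rw [Function.update_of_ne (ne_of_mem_erase hl)]

private theorem lin_upd {n k : ℕ} (T : TF n k) (x : Pt n) (v : Fin k → Pt n) (j : Fin k) :
    Lin1 fun u => ev T x (Function.update v j u) := by
  constructor
  · intro a b
    simp only [ev, prod_upd]
    rw [← sum_add_distrib]
    refine sum_congr rfl fun I _ => ?_
    rw [Pi.add_apply]
    ring
  · intro r a
    simp only [ev, prod_upd]
    rw [mul_sum]
    refine sum_congr rfl fun I _ => ?_
    rw [Pi.smul_apply, smul_eq_mul]
    ring

private theorem lin_of {n k : ℕ} (T : TF n k) (x : Pt n) (j : Fin k) (v : Fin k → Pt n)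
    (w : Pt n → Fin k → Pt n) (h : ∀ u, Function.update v j u = w u) :
    Lin1 fun u => ev T x (w u) := by
  have h1 := lin_upd T x v j
  simp only [h] at h1
  exact h1

private theorem ev_bv {n k : ℕ} (T : TF n k) (x : Pt n) (I : Fin k → Fin n) :
    ev T x (fun j => bv (I j)) = T I x := by
  unfold ev
  rw [sum_eq_single I]
  · rw [prod_eq_one fun j _ => by simp, mul_one]
  · intro J _ hJ
    obtain ⟨j, hj⟩ := Function.ne_iff.1 hJ
    rw [prod_eq_zero (mem_univ j) (Pi.single_eq_of_ne hj 1), mul_zero]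
  · intro h
    exact absurd (mem_univ I) h

theorem tLin : S_Lin := by
  intro n x
  refine ⟨fun k T v j => lin_upd T x v j, fun k T I => ev_bv T x I, fun k T => ⟨fun h I => ?_,
    fun h v => ?_⟩, fun T => ?_, fun T => ⟨fun a => ?_, fun b => ?_⟩,
    fun T => ⟨fun a b => ?_, fun a c => ?_, fun b c => ?_⟩,
    fun T => ⟨fun a b c => ?_, fun a b d => ?_, fun a c d => ?_, fun b c d => ?_⟩,
    fun T => ⟨fun a b c d => ?_, fun a b c e => ?_, fun a b d e => ?_, fun a c d e => ?_,
      fun b c d e => ?_⟩,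
    fun T => ⟨fun a b c d e => ?_, fun a c d e f => ?_, fun b c d e f => ?_⟩⟩
  · rw [← ev_bv T x I]
    exact h _
  · unfold ev
    exact sum_eq_zero fun I _ => by rw [h I, zero_mul]
  · exact lin_of T x 0 ![0] _ fun u => by ext i : 1; fin_cases i <;> rfl
  · exact lin_of T x 1 ![a, 0] _ fun u => by ext i : 1; fin_cases i <;> rfl
  · exact lin_of T x 0 ![0, b] _ fun u => by ext i : 1; fin_cases i <;> rfl
  · exact lin_of T x 2 ![a, b, 0] _ fun u => by ext i : 1; fin_cases i <;> rfl
  · exact lin_of T x 1 ![a, 0, c] _ fun u => by ext i : 1; fin_cases i <;> rfl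
  · exact lin_of T x 0 ![0, b, c] _ fun u => by ext i : 1; fin_cases i <;> rfl
  · exact lin_of T x 3 ![a, b, c, 0] _ fun u => by ext i : 1; fin_cases i <;> rfl
  · exact lin_of T x 2 ![a, b, 0, d] _ fun u => by ext i : 1; fin_cases i <;> rfl
  · exact lin_of T x 1 ![a, 0, c, d] _ fun u => by ext i : 1; fin_cases i <;> rfl
  · exact lin_of T x 0 ![0, b, c, d] _ fun u => by ext i : 1; fin_cases i <;> rfl
  · exact lin_of T x 4 ![a, b, c, d, 0] _ fun u => by ext i : 1; fin_cases i <;> rfl
  · exact lin_of T x 3 ![a, b, c, 0, e] _ fun u => by ext i : 1; fin_cases i <;> rfl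
  · exact lin_of T x 2 ![a, b, 0, d, e] _ fun u => by ext i : 1; fin_cases i <;> rfl
  · exact lin_of T x 1 ![a, 0, c, d, e] _ fun u => by ext i : 1; fin_cases i <;> rfl
  · exact lin_of T x 0 ![0, b, c, d, e] _ fun u => by ext i : 1; fin_cases i <;> rfl
  · exact lin_of T x 5 ![a, b, c, d, e, 0] _ fun u => by ext i : 1; fin_cases i <;> rfl
  · exact lin_of T x 1 ![a, 0, c, d, e, f] _ fun u => by ext i : 1; fin_cases i <;> rfl
  · exact lin_of T x 0 ![0, b, c, d, e, f] _ fun u => by ext i : 1; fin_cases i <;> rfl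

end Pool.Agent.Lib.MP_9d59e9_gt.KO
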