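import Pool.Agent.Lib.MP_9d59e9_gt.KO.Spec

/-!
# MP_9d59e9_gt, project KO: the Levi-Civita connection (`S_Met`)
-/

set_option autoImplicit false

namespace Pool.Agent.Lib.MP_9d59e9_gt.KO

open scoped BigOperators ContDiff
open Set

private lemma met_symm {n : ℕ} {g : Pt n → Matrix (Fin n) (Fin n) ℝ} {Ω : Set (Pt n)}
    (hg : IsMetricOn g Ω) {x : Pt n} (hx : x ∈ Ω) (i j : Fin n) : g x i j = g x j i := by
  have h := (hg.pos x hx).isHermitian
  have h2 := h.apply i j
  simpa using h2.symm

private lemma met_pd_symm {n : ℕ} {g : Pt n → Matrix (Fin n) (Fin n) ℝ} {Ω : Set (Pt n)}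
    (hg : IsMetricOn g Ω) {x : Pt n} (hx : x ∈ Ω) (c i j : Fin n) :
    pd c (fun y => g y i j) x = pd c (fun y => g y j i) x := by
  have h : (fun y => g y i j) =ᶠ[nhds x] (fun y => g y j i) := by
    filter_upwards [hg.isOpen.mem_nhds hx] with y hy
    exact met_symm hg hy i j
  unfold pd
  rw [h.fderiv_eq]

private lemma met_low {n : ℕ} {g : Pt n → Matrix (Fin n) (Fin n) ℝ} {Ω : Set (Pt n)}
    (hg : IsMetricOn g Ω) {x : Pt n} (hx : x ∈ Ω) (c a b : Fin n) :
    ∑ s, Gam g s c a x * g x s b
      = (1 / 2) * (pd c (fun y => g y a b) x + pd a (fun y => g y c b) x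
          - pd b (fun y => g y c a) x) := by
  have hT : (g x).transpose = g x := by
    ext i j
    exact met_symm hg hx j i
  have hI : ∀ i j, (g x)⁻¹ i j = (g x)⁻¹ j i := by
    intro i j
    have h := Matrix.transpose_nonsing_inv (g x)
    rw [hT] at h
    have h2 := congrFun (congrFun h j) i
    simpa [Matrix.transpose_apply] using h2
  have hdet : IsUnit (g x).det := (hg.pos x hx).det_pos.ne'.isUnit
  have hinv : (g x)⁻¹ * g x = 1 := Matrix.nonsing_inv_mul _ hdet
  set X : Fin n → ℝ := fun l => pd c (fun y => g y a l) x + pd a (fun y => g y c l) x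
    - pd l (fun y => g y c a) x with hX
  have h1 : ∀ s, Gam g s c a x = (1 / 2) * ∑ l, (g x)⁻¹ s l * X l := fun s => rfl
  calc ∑ s, Gam g s c a x * g x s b
      = ∑ s, ∑ l, (1 / 2) * (X l * ((g x)⁻¹ l s * g x s b)) := by
        refine Finset.sum_congr rfl fun s _ => ?_
        rw [h1, Finset.mul_sum, Finset.sum_mul]
        refine Finset.sum_congr rfl fun l _ => ?_
        rw [hI s l]
        ring
    _ = ∑ l, ∑ s, (1 / 2) * (X l * ((g x)⁻¹ l s * g x s b)) := Finset.sum_comm
    _ = ∑ l, (1 / 2) * (X l * ((g x)⁻¹ * g x) l b) := by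
        refine Finset.sum_congr rfl fun l _ => ?_
        rw [Matrix.mul_apply, Finset.mul_sum, Finset.mul_sum]
    _ = (1 / 2) * X b := by
        rw [hinv, Finset.sum_eq_single b]
        · simp
        · intro l _ hl
          simp [hl]
        · intro h
          exact absurd (Finset.mem_univ b) h
    _ = _ := rfl

private lemma met_pd {n : ℕ} {g : Pt n → Matrix (Fin n) (Fin n) ℝ} {Ω : Set (Pt n)}
    (hg : IsMetricOn g Ω) {x : Pt n} (hx : x ∈ Ω) (c a b : Fin n) :
    pd c (fun y => g y a b) x
      = ∑ s, Gam g s c a x * g x s b + ∑ s, Gam g s c b x * g x a s := by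
  have h1 := met_low hg hx c a b
  have h2 := met_low hg hx c b a
  have h3 : ∑ s, Gam g s c b x * g x a s = ∑ s, Gam g s c b x * g x s a :=
    Finset.sum_congr rfl fun s _ => by rw [met_symm hg hx a s]
  rw [h3, h1, h2, met_pd_symm hg hx c b a]
  ring

theorem tMet : S_Met := by
  intro n g Ω hg x hx
  have hG : ∀ k i j, Gam g k i j x = Gam g k j i x := by
    intro k i j
    unfold Gam
    congr 1
    refine Finset.sum_congr rfl fun l _ => ?_
    rw [met_pd_symm hg hx l i j]
    ring
  refine ⟨hG, ?_, ?_, ?_, met_pd hg hx⟩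
  · intro u v
    funext k
    unfold Chr
    rw [Finset.sum_comm]
    refine Finset.sum_congr rfl fun j _ => Finset.sum_congr rfl fun i _ => ?_
    rw [hG k i j]
    ring
  · intro I
    have h := met_pd hg hx (I 0) (I 1) (I 2)
    have e0 : ∀ s, G2 g (Function.update (Fin.tail I) 0 s) x = g x s (I 2) := by
      intro s
      show g x (Function.update (Fin.tail I) 0 s 0) (Function.update (Fin.tail I) 0 s 1) = _
      rw [Function.update_self, Function.update_of_ne (by decide)]
      rfl
    have e1' : ∀ s, G2 g (Function.update (Fin.tail I) 1 s) x = g x (I 1) s := by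
      intro s
      show g x (Function.update (Fin.tail I) 1 s 0) (Function.update (Fin.tail I) 1 s 1) = _
      rw [Function.update_self, Function.update_of_ne (by decide)]
      rfl
    have e2' : pd (I 0) (G2 g (Fin.tail I)) x = pd (I 0) (fun y => g y (I 1) (I 2)) x := rfl
    unfold D
    rw [Fin.sum_univ_two, e2', h]
    simp only [e0, e1']
    have e3' : I (Fin.succ 0) = I 1 := rfl
    have e4' : I (Fin.succ 1) = I 2 := rfl
    rw [e3', e4']
    ring
  · intro u v
    unfold ip e2 ev
    rw [← (finTwoArrowEquiv (Fin n)).symm.sum_comp, Fintype.sum_prod_type]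
    refine Finset.sum_congr rfl fun i _ => Finset.sum_congr rfl fun j _ => ?_
    rw [Fin.prod_univ_two]
    rfl

end Pool.Agent.Lib.MP_9d59e9_gt.KO
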