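import Pool.Agent.Lib.MP_9d59e9_gt.KO.Spec

/-!
# MP_9d59e9_gt, project KO: the derivatives of the curvature are proportional and of rank one
-/

set_option autoImplicit false

namespace Pool.Agent.Lib.MP_9d59e9_gt.KO

open scoped BigOperators ContDiff Topology
open Set

noncomputable section

/-- a function continuous on an open set which vanishes on a subset vanishes at the points of the
closure of the subset in the open set -/
private theorem zero_of_closure {n : ℕ} {Ω S : Set (Pt n)} (hΩ : IsOpen Ω)
    {F : Pt n → ℝ} (hF : ContinuousOn F Ω) (h0 : ∀ x ∈ S, F x = 0) {x : Pt n} (hx : x ∈ Ω)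
    (hc : x ∈ closure S) : F x = 0 := by
  have hat : ContinuousAt F x := hF.continuousAt (hΩ.mem_nhds hx)
  have h1 : Filter.Tendsto F (𝓝[S] x) (𝓝 (F x)) := hat.mono_left nhdsWithin_le_nhds
  have h2 : Filter.Tendsto F (𝓝[S] x) (𝓝 0) := by
    refine Filter.Tendsto.congr' ?_ tendsto_const_nhds
    filter_upwards [self_mem_nhdsWithin] with y hy
    exact (h0 y hy).symm
  haveI : (𝓝[S] x).NeBot := mem_closure_iff_nhdsWithin_neBot.mp hc
  exact tendsto_nhds_unique h1 h2

theorem tNN (hDen : S_Den) (hP3 : S_P3) (hP4 : S_P4) (_hLin : S_Lin) (hSmo : S_Smo) : S_NN := by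
  intro n g Ω t1 t2 hks x hx X Y a a' b b' c c' d d'
  have hΩ : IsOpen Ω := hks.met.isOpen
  obtain ⟨-, -, -, -, -, -, hN, -, -, -, -, hev⟩ := hSmo n g Ω hks.met
  have hcont : ∀ v : Fin 5 → Pt n, ContinuousOn (fun y => ev (N g) y v) Ω := fun v =>
    (hev 5 (N g) hN v).continuousOn
  have hc5 : ∀ Z u v w z e : Pt n, ContinuousOn (fun y => e5 (N g) y Z u v w z) Ω := by
    intro Z u v w z _
    exact hcont ![Z, u, v, w, z]
  by_cases h0 : ∃ a u v w z, e5 (N g) x a u v w z ≠ 0
  · have hcl := (hDen n g Ω t1 t2 hks).2 x hx h0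
    -- the identities on the good set
    have key : ∀ y ∈ Gset g Ω t2,
        e5 (N g) y X a a' b b' * e5 (N g) y Y c c' d d'
          = e5 (N g) y X a a' d d' * e5 (N g) y Y c c' b b' ∧
        e5 (N g) y X a a' b b' * e5 (N g) y Y c c' d d'
          = e5 (N g) y Y a a' b b' * e5 (N g) y X c c' d d' := by
      rintro y ⟨hy, -, ht2, u, v, w, z, hr⟩
      have h3 := hP3 n g Ω t1 t2 hks y hy ht2
      have h4 := hP4 n g Ω t1 t2 hks y hy ht2
      have hk : ∀ Z p p' q q', e5 (N g) y Z p p' q q' * e4 (R4 g) y u v w z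
          = e5 (N g) y Z u v w z * e4 (R4 g) y p p' q q' := fun Z p p' q q' =>
        h4 Z p p' q q' u v w z
      have hrr : e4 (R4 g) y u v w z * e4 (R4 g) y u v w z ≠ 0 := mul_ne_zero hr hr
      have hRk := h3 a a' b b' c c' d d'
      have e1' := hk X a a' b b'
      have e2' := hk Y c c' d d'
      have e3' := hk X a a' d d'
      have e4' := hk Y c c' b b'
      have e5' := hk Y a a' b b'
      have e6' := hk X c c' d d'
      constructor
      · apply mul_right_cancel₀ hrr
        calc e5 (N g) y X a a' b b' * e5 (N g) y Y c c' d d'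
              * (e4 (R4 g) y u v w z * e4 (R4 g) y u v w z)
            = (e5 (N g) y X a a' b b' * e4 (R4 g) y u v w z)
              * (e5 (N g) y Y c c' d d' * e4 (R4 g) y u v w z) := by ring
          _ = (e5 (N g) y X u v w z * e4 (R4 g) y a a' b b')
              * (e5 (N g) y Y u v w z * e4 (R4 g) y c c' d d') := by rw [e1', e2']
          _ = (e5 (N g) y X u v w z * e5 (N g) y Y u v w z)
              * (e4 (R4 g) y a a' b b' * e4 (R4 g) y c c' d d') := by ring
          _ = (e5 (N g) y X u v w z * e5 (N g) y Y u v w z)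
              * (e4 (R4 g) y a a' d d' * e4 (R4 g) y c c' b b') := by rw [hRk]
          _ = (e5 (N g) y X u v w z * e4 (R4 g) y a a' d d')
              * (e5 (N g) y Y u v w z * e4 (R4 g) y c c' b b') := by ring
          _ = (e5 (N g) y X a a' d d' * e4 (R4 g) y u v w z)
              * (e5 (N g) y Y c c' b b' * e4 (R4 g) y u v w z) := by rw [e3', e4']
          _ = _ := by ring
      · apply mul_right_cancel₀ hrr
        calc e5 (N g) y X a a' b b' * e5 (N g) y Y c c' d d'
              * (e4 (R4 g) y u v w z * e4 (R4 g) y u v w z)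
            = (e5 (N g) y X a a' b b' * e4 (R4 g) y u v w z)
              * (e5 (N g) y Y c c' d d' * e4 (R4 g) y u v w z) := by ring
          _ = (e5 (N g) y X u v w z * e4 (R4 g) y a a' b b')
              * (e5 (N g) y Y u v w z * e4 (R4 g) y c c' d d') := by rw [e1', e2']
          _ = (e5 (N g) y Y u v w z * e4 (R4 g) y a a' b b')
              * (e5 (N g) y X u v w z * e4 (R4 g) y c c' d d') := by ring
          _ = (e5 (N g) y Y a a' b b' * e4 (R4 g) y u v w z)
              * (e5 (N g) y X c c' d d' * e4 (R4 g) y u v w z) := by rw [e5', e6']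
          _ = _ := by ring
    constructor
    · have := zero_of_closure (F := fun y => e5 (N g) y X a a' b b' * e5 (N g) y Y c c' d d'
          - e5 (N g) y X a a' d d' * e5 (N g) y Y c c' b b') hΩ
        (((hc5 X a a' b b' 0).mul (hc5 Y c c' d d' 0)).sub
          ((hc5 X a a' d d' 0).mul (hc5 Y c c' b b' 0)))
        (fun y hy => sub_eq_zero.mpr (key y hy).1) hx hcl
      exact sub_eq_zero.mp this
    · have := zero_of_closure (F := fun y => e5 (N g) y X a a' b b' * e5 (N g) y Y c c' d d'
          - e5 (N g) y Y a a' b b' * e5 (N g) y X c c' d d') hΩ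
        (((hc5 X a a' b b' 0).mul (hc5 Y c c' d d' 0)).sub
          ((hc5 Y a a' b b' 0).mul (hc5 X c c' d d' 0)))
        (fun y hy => sub_eq_zero.mpr (key y hy).2) hx hcl
      exact sub_eq_zero.mp this
  · push Not at h0
    constructor <;> simp [h0]

end

end Pool.Agent.Lib.MP_9d59e9_gt.KO
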