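import Pool.Agent.Lib.MP_9d59e9_gt.KO.Spec

/-!
# MP_9d59e9_gt, project KO: rank one tensors
-/

set_option autoImplicit false

namespace Pool.Agent.Lib.MP_9d59e9_gt.KO

open scoped BigOperators ContDiff Kronecker
open Set

noncomputable section

/-- the quadratic form `∑ g^{ik} g^{jl} M_{ij} M_{kl}` -/
private lemma nrm_q {n : ℕ} (G : Matrix (Fin n) (Fin n) ℝ) (M : Fin n → Fin n → ℝ) :
    ∑ i, ∑ j, ∑ k, ∑ l, G i k * G j l * (M i j * M k l) =
      (fun q : Fin n × Fin n => M q.1 q.2) ⬝ᵥ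
        ((G ⊗ₖ G).mulVec fun q : Fin n × Fin n => M q.1 q.2) := by
  rw [dotProduct, Fintype.sum_prod_type]
  refine Finset.sum_congr rfl fun i _ => Finset.sum_congr rfl fun j _ => ?_
  rw [Matrix.mulVec, dotProduct, Fintype.sum_prod_type, Finset.mul_sum]
  refine Finset.sum_congr rfl fun k _ => ?_
  rw [Finset.mul_sum]
  refine Finset.sum_congr rfl fun l _ => ?_
  rw [Matrix.kroneckerMap_apply]
  ring

private lemma nrm_pos {n : ℕ} {G : Matrix (Fin n) (Fin n) ℝ} (hG : G.PosDef)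
    (M : Fin n → Fin n → ℝ) :
    0 ≤ ∑ i, ∑ j, ∑ k, ∑ l, G i k * G j l * (M i j * M k l) ∧
    ((∃ i j, M i j ≠ 0) → 0 < ∑ i, ∑ j, ∑ k, ∑ l, G i k * G j l * (M i j * M k l)) := by
  have hpos : (∃ i j, M i j ≠ 0) →
      0 < ∑ i, ∑ j, ∑ k, ∑ l, G i k * G j l * (M i j * M k l) := by
    rintro ⟨i, j, hij⟩
    rw [nrm_q]
    have h1 : (fun q : Fin n × Fin n => M q.1 q.2) ≠ 0 := by
      intro h0
      exact hij (congrFun h0 (i, j))
    have h2 := (hG.kronecker hG).dotProduct_mulVec_pos h1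
    exact h2
  refine ⟨?_, hpos⟩
  by_cases h : ∃ i j, M i j ≠ 0
  · exact (hpos h).le
  · push Not at h
    simp [h]

theorem tNrm (hLin : S_Lin) : S_Nrm := by
  intro n g x hg T hT hsw
  have hG : ((g x)⁻¹).PosDef := hg.inv
  obtain ⟨-, hev, -, -, -, -, h4, -⟩ := hLin n x
  have hT4 : ∀ i j k l, T ![i, j, k, l] x = e4 T x (bv i) (bv j) (bv k) (bv l) := by
    intro i j k l
    have h7 := hev 4 T ![i, j, k, l]
    have h8 : (fun a => bv (![i, j, k, l] a)) = (![bv i, bv j, bv k, bv l] : Fin 4 → Pt n) := by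
      ext a
      fin_cases a <;> rfl
    rw [h8] at h7
    exact h7.symm
  have hsc : ∀ a a', e4 T x a a' a a' * scal g T x =
      ∑ i, ∑ j, ∑ k, ∑ l, (g x)⁻¹ i k * (g x)⁻¹ j l *
        (e4 T x a a' (bv i) (bv j) * e4 T x a a' (bv k) (bv l)) := by
    intro a a'
    unfold scal
    simp only [Finset.mul_sum]
    refine Finset.sum_congr rfl fun i _ => Finset.sum_congr rfl fun j _ =>
      Finset.sum_congr rfl fun k _ => Finset.sum_congr rfl fun l _ => ?_
    have h1 := hT a a' a a' (bv i) (bv j) (bv k) (bv l)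
    have h2 := hsw a a' (bv i) (bv j)
    rw [h2] at h1
    rw [hT4]
    linear_combination ((g x)⁻¹ i k * (g x)⁻¹ j l) * h1
  have hfirst : ∀ a a', 0 ≤ e4 T x a a' a a' * scal g T x := by
    intro a a'
    rw [hsc]
    exact (nrm_pos hG fun i j => e4 T x a a' (bv i) (bv j)).1
  refine ⟨hfirst, ?_⟩
  rintro ⟨a, a', b, b', hne⟩
  -- a nonzero component on coordinate vectors
  have hcomp : ∃ i j k l, e4 T x (bv i) (bv j) (bv k) (bv l) ≠ 0 := by
    by_contra hcon
    push Not at hcon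
    apply hne
    have h3 := ((hLin n x).2.2.1 4 T).2 (by
      intro I
      have : I = ![I 0, I 1, I 2, I 3] := by
        ext a
        fin_cases a <;> rfl
      rw [this, hT4]
      exact hcon _ _ _ _)
    exact h3 _
  obtain ⟨i, j, k, l, hijkl⟩ := hcomp
  have h5 := hT (bv i) (bv j) (bv k) (bv l) (bv k) (bv l) (bv i) (bv j)
  rw [hsw (bv i) (bv j) (bv k) (bv l)] at h5
  have h6 : e4 T x (bv i) (bv j) (bv i) (bv j) ≠ 0 := by
    intro h0
    rw [h0, zero_mul] at h5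
    exact hijkl (mul_self_eq_zero.1 h5)
  refine ⟨?_, i, j, h6⟩
  intro h0
  have h7 := (nrm_pos hG fun k l => e4 T x (bv i) (bv j) (bv k) (bv l)).2 ⟨k, l, hijkl⟩
  rw [← hsc, h0, mul_zero] at h7
  exact lt_irrefl _ h7

end

end Pool.Agent.Lib.MP_9d59e9_gt.KO
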