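import Pool.Agent.Lib.MP_9d59e9_gt.KO.Spec

/-!
# MP_9d59e9_gt, project KO: orthonormal basis and inner product axioms at a point
-/

set_option autoImplicit false

namespace Pool.Agent.Lib.MP_9d59e9_gt.KO

open scoped BigOperators MatrixOrder

private theorem ip_dot' {n : ℕ} (g : Pt n → Matrix (Fin n) (Fin n) ℝ) (x u v : Pt n) :
    ip g x u v = dotProduct u (Matrix.mulVec (g x) v) := by
  unfold ip dotProduct Matrix.mulVec dotProduct
  refine Finset.sum_congr rfl fun i _ => ?_
  rw [Finset.mul_sum]
  refine Finset.sum_congr rfl fun j _ => ?_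
  ring

private theorem lin_sum {n : ℕ} {f : Pt n → ℝ} (hf : Lin1 f) {ι : Type} (s : Finset ι)
    (c : ι → ℝ) (e : ι → Pt n) : f (∑ i ∈ s, c i • e i) = ∑ i ∈ s, c i * f (e i) := by
  classical
  have h0 : f 0 = 0 := by
    have := hf.smul 0 0
    rw [zero_smul, zero_mul] at this
    exact this
  induction s using Finset.induction_on with
  | empty => simpa using h0
  | insert a s ha ih => rw [Finset.sum_insert ha, Finset.sum_insert ha, hf.add, hf.smul, ih]

/-- orthonormal basis and inner product axioms at a point -/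
theorem tOnb : S_Onb := by
  intro n g x hg
  obtain ⟨B, hB⟩ := CStarAlgebra.nonneg_iff_eq_star_mul_self.mp hg.posSemidef.nonneg
  rw [Matrix.star_eq_conjTranspose, Matrix.conjTranspose_eq_transpose_of_trivial] at hB
  have hip : ∀ u v, ip g x u v = dotProduct (Matrix.mulVec B u) (Matrix.mulVec B v) := by
    intro u v
    rw [ip_dot', hB, ← Matrix.mulVec_mulVec, Matrix.dotProduct_mulVec, Matrix.vecMul_transpose]
  have hdet : IsUnit B.det := by
    have h1 : (g x).det ≠ 0 := ne_of_gt hg.det_pos
    rw [hB, Matrix.det_mul, Matrix.det_transpose] at h1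
    exact isUnit_iff_ne_zero.mpr (left_ne_zero_of_mul h1)
  have hinj : ∀ u v : Pt n, Matrix.mulVec B u = Matrix.mulVec B v → u = v := by
    intro u v h
    have h5 := congrArg (fun y => Matrix.mulVec B⁻¹ y) h
    simp only [Matrix.mulVec_mulVec, Matrix.nonsing_inv_mul _ hdet, Matrix.one_mulVec] at h5
    exact h5
  have hsymm : ∀ u v, ip g x u v = ip g x v u := by
    intro u v
    rw [hip, hip, dotProduct_comm]
  have hlin : ∀ b, Lin1 fun a => ip g x a b := by
    intro b
    constructor
    · intro u v
      simp only [hip, Matrix.mulVec_add, add_dotProduct]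
    · intro r u
      simp only [hip, Matrix.mulVec_smul, smul_dotProduct, smul_eq_mul]
  have hpos : ∀ a, a ≠ 0 → 0 < ip g x a a := by
    intro a ha
    rw [hip]
    have h1 : Matrix.mulVec B a ≠ 0 := by
      intro h
      apply ha
      apply hinj
      rw [h, Matrix.mulVec_zero]
    have h2 : 0 ≤ dotProduct (Matrix.mulVec B a) (Matrix.mulVec B a) :=
      Finset.sum_nonneg fun i _ => mul_self_nonneg _
    refine lt_of_le_of_ne h2 fun h => h1 ?_
    exact dotProduct_self_eq_zero.mp h.symm
  have hbasis : ∃ e : Fin n → Pt n, (∀ i j, ip g x (e i) (e j) = if i = j then 1 else 0) ∧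
      ∀ v, v = ∑ i, ip g x v (e i) • e i := by
    refine ⟨fun i => Matrix.mulVec B⁻¹ (Pi.single i 1), ?_, ?_⟩
    · intro i j
      rw [hip, Matrix.mulVec_mulVec, Matrix.mulVec_mulVec, Matrix.mul_nonsing_inv _ hdet,
        Matrix.one_mulVec, Matrix.one_mulVec, dotProduct_single_one, Pi.single_apply]
      simp only [eq_comm]
    · intro v
      apply hinj
      rw [Matrix.mulVec_sum]
      simp only [hip, Matrix.mulVec_smul, Matrix.mulVec_mulVec, Matrix.mul_nonsing_inv _ hdet,
        Matrix.one_mulVec, dotProduct_single_one]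
      funext k
      rw [Finset.sum_apply, Finset.sum_eq_single k]
      · rw [Pi.smul_apply, Pi.single_eq_same, smul_eq_mul, mul_one]
      · intro b _ hb
        rw [Pi.smul_apply, Pi.single_eq_of_ne (Ne.symm hb), smul_zero]
      · intro h
        exact absurd (Finset.mem_univ _) h
  refine ⟨hbasis, ⟨hlin, hsymm, hpos, ?_⟩, ?_⟩
  · intro f hf
    obtain ⟨e, -, he⟩ := hbasis
    refine ⟨∑ i, f (e i) • e i, fun v => ?_⟩
    rw [lin_sum (hlin v)]
    conv_rhs => rw [he v]
    rw [lin_sum hf]
    refine Finset.sum_congr rfl fun i _ => ?_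
    rw [hsymm (e i) v, mul_comm]
  · intro K v
    let L : K →ₗ[ℝ] Module.Dual ℝ K := LinearMap.mk₂ ℝ (fun u a : K => ip g x u a)
      (fun u u' a => (hlin a).add u u') (fun c u a => (hlin a).smul c u)
      (fun u a a' => by
        rw [hsymm, hsymm (u : Pt n) a, hsymm (u : Pt n) a']
        exact (hlin u).add a a')
      (fun c u a => by
        rw [hsymm, hsymm (u : Pt n) a]
        exact (hlin u).smul c a)
    have hL : Function.Injective L := by
      rw [← LinearMap.ker_eq_bot, LinearMap.ker_eq_bot']
      intro u hu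
      by_contra hne
      have h1 : ip g x u u = 0 := congrArg (fun φ : Module.Dual ℝ K => φ u) hu
      have h2 := hpos (u : Pt n) (fun h => hne (Subtype.ext h))
      rw [h1] at h2
      exact lt_irrefl _ h2
    have hLs : Function.Surjective L :=
      (LinearMap.injective_iff_surjective_of_finrank_eq_finrank
        (Subspace.dual_finrank_eq (K := ℝ) (V := K)).symm).mp hL
    let φ : Module.Dual ℝ K :=
      { toFun := fun a => ip g x v a
        map_add' := fun a a' => by
          show ip g x v ((a : Pt n) + a') = _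
          rw [hsymm, hsymm v a, hsymm v a']
          exact (hlin v).add a a'
        map_smul' := fun c a => by
          show ip g x v (c • (a : Pt n)) = _
          rw [hsymm, hsymm v a]
          exact (hlin v).smul c a }
    obtain ⟨u, hu⟩ := hLs φ
    refine ⟨u, u.2, fun a ha => ?_⟩
    have h1 : ip g x u a = ip g x v a := congrArg (fun ψ : Module.Dual ℝ K => ψ ⟨a, ha⟩) hu
    have h2 : v = (v - u) + u := by abel
    have h3 := (hlin a).add (v - u) u
    rw [← h2] at h3
    linarith

end Pool.Agent.Lib.MP_9d59e9_gt.KO
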