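import Pool.Agent.Lib.MP_9d59e9_gt.KO.Spec

/-!
# MP_9d59e9_gt, project KO: the raised vectors
-/

set_option autoImplicit false

namespace Pool.Agent.Lib.MP_9d59e9_gt.KO

private theorem snoc4 {α : Type} (a u v w z : α) :
    (Fin.snoc (α := fun _ => α) ![a, u, v, w] z : Fin 5 → α) = ![a, u, v, w, z] := by
  funext i
  fin_cases i <;> rfl

private theorem snoc5 {α : Type} (a b u v w z : α) :
    (Fin.snoc (α := fun _ => α) ![a, b, u, v, w] z : Fin 6 → α) = ![a, b, u, v, w, z] := by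
  funext i
  fin_cases i <;> rfl

/-- the raised vectors `Nv` and `N2v` -/
theorem tOpn (hUp : S_Up) : S_Opn := by
  intro n g x hg
  obtain ⟨h, -⟩ := hUp n g x hg
  refine ⟨fun a u v w z => ?_, fun a b u v w z => ?_⟩
  · unfold Nv e5
    rw [h 4 (N g) ![a, u, v, w] z, snoc4]
  · unfold N2v e6
    rw [h 5 (N2 g) ![a, b, u, v, w] z, snoc5]

end Pool.Agent.Lib.MP_9d59e9_gt.KO
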