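import Pool.Agent.Lib.MP_9d59e9_gt.KO.Spec

/-!
# MP_9d59e9_gt, project KO: part P3
-/

set_option autoImplicit false

namespace Pool.Agent.Lib.MP_9d59e9_gt.KO

theorem tP3 (hA3 : S_A3) (hQ1 : S_Q1) (hQR : S_QR) (hSym : S_Sym) (hBi2 : S_Bi2)
    (hOnb : S_Onb) (hLin : S_Lin) : S_P3 := by
  intro n g Ω t1 t2 hks x hx hne
  obtain ⟨_, _, _, l1, l2, l3, _, _, _⟩ := hLin n x
  have hs := hSym n g Ω hks.met x hx
  have H : A3H (ip g x) (e4 (R4 g) x) (Rv g x) (e5 (N g) x) (e1 t1 x) (e2 t2 x)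
      (e3 (D g t2) x) :=
    { ip := (hOnb n g x (hks.met.pos x hx)).2.1
      cR := hs.1
      cM := hBi2 n g Ω hks.met x hx
      op := hs.2.1
      l1 := l1 t1
      l2 := (l2 t2).1
      l2' := (l2 t2).2
      lβ := (l3 (D g t2)).1
      lβ' := (l3 (D g t2)).2.2
      ii := fun a b c d w z => (hQ1 n g Ω t1 t2 hks x hx 0 a b c d w z).1
      ii' := fun X a b c d w z => (hQ1 n g Ω t1 t2 hks x hx X a b c d w z).2
      qr := hQR n g Ω t1 t2 hks x hx }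
  exact hA3 (Pt n) (ip g x) (e4 (R4 g) x) (Rv g x) (e5 (N g) x) (e1 t1 x) (e2 t2 x)
    (e3 (D g t2) x) H hne

end Pool.Agent.Lib.MP_9d59e9_gt.KO
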