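import Pool.Agent.Lib.MP_9d59e9_gt.KO.Spec

/-!
# MP_9d59e9_gt, project KO, module P4

`∇_X R` is proportional to `R` at the points with `t₂ ≠ 0`: differentiate the rank-one identity of
`R` twice along parallel curves, insert the equation `ks`, and apply the algebraic lemma `A4`.
-/

set_option autoImplicit false

namespace Pool.Agent.Lib.MP_9d59e9_gt.KO

open scoped BigOperators ContDiff Topology
open Set

noncomputable section

/-- first order parallel curve of vectors through `v` along `t ↦ p + t X` -/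
private def pcv {n : ℕ} (g : Pt n → Matrix (Fin n) (Fin n) ℝ) (p X v : Pt n) : ℝ → Pt n :=
  fun t => v - t • Chr g p X v

private lemma pcv_zero {n : ℕ} (g : Pt n → Matrix (Fin n) (Fin n) ℝ) (p X v : Pt n) :
    pcv g p X v 0 = v := by
  simp [pcv]

private lemma pcv_cv (hCvb : S_Cvb) {n : ℕ} (g : Pt n → Matrix (Fin n) (Fin n) ℝ)
    (p X v : Pt n) : Cv g p X (pcv g p X v) v 0 := (hCvb n g p X).1 v

private lemma lin_zero {V : Type} [AddCommGroup V] [Module ℝ V] {f : V → ℝ} (h : Lin1 f) :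
    f 0 = 0 := by
  have := h.smul 0 0
  simpa using this

/-- derivative of `R` along parallel curves -/
private lemma dR (hCvE : S_CvE) (hCvb : S_Cvb) (hLin : S_Lin) (hSmo : S_Smo) {n : ℕ}
    {g : Pt n → Matrix (Fin n) (Fin n) ℝ} {Ω : Set (Pt n)} (hg : IsMetricOn g Ω) {p : Pt n}
    (hp : p ∈ Ω) (X a b c d : Pt n) :
    HasDerivAt (fun t : ℝ => e4 (R4 g) (p + t • X) (pcv g p X a t) (pcv g p X b t)
      (pcv g p X c t) (pcv g p X d t)) (e5 (N g) p X a b c d) 0 := by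
  obtain ⟨-, -, -, -, -, sR, -⟩ := hSmo n g Ω hg
  have h := (hCvE n g Ω hg.isOpen p hp X).2.2.1 (R4 g) sR _ a 0 _ b 0 _ c 0 _ d 0
    (pcv_cv hCvb g p X a) (pcv_cv hCvb g p X b) (pcv_cv hCvb g p X c) (pcv_cv hCvb g p X d)
  obtain ⟨-, -, -, -, -, -, L4, -⟩ := hLin n p
  obtain ⟨l4, l3, l2, l1⟩ := L4 (R4 g)
  have z1 : e4 (R4 g) p 0 b c d = 0 := lin_zero (l1 b c d)
  have z2 : e4 (R4 g) p a 0 c d = 0 := lin_zero (l2 a c d)
  have z3 : e4 (R4 g) p a b 0 d = 0 := lin_zero (l3 a b d)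
  have z4 : e4 (R4 g) p a b c 0 = 0 := lin_zero (l4 a b c)
  rw [z1, z2, z3, z4] at h
  simpa [N] using h

/-- derivative of `∇R` along parallel curves -/
private lemma dN (hCvE : S_CvE) (hCvb : S_Cvb) (hLin : S_Lin) (hSmo : S_Smo) {n : ℕ}
    {g : Pt n → Matrix (Fin n) (Fin n) ℝ} {Ω : Set (Pt n)} (hg : IsMetricOn g Ω) {p : Pt n}
    (hp : p ∈ Ω) (X a b c d e : Pt n) :
    HasDerivAt (fun t : ℝ => e5 (N g) (p + t • X) (pcv g p X a t) (pcv g p X b t)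
      (pcv g p X c t) (pcv g p X d t) (pcv g p X e t)) (e6 (N2 g) p X a b c d e) 0 := by
  obtain ⟨-, -, -, -, -, -, sN, -⟩ := hSmo n g Ω hg
  have h := (hCvE n g Ω hg.isOpen p hp X).2.2.2 (N g) sN _ a 0 _ b 0 _ c 0 _ d 0 _ e 0
    (pcv_cv hCvb g p X a) (pcv_cv hCvb g p X b) (pcv_cv hCvb g p X c) (pcv_cv hCvb g p X d)
    (pcv_cv hCvb g p X e)
  obtain ⟨-, -, -, -, -, -, -, L5, -⟩ := hLin n p
  obtain ⟨l5, l4, l3, l2, l1⟩ := L5 (N g)
  have z1 : e5 (N g) p 0 b c d e = 0 := lin_zero (l1 b c d e)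
  have z2 : e5 (N g) p a 0 c d e = 0 := lin_zero (l2 a c d e)
  have z3 : e5 (N g) p a b 0 d e = 0 := lin_zero (l3 a b d e)
  have z4 : e5 (N g) p a b c 0 e = 0 := lin_zero (l4 a b c e)
  have z5 : e5 (N g) p a b c d 0 = 0 := lin_zero (l5 a b c d)
  rw [z1, z2, z3, z4, z5] at h
  simpa [N2] using h

/-- near a point of `{t₂ ≠ 0}` all the points of a line are in `{t₂ ≠ 0}` -/
private lemma evG (hSmo : S_Smo) {n : ℕ} {g : Pt n → Matrix (Fin n) (Fin n) ℝ} {Ω : Set (Pt n)}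
    (hg : IsMetricOn g Ω) {t2 : TF n 2} (s2 : Sm Ω t2) {x : Pt n} (hx : x ∈ Ω)
    (h2 : ∃ a b, e2 t2 x a b ≠ 0) (X : Pt n) :
    ∀ᶠ t : ℝ in 𝓝 0, x + t • X ∈ Ω ∧ ∃ a b, e2 t2 (x + t • X) a b ≠ 0 := by
  obtain ⟨-, -, -, -, -, -, -, -, -, -, -, hev⟩ := hSmo n g Ω hg
  obtain ⟨a, b, hab⟩ := h2
  have hc : ContinuousAt (fun y => e2 t2 y a b) x :=
    ((hev 2 t2 s2 ![a, b]).continuousOn.continuousAt (hg.isOpen.mem_nhds hx))
  have h1 : ∀ᶠ y in 𝓝 x, e2 t2 y a b ≠ 0 := hc.eventually_ne hab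
  have h3 : ∀ᶠ y in 𝓝 x, y ∈ Ω ∧ ∃ a b, e2 t2 y a b ≠ 0 := by
    filter_upwards [h1, hg.isOpen.mem_nhds hx] with y hy hy'
    exact ⟨hy', a, b, hy⟩
  have hl : Filter.Tendsto (fun t : ℝ => x + t • X) (𝓝 0) (𝓝 x) := by
    have : ContinuousAt (fun t : ℝ => x + t • X) 0 := by fun_prop
    simpa [ContinuousAt] using this
  exact hl.eventually h3

/-- the first derivative of the rank-one identity -/
private lemma ro1 (hP3 : S_P3) (hCvE : S_CvE) (hCvb : S_Cvb) (hLin : S_Lin) (hSmo : S_Smo)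
    {n : ℕ} {g : Pt n → Matrix (Fin n) (Fin n) ℝ} {Ω : Set (Pt n)} {t1 : TF n 1} {t2 : TF n 2}
    (hK : KS2 g Ω t1 t2) {x : Pt n} (hx : x ∈ Ω) (h2 : ∃ a b, e2 t2 x a b ≠ 0)
    (Y a a' b b' c c' d d' : Pt n) :
    e5 (N g) x Y a a' b b' * e4 (R4 g) x c c' d d'
        + e4 (R4 g) x a a' b b' * e5 (N g) x Y c c' d d'
      = e5 (N g) x Y a a' d d' * e4 (R4 g) x c c' b b'
        + e4 (R4 g) x a a' d d' * e5 (N g) x Y c c' b b' := by
  have dR' := fun u v w z => dR hCvE hCvb hLin hSmo hK.met hx Y u v w z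
  have hl := (dR' a a' b b').mul (dR' c c' d d')
  have hr := (dR' a a' d d').mul (dR' c c' b b')
  have heq : (fun t : ℝ => e4 (R4 g) (x + t • Y) (pcv g x Y a t) (pcv g x Y a' t)
      (pcv g x Y b t) (pcv g x Y b' t) * e4 (R4 g) (x + t • Y) (pcv g x Y c t) (pcv g x Y c' t)
      (pcv g x Y d t) (pcv g x Y d' t)) =ᶠ[𝓝 0]
      (fun t : ℝ => e4 (R4 g) (x + t • Y) (pcv g x Y a t) (pcv g x Y a' t)
      (pcv g x Y d t) (pcv g x Y d' t) * e4 (R4 g) (x + t • Y) (pcv g x Y c t) (pcv g x Y c' t)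
      (pcv g x Y b t) (pcv g x Y b' t)) := by
    filter_upwards [evG hSmo hK.met hK.s2 hx h2 Y] with t ht
    exact hP3 n g Ω t1 t2 hK _ ht.1 ht.2 _ _ _ _ _ _ _ _
  have hl' := hr.congr_of_eventuallyEq heq
  have hu := hl.unique hl'
  simpa [pcv_zero] using hu

/-- the second derivative of the rank-one identity -/
private lemma ro2 (hP3 : S_P3) (hCvE : S_CvE) (hCvb : S_Cvb) (hLin : S_Lin) (hSmo : S_Smo)
    {n : ℕ} {g : Pt n → Matrix (Fin n) (Fin n) ℝ} {Ω : Set (Pt n)} {t1 : TF n 1} {t2 : TF n 2}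
    (hK : KS2 g Ω t1 t2) {x : Pt n} (hx : x ∈ Ω) (h2 : ∃ a b, e2 t2 x a b ≠ 0)
    (X Y a a' b b' c c' d d' : Pt n) :
    e6 (N2 g) x X Y a a' b b' * e4 (R4 g) x c c' d d'
        + e5 (N g) x Y a a' b b' * e5 (N g) x X c c' d d'
        + (e5 (N g) x X a a' b b' * e5 (N g) x Y c c' d d'
          + e4 (R4 g) x a a' b b' * e6 (N2 g) x X Y c c' d d')
      = e6 (N2 g) x X Y a a' d d' * e4 (R4 g) x c c' b b'
        + e5 (N g) x Y a a' d d' * e5 (N g) x X c c' b b'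
        + (e5 (N g) x X a a' d d' * e5 (N g) x Y c c' b b'
          + e4 (R4 g) x a a' d d' * e6 (N2 g) x X Y c c' b b') := by
  have dR' := fun u v w z => dR hCvE hCvb hLin hSmo hK.met hx X u v w z
  have dN' := fun u v w z => dN hCvE hCvb hLin hSmo hK.met hx X Y u v w z
  have hl := ((dN' a a' b b').mul (dR' c c' d d')).add ((dR' a a' b b').mul (dN' c c' d d'))
  have hr := ((dN' a a' d d').mul (dR' c c' b b')).add ((dR' a a' d d').mul (dN' c c' b b'))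
  have hl' := hr.congr_of_eventuallyEq (f₁ := fun t : ℝ =>
      e5 (N g) (x + t • X) (pcv g x X Y t) (pcv g x X a t) (pcv g x X a' t)
        (pcv g x X b t) (pcv g x X b' t) * e4 (R4 g) (x + t • X) (pcv g x X c t) (pcv g x X c' t)
        (pcv g x X d t) (pcv g x X d' t)
      + e4 (R4 g) (x + t • X) (pcv g x X a t) (pcv g x X a' t)
        (pcv g x X b t) (pcv g x X b' t) * e5 (N g) (x + t • X) (pcv g x X Y t)
        (pcv g x X c t) (pcv g x X c' t) (pcv g x X d t) (pcv g x X d' t)) (by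
    filter_upwards [evG hSmo hK.met hK.s2 hx h2 X] with t ht
    exact ro1 hP3 hCvE hCvb hLin hSmo hK ht.1 ht.2 _ _ _ _ _ _ _ _ _)
  have hu := hl.unique hl'
  simpa [pcv_zero] using hu

/-- `∇_X R` is proportional to `R` where `t₂ ≠ 0` -/
theorem tP4 (hP3 : S_P3) (hA4 : S_A4) (hCvE : S_CvE) (hCvb : S_Cvb) (hLin : S_Lin)
    (hSmo : S_Smo) (hSym : S_Sym) (hBi2 : S_Bi2) : S_P4 := by
  intro n g Ω t1 t2 hK x hx h2 X a a' b b' c c' d d'
  have hsR := (hSym n g Ω hK.met x hx).1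
  have hsN := (hBi2 n g Ω hK.met x hx).cur X
  have h := hA4 (Pt n × Pt n) (fun A B => e4 (R4 g) x A.1 A.2 B.1 B.2)
    (fun A B => e5 (N g) x X A.1 A.2 B.1 B.2)
    (fun A B => hsR.sw _ _ _ _) (fun A B => hsN.sw _ _ _ _)
    (fun A B C E => hP3 n g Ω t1 t2 hK x hx h2 _ _ _ _ _ _ _ _)
    (fun A B C E => ro1 hP3 hCvE hCvb hLin hSmo hK hx h2 X _ _ _ _ _ _ _ _) ?_
  · exact h (a, a') (b, b') (c, c') (d, d')
  · rintro ⟨a, a'⟩ ⟨b, b'⟩ ⟨c, c'⟩ ⟨d, d'⟩
    have k0 := hP3 n g Ω t1 t2 hK x hx h2 a a' b b' c c' d d'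
    have k1 := ro1 hP3 hCvE hCvb hLin hSmo hK hx h2 X a a' b b' c c' d d'
    have k2 := ro2 hP3 hCvE hCvb hLin hSmo hK hx h2 X X a a' b b' c c' d d'
    have q1 := hK.ks x hx X X a a' b b'
    have q2 := hK.ks x hx X X c c' d d'
    have q3 := hK.ks x hx X X a a' d d'
    have q4 := hK.ks x hx X X c c' b b'
    change e5 (N g) x X a a' b b' * e5 (N g) x X c c' d d'
      = e5 (N g) x X a a' d d' * e5 (N g) x X c c' b b'
    have r1 : e6 (N2 g) x X X a a' b b' = -(e1 t1 x X * e5 (N g) x X a a' b b')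
        - e2 t2 x X X * e4 (R4 g) x a a' b b' := by linarith
    have r2 : e6 (N2 g) x X X c c' d d' = -(e1 t1 x X * e5 (N g) x X c c' d d')
        - e2 t2 x X X * e4 (R4 g) x c c' d d' := by linarith
    have r3 : e6 (N2 g) x X X a a' d d' = -(e1 t1 x X * e5 (N g) x X a a' d d')
        - e2 t2 x X X * e4 (R4 g) x a a' d d' := by linarith
    have r4 : e6 (N2 g) x X X c c' b b' = -(e1 t1 x X * e5 (N g) x X c c' b b')
        - e2 t2 x X X * e4 (R4 g) x c c' b b' := by linarith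
    rw [r1, r2, r3, r4] at k2
    linear_combination (1 / 2) * k2 + (1 / 2) * e1 t1 x X * k1 + e2 t2 x X X * k0

end

end Pool.Agent.Lib.MP_9d59e9_gt.KO
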