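import Pool.Agent.Lib.MP_9d59e9_gt.KO.Spec

/-!
# MP_9d59e9_gt, project KO: the case `t₂ = 0` is locally symmetric
-/

set_option autoImplicit false

namespace Pool.Agent.Lib.MP_9d59e9_gt.KO

open scoped BigOperators ContDiff Topology
open Set

noncomputable section

private theorem lin_zero {V : Type} [AddCommGroup V] [Module ℝ V] {f : V → ℝ} (h : Lin1 f) :
    f 0 = 0 := by
  have h1 := h.smul 0 (0 : V)
  rwa [smul_zero, zero_mul] at h1

theorem tP5 (hA5 : S_A5) (hP5a : S_P5a) (hP5b : S_P5b) (hP5c : S_P5c) (hOnb : S_Onb)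
    (hBi2 : S_Bi2) (hOpn : S_Opn) (hLin : S_Lin) (hSmo : S_Smo) (hCvE : S_CvE) (hCvb : S_Cvb) :
    S_P5 := by
  intro n g U t1 t2 hks ht2 p hp a u v w z
  by_contra hne
  have hU : IsOpen U := hks.met.isOpen
  obtain ⟨-, -, -, -, -, -, hN, -, -, -, hhT, hev⟩ := hSmo n g U hks.met
  have hsm : Sm U (hT g t1) := hhT t1 hks.s1
  -- the tensor field `h` is symmetric near `p`
  have hcont : ContinuousAt (fun y => e5 (N g) y a u v w z) p :=
    ((hev 5 (N g) hN ![a, u, v, w, z]).continuousOn).continuousAt (hU.mem_nhds hp)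
  have hsymm : ∀ᶠ y in 𝓝 p, ∀ b c, e2 (hT g t1) y b c = e2 (hT g t1) y c b := by
    filter_upwards [hcont.eventually_ne hne, hU.mem_nhds hp] with y hy hyU
    exact (hP5a n g U t1 t2 hks ht2 y hyU).2.2 ⟨a, u, v, w, z, hy⟩
  obtain ⟨-, -, -, -, hl2, hl3, -, -, -⟩ := hLin n p
  have hks' : ∀ X b c, e3 (D g (hT g t1)) p X b c = e3 (D g (hT g t1)) p X c b := by
    intro X b c
    have h1 := (hCvE n g U hU p hp X).2.1 (hT g t1) hsm _ b 0 _ c 0
      ((hCvb n g p X).1 b) ((hCvb n g p X).1 c)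
    have h2 := (hCvE n g U hU p hp X).2.1 (hT g t1) hsm _ c 0 _ b 0
      ((hCvb n g p X).1 c) ((hCvb n g p X).1 b)
    have hz1 : ∀ d, e2 (hT g t1) p 0 d = 0 := fun d => lin_zero ((hl2 (hT g t1)).2 d)
    have hz2 : ∀ d, e2 (hT g t1) p d 0 = 0 := fun d => lin_zero ((hl2 (hT g t1)).1 d)
    rw [hz1, hz2, add_zero, add_zero] at h1 h2
    have ht : Filter.Tendsto (fun t : ℝ => p + t • X) (𝓝 0) (𝓝 p) := by
      have hc : Continuous fun t : ℝ => p + t • X := by fun_prop
      have := hc.tendsto 0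
      rwa [zero_smul, add_zero] at this
    have h3 : HasDerivAt (fun t : ℝ => e2 (hT g t1) (p + t • X) (b - t • Chr g p X b)
        (c - t • Chr g p X c)) (e3 (D g (hT g t1)) p X c b) 0 := by
      refine h2.congr_of_eventuallyEq ?_
      filter_upwards [ht.eventually hsymm] with t h
      exact h _ _
    exact h1.unique h3
  obtain ⟨-, hIP, hort⟩ := hOnb n g p (hks.met.pos p hp)
  have hH : A5H (ip g p) (e5 (N g) p) (Nv g p) (e3 (D g (hT g t1)) p) :=
    { ip := hIP
      cM := hBi2 n g U hks.met p hp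
      op := fun z x y w v => (hOpn n g p (hks.met.pos p hp)).1 z x y w v
      k1 := fun z x => (hl3 (D g (hT g t1))).2.2 z x
      k2 := fun w x => (hl3 (D g (hT g t1))).2.1 w x
      k3 := fun w z => (hl3 (D g (hT g t1))).1 w z
      ks := hks'
      pr := (hP5b n g U t1 t2 hks ht2 p hp).2
      d2 := hP5c n g U t1 t2 hks ht2 p hp
      ort := hort }
  exact hne (hA5 _ _ _ _ _ hH a u v w z)

end

end Pool.Agent.Lib.MP_9d59e9_gt.KO
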