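import Pool.Agent.Lib.MP_9d59e9_gt.KO.Spec

/-!
# MP_9d59e9_gt, project KO: first consequences of `∇²R = σ ⊗ ∇R`
-/

set_option autoImplicit false

namespace Pool.Agent.Lib.MP_9d59e9_gt.KO

open scoped BigOperators ContDiff Topology
open Set Filter

noncomputable section

private theorem P5a_lin0 {V : Type} [AddCommGroup V] [Module ℝ V] {f : V → ℝ} (h : Lin1 f) :
    f 0 = 0 := by
  have := h.smul 0 0
  rwa [zero_smul, zero_mul] at this

private theorem P5a_five {α : Type} (w : Fin 5 → α) : w = ![w 0, w 1, w 2, w 3, w 4] := by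
  ext i; fin_cases i <;> rfl

private theorem P5a_ipsymm {n : ℕ} {g : Pt n → Matrix (Fin n) (Fin n) ℝ} {x : Pt n}
    (h : (g x).PosDef) (u v : Pt n) : ip g x u v = ip g x v u := by
  have hs : ∀ i j, g x i j = g x j i := fun i j => by
    have := h.isHermitian.apply i j
    simpa using this.symm
  unfold ip
  rw [Finset.sum_comm]
  refine Finset.sum_congr rfl fun j _ => Finset.sum_congr rfl fun i _ => ?_
  rw [hs i j]
  ring

private theorem P5a_ks {n : ℕ} {g : Pt n → Matrix (Fin n) (Fin n) ℝ} {Ω : Set (Pt n)}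
    {t1 : TF n 1} {t2 : TF n 2} (h : KS2 g Ω t1 t2)
    (h2 : ∀ x ∈ Ω, ∀ a b, e2 t2 x a b = 0) {x : Pt n} (hx : x ∈ Ω) (a : Pt n)
    (w : Fin 5 → Pt n) :
    ev (N2 g) x (Fin.cons a w) = -(e1 t1 x a * ev (N g) x w) := by
  have h3 := h.ks x hx a (w 0) (w 1) (w 2) (w 3) (w 4)
  rw [h2 x hx, zero_mul, add_zero] at h3
  have h4 : e6 (N2 g) x a (w 0) (w 1) (w 2) (w 3) (w 4) = ev (N2 g) x (Fin.cons a w) := by
    rw [P5a_five w]
    rfl
  have h5 : e5 (N g) x (w 0) (w 1) (w 2) (w 3) (w 4) = ev (N g) x w := by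
    conv_rhs => rw [P5a_five w]
    rfl
  rw [h4, h5] at h3
  linarith

private theorem P5a_hT {n : ℕ} (g : Pt n → Matrix (Fin n) (Fin n) ℝ) (t1 : TF n 1)
    (p x y : Pt n) :
    e2 (hT g t1) p x y = -(e2 (D g t1) p x y) + e1 t1 p x * e1 t1 p y := by
  have h1 : ∀ z : Pt n, e1 t1 p z = ∑ i, t1 ![i] p * z i := by
    intro z
    unfold e1 ev
    refine Fintype.sum_equiv (Equiv.funUnique (Fin 1) (Fin n)) _ _ fun I => ?_
    have hI : (![(Equiv.funUnique (Fin 1) (Fin n)) I] : Fin 1 → Fin n) = I := by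
      ext i; fin_cases i; rfl
    rw [hI]
    simp [Equiv.funUnique]
  have h2 : ∀ T : TF n 2, e2 T p x y = ∑ i, ∑ j, T ![i, j] p * (x i * y j) := by
    intro T
    unfold e2 ev
    rw [← Fintype.sum_prod_type']
    refine Fintype.sum_equiv (finTwoArrowEquiv (Fin n)) _ _ fun I => ?_
    have hI : (![((finTwoArrowEquiv (Fin n)) I).1, ((finTwoArrowEquiv (Fin n)) I).2] :
        Fin 2 → Fin n) = I := by
      ext i; fin_cases i <;> rfl
    rw [hI]
    simp [Fin.prod_univ_two, finTwoArrowEquiv]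
  rw [h2, h2, h1, h1, Finset.sum_mul_sum, ← Finset.sum_neg_distrib, ← Finset.sum_add_distrib]
  refine Finset.sum_congr rfl fun i _ => ?_
  rw [← Finset.sum_neg_distrib, ← Finset.sum_add_distrib]
  refine Finset.sum_congr rfl fun j _ => ?_
  unfold hT
  simp only [Matrix.cons_val_zero, Matrix.cons_val_one]
  ring

/-- **P5a.** -/
theorem tP5a (hQR : S_QR) (hRic : S_Ric) (hCrv : S_Crv) (hCvE : S_CvE) (hCvb : S_Cvb)
    (hLin : S_Lin) (hSmo : S_Smo) (hSym : S_Sym) (hSkw : S_Skw) : S_P5a := by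
  intro n g Ω t1 t2 h h2 p hp
  have hmet := h.met
  obtain ⟨-, -, -, -, -, -, hNs, hN2s, -, -, -, -⟩ := hSmo n g Ω hmet
  obtain ⟨hev, -, -, hl1, -⟩ := hLin n p
  -- the derivative of `∇²R`
  have hD : ∀ (X Y : Pt n) (w : Fin 5 → Pt n),
      ev (D g (D g (N g))) p (Fin.cons X (Fin.cons Y w)) =
        (-(e2 (D g t1) p X Y) + e1 t1 p X * e1 t1 p Y) * ev (N g) p w := by
    intro X Y w
    have hpar := (hCvb n g p X).1
    -- left side
    have hL := hCrv n g Ω hmet.isOpen 6 (N2 g) hN2s p hp X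
      (fun j t => (Fin.cons Y w : Fin 6 → Pt n) j - t • Chr g p X ((Fin.cons Y w : Fin 6 → Pt n) j))
      (Fin.cons Y w) (fun _ => 0) (fun j => hpar _)
    have hz : ∀ j : Fin 6, ev (N2 g) p (Function.update (Fin.cons Y w) j 0) = 0 := fun j =>
      P5a_lin0 (hev 6 (N2 g) (Fin.cons Y w) j)
    simp only [hz, Finset.sum_const_zero, add_zero] at hL
    -- right side
    have hR1 := (hCvE n g Ω hmet.isOpen p hp X).1 t1 h.s1 (fun t => Y - t • Chr g p X Y) Y 0
      (hpar Y)
    rw [P5a_lin0 (hl1 t1), add_zero] at hR1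
    have hR2 := hCrv n g Ω hmet.isOpen 5 (N g) hNs p hp X
      (fun j t => w j - t • Chr g p X (w j)) w (fun _ => 0) (fun j => hpar _)
    have hz2 : ∀ j : Fin 5, ev (N g) p (Function.update w j 0) = 0 := fun j =>
      P5a_lin0 (hev 5 (N g) w j)
    simp only [hz2, Finset.sum_const_zero, add_zero] at hR2
    have hR := (hR1.mul hR2).neg
    have heq : (fun t : ℝ => ev (N2 g) (p + t • X)
        (fun j => (Fin.cons Y w : Fin 6 → Pt n) j -
          t • Chr g p X ((Fin.cons Y w : Fin 6 → Pt n) j))) =ᶠ[𝓝 0]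
        (-((fun t : ℝ => e1 t1 (p + t • X) (Y - t • Chr g p X Y)) *
          fun t : ℝ => ev (N g) (p + t • X) (fun j => w j - t • Chr g p X (w j)))) := by
      have hcont : Continuous (fun t : ℝ => p + t • X) := by fun_prop
      have hmem : ∀ᶠ t in 𝓝 (0 : ℝ), p + t • X ∈ Ω := by
        apply hcont.continuousAt.eventually_mem
        apply hmet.isOpen.mem_nhds
        simpa using hp
      filter_upwards [hmem] with t ht
      have h6 : (fun j => (Fin.cons Y w : Fin 6 → Pt n) j -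
          t • Chr g p X ((Fin.cons Y w : Fin 6 → Pt n) j)) =
          Fin.cons (Y - t • Chr g p X Y) (fun j => w j - t • Chr g p X (w j)) := by
        funext j
        refine Fin.cases ?_ (fun i => ?_) j
        · simp only [Fin.cons_zero]
        · simp only [Fin.cons_succ]
      rw [h6, P5a_ks h h2 ht]
      rfl
    have hU := hL.unique (hR.congr_of_eventuallyEq heq)
    have h7 : ev (D g (N g)) p (Fin.cons X w) = -(e1 t1 p X * ev (N g) p w) :=
      P5a_ks h h2 hp X w
    change ev (D g (D g (N g))) p (Fin.cons X (Fin.cons Y w)) = _ at hU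
    rw [hU, h7]
    simp only [zero_smul, add_zero, sub_zero]
    ring
  -- the Ricci identity
  have hRc : ∀ (X Y : Pt n) (w : Fin 5 → Pt n),
      ∑ j, ev (N g) p (Function.update w j (Rv g p X Y (w j))) =
        (e2 (D g t1) p X Y - e2 (D g t1) p Y X) * ev (N g) p w := by
    intro X Y w
    have h3 := hRic n g Ω hmet p hp 5 (N g) hNs X Y w
    rw [hD X Y w, hD Y X w] at h3
    linear_combination h3
  have hact : ∀ (x y a c d e f : Pt n), act5 (Rv g p x y) (e5 (N g) p) a c d e f =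
      -∑ j, ev (N g) p (Function.update ![a, c, d, e, f] j
        (Rv g p x y ((![a, c, d, e, f] : Fin 5 → Pt n) j))) := by
    intro x y a c d e f
    rw [Fin.sum_univ_five]
    unfold act5 e5
    have q0 : Function.update ![a, c, d, e, f] 0 (Rv g p x y ((![a, c, d, e, f] : Fin 5 → Pt n) 0)) =
      ![Rv g p x y a, c, d, e, f] := by ext i; fin_cases i <;> rfl
    have q1 : Function.update ![a, c, d, e, f] 1 (Rv g p x y ((![a, c, d, e, f] : Fin 5 → Pt n) 1)) =
      ![a, Rv g p x y c, d, e, f] := by ext i; fin_cases i <;> rfl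
    have q2 : Function.update ![a, c, d, e, f] 2 (Rv g p x y ((![a, c, d, e, f] : Fin 5 → Pt n) 2)) =
      ![a, c, Rv g p x y d, e, f] := by ext i; fin_cases i <;> rfl
    have q3 : Function.update ![a, c, d, e, f] 3 (Rv g p x y ((![a, c, d, e, f] : Fin 5 → Pt n) 3)) =
      ![a, c, d, Rv g p x y e, f] := by ext i; fin_cases i <;> rfl
    have q4 : Function.update ![a, c, d, e, f] 4 (Rv g p x y ((![a, c, d, e, f] : Fin 5 → Pt n) 4)) =
      ![a, c, d, e, Rv g p x y f] := by ext i; fin_cases i <;> rfl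
    rw [q0, q1, q2, q3, q4]
  obtain ⟨hcr, hop, -, -⟩ := hSym n g Ω hmet p hp
  have hpos := hmet.pos p hp
  have hsk : ∀ X Y : Pt n, (e2 (D g t1) p X Y - e2 (D g t1) p Y X) = 0 ∨
      ∀ v, ev (N g) p v = 0 := by
    intro X Y
    apply hSkw n g p hpos 5 (N g) (Rv g p X Y)
    · intro u v
      rw [hop, P5a_ipsymm hpos u, hop, hcr.a34]
    · intro v
      exact hRc X Y v
  refine ⟨?_, ?_, ?_⟩
  · intro x y c d e f
    have h3 := hQR n g Ω t1 t2 h p hp x y c d e f
    rw [h2 p hp, h2 p hp, sub_zero, zero_mul, sub_zero] at h3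
    exact h3
  · intro x y a c d e f
    rw [hact, hRc]
    rcases hsk x y with h3 | h3
    · rw [h3, zero_mul, neg_zero]
    · rw [h3, mul_zero, neg_zero]
  · rintro ⟨a, u, v, w, z, h3⟩ x y
    rw [P5a_hT, P5a_hT]
    rcases hsk x y with h4 | h4
    · linear_combination (-1 : ℝ) * h4
    · exact absurd (h4 _) h3

end

end Pool.Agent.Lib.MP_9d59e9_gt.KO
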