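import Pool.Agent.Lib.MP_9d59e9_gt.KO.Spec

/-!
# MP_9d59e9_gt, project KO: P5b

The next two derivatives in the case `t₂ = 0`.
-/

set_option autoImplicit false

namespace Pool.Agent.Lib.MP_9d59e9_gt.KO

open scoped BigOperators ContDiff Topology
open Set Filter

noncomputable section

private theorem lin0 {V : Type} [AddCommGroup V] [Module ℝ V] {f : V → ℝ} (h : Lin1 f) :
    f 0 = 0 := by
  have := h.smul 0 0
  simpa using this

private theorem e1z (hLin : S_Lin) {n : ℕ} (T : TF n 1) (x : Pt n) : e1 T x 0 = 0 :=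
  lin0 ((hLin n x).2.2.2.1 T)

private theorem e4z (hLin : S_Lin) {n : ℕ} (T : TF n 4) (x : Pt n) :
    (∀ b c d, e4 T x 0 b c d = 0) ∧ (∀ a c d, e4 T x a 0 c d = 0) ∧
      (∀ a b d, e4 T x a b 0 d = 0) ∧ ∀ a b c, e4 T x a b c 0 = 0 := by
  obtain ⟨h1, h2, h3, h4⟩ := (hLin n x).2.2.2.2.2.2.1 T
  exact ⟨fun b c d => lin0 (h4 b c d), fun a c d => lin0 (h3 a c d), fun a b d => lin0 (h2 a b d),
    fun a b c => lin0 (h1 a b c)⟩

private theorem e5z (hLin : S_Lin) {n : ℕ} (T : TF n 5) (x : Pt n) :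
    (∀ b c d e, e5 T x 0 b c d e = 0) ∧ (∀ a c d e, e5 T x a 0 c d e = 0) ∧
      (∀ a b d e, e5 T x a b 0 d e = 0) ∧ (∀ a b c e, e5 T x a b c 0 e = 0) ∧
      ∀ a b c d, e5 T x a b c d 0 = 0 := by
  obtain ⟨h1, h2, h3, h4, h5⟩ := (hLin n x).2.2.2.2.2.2.2.1 T
  exact ⟨fun b c d e => lin0 (h5 b c d e), fun a c d e => lin0 (h4 a c d e),
    fun a b d e => lin0 (h3 a b d e), fun a b c e => lin0 (h2 a b c e),
    fun a b c d => lin0 (h1 a b c d)⟩

private theorem Rv0 {n : ℕ} (g : Pt n → Matrix (Fin n) (Fin n) ℝ) (x u v w : Pt n) :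
    Rv g x 0 v w = 0 ∧ Rv g x u 0 w = 0 ∧ Rv g x u v 0 = 0 := by
  refine ⟨?_, ?_, ?_⟩ <;> · funext a; simp [Rv]

/-- the parallel curve through `v` (to first order) -/
private def pc {n : ℕ} (g : Pt n → Matrix (Fin n) (Fin n) ℝ) (p X v : Pt n) : ℝ → Pt n :=
  fun t => v - t • Chr g p X v

private theorem pcCv (hCvb : S_Cvb) {n : ℕ} (g : Pt n → Matrix (Fin n) (Fin n) ℝ) (p X v : Pt n) :
    Cv g p X (pc g p X v) v 0 := (hCvb n g p X).1 v

private theorem evIn {n : ℕ} {Ω : Set (Pt n)} (hΩ : IsOpen Ω) {p : Pt n} (hp : p ∈ Ω)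
    (z : Pt n) : ∀ᶠ t : ℝ in 𝓝 0, p + t • z ∈ Ω := by
  have hc : Continuous fun t : ℝ => p + t • z := by fun_prop
  have h0 : Tendsto (fun t : ℝ => p + t • z) (𝓝 0) (𝓝 p) := by
    have := hc.tendsto 0
    simpa using this
  exact h0.eventually (hΩ.mem_nhds hp)

private theorem hTe {n : ℕ} (g : Pt n → Matrix (Fin n) (Fin n) ℝ) (t1 : TF n 1)
    (p z x : Pt n) :
    e2 (hT g t1) p z x = -(e2 (D g t1) p z x) + e1 t1 p z * e1 t1 p x := by
  have h2 : ∀ T : TF n 2, e2 T p z x = ∑ i, ∑ j, T ![i, j] p * (z i * x j) := by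
    intro T
    have : ∀ I : Fin 2 → Fin n, I = ![I 0, I 1] := by
      intro I; funext i; fin_cases i <;> rfl
    rw [e2, ev, ← (finTwoArrowEquiv (Fin n)).symm.sum_comp, Fintype.sum_prod_type]
    refine Finset.sum_congr rfl fun i _ => Finset.sum_congr rfl fun j _ => ?_
    simp [finTwoArrowEquiv, Fin.prod_univ_succ]
  have h1 : ∀ v : Pt n, e1 t1 p v = ∑ i, t1 ![i] p * v i := by
    intro v
    rw [e1, ev, ← (Equiv.funUnique (Fin 1) (Fin n)).symm.sum_comp]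
    refine Finset.sum_congr rfl fun i _ => ?_
    have : (Equiv.funUnique (Fin 1) (Fin n)).symm i = ![i] := by
      funext j; fin_cases j; rfl
    rw [this]; simp
  rw [h2, h2, h1, h1, Finset.sum_mul_sum, ← Finset.sum_neg_distrib, ← Finset.sum_add_distrib]
  refine Finset.sum_congr rfl fun i _ => ?_
  rw [← Finset.sum_neg_distrib, ← Finset.sum_add_distrib]
  refine Finset.sum_congr rfl fun j _ => ?_
  simp only [hT, Matrix.cons_val_zero, Matrix.cons_val_one]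
  ring

/-- the derivative of the curve `Rv` of parallel curves -/
private theorem RvCv (hCvR : S_CvR) (hCvb : S_Cvb) {n : ℕ}
    {g : Pt n → Matrix (Fin n) (Fin n) ℝ} {Ω : Set (Pt n)} (hm : IsMetricOn g Ω) {p : Pt n}
    (hp : p ∈ Ω) (z x y c : Pt n) :
    Cv g p z (fun t => Rv g (p + t • z) (pc g p z x t) (pc g p z y t) (pc g p z c t))
      (Rv g p x y c) (Nv g p z x y c) := by
  have h := (hCvR n g Ω hm p hp z (pc g p z x) x 0 (pc g p z x) x 0 (pc g p z y) y 0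
    (pc g p z c) c 0 (pcCv hCvb g p z x) (pcCv hCvb g p z x) (pcCv hCvb g p z y)
    (pcCv hCvb g p z c)).1
  obtain ⟨-, -, r3⟩ := Rv0 g p x y 0
  obtain ⟨r1, -, -⟩ := Rv0 g p 0 y c
  obtain ⟨-, r2, -⟩ := Rv0 g p x 0 c
  rw [r1, r2, r3] at h
  simpa using h

/-- rank 4, first slot a general curve, the others parallel, and so on -/
private theorem d4 (hCvE : S_CvE) (hCvR : S_CvR) (hCvb : S_Cvb) (hLin : S_Lin) {n : ℕ}
    {g : Pt n → Matrix (Fin n) (Fin n) ℝ} {Ω : Set (Pt n)} (hm : IsMetricOn g Ω) {p : Pt n}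
    (hp : p ∈ Ω) (T : TF n 4) (hT : Sm Ω T) (z x y c d e f : Pt n) :
    HasDerivAt (fun t : ℝ => act4 (Rv g (p + t • z) (pc g p z x t) (pc g p z y t))
      (e4 T (p + t • z)) (pc g p z c t) (pc g p z d t) (pc g p z e t) (pc g p z f t))
      (act4 (Nv g p z x y) (e4 T p) c d e f + act4 (Rv g p x y) (e5 (D g T) p z) c d e f) 0 := by
  have H := (hCvE n g Ω hm.isOpen p hp z).2.2.1 T hT
  have P := pcCv hCvb g p z
  have R := RvCv hCvR hCvb hm hp z x y
  have h1 := H _ _ _ _ _ _ _ _ _ _ _ _ (R c) (P d) (P e) (P f)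
  have h2 := H _ _ _ _ _ _ _ _ _ _ _ _ (P c) (R d) (P e) (P f)
  have h3 := H _ _ _ _ _ _ _ _ _ _ _ _ (P c) (P d) (R e) (P f)
  have h4 := H _ _ _ _ _ _ _ _ _ _ _ _ (P c) (P d) (P e) (R f)
  have h := (((h1.add h2).add h3).add h4).neg
  obtain ⟨z1, z2, z3, z4⟩ := e4z hLin T p
  refine HasDerivAt.congr_deriv h ?_
  simp only [act4, z1, z2, z3, z4]
  ring

private theorem d5 (hCvE : S_CvE) (hCvR : S_CvR) (hCvb : S_Cvb) (hLin : S_Lin) {n : ℕ}
    {g : Pt n → Matrix (Fin n) (Fin n) ℝ} {Ω : Set (Pt n)} (hm : IsMetricOn g Ω) {p : Pt n}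
    (hp : p ∈ Ω) (T : TF n 5) (hT : Sm Ω T) (z x y a c d e f : Pt n) :
    HasDerivAt (fun t : ℝ => act5 (Rv g (p + t • z) (pc g p z x t) (pc g p z y t))
      (e5 T (p + t • z)) (pc g p z a t) (pc g p z c t) (pc g p z d t) (pc g p z e t)
        (pc g p z f t))
      (act5 (Nv g p z x y) (e5 T p) a c d e f
        + act5 (Rv g p x y) (e6 (D g T) p z) a c d e f) 0 := by
  have H := (hCvE n g Ω hm.isOpen p hp z).2.2.2 T hT
  have P := pcCv hCvb g p z
  have R := RvCv hCvR hCvb hm hp z x y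
  have h1 := H _ _ _ _ _ _ _ _ _ _ _ _ _ _ _ (R a) (P c) (P d) (P e) (P f)
  have h2 := H _ _ _ _ _ _ _ _ _ _ _ _ _ _ _ (P a) (R c) (P d) (P e) (P f)
  have h3 := H _ _ _ _ _ _ _ _ _ _ _ _ _ _ _ (P a) (P c) (R d) (P e) (P f)
  have h4 := H _ _ _ _ _ _ _ _ _ _ _ _ _ _ _ (P a) (P c) (P d) (R e) (P f)
  have h5 := H _ _ _ _ _ _ _ _ _ _ _ _ _ _ _ (P a) (P c) (P d) (P e) (R f)
  have h := ((((h1.add h2).add h3).add h4).add h5).neg
  obtain ⟨z1, z2, z3, z4, z5⟩ := e5z hLin T p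
  refine HasDerivAt.congr_deriv h ?_
  simp only [act5, z1, z2, z3, z4, z5]
  ring

/-- product of `t1` on a parallel curve and `N` on parallel curves -/
private theorem dprod (hCvE : S_CvE) (hCvb : S_Cvb) (hLin : S_Lin) {n : ℕ}
    {g : Pt n → Matrix (Fin n) (Fin n) ℝ} {Ω : Set (Pt n)} (hm : IsMetricOn g Ω) {p : Pt n}
    (hp : p ∈ Ω) (S : TF n 1) (hS : Sm Ω S) (T : TF n 5) (hT : Sm Ω T) (z x y c d e f : Pt n) :
    HasDerivAt (fun t : ℝ => e1 S (p + t • z) (pc g p z x t) *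
      e5 T (p + t • z) (pc g p z y t) (pc g p z c t) (pc g p z d t) (pc g p z e t)
        (pc g p z f t))
      (e2 (D g S) p z x * e5 T p y c d e f + e1 S p x * e6 (D g T) p z y c d e f) 0 := by
  have H := (hCvE n g Ω hm.isOpen p hp z).2.2.2 T hT
  have H1 := (hCvE n g Ω hm.isOpen p hp z).1 S hS
  have P := pcCv hCvb g p z
  have h1 := H _ _ _ _ _ _ _ _ _ _ _ _ _ _ _ (P y) (P c) (P d) (P e) (P f)
  have h2 := H1 _ _ _ (P x)
  have h := h2.mul h1
  obtain ⟨z1, z2, z3, z4, z5⟩ := e5z hLin T p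
  refine HasDerivAt.congr_deriv h ?_
  have p0 : ∀ v, pc g p z v 0 = v := fun v => by simp [pc]
  simp only [z1, z2, z3, z4, z5, e1z hLin, p0, zero_smul, add_zero]

theorem tP5b (hP5a : S_P5a) (hCvE : S_CvE) (hCvR : S_CvR) (hCvb : S_Cvb) (hLin : S_Lin)
    (hSmo : S_Smo) (_hUp : S_Up) (_hOpn : S_Opn) : S_P5b := by
  intro n g Ω t1 t2 hK h20 p hp
  have hm := hK.met
  have hR : Sm Ω (R4 g) := (hSmo n g Ω hm).2.2.2.2.2.1
  have hN : Sm Ω (N g) := (hSmo n g Ω hm).2.2.2.2.2.2.1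
  have hN2 : ∀ z y c d e f, e6 (D g (N g)) p z y c d e f = -(e1 t1 p z * e5 (N g) p y c d e f) := by
    intro z y c d e f
    have h := hK.ks p hp z y c d e f
    rw [h20 p hp z y] at h
    have : e6 (N2 g) p z y c d e f = e6 (D g (N g)) p z y c d e f := rfl
    linarith
  have hA := hP5a n g Ω t1 t2 hK h20
  have hev := evIn hm.isOpen hp
  have hB := (hA p hp).2.1
  constructor
  · intro z x y c d e f
    have hL := d4 hCvE hCvR hCvb hLin hm hp (R4 g) hR z x y c d e f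
    have hP1 := dprod hCvE hCvb hLin hm hp t1 hK.s1 (N g) hN z x y c d e f
    have hP2 := dprod hCvE hCvb hLin hm hp t1 hK.s1 (N g) hN z y x c d e f
    have hRt := hP1.neg.add hP2
    have heq := hL.unique (hRt.congr_of_eventuallyEq (by
      filter_upwards [hev z] with t ht
      exact (hA _ ht).1 _ _ _ _ _ _))
    have h5 := hB x y z c d e f
    have e5D : ∀ c d e f, e5 (D g (R4 g)) p z c d e f = e5 (N g) p z c d e f :=
      fun _ _ _ _ => rfl
    rw [hN2, hN2] at heq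
    rw [hTe, hTe]
    simp only [act5] at h5
    simp only [act4, e5D] at heq ⊢
    linarith
  · intro z x y a c d e f
    have hL := d5 hCvE hCvR hCvb hLin hm hp (N g) hN z x y a c d e f
    have heq := hL.unique ((hasDerivAt_const (0 : ℝ) (0 : ℝ)).congr_of_eventuallyEq (by
      filter_upwards [hev z] with t ht
      exact (hA _ ht).2.1 _ _ _ _ _ _ _))
    have h5 := hB x y a c d e f
    simp only [act5, hN2] at heq h5 ⊢
    have : e1 t1 p z * (e5 (N g) p (Rv g p x y a) c d e f + e5 (N g) p a (Rv g p x y c) d e f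
        + e5 (N g) p a c (Rv g p x y d) e f + e5 (N g) p a c d (Rv g p x y e) f
        + e5 (N g) p a c d e (Rv g p x y f)) = 0 := by
      rw [neg_eq_zero.1 h5, mul_zero]
    linarith

end

end Pool.Agent.Lib.MP_9d59e9_gt.KO
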