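import Pool.Agent.Lib.MP_9d59e9_gt.KO.Spec

/-!
# MP_9d59e9_gt, project KO: the tensor `Π` is parallel and `R = scal(R) Π`
-/

set_option autoImplicit false

namespace Pool.Agent.Lib.MP_9d59e9_gt.KO

open scoped BigOperators ContDiff Topology
open Set

noncomputable section

private theorem lin_zero' {V : Type} [AddCommGroup V] [Module ℝ V] {f : V → ℝ} (h : Lin1 f) :
    f 0 = 0 := by
  have h1 := h.smul 0 (0 : V)
  rwa [smul_zero, zero_mul] at h1

private theorem zero_of_closure' {n : ℕ} {Ω S : Set (Pt n)} (hΩ : IsOpen Ω)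
    {F : Pt n → ℝ} (hF : ContinuousOn F Ω) (h0 : ∀ x ∈ S, F x = 0) {x : Pt n} (hx : x ∈ Ω)
    (hc : x ∈ closure S) : F x = 0 := by
  have hat : ContinuousAt F x := hF.continuousAt (hΩ.mem_nhds hx)
  have h1 : Filter.Tendsto F (𝓝[S] x) (𝓝 (F x)) := hat.mono_left nhdsWithin_le_nhds
  have h2 : Filter.Tendsto F (𝓝[S] x) (𝓝 0) := by
    refine Filter.Tendsto.congr' ?_ tendsto_const_nhds
    filter_upwards [self_mem_nhdsWithin] with y hy
    exact (h0 y hy).symm
  have : (𝓝[S] x).NeBot := mem_closure_iff_nhdsWithin_neBot.mp hc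
  exact tendsto_nhds_unique h1 h2

/-- components are values on coordinate vectors -/
private theorem comp4 (hLin : S_Lin) {n : ℕ} (T : TF n 4) (x : Pt n) (i j k l : Fin n) :
    T ![i, j, k, l] x = e4 T x (bv i) (bv j) (bv k) (bv l) := by
  have h := (hLin n x).2.1 4 T ![i, j, k, l]
  rw [← h]
  unfold e4
  congr 1
  funext m
  fin_cases m <;> rfl

private theorem scal_eq (hLin : S_Lin) {n : ℕ} (g : Pt n → Matrix (Fin n) (Fin n) ℝ) (T : TF n 4)
    (x : Pt n) : scal g T x = ∑ i, ∑ j, ∑ k, ∑ l, (g x)⁻¹ i k * (g x)⁻¹ j l *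
      e4 T x (bv i) (bv j) (bv k) (bv l) := by
  unfold scal
  simp only [comp4 hLin]

/-- a double contraction of a proportionality -/
private theorem contract {n : ℕ} (h : Matrix (Fin n) (Fin n) ℝ) (A B : Pt n → Pt n → Pt n → Pt n → ℝ)
    (a b : ℝ) (hab : ∀ c c' d d', a * B c c' d d' = A c c' d d' * b) :
    a * (∑ i, ∑ j, ∑ k, ∑ l, h i k * h j l * B (bv i) (bv j) (bv k) (bv l)) =
      (∑ i, ∑ j, ∑ k, ∑ l, h i k * h j l * A (bv i) (bv j) (bv k) (bv l)) * b := by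
  simp only [Finset.mul_sum, Finset.sum_mul]
  refine Finset.sum_congr rfl fun i _ => Finset.sum_congr rfl fun j _ =>
    Finset.sum_congr rfl fun k _ => Finset.sum_congr rfl fun l _ => ?_
  have h1 := hab (bv i) (bv j) (bv k) (bv l)
  calc a * (h i k * h j l * B (bv i) (bv j) (bv k) (bv l))
      = h i k * h j l * (a * B (bv i) (bv j) (bv k) (bv l)) := by ring
    _ = h i k * h j l * (A (bv i) (bv j) (bv k) (bv l) * b) := by rw [h1]
    _ = _ := by ring

theorem tPi2 (hPi1 : S_Pi1) (hDen : S_Den) (hP4 : S_P4) (hScl : S_Scl) (hCvE : S_CvE)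
    (hCvb : S_Cvb) (hLin : S_Lin) (hSmo : S_Smo) : S_Pi2 := by
  intro n g Ω t1 t2 hks x₀
  obtain ⟨hNc, -, hVo, hPs, hP⟩ := hPi1 n g Ω t1 t2 hks x₀
  set V₀ : Set (Pt n) := {x | x ∈ Ω ∧ scal g (Nc g x₀) x ≠ 0} with hV₀
  have hmet : IsMetricOn g V₀ :=
    { isOpen := hVo
      smooth := fun i j => (hks.met.smooth i j).mono fun x hx => hx.1
      pos := fun x hx => hks.met.pos x hx.1 }
  obtain ⟨-, -, -, hD, -, hR4, -, -, -, hscal, -, hev⟩ := hSmo n g V₀ hmet
  -- density of the good set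
  have hden : ∀ x ∈ V₀, x ∈ closure (Gset g Ω t2 ∩ V₀) := by
    intro x hx
    have h1 : ∃ a u v w z, e5 (N g) x a u v w z ≠ 0 := by
      by_contra hc
      push Not at hc
      apply hx.2
      rw [scal_eq hLin]
      simp only [hNc, hc, mul_zero, Finset.sum_const_zero]
    have h2 := (hDen n g Ω t1 t2 hks).2 x hx.1 h1
    rw [mem_closure_iff] at h2 ⊢
    intro o ho hxo
    obtain ⟨y, hy, hyG⟩ := h2 (o ∩ V₀) (ho.inter hVo) ⟨hxo, hx⟩
    exact ⟨y, hy.1, hyG, hy.2⟩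
  -- the contraction of `S_P4`
  have hone : ∀ y ∈ Gset g Ω t2, ∀ X a a' b b',
      e5 (N g) y X a a' b b' * scal g (R4 g) y =
        (∑ i, ∑ j, ∑ k, ∑ l, (g y)⁻¹ i k * (g y)⁻¹ j l *
          e5 (N g) y X (bv i) (bv j) (bv k) (bv l)) * e4 (R4 g) y a a' b b' := by
    intro y hy X a a' b b'
    rw [scal_eq hLin]
    exact contract _ (e5 (N g) y X) (e4 (R4 g) y) _ _ fun c c' d d' =>
      hP4 n g Ω t1 t2 hks y hy.1 hy.2.2.1 X a a' b b' c c' d d'
  -- equation (2) on the good set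
  have htwo' : ∀ y ∈ Gset g Ω t2 ∩ V₀, ∀ u v w z,
      e4 (R4 g) y u v w z = scal g (R4 g) y * e4 (Pit g x₀) y u v w z := by
    rintro y ⟨hyG, hyV⟩ u v w z
    have h1 := hone y hyG x₀ u v w z
    have h2 : (∑ i, ∑ j, ∑ k, ∑ l, (g y)⁻¹ i k * (g y)⁻¹ j l *
        e5 (N g) y x₀ (bv i) (bv j) (bv k) (bv l)) = scal g (Nc g x₀) y := by
      rw [scal_eq hLin]
      simp only [hNc]
    rw [h2, (hP y hyV.1 hyV.2).2.2.2 u v w z] at h1
    apply mul_left_cancel₀ hyV.2
    rw [← h1]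
    ring
  -- equation (2) on `V₀`
  have htwo : ∀ y ∈ V₀, ∀ u v w z,
      e4 (R4 g) y u v w z = scal g (R4 g) y * e4 (Pit g x₀) y u v w z := by
    intro y hy u v w z
    have h1 : ContinuousOn (fun y => e4 (R4 g) y u v w z
        - scal g (R4 g) y * e4 (Pit g x₀) y u v w z) V₀ :=
      ((hev 4 (R4 g) hR4 ![u, v, w, z]).continuousOn).sub
        (((hscal (R4 g) hR4).continuousOn).mul ((hev 4 (Pit g x₀) hPs ![u, v, w, z]).continuousOn))
    have h2 := zero_of_closure' hVo h1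
      (fun q hq => sub_eq_zero.2 (htwo' q hq u v w z)) hy (hden y hy)
    exact sub_eq_zero.1 h2
  -- the derivative of `Π` vanishes on the good set
  have hthree : ∀ y ∈ Gset g Ω t2 ∩ V₀, ∀ X u v w z, e5 (D g (Pit g x₀)) y X u v w z = 0 := by
    rintro y ⟨hyG, hyV⟩ X u v w z
    have hpar := (hCvb n g y X).1
    obtain ⟨-, -, -, -, -, -, hl4, -, -⟩ := hLin n y
    have hd : ∀ T : TF n 4, Sm V₀ T →
        HasDerivAt (fun t : ℝ => e4 T (y + t • X) (u - t • Chr g y X u) (v - t • Chr g y X v)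
          (w - t • Chr g y X w) (z - t • Chr g y X z)) (e5 (D g T) y X u v w z) 0 := by
      intro T hT
      have h1 := (hCvE n g V₀ hVo y hyV X).2.2.1 T hT _ u 0 _ v 0 _ w 0 _ z 0 (hpar u) (hpar v)
        (hpar w) (hpar z)
      have hz1 : e4 T y 0 v w z = 0 := lin_zero' ((hl4 T).2.2.2 v w z)
      have hz2 : e4 T y u 0 w z = 0 := lin_zero' ((hl4 T).2.2.1 u w z)
      have hz3 : e4 T y u v 0 z = 0 := lin_zero' ((hl4 T).2.1 u v z)
      have hz4 : e4 T y u v w 0 = 0 := lin_zero' ((hl4 T).1 u v w)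
      rw [hz1, hz2, hz3, hz4, add_zero, add_zero, add_zero, add_zero] at h1
      exact h1
    have h1 := hd (R4 g) hR4
    have h2 := hd (Pit g x₀) hPs
    have h3 := hScl n g V₀ hmet y hyV (R4 g) hR4 X
    have h4 := h3.mul h2
    have ht : Filter.Tendsto (fun t : ℝ => y + t • X) (𝓝 0) (𝓝 y) := by
      have hc : Continuous fun t : ℝ => y + t • X := by fun_prop
      have := hc.tendsto 0
      rwa [zero_smul, add_zero] at this
    have h5 := h4.congr_of_eventuallyEq (f₁ := fun t : ℝ => e4 (R4 g) (y + t • X)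
        (u - t • Chr g y X u) (v - t • Chr g y X v) (w - t • Chr g y X w) (z - t • Chr g y X z)) (by
      filter_upwards [ht.eventually (hVo.mem_nhds hyV)] with t h
      exact htwo _ h _ _ _ _)
    have h6 := h1.unique h5
    simp only [zero_smul, add_zero, sub_zero] at h6
    have h7 := hone y hyG X u v w z
    obtain ⟨a, b, c, d, hne⟩ := hyG.2.2.2
    have hs : scal g (R4 g) y ≠ 0 := by
      intro h0
      apply hne
      rw [htwo y hyV, h0, zero_mul]
    rw [htwo y hyV] at h7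
    have h8 : e5 (N g) y X u v w z = (∑ i, ∑ j, ∑ k, ∑ l, (g y)⁻¹ i k * (g y)⁻¹ j l *
          e5 (N g) y X (bv i) (bv j) (bv k) (bv l)) * e4 (Pit g x₀) y u v w z := by
      apply mul_right_cancel₀ hs
      rw [h7]
      ring
    have h9 : scal g (R4 g) y * e5 (D g (Pit g x₀)) y X u v w z = 0 := by
      have h10 : e5 (N g) y X u v w z = e5 (D g (R4 g)) y X u v w z := rfl
      have h11 : (∑ i, ∑ j, ∑ k, ∑ l, (g y)⁻¹ i k * (g y)⁻¹ j l *
          e5 (N g) y X (bv i) (bv j) (bv k) (bv l)) = ∑ i, ∑ j, ∑ k, ∑ l, (g y)⁻¹ i k *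
            (g y)⁻¹ j l * e5 (D g (R4 g)) y X (bv i) (bv j) (bv k) (bv l) := rfl
      rw [h10, h11] at h8
      linarith
    exact (mul_eq_zero.1 h9).resolve_left hs
  intro x hx hx0
  have hxV : x ∈ V₀ := ⟨hx, hx0⟩
  refine ⟨htwo x hxV, ?_⟩
  intro X u v w z
  exact zero_of_closure' hVo ((hev 5 (D g (Pit g x₀)) (hD 4 _ hPs) ![X, u, v, w, z]).continuousOn)
    (fun q hq => hthree q hq X u v w z) hxV (hden x hxV)

end

end Pool.Agent.Lib.MP_9d59e9_gt.KO
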