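import Pool.Agent.Lib.MP_9d59e9_gt.KO.Spec

/-!
# MP_9d59e9_gt, project KO: from the area form to the projection
-/

set_option autoImplicit false

namespace Pool.Agent.Lib.MP_9d59e9_gt.KO

open scoped BigOperators ContDiff
open Set

noncomputable section

private lemma prj_pd_mul {n : ℕ} (i : Fin n) {f h : Pt n → ℝ} {x : Pt n}
    (hf : DifferentiableAt ℝ f x) (hh : DifferentiableAt ℝ h x) :
    pd i (fun y => f y * h y) x = pd i f x * h x + f x * pd i h x := by
  unfold pd
  rw [fderiv_fun_mul hf hh]
  simp only [ContinuousLinearMap.add_apply, ContinuousLinearMap.smul_apply, smul_eq_mul]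
  ring

private lemma prj_pd_sum {n : ℕ} (i : Fin n) {F : Fin n → Pt n → ℝ} {x : Pt n}
    (hF : ∀ j, DifferentiableAt ℝ (F j) x) :
    pd i (fun y => ∑ j, F j y) x = ∑ j, pd i (F j) x := by
  unfold pd
  rw [fderiv_fun_sum (fun j _ => hF j)]
  simp only [ContinuousLinearMap.sum_apply]

private lemma prj_diff {n : ℕ} {f : Pt n → ℝ} {V : Set (Pt n)} {x : Pt n} (hV : IsOpen V)
    (hx : x ∈ V) (hf : ContDiffOn ℝ ∞ f V) : DifferentiableAt ℝ f x :=
  (hf.contDiffAt (hV.mem_nhds hx)).differentiableAt (by simp)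

/-- `∂_m g⁻¹ = -g⁻¹ (∂_m g) g⁻¹` -/
private lemma prj_inv {n : ℕ} {g : Pt n → Matrix (Fin n) (Fin n) ℝ} {V : Set (Pt n)}
    (hg : IsMetricOn g V) (hi : ∀ i j, ContDiffOn ℝ ∞ (fun x => (g x)⁻¹ i j) V) {x : Pt n}
    (hx : x ∈ V) (m : Fin n) :
    (Matrix.of fun i j => pd m (fun y => (g y)⁻¹ i j) x) =
      -((g x)⁻¹ * (Matrix.of fun i j => pd m (fun y => g y i j) x) * (g x)⁻¹) := by
  have hdet : IsUnit (g x).det := (hg.pos x hx).isUnit.map Matrix.detMonoidHom
  have h1 : (Matrix.of fun i j => pd m (fun y => (g y)⁻¹ i j) x) * g x +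
      (g x)⁻¹ * (Matrix.of fun i j => pd m (fun y => g y i j) x) = 0 := by
    ext i k
    have hc : pd m (fun y => ∑ j, (g y)⁻¹ i j * g y j k) x = 0 := by
      have he : (fun y => ∑ j, (g y)⁻¹ i j * g y j k) =ᶠ[nhds x]
          fun _ => (1 : Matrix (Fin n) (Fin n) ℝ) i k := by
        filter_upwards [hg.isOpen.mem_nhds hx] with y hy
        have hdy : IsUnit (g y).det := (hg.pos y hy).isUnit.map Matrix.detMonoidHom
        have := congrFun (congrFun (Matrix.nonsing_inv_mul (g y) hdy) i) k
        rw [Matrix.mul_apply] at this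
        exact this
      unfold pd
      rw [he.fderiv_eq]
      simp
    have hc1 := prj_pd_sum m (F := fun j y => (g y)⁻¹ i j * g y j k) (x := x)
      (fun j => (prj_diff hg.isOpen hx (hi i j)).mul (prj_diff hg.isOpen hx (hg.smooth j k)))
    rw [hc] at hc1
    rw [Matrix.add_apply, Matrix.mul_apply, Matrix.mul_apply, ← Finset.sum_add_distrib,
      Matrix.zero_apply, hc1]
    refine Finset.sum_congr rfl fun j _ => ?_
    have h3 := prj_pd_mul m (f := fun y => (g y)⁻¹ i j) (h := fun y => g y j k) (x := x)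
      (prj_diff hg.isOpen hx (hi i j)) (prj_diff hg.isOpen hx (hg.smooth j k))
    rw [h3]
    simp only [Matrix.of_apply]
  have h2 := congrArg (fun A => A * (g x)⁻¹) h1
  simp only [Matrix.add_mul, Matrix.zero_mul, Matrix.mul_assoc,
    Matrix.mul_nonsing_inv _ hdet, Matrix.mul_one] at h2
  rw [← Matrix.mul_assoc] at h2
  exact eq_neg_of_add_eq_zero_left h2

private lemma prj_symm {n : ℕ} {g : Pt n → Matrix (Fin n) (Fin n) ℝ} {V : Set (Pt n)}
    (hg : IsMetricOn g V) {x : Pt n} (hx : x ∈ V) : ((g x)⁻¹).transpose = (g x)⁻¹ := by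
  have h1 : (g x).transpose = g x := by
    have := (hg.pos x hx).isHermitian
    rw [Matrix.IsHermitian, Matrix.conjTranspose_eq_transpose_of_trivial] at this
    exact this
  rw [Matrix.transpose_nonsing_inv, h1]

private lemma prj_S {n : ℕ} (G W : Matrix (Fin n) (Fin n) ℝ) (a b : Fin n) :
    ∑ c, ∑ d, G c d * (W a c * W b d) = (W * G * W.transpose) a b := by
  rw [Matrix.mul_apply, Finset.sum_comm]
  refine Finset.sum_congr rfl fun d _ => ?_
  rw [Matrix.mul_apply, Finset.sum_mul]
  refine Finset.sum_congr rfl fun c _ => ?_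
  rw [Matrix.transpose_apply]
  ring

/-- the algebra at a point -/
private lemma prj_alg {n : ℕ} (G W : Matrix (Fin n) (Fin n) ℝ) (hG : G.transpose = G)
    (hW : W.transpose = -W)
    (hs : ∀ a b c d, W a b * W c d + W b c * W a d + W c a * W b d = 0)
    (hn : ∑ a, ∑ b, ∑ c, ∑ d, G a c * G b d * (W a b * W c d) = 2) :
    (G * W * (G * W)).trace = -2 ∧ W * (G * W * G) * W = -W := by
  have htr : (G * W * (G * W)).trace = -2 := by
    have h0 : (G * W * (G * W)).trace = ∑ a, ∑ b, ∑ c, ∑ d, G c a * W a b * (G b d * W d c) := by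
      have h1 : (G * W * (G * W)).trace = ∑ c, ∑ b, (∑ a, G c a * W a b) * ∑ d, G b d * W d c := by
        rw [Matrix.trace]
        refine Finset.sum_congr rfl fun c _ => ?_
        rw [Matrix.diag_apply, Matrix.mul_apply]
        refine Finset.sum_congr rfl fun b _ => ?_
        rw [Matrix.mul_apply, Matrix.mul_apply]
      rw [h1]
      simp only [Finset.sum_mul_sum]
      -- ∑ c, ∑ b, ∑ a, ∑ d
      rw [Finset.sum_comm' (s := Finset.univ) (t := fun _ => Finset.univ)
        (t' := Finset.univ) (s' := fun _ => Finset.univ) (by simp)]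
      -- ∑ b, ∑ c, ∑ a, ∑ d
      have h2 : ∀ b, ∑ c, ∑ a, ∑ d, G c a * W a b * (G b d * W d c) =
          ∑ a, ∑ c, ∑ d, G c a * W a b * (G b d * W d c) := fun b => Finset.sum_comm
      simp only [h2]
      exact Finset.sum_comm
    rw [h0, ← hn, ← Finset.sum_neg_distrib]
    refine Finset.sum_congr rfl fun a _ => ?_
    rw [← Finset.sum_neg_distrib]
    refine Finset.sum_congr rfl fun b _ => ?_
    rw [← Finset.sum_neg_distrib]
    refine Finset.sum_congr rfl fun c _ => ?_
    rw [← Finset.sum_neg_distrib]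
    refine Finset.sum_congr rfl fun d _ => ?_
    have e1 : G c a = G a c := by
      have := congrFun (congrFun hG a) c
      rw [Matrix.transpose_apply] at this
      exact this
    have e2 : W d c = -W c d := by
      have := congrFun (congrFun hW c) d
      rw [Matrix.transpose_apply, Matrix.neg_apply] at this
      exact this
    rw [e1, e2]
    ring
  refine ⟨htr, ?_⟩
  have hX : (G * W * G).transpose = -(G * W * G) := by
    rw [Matrix.transpose_mul, Matrix.transpose_mul, hG, hW]
    simp only [Matrix.neg_mul, Matrix.mul_neg, Matrix.mul_assoc]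
  have h3 : W * (G * W * G) * W = ((G * W * G) * W).trace • W + W * (G * W * G).transpose * W := by
    ext a f
    have l1 : (W * (G * W * G) * W) a f = ∑ b, ∑ e, (G * W * G) e b * (W a e * W b f) := by
      rw [Matrix.mul_apply]
      refine Finset.sum_congr rfl fun b _ => ?_
      rw [Matrix.mul_apply, Finset.sum_mul]
      refine Finset.sum_congr rfl fun e _ => ?_
      ring
    have l2 : (W * (G * W * G).transpose * W) a f =
        ∑ b, ∑ e, (G * W * G) e b * (W a b * W e f) := by
      rw [Matrix.mul_apply, Finset.sum_comm]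
      refine Finset.sum_congr rfl fun b _ => ?_
      rw [Matrix.mul_apply, Finset.sum_mul]
      refine Finset.sum_congr rfl fun e _ => ?_
      rw [Matrix.transpose_apply]
      ring
    have l3 : (((G * W * G) * W).trace • W) a f =
        ∑ b, ∑ e, (G * W * G) e b * (W b e * W a f) := by
      rw [Matrix.smul_apply, smul_eq_mul, Matrix.trace, Finset.sum_mul, Finset.sum_comm]
      refine Finset.sum_congr rfl fun e _ => ?_
      rw [Matrix.diag_apply, Matrix.mul_apply, Finset.sum_mul]
      refine Finset.sum_congr rfl fun b _ => ?_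
      ring
    rw [Matrix.add_apply, l1, l2, l3, ← Finset.sum_add_distrib]
    refine Finset.sum_congr rfl fun b _ => ?_
    rw [← Finset.sum_add_distrib]
    refine Finset.sum_congr rfl fun e _ => ?_
    have h4 := hs a e b f
    have e2 : W e b = -W b e := by
      have := congrFun (congrFun hW b) e
      rw [Matrix.transpose_apply, Matrix.neg_apply] at this
      exact this
    have e3 : W b a = -W a b := by
      have := congrFun (congrFun hW a) b
      rw [Matrix.transpose_apply, Matrix.neg_apply] at this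
      exact this
    rw [e2, e3] at h4
    linear_combination (G * W * G) e b * h4
  have h5 : ((G * W * G) * W).trace = -2 := by
    rw [← htr]
    simp only [Matrix.mul_assoc]
  rw [hX, h5, Matrix.mul_neg, Matrix.neg_mul] at h3
  have h6 : (2 : ℝ) • (W * (G * W * G) * W) = (2 : ℝ) • (-W) := by
    rw [two_smul]
    nth_rewrite 1 [h3]
    rw [neg_add_cancel_right, smul_neg, neg_smul]
  have h7 := congrArg (fun A => (1 / 2 : ℝ) • A) h6
  simpa only [smul_smul, one_div, inv_mul_cancel₀ (two_ne_zero' ℝ), one_smul] using h7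

theorem tPrj (hSmo : S_Smo) (hMet : S_Met) : S_Prj := by
  intro n g V w hg hw
  have hi := (hSmo n g V hg).1
  have hGs : ∀ x ∈ V, ((g x)⁻¹).transpose = (g x)⁻¹ := fun x hx => prj_symm hg hx
  have hWs : ∀ x ∈ V, (Matrix.of fun a b => w a b x).transpose = -(Matrix.of fun a b => w a b x) := by
    intro x hx
    ext a b
    rw [Matrix.transpose_apply, Matrix.neg_apply, Matrix.of_apply, Matrix.of_apply]
    exact hw.skew x hx b a
  have hS : ∀ x a b, ∑ c, ∑ d, (g x)⁻¹ c d * (w a c x * w b d x) =
      ((Matrix.of fun a b => w a b x) * (g x)⁻¹ * (Matrix.of fun a b => w a b x).transpose) a b := by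
    intro x a b
    exact prj_S (g x)⁻¹ (Matrix.of fun a b => w a b x) a b
  have hSm : ∀ x ∈ V, (Matrix.of fun a b => ∑ c, ∑ d, (g x)⁻¹ c d * (w a c x * w b d x)) =
      -((Matrix.of fun a b => w a b x) * (g x)⁻¹ * (Matrix.of fun a b => w a b x)) := by
    intro x hx
    ext a b
    rw [Matrix.of_apply, hS, hWs x hx, Matrix.mul_neg]
  have halg : ∀ x ∈ V, _ := fun x hx => prj_alg (g x)⁻¹ (Matrix.of fun a b => w a b x)
    (hGs x hx) (hWs x hx) (fun a b c d => hw.simple x hx a b c d) (hw.norm x hx)
  refine ⟨?_, ?_, ?_, ?_, ?_⟩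
  · intro a b
    refine ContDiffOn.sum fun c _ => ContDiffOn.sum fun d _ => ?_
    exact (hi c d).mul ((hw.smooth a c).mul (hw.smooth b d))
  · intro x hx a b
    show ∑ c, ∑ d, (g x)⁻¹ c d * (w a c x * w b d x) = ∑ c, ∑ d, (g x)⁻¹ c d * (w b c x * w a d x)
    rw [Finset.sum_comm]
    refine Finset.sum_congr rfl fun c _ => Finset.sum_congr rfl fun d _ => ?_
    have := congrFun (congrFun (hGs x hx) c) d
    rw [Matrix.transpose_apply] at this
    rw [this]
    ring
  · intro x hx
    rw [hSm x hx]
    obtain ⟨-, h2⟩ := halg x hx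
    generalize (Matrix.of fun a b => w a b x) = W at h2 ⊢
    generalize (g x)⁻¹ = G at h2 ⊢
    have h3 : G * -(W * G * W) * (G * -(W * G * W)) = G * (W * (G * W * G) * W * G * W) := by
      simp only [Matrix.mul_neg, Matrix.neg_mul, neg_neg, Matrix.mul_assoc]
    rw [h3, h2]
    simp only [Matrix.mul_neg, Matrix.neg_mul, Matrix.mul_assoc]
  · intro x hx
    rw [hSm x hx]
    obtain ⟨h1, -⟩ := halg x hx
    have h3 : (g x)⁻¹ * -((Matrix.of fun a b => w a b x) * (g x)⁻¹ * (Matrix.of fun a b => w a b x)) =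
        -((g x)⁻¹ * (Matrix.of fun a b => w a b x) * ((g x)⁻¹ * (Matrix.of fun a b => w a b x))) := by
      simp only [Matrix.mul_neg, Matrix.mul_assoc]
    rw [h3, Matrix.trace_neg, h1]
    norm_num
  · intro x hx m a b
    have hdG : ∀ c d, DifferentiableAt ℝ (fun y => (g y)⁻¹ c d) x := fun c d =>
      prj_diff hg.isOpen hx (hi c d)
    have hdW : ∀ c d, DifferentiableAt ℝ (w c d) x := fun c d =>
      prj_diff hg.isOpen hx (hw.smooth c d)
    have hdet : IsUnit (g x).det := (hg.pos x hx).isUnit.map Matrix.detMonoidHom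
    obtain ⟨Γ, hΓ⟩ : ∃ Γ : Matrix (Fin n) (Fin n) ℝ, Γ = Matrix.of fun s a => Gam g s m a x := ⟨_, rfl⟩
    obtain ⟨W, hWd⟩ : ∃ W : Matrix (Fin n) (Fin n) ℝ, W = Matrix.of fun a b => w a b x := ⟨_, rfl⟩
    obtain ⟨G, hGd⟩ : ∃ G : Matrix (Fin n) (Fin n) ℝ, G = (g x)⁻¹ := ⟨_, rfl⟩
    -- derivative of the inverse
    have hQ : (Matrix.of fun i j => pd m (fun y => g y i j) x) = Γ.transpose * g x + g x * Γ := by
      ext i j
      rw [Matrix.of_apply, (hMet n g V hg x hx).2.2.2.2 m i j, Matrix.add_apply, Matrix.mul_apply,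
        Matrix.mul_apply, hΓ]
      congr 1
      refine Finset.sum_congr rfl fun s _ => ?_
      rw [Matrix.of_apply]
      ring
    have hP : (Matrix.of fun i j => pd m (fun y => (g y)⁻¹ i j) x) =
        -(G * Γ.transpose) - Γ * G := by
      rw [prj_inv hg hi hx m, hQ, hGd, Matrix.mul_add, Matrix.add_mul, Matrix.mul_assoc,
        Matrix.mul_assoc, Matrix.mul_nonsing_inv _ hdet, Matrix.mul_one,
        ← Matrix.mul_assoc (g x)⁻¹ (g x), Matrix.nonsing_inv_mul _ hdet, Matrix.one_mul]
      abel
    have hW' : (Matrix.of fun i j => pd m (w i j) x) = Γ.transpose * W + W * Γ := by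
      ext i j
      have h1 := hw.parallel x hx m i j
      rw [cov2] at h1
      rw [Matrix.of_apply, Matrix.add_apply, Matrix.mul_apply, Matrix.mul_apply, hΓ, hWd]
      have h2 : pd m (w i j) x = ∑ s, Gam g s m i x * w s j x + ∑ s, Gam g s m j x * w i s x := by
        linarith
      rw [h2]
      congr 1
      refine Finset.sum_congr rfl fun s _ => ?_
      rw [Matrix.of_apply, Matrix.of_apply]
      ring
    -- derivative of S
    have hS' : pd m (fun y => ∑ c, ∑ d, (g y)⁻¹ c d * (w a c y * w b d y)) x =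
        (W * (Matrix.of fun i j => pd m (fun y => (g y)⁻¹ i j) x) * W.transpose) a b +
        ((Matrix.of fun i j => pd m (w i j) x) * G * W.transpose +
          W * G * (Matrix.of fun i j => pd m (w i j) x).transpose) a b := by
      have h0 := prj_pd_sum m (F := fun c y => ∑ d, (g y)⁻¹ c d * (w a c y * w b d y)) (x := x)
        (fun c => DifferentiableAt.fun_sum fun d _ => (hdG c d).mul ((hdW a c).mul (hdW b d)))
      rw [h0]
      have h1 : ∀ c, pd m (fun y => ∑ d, (g y)⁻¹ c d * (w a c y * w b d y)) x =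
          ∑ d, (pd m (fun y => (g y)⁻¹ c d) x * (w a c x * w b d x) +
            (g x)⁻¹ c d * (pd m (w a c) x * w b d x + w a c x * pd m (w b d) x)) := by
        intro c
        have h2 := prj_pd_sum m (F := fun d y => (g y)⁻¹ c d * (w a c y * w b d y)) (x := x)
          (fun d => (hdG c d).mul ((hdW a c).mul (hdW b d)))
        rw [h2]
        refine Finset.sum_congr rfl fun d _ => ?_
        have h3 := prj_pd_mul m (f := fun y => (g y)⁻¹ c d) (h := fun y => w a c y * w b d y) (x := x)
          (hdG c d) ((hdW a c).mul (hdW b d))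
        have h4 := prj_pd_mul m (f := w a c) (h := w b d) (x := x) (hdW a c) (hdW b d)
        rw [h3, h4]
      simp only [h1]
      have k1 : ∀ (A B C : Matrix (Fin n) (Fin n) ℝ), (A * B * C.transpose) a b =
          ∑ c, ∑ d, B c d * (A a c * C b d) := by
        intro A B C
        rw [Matrix.mul_apply, Finset.sum_comm]
        refine Finset.sum_congr rfl fun d _ => ?_
        rw [Matrix.mul_apply, Finset.sum_mul]
        refine Finset.sum_congr rfl fun c _ => ?_
        rw [Matrix.transpose_apply]
        ring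
      rw [Matrix.add_apply, k1, k1, k1, ← Finset.sum_add_distrib, ← Finset.sum_add_distrib]
      refine Finset.sum_congr rfl fun c _ => ?_
      rw [← Finset.sum_add_distrib, ← Finset.sum_add_distrib]
      refine Finset.sum_congr rfl fun d _ => ?_
      rw [hWd, hGd]
      simp only [Matrix.of_apply]
      ring
    have hSx : ∀ i j, ∑ c, ∑ d, (g x)⁻¹ c d * (w i c x * w j d x) = (W * G * W.transpose) i j := by
      intro i j
      rw [hS, hWd, hGd]
    rw [cov2, hS', hP, hW']
    simp only [hSx]
    have e1 : ∑ s, Gam g s m a x * (W * G * W.transpose) s b =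
        (Γ.transpose * (W * G * W.transpose)) a b := by
      rw [Matrix.mul_apply, hΓ]
      rfl
    have e2 : ∑ s, Gam g s m b x * (W * G * W.transpose) a s = ((W * G * W.transpose) * Γ) a b := by
      rw [Matrix.mul_apply, hΓ]
      refine Finset.sum_congr rfl fun s _ => ?_
      rw [Matrix.of_apply]
      ring
    rw [e1, e2, ← Matrix.add_apply, sub_sub, ← Matrix.add_apply, ← Matrix.sub_apply]
    have e3 : W * (-(G * Γ.transpose) - Γ * G) * W.transpose +
        ((Γ.transpose * W + W * Γ) * G * W.transpose +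
          W * G * (Γ.transpose * W + W * Γ).transpose) -
        (Γ.transpose * (W * G * W.transpose) + (W * G * W.transpose) * Γ) = 0 := by
      rw [Matrix.transpose_add, Matrix.transpose_mul, Matrix.transpose_mul,
        Matrix.transpose_transpose]
      simp only [Matrix.mul_add, Matrix.add_mul, Matrix.mul_sub, Matrix.sub_mul, Matrix.mul_neg,
        Matrix.neg_mul, Matrix.mul_assoc]
      abel
    rw [e3, Matrix.zero_apply]

end

end Pool.Agent.Lib.MP_9d59e9_gt.KO
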