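import Pool.Agent.Lib.MP_9d59e9_gt.KO.Spec

/-!
# MP_9d59e9_gt, project KO: Q1 (equation (II) and its derivative (II'))
-/

set_option autoImplicit false

namespace Pool.Agent.Lib.MP_9d59e9_gt.KO

open scoped BigOperators ContDiff

noncomputable section

private lemma q1lin0 {V : Type} [AddCommGroup V] [Module ℝ V] {f : V → ℝ} (h : Lin1 f) :
    f 0 = 0 := by
  have := h.smul 0 0
  simpa using this

/-- the parallel curve -/
private def q1p {n : ℕ} (g : Pt n → Matrix (Fin n) (Fin n) ℝ) (p X v : Pt n) (t : ℝ) : Pt n :=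
  v - t • Chr g p X v

private lemma q1z {n : ℕ} (g : Pt n → Matrix (Fin n) (Fin n) ℝ) (p X v : Pt n) :
    q1p g p X v 0 = v := by
  unfold q1p
  simp

private lemma q1ev {n : ℕ} {Ω : Set (Pt n)} (hO : IsOpen Ω) {x : Pt n} (hx : x ∈ Ω) (X : Pt n) :
    ∀ᶠ t in nhds (0 : ℝ), x + t • X ∈ Ω := by
  have hc : ContinuousAt (fun t : ℝ => x + t • X) 0 := by fun_prop
  apply hc.eventually_mem
  simpa using hO.mem_nhds hx

private lemma q1zero {f : ℝ → ℝ} {f' : ℝ} (h : HasDerivAt f f' 0)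
    (hz : ∀ᶠ t in nhds (0 : ℝ), f t = 0) : f' = 0 := by
  have h0 : HasDerivAt f 0 0 := by
    have := (hasDerivAt_const (0 : ℝ) (0 : ℝ))
    exact this.congr_of_eventuallyEq hz
  exact h.unique h0

private lemma q1two (hBi3 : S_Bi3) (hBi2 : S_Bi2) {n : ℕ}
    {g : Pt n → Matrix (Fin n) (Fin n) ℝ} {Ω : Set (Pt n)} {t1 : TF n 1} {t2 : TF n 2}
    (hK : KS2 g Ω t1 t2) {x : Pt n} (hx : x ∈ Ω) (a b c d w z : Pt n) :
    e2 t2 x a b * e4 (R4 g) x c d w z + e2 t2 x a c * e4 (R4 g) x d b w z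
      + e2 t2 x a d * e4 (R4 g) x b c w z = 0 := by
  have h1 := hK.ks x hx a b c d w z
  have h2 := hK.ks x hx a c d b w z
  have h3 := hK.ks x hx a d b c w z
  have b3 := (hBi3 n g Ω hK.met x hx a).bi2 b c d w z
  have b2 := (hBi2 n g Ω hK.met x hx).bi2 b c d w z
  have e : e1 t1 x a * (e5 (N g) x b c d w z + e5 (N g) x c d b w z + e5 (N g) x d b c w z) = 0 := by
    rw [b2, mul_zero]
  linarith [h1, h2, h3, b3, e]

theorem tQ1 (hBi3 : S_Bi3) (hBi2 : S_Bi2) (hCvE : S_CvE) (hCvb : S_Cvb) (hLin : S_Lin)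
    (hSmo : S_Smo) : S_Q1 := by
  intro n g Ω t1 t2 hK x hx X a b c d w z
  refine ⟨q1two hBi3 hBi2 hK hx a b c d w z, ?_⟩
  have hg := hK.met
  have hev := q1ev hg.isOpen hx X
  obtain ⟨_, _, _, _, _, hR, _⟩ := hSmo n g Ω hg
  obtain ⟨_, h2, h4, _⟩ := hCvE n g Ω hg.isOpen x hx X
  have hC := (hCvb n g x X).1
  obtain ⟨_, _, _, _, hL2, _, hL4, _⟩ := hLin n x
  have dt : ∀ a b : Pt n, HasDerivAt (fun t : ℝ => e2 t2 (x + t • X) (q1p g x X a t)
      (q1p g x X b t)) (e3 (D g t2) x X a b) 0 := by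
    intro a b
    have h := h2 t2 hK.s2 _ a 0 _ b 0 (hC a) (hC b)
    have z1 : e2 t2 x 0 b = 0 := q1lin0 ((hL2 t2).2 b)
    have z2 : e2 t2 x a 0 = 0 := q1lin0 ((hL2 t2).1 a)
    rw [z1, z2] at h
    simp only [add_zero] at h
    exact h
  have dR : ∀ a b c d : Pt n, HasDerivAt (fun t : ℝ => e4 (R4 g) (x + t • X) (q1p g x X a t)
      (q1p g x X b t) (q1p g x X c t) (q1p g x X d t)) (e5 (N g) x X a b c d) 0 := by
    intro a b c d
    have h := h4 (R4 g) hR _ a 0 _ b 0 _ c 0 _ d 0 (hC a) (hC b) (hC c) (hC d)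
    have z1 : e4 (R4 g) x 0 b c d = 0 := q1lin0 ((hL4 (R4 g)).2.2.2 b c d)
    have z2 : e4 (R4 g) x a 0 c d = 0 := q1lin0 ((hL4 (R4 g)).2.2.1 a c d)
    have z3 : e4 (R4 g) x a b 0 d = 0 := q1lin0 ((hL4 (R4 g)).2.1 a b d)
    have z4 : e4 (R4 g) x a b c 0 = 0 := q1lin0 ((hL4 (R4 g)).1 a b c)
    rw [z1, z2, z3, z4] at h
    simp only [add_zero] at h
    exact h
  have hd := (((dt a b).mul (dR c d w z)).add ((dt a c).mul (dR d b w z))).add
    ((dt a d).mul (dR b c w z))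
  have h := q1zero hd (by
    filter_upwards [hev] with t ht
    have := q1two hBi3 hBi2 hK ht (q1p g x X a t) (q1p g x X b t) (q1p g x X c t)
      (q1p g x X d t) (q1p g x X w t) (q1p g x X z t)
    simp only [Pi.add_apply, Pi.mul_apply]
    exact this)
  simp only [q1z, zero_smul, add_zero] at h
  linarith

end

end Pool.Agent.Lib.MP_9d59e9_gt.KO
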