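import Pool.Agent.Lib.MP_9d59e9_gt.KO.Spec

set_option autoImplicit false

namespace Pool.Agent.Lib.MP_9d59e9_gt.KO

open scoped BigOperators ContDiff Topology
open Set

noncomputable section

/-- the derivative of the Christoffel symbols in the direction `X` -/
private def dChr {n : ℕ} (g : Pt n → Matrix (Fin n) (Fin n) ℝ) (p X Y w : Pt n) : Pt n := fun a =>
  ∑ i, ∑ l, (fderiv ℝ (Gam g a i l) p X) * (Y i * w l)

private theorem fd_eq {n : ℕ} (f : Pt n → ℝ) (p X : Pt n) :
    fderiv ℝ f p X = ∑ m, X m * pd m f p := by
  have h3 : X = ∑ j, X j • (Pi.single j 1 : Pt n) := by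
    funext k
    simp [Finset.sum_apply, Pi.single_apply]
  conv_lhs => rw [h3]
  rw [map_sum]
  exact Finset.sum_congr rfl fun m _ => by rw [map_smul, smul_eq_mul]; rfl

private theorem Rv_eq {n : ℕ} (g : Pt n → Matrix (Fin n) (Fin n) ℝ) (p X Y w : Pt n) :
    Rv g p X Y w = (dChr g p X Y w + Chr g p X (Chr g p Y w)) -
      (dChr g p Y X w + Chr g p Y (Chr g p X w)) := by
  funext a
  have e1 : dChr g p X Y w a = ∑ b, ∑ m, ∑ q, pd m (Gam g a q b) p * (w b * (X m * Y q)) := by
    simp only [dChr, fd_eq, Finset.sum_mul]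
    rw [Finset.sum_comm]
    refine Finset.sum_congr rfl fun b _ => ?_
    rw [Finset.sum_comm]
    exact Finset.sum_congr rfl fun m _ => Finset.sum_congr rfl fun q _ => by ring
  have e2 : dChr g p Y X w a = ∑ b, ∑ m, ∑ q, pd q (Gam g a m b) p * (w b * (X m * Y q)) := by
    simp only [dChr, fd_eq, Finset.sum_mul]
    rw [Finset.sum_comm]
    exact Finset.sum_congr rfl fun b _ => Finset.sum_congr rfl fun m _ =>
      Finset.sum_congr rfl fun q _ => by ring
  have e3 : ∀ X Y : Pt n, Chr g p X (Chr g p Y w) a =
      ∑ b, ∑ m, ∑ q, (∑ l, Gam g a m l p * Gam g l q b p) * (w b * (X m * Y q)) := by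
    intro X Y
    simp only [Chr, Finset.mul_sum, Finset.sum_mul]
    -- sum over m, l, q, b
    have h1 : ∀ m, (∑ l, ∑ q, ∑ b, Gam g a m l p * (X m * (Gam g l q b p * (Y q * w b)))) =
        ∑ b, ∑ q, ∑ l, Gam g a m l p * Gam g l q b p * (w b * (X m * Y q)) := by
      intro m
      rw [Finset.sum_comm]
      rw [Finset.sum_congr rfl fun q _ => Finset.sum_comm]
      rw [Finset.sum_comm]
      exact Finset.sum_congr rfl fun b _ => Finset.sum_congr rfl fun q _ =>
        Finset.sum_congr rfl fun l _ => by ring
    rw [Finset.sum_congr rfl fun m _ => h1 m, Finset.sum_comm]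
  have e4 : Chr g p Y (Chr g p X w) a =
      ∑ b, ∑ m, ∑ q, (∑ l, Gam g a q l p * Gam g l m b p) * (w b * (X m * Y q)) := by
    rw [e3 Y X]
    refine Finset.sum_congr rfl fun b _ => ?_
    rw [Finset.sum_comm]
    exact Finset.sum_congr rfl fun m _ => Finset.sum_congr rfl fun q _ => by ring
  rw [Pi.sub_apply, Pi.add_apply, Pi.add_apply, e1, e2, e3, e4]
  simp only [← Finset.sum_add_distrib, ← Finset.sum_sub_distrib]
  unfold Rv curv
  refine Finset.sum_congr rfl fun b _ => Finset.sum_congr rfl fun m _ =>
    Finset.sum_congr rfl fun q _ => ?_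
  rw [Finset.sum_sub_distrib]
  ring

theorem tRic (hSmo : S_Smo) (hCrv : S_Crv) (hCvb : S_Cvb) (hMet : S_Met) (hLin : S_Lin) :
    S_Ric := by
  intro n g Ω hg p hp k T hT X Y v
  have hΩ := hg.isOpen
  obtain ⟨-, smG, -, smD, -, -, -, -, -, -, -, smE⟩ := hSmo n g Ω hg
  have hsym := (hMet n g Ω hg p hp).2.1
  obtain ⟨linu, -⟩ := hLin n p
  set F : Pt n → ℝ := fun x => ev T x v with hF
  have hFs : ContDiffOn ℝ ∞ F Ω := smE k T hT v
  have hp0 : ∀ X : Pt n, p + (0 : ℝ) • X = p := fun X => by rw [zero_smul, add_zero]
  -- first derivative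
  have first : ∀ x ∈ Ω, ∀ Z : Pt n, fderiv ℝ F x Z = ev (D g T) x (Fin.cons Z v) +
      ∑ j, ev T x (Function.update v j (Chr g x Z (v j))) := by
    intro x hx Z
    have h1 := hCrv n g Ω hΩ k T hT x hx Z (fun j _ => v j) v (fun j => Chr g x Z (v j))
      fun j => (hCvb n g x Z).2.1 (v j)
    have h2 : DifferentiableAt ℝ F x := (hFs.contDiffAt (hΩ.mem_nhds hx)).differentiableAt
      (by simp)
    exact (h2.hasFDerivAt.hasLineDerivAt Z).unique h1
  -- second derivative
  set S : Pt n → Pt n → ℝ := fun X Y =>
    (ev (D g (D g T)) p (Fin.cons X (Fin.cons Y v)) +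
      (ev (D g T) p (Fin.cons (Chr g p X Y) v) +
        ∑ l, ev (D g T) p (Fin.cons Y (Function.update v l (Chr g p X (v l)))))) +
    ∑ j, (ev (D g T) p (Fin.cons X (Function.update v j (Chr g p Y (v j)))) +
      ∑ l, ev T p (if l = j then
        Function.update v j (dChr g p X Y (v j) + Chr g p X (Chr g p Y (v j)))
        else Function.update (Function.update v j (Chr g p Y (v j))) l (Chr g p X (v l)))) with hS
  have second : ∀ X Y : Pt n, fderiv ℝ (fderiv ℝ F) p X Y = S X Y := by
    intro X Y
    have h2 : DifferentiableAt ℝ (fderiv ℝ F) p :=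
      ((hFs.fderiv_of_isOpen hΩ (m := ∞) (by simp)).contDiffAt
        (hΩ.mem_nhds hp)).differentiableAt (by simp)
    have h3 : HasFDerivAt (fun x => fderiv ℝ F x Y)
        ((ContinuousLinearMap.apply ℝ ℝ Y).comp (fderiv ℝ (fderiv ℝ F) p)) p :=
      (ContinuousLinearMap.apply ℝ ℝ Y).hasFDerivAt.comp p h2.hasFDerivAt
    have h4 : HasDerivAt (fun t : ℝ => fderiv ℝ F (p + t • X) Y)
        (fderiv ℝ (fderiv ℝ F) p X Y) 0 := h3.hasLineDerivAt X
    -- the derivative of the right hand side
    have h5 := hCrv n g Ω hΩ (k + 1) (D g T) (smD k T hT) p hp X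
      (fun j _ => (Fin.cons (α := fun _ => Pt n) Y v : Fin (k + 1) → Pt n) j)
      (Fin.cons (α := fun _ => Pt n) Y v)
      (fun j => Chr g p X ((Fin.cons (α := fun _ => Pt n) Y v : Fin (k + 1) → Pt n) j))
      fun j => (hCvb n g p X).2.1 _
    rw [Fin.sum_univ_succ] at h5
    simp only [Fin.cons_zero, Fin.cons_succ, Fin.update_cons_zero, ← Fin.cons_update] at h5
    have h6 : ∀ j, HasDerivAt (fun t : ℝ => ev T (p + t • X)
        (Function.update v j (Chr g (p + t • X) Y (v j))))
        (ev (D g T) p (Fin.cons X (Function.update v j (Chr g p Y (v j)))) +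
      ∑ l, ev T p (if l = j then
        Function.update v j (dChr g p X Y (v j) + Chr g p X (Chr g p Y (v j)))
        else Function.update (Function.update v j (Chr g p Y (v j))) l (Chr g p X (v l)))) 0 := by
      intro j
      have hC : HasDerivAt (fun t : ℝ => Chr g (p + t • X) Y (v j)) (dChr g p X Y (v j)) 0 := by
        refine hasDerivAt_pi.2 fun a => ?_
        refine HasDerivAt.fun_sum fun i _ => HasDerivAt.fun_sum fun l _ => ?_
        have h7 : DifferentiableAt ℝ (Gam g a i l) p :=
          ((smG a i l).contDiffAt (hΩ.mem_nhds hp)).differentiableAt (by simp)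
        exact (h7.hasFDerivAt.hasLineDerivAt X).mul_const _
      have hC' : Cv g p X (fun t : ℝ => Chr g (p + t • X) Y (v j)) (Chr g p Y (v j))
          (dChr g p X Y (v j) + Chr g p X (Chr g p Y (v j))) := by
        refine ⟨by beta_reduce; rw [hp0], ?_⟩
        have : -(Chr g p X (Chr g p Y (v j))) +
            (dChr g p X Y (v j) + Chr g p X (Chr g p Y (v j))) = dChr g p X Y (v j) := by
          rw [add_comm (dChr g p X Y (v j)), neg_add_cancel_left]
        rw [this]
        exact hC
      have h7 := hCrv n g Ω hΩ k T hT p hp X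
        (fun i t => Function.update v j (Chr g (p + t • X) Y (v j)) i)
        (Function.update v j (Chr g p Y (v j)))
        (fun i => if i = j then dChr g p X Y (v j) + Chr g p X (Chr g p Y (v j))
          else Chr g p X (v i)) (by
          intro i
          by_cases hij : i = j
          · subst hij
            rw [if_pos rfl, Function.update_self]
            have : (fun t : ℝ => Function.update v i (Chr g (p + t • X) Y (v i)) i) =
                fun t : ℝ => Chr g (p + t • X) Y (v i) := by
              funext t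
              rw [Function.update_self]
            rw [this]
            exact hC'
          · rw [if_neg hij, Function.update_of_ne hij]
            have : (fun t : ℝ => Function.update v j (Chr g (p + t • X) Y (v j)) i) =
                fun _ : ℝ => v i := by
              funext t
              rw [Function.update_of_ne hij]
            rw [this]
            exact (hCvb n g p X).2.1 (v i))
      refine h7.congr_deriv ?_
      congr 1
      refine Finset.sum_congr rfl fun l _ => ?_
      by_cases hlj : l = j
      · rw [if_pos hlj, if_pos hlj, hlj, Function.update_idem]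
      · rw [if_neg hlj, if_neg hlj]
    have h8 : HasDerivAt (fun t : ℝ => ev (D g T) (p + t • X) (Fin.cons Y v) +
        ∑ j, ev T (p + t • X) (Function.update v j (Chr g (p + t • X) Y (v j)))) (S X Y) 0 :=
      h5.add (HasDerivAt.fun_sum fun j _ => h6 j)
    refine (h4.congr_of_eventuallyEq ?_).unique h8
    have hcn : ContinuousAt (fun t : ℝ => p + t • X) 0 := by fun_prop
    have hmem : Ω ∈ 𝓝 (p + (0 : ℝ) • X) := by
      rw [hp0]
      exact hΩ.mem_nhds hp
    filter_upwards [hcn.preimage_mem_nhds hmem] with t ht
    exact (first _ ht Y).symm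
  have hsymm : S X Y = S Y X := by
    rw [← second, ← second]
    have hFc : ContDiffAt ℝ ∞ F p := hFs.contDiffAt (hΩ.mem_nhds hp)
    have h2 : (2 : WithTop ℕ∞) ≤ ∞ := WithTop.coe_le_coe.2 le_top
    exact (hFc.isSymmSndFDerivAt (by simpa using h2)) X Y
  -- split the double sum
  have split : ∀ X Y : Pt n, ∀ j, (∑ l, ev T p (if l = j then
        Function.update v j (dChr g p X Y (v j) + Chr g p X (Chr g p Y (v j)))
        else Function.update (Function.update v j (Chr g p Y (v j))) l (Chr g p X (v l)))) =
      ev T p (Function.update v j (dChr g p X Y (v j) + Chr g p X (Chr g p Y (v j)))) +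
      ∑ l, (if l = j then 0 else
        ev T p (Function.update (Function.update v j (Chr g p Y (v j))) l (Chr g p X (v l)))) := by
    intro X Y j
    have h1 : ∀ l, ev T p (if l = j then
        Function.update v j (dChr g p X Y (v j) + Chr g p X (Chr g p Y (v j)))
        else Function.update (Function.update v j (Chr g p Y (v j))) l (Chr g p X (v l))) =
        (if l = j then
          ev T p (Function.update v j (dChr g p X Y (v j) + Chr g p X (Chr g p Y (v j)))) else 0) +
        (if l = j then 0 else
          ev T p (Function.update (Function.update v j (Chr g p Y (v j))) l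
            (Chr g p X (v l)))) := by
      intro l
      split_ifs
      · rw [add_zero]
      · rw [zero_add]
    rw [Finset.sum_congr rfl fun l _ => h1 l, Finset.sum_add_distrib, Finset.sum_ite_eq',
      if_pos (Finset.mem_univ j)]
  have dbl : (∑ j, ∑ l, (if l = j then 0 else
        ev T p (Function.update (Function.update v j (Chr g p Y (v j))) l (Chr g p X (v l))))) =
      ∑ j, ∑ l, (if l = j then 0 else
        ev T p (Function.update (Function.update v j (Chr g p X (v j))) l (Chr g p Y (v l)))) := by
    rw [Finset.sum_comm]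
    refine Finset.sum_congr rfl fun j _ => Finset.sum_congr rfl fun l _ => ?_
    by_cases hlj : l = j
    · rw [if_pos hlj, if_pos hlj.symm]
    · rw [if_neg hlj, if_neg (fun h => hlj h.symm), Function.update_comm hlj]
  have lin : ∀ j, ev T p (Function.update v j (Rv g p X Y (v j))) =
      ev T p (Function.update v j (dChr g p X Y (v j) + Chr g p X (Chr g p Y (v j)))) -
      ev T p (Function.update v j (dChr g p Y X (v j) + Chr g p Y (Chr g p X (v j)))) := by
    intro j
    have h1 := linu k T v j
    rw [Rv_eq, sub_eq_add_neg, h1.add, ← neg_one_smul ℝ, h1.smul]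
    ring
  rw [Finset.sum_congr rfl fun j _ => lin j, Finset.sum_sub_distrib]
  simp only [hS, split, Finset.sum_add_distrib] at hsymm
  rw [hsym Y X, dbl] at hsymm
  linarith

end

end Pool.Agent.Lib.MP_9d59e9_gt.KO
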