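import Pool.Agent.Lib.MP_9d59e9_gt.KO.Spec

/-!
# MP_9d59e9_gt, project KO: covariant derivative of the full contraction
-/

set_option autoImplicit false

namespace Pool.Agent.Lib.MP_9d59e9_gt.KO

open scoped BigOperators ContDiff
open Set

noncomputable section

private lemma scl_diff {n : ℕ} {f : Pt n → ℝ} {V : Set (Pt n)} {x : Pt n} (hV : IsOpen V)
    (hx : x ∈ V) (hf : ContDiffOn ℝ ∞ f V) : DifferentiableAt ℝ f x :=
  (hf.contDiffAt (hV.mem_nhds hx)).differentiableAt (by simp)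

private lemma scl_vec {n : ℕ} (X : Pt n) : X = ∑ m, X m • bv m := by
  ext j
  rw [Finset.sum_apply, Finset.sum_eq_single j]
  · simp [bv]
  · intro b _ hb
    simp [bv, Ne.symm hb]
  · simp

private lemma scl_lin {n : ℕ} {f : Pt n → ℝ} (hf : Lin1 f) (X : Pt n) :
    f X = ∑ m, X m * f (bv m) := by
  have h0 : f 0 = 0 := by
    have := hf.smul 0 0
    simpa using this
  have h1 : ∀ (s : Finset (Fin n)), f (∑ m ∈ s, X m • bv m) = ∑ m ∈ s, X m * f (bv m) := by
    intro s
    classical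
    induction s using Finset.induction_on with
    | empty => simpa using h0
    | insert a s ha ih => rw [Finset.sum_insert ha, Finset.sum_insert ha, hf.add, hf.smul, ih]
  have h2 := h1 Finset.univ
  rw [← scl_vec X] at h2
  exact h2

private lemma scl_line {n : ℕ} {f : Pt n → ℝ} {p : Pt n} (X : Pt n) (hf : DifferentiableAt ℝ f p) :
    HasDerivAt (fun t : ℝ => f (p + t • X)) (∑ m, X m * pd m f p) 0 := by
  have h1 : HasDerivAt (fun t : ℝ => p + t • X) X 0 := by
    have := ((hasDerivAt_id (0 : ℝ)).smul_const X).const_add p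
    simpa using this
  have h2 := hf.hasFDerivAt.comp_hasDerivAt_of_eq (0 : ℝ) h1 (by simp)
  have h3 : (fderiv ℝ f p) X = ∑ m, X m * pd m f p := by
    have h4 : Lin1 fun v : Pt n => (fderiv ℝ f p) v :=
      ⟨fun a b => map_add _ a b, fun r a => by rw [map_smul, smul_eq_mul]⟩
    exact scl_lin h4 X
  rw [h3] at h2
  exact h2

private lemma scl_pd_mul {n : ℕ} (i : Fin n) {f h : Pt n → ℝ} {x : Pt n}
    (hf : DifferentiableAt ℝ f x) (hh : DifferentiableAt ℝ h x) :
    pd i (fun y => f y * h y) x = pd i f x * h x + f x * pd i h x := by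
  unfold pd
  rw [fderiv_fun_mul hf hh]
  simp only [ContinuousLinearMap.add_apply, ContinuousLinearMap.smul_apply, smul_eq_mul]
  ring

private lemma scl_pd_sum {n : ℕ} (i : Fin n) {F : Fin n → Pt n → ℝ} {x : Pt n}
    (hF : ∀ j, DifferentiableAt ℝ (F j) x) :
    pd i (fun y => ∑ j, F j y) x = ∑ j, pd i (F j) x := by
  unfold pd
  rw [fderiv_fun_sum (fun j _ => hF j)]
  simp only [ContinuousLinearMap.sum_apply]

/-- `∂_m g⁻¹ = -g⁻¹ Γᵀ - Γ g⁻¹` -/
private lemma scl_inv (hMet : S_Met) {n : ℕ} {g : Pt n → Matrix (Fin n) (Fin n) ℝ}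
    {V : Set (Pt n)} (hg : IsMetricOn g V)
    (hi : ∀ i j, ContDiffOn ℝ ∞ (fun x => (g x)⁻¹ i j) V) {x : Pt n} (hx : x ∈ V) (m : Fin n) :
    (Matrix.of fun i j => pd m (fun y => (g y)⁻¹ i j) x) =
      -((g x)⁻¹ * (Matrix.of fun s a => Gam g s m a x).transpose) -
        (Matrix.of fun s a => Gam g s m a x) * (g x)⁻¹ := by
  have hdet : IsUnit (g x).det := (hg.pos x hx).isUnit.map Matrix.detMonoidHom
  have h1 : (Matrix.of fun i j => pd m (fun y => (g y)⁻¹ i j) x) * g x +
      (g x)⁻¹ * (Matrix.of fun i j => pd m (fun y => g y i j) x) = 0 := by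
    ext i k
    have hc : pd m (fun y => ∑ j, (g y)⁻¹ i j * g y j k) x = 0 := by
      have he : (fun y => ∑ j, (g y)⁻¹ i j * g y j k) =ᶠ[nhds x]
          fun _ => (1 : Matrix (Fin n) (Fin n) ℝ) i k := by
        filter_upwards [hg.isOpen.mem_nhds hx] with y hy
        have hdy : IsUnit (g y).det := (hg.pos y hy).isUnit.map Matrix.detMonoidHom
        have := congrFun (congrFun (Matrix.nonsing_inv_mul (g y) hdy) i) k
        rw [Matrix.mul_apply] at this
        exact this
      unfold pd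
      rw [he.fderiv_eq]
      simp
    have hc1 := scl_pd_sum m (F := fun j y => (g y)⁻¹ i j * g y j k) (x := x)
      (fun j => (scl_diff hg.isOpen hx (hi i j)).mul (scl_diff hg.isOpen hx (hg.smooth j k)))
    rw [hc] at hc1
    rw [Matrix.add_apply, Matrix.mul_apply, Matrix.mul_apply, ← Finset.sum_add_distrib,
      Matrix.zero_apply, hc1]
    refine Finset.sum_congr rfl fun j _ => ?_
    have h3 := scl_pd_mul m (f := fun y => (g y)⁻¹ i j) (h := fun y => g y j k) (x := x)
      (scl_diff hg.isOpen hx (hi i j)) (scl_diff hg.isOpen hx (hg.smooth j k))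
    rw [h3]
    simp only [Matrix.of_apply]
  have h2 := congrArg (fun A => A * (g x)⁻¹) h1
  simp only [Matrix.add_mul, Matrix.zero_mul, Matrix.mul_assoc,
    Matrix.mul_nonsing_inv _ hdet, Matrix.mul_one] at h2
  rw [← Matrix.mul_assoc] at h2
  have h3 := eq_neg_of_add_eq_zero_left h2
  have hQ : (Matrix.of fun i j => pd m (fun y => g y i j) x) =
      (Matrix.of fun s a => Gam g s m a x).transpose * g x +
        g x * (Matrix.of fun s a => Gam g s m a x) := by
    ext i j
    rw [Matrix.of_apply, (hMet n g V hg x hx).2.2.2.2 m i j, Matrix.add_apply, Matrix.mul_apply,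
      Matrix.mul_apply]
    congr 1
    refine Finset.sum_congr rfl fun s _ => ?_
    rw [Matrix.of_apply]
    ring
  rw [h3, hQ, Matrix.mul_add, Matrix.add_mul, Matrix.mul_assoc,
    Matrix.mul_assoc, Matrix.mul_nonsing_inv _ hdet, Matrix.mul_one,
    ← Matrix.mul_assoc (g x)⁻¹ (g x), Matrix.nonsing_inv_mul _ hdet, Matrix.one_mul]
  abel

private lemma scl_tr {n : ℕ} (M A : Matrix (Fin n) (Fin n) ℝ) :
    ∑ i, ∑ k, M i k * A i k = (M.transpose * A).trace := by
  rw [Matrix.trace, Finset.sum_comm]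
  refine Finset.sum_congr rfl fun k _ => ?_
  rw [Matrix.diag_apply, Matrix.mul_apply]
  rfl

private lemma scl_two {n : ℕ} (G Γ : Matrix (Fin n) (Fin n) ℝ) (A : Fin n → Fin n → ℝ) :
    ∑ i, ∑ k, (-(G * Γ.transpose) - Γ * G) i k * A i k =
      -∑ i, ∑ k, G i k * (∑ s, Γ s i * A s k + ∑ s, Γ s k * A i s) := by
  have h1 := scl_tr (-(G * Γ.transpose) - Γ * G) (Matrix.of A)
  have h2 := scl_tr G (Γ.transpose * Matrix.of A + Matrix.of A * Γ)
  have h3 : ∀ i k, (Γ.transpose * Matrix.of A + Matrix.of A * Γ) i k =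
      ∑ s, Γ s i * A s k + ∑ s, Γ s k * A i s := by
    intro i k
    rw [Matrix.add_apply, Matrix.mul_apply, Matrix.mul_apply]
    congr 1
    refine Finset.sum_congr rfl fun s _ => ?_
    rw [Matrix.of_apply]
    ring
  simp only [h3] at h2
  rw [h2]
  refine h1.trans ?_
  rw [← Matrix.trace_neg]
  have h4 : (Γ * G.transpose * Matrix.of A).trace = (G.transpose * (Matrix.of A * Γ)).trace := by
    rw [Matrix.mul_assoc, Matrix.trace_mul_comm, Matrix.mul_assoc]
  rw [Matrix.transpose_sub, Matrix.transpose_neg, Matrix.transpose_mul, Matrix.transpose_mul,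
    Matrix.transpose_transpose, Matrix.mul_add, Matrix.sub_mul, Matrix.neg_mul, Matrix.trace_sub,
    Matrix.trace_neg, Matrix.trace_neg, Matrix.trace_add, h4, Matrix.mul_assoc]
  ring

private lemma scl_ord1 {n : ℕ} (f : Fin n → Fin n → Fin n → Fin n → ℝ) :
    ∑ i, ∑ j, ∑ k, ∑ l, f i j k l = ∑ j, ∑ l, ∑ i, ∑ k, f i j k l := by
  rw [Finset.sum_comm]
  refine Finset.sum_congr rfl fun j _ => ?_
  have : ∀ i, ∑ k, ∑ l, f i j k l = ∑ l, ∑ k, f i j k l := fun i => Finset.sum_comm
  simp only [this]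
  exact Finset.sum_comm

private lemma scl_ord2 {n : ℕ} (f : Fin n → Fin n → Fin n → Fin n → ℝ) :
    ∑ i, ∑ j, ∑ k, ∑ l, f i j k l = ∑ i, ∑ k, ∑ j, ∑ l, f i j k l :=
  Finset.sum_congr rfl fun _ _ => Finset.sum_comm

/-- the algebraic identity -/
private lemma scl_alg {n : ℕ} (G Γ : Matrix (Fin n) (Fin n) ℝ)
    (T dT : Fin n → Fin n → Fin n → Fin n → ℝ) :
    ∑ i, ∑ j, ∑ k, ∑ l, (((-(G * Γ.transpose) - Γ * G) i k * G j l +
        G i k * (-(G * Γ.transpose) - Γ * G) j l) * T i j k l + G i k * G j l * dT i j k l) =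
      ∑ i, ∑ j, ∑ k, ∑ l, G i k * G j l * (dT i j k l - (∑ s, Γ s i * T s j k l +
        ∑ s, Γ s j * T i s k l + ∑ s, Γ s k * T i j s l + ∑ s, Γ s l * T i j k s)) := by
  have ha : ∑ i, ∑ j, ∑ k, ∑ l, (-(G * Γ.transpose) - Γ * G) i k * (G j l * T i j k l) =
      -∑ i, ∑ j, ∑ k, ∑ l, G i k * G j l * (∑ s, Γ s i * T s j k l + ∑ s, Γ s k * T i j s l) := by
    rw [scl_ord1, scl_ord1 fun i j k l =>
      G i k * G j l * (∑ s, Γ s i * T s j k l + ∑ s, Γ s k * T i j s l), ← Finset.sum_neg_distrib]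
    refine Finset.sum_congr rfl fun j _ => ?_
    rw [← Finset.sum_neg_distrib]
    refine Finset.sum_congr rfl fun l _ => ?_
    rw [scl_two G Γ fun i k => G j l * T i j k l]
    congr 1
    refine Finset.sum_congr rfl fun i _ => Finset.sum_congr rfl fun k _ => ?_
    have e1 : ∑ s, Γ s i * (G j l * T s j k l) = G j l * ∑ s, Γ s i * T s j k l := by
      rw [Finset.mul_sum]
      exact Finset.sum_congr rfl fun s _ => by ring
    have e2 : ∑ s, Γ s k * (G j l * T i j s l) = G j l * ∑ s, Γ s k * T i j s l := by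
      rw [Finset.mul_sum]
      exact Finset.sum_congr rfl fun s _ => by ring
    rw [e1, e2]
    ring
  have hb : ∑ i, ∑ j, ∑ k, ∑ l, (-(G * Γ.transpose) - Γ * G) j l * (G i k * T i j k l) =
      -∑ i, ∑ j, ∑ k, ∑ l, G i k * G j l * (∑ s, Γ s j * T i s k l + ∑ s, Γ s l * T i j k s) := by
    rw [scl_ord2, scl_ord2 fun i j k l =>
      G i k * G j l * (∑ s, Γ s j * T i s k l + ∑ s, Γ s l * T i j k s), ← Finset.sum_neg_distrib]
    refine Finset.sum_congr rfl fun i _ => ?_
    rw [← Finset.sum_neg_distrib]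
    refine Finset.sum_congr rfl fun k _ => ?_
    rw [scl_two G Γ fun j l => G i k * T i j k l]
    congr 1
    refine Finset.sum_congr rfl fun j _ => Finset.sum_congr rfl fun l _ => ?_
    have e1 : ∑ s, Γ s j * (G i k * T i s k l) = G i k * ∑ s, Γ s j * T i s k l := by
      rw [Finset.mul_sum]
      exact Finset.sum_congr rfl fun s _ => by ring
    have e2 : ∑ s, Γ s l * (G i k * T i j k s) = G i k * ∑ s, Γ s l * T i j k s := by
      rw [Finset.mul_sum]
      exact Finset.sum_congr rfl fun s _ => by ring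
    rw [e1, e2]
    ring
  have hL : ∑ i, ∑ j, ∑ k, ∑ l, (((-(G * Γ.transpose) - Γ * G) i k * G j l +
        G i k * (-(G * Γ.transpose) - Γ * G) j l) * T i j k l + G i k * G j l * dT i j k l) =
      ∑ i, ∑ j, ∑ k, ∑ l, (-(G * Γ.transpose) - Γ * G) i k * (G j l * T i j k l) +
      ∑ i, ∑ j, ∑ k, ∑ l, (-(G * Γ.transpose) - Γ * G) j l * (G i k * T i j k l) +
      ∑ i, ∑ j, ∑ k, ∑ l, G i k * G j l * dT i j k l := by
    simp only [← Finset.sum_add_distrib]
    refine Finset.sum_congr rfl fun i _ => Finset.sum_congr rfl fun j _ =>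
      Finset.sum_congr rfl fun k _ => Finset.sum_congr rfl fun l _ => ?_
    ring
  have key : ∀ i j k l, G i k * G j l * (dT i j k l - (∑ s, Γ s i * T s j k l +
      ∑ s, Γ s j * T i s k l + ∑ s, Γ s k * T i j s l + ∑ s, Γ s l * T i j k s)) =
      G i k * G j l * dT i j k l -
        G i k * G j l * (∑ s, Γ s i * T s j k l + ∑ s, Γ s k * T i j s l) -
        G i k * G j l * (∑ s, Γ s j * T i s k l + ∑ s, Γ s l * T i j k s) := fun i j k l => by ring
  rw [hL, ha, hb]
  simp only [key, Finset.sum_sub_distrib]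
  ring

theorem tScl (hSmo : S_Smo) (hMet : S_Met) (_hCrv : S_Crv) (_hCvb : S_Cvb) (hLin : S_Lin) :
    S_Scl := by
  intro n g Ω hg p hp T hT X
  have hi := (hSmo n g Ω hg).1
  obtain ⟨Γ, hΓ⟩ : ∃ Γ : Matrix (Fin n) (Fin n) ℝ,
      Γ = Matrix.of fun s a => ∑ m, X m * Gam g s m a p := ⟨_, rfl⟩
  have hdG : ∀ i k, HasDerivAt (fun t : ℝ => (g (p + t • X))⁻¹ i k)
      ((-((g p)⁻¹ * Γ.transpose) - Γ * (g p)⁻¹) i k) 0 := by
    intro i k
    have h1 := scl_line (f := fun y => (g y)⁻¹ i k) X (scl_diff hg.isOpen hp (hi i k))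
    have h2 : ∑ m, X m * pd m (fun y => (g y)⁻¹ i k) p =
        (-((g p)⁻¹ * Γ.transpose) - Γ * (g p)⁻¹) i k := by
      have h3 : ∀ m, pd m (fun y => (g y)⁻¹ i k) p = -∑ s, (g p)⁻¹ i s * Gam g k m s p -
          ∑ s, Gam g i m s p * (g p)⁻¹ s k := by
        intro m
        have h4 := congrFun (congrFun (scl_inv hMet hg hi hp m) i) k
        rw [Matrix.sub_apply, Matrix.neg_apply, Matrix.mul_apply, Matrix.mul_apply] at h4
        exact h4
      rw [Matrix.sub_apply, Matrix.neg_apply, Matrix.mul_apply, Matrix.mul_apply, hΓ]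
      simp only [h3, Matrix.transpose_apply, Matrix.of_apply, mul_sub, mul_neg,
        Finset.sum_sub_distrib, Finset.sum_neg_distrib, Finset.mul_sum, Finset.sum_mul]
      congr 1
      · congr 1
        rw [Finset.sum_comm]
        exact Finset.sum_congr rfl fun s _ => Finset.sum_congr rfl fun m _ => by ring
      · rw [Finset.sum_comm]
        exact Finset.sum_congr rfl fun s _ => Finset.sum_congr rfl fun m _ => by ring
    rw [h2] at h1
    exact h1
  have hdT : ∀ i j k l, HasDerivAt (fun t : ℝ => T ![i, j, k, l] (p + t • X))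
      (∑ m, X m * pd m (T ![i, j, k, l]) p) 0 := fun i j k l =>
    scl_line X (scl_diff hg.isOpen hp (hT _))
  have hp0 : p + (0 : ℝ) • X = p := by simp
  have hmain : HasDerivAt (fun t : ℝ => scal g T (p + t • X))
      (∑ i, ∑ j, ∑ k, ∑ l, (((-((g p)⁻¹ * Γ.transpose) - Γ * (g p)⁻¹) i k * (g p)⁻¹ j l +
        (g p)⁻¹ i k * (-((g p)⁻¹ * Γ.transpose) - Γ * (g p)⁻¹) j l) * T ![i, j, k, l] p +
        (g p)⁻¹ i k * (g p)⁻¹ j l * ∑ m, X m * pd m (T ![i, j, k, l]) p)) 0 := by
    unfold scal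
    refine HasDerivAt.fun_sum fun i _ => HasDerivAt.fun_sum fun j _ =>
      HasDerivAt.fun_sum fun k _ => HasDerivAt.fun_sum fun l _ => ?_
    have h1 := ((hdG i k).fun_mul (hdG j l)).fun_mul (hdT i j k l)
    simp only [hp0] at h1
    exact h1
  rw [scl_alg (g p)⁻¹ Γ (fun i j k l => T ![i, j, k, l] p)
    (fun i j k l => ∑ m, X m * pd m (T ![i, j, k, l]) p)] at hmain
  have hfin : ∀ i j k l, e5 (D g T) p X (bv i) (bv j) (bv k) (bv l) =
      ∑ m, X m * pd m (T ![i, j, k, l]) p - (∑ s, Γ s i * T ![s, j, k, l] p +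
        ∑ s, Γ s j * T ![i, s, k, l] p + ∑ s, Γ s k * T ![i, j, s, l] p +
        ∑ s, Γ s l * T ![i, j, k, s] p) := by
    intro i j k l
    obtain ⟨-, hev, -, -, -, -, -, h5, -⟩ := hLin n p
    have hl := (h5 (D g T)).2.2.2.2 (bv i) (bv j) (bv k) (bv l)
    rw [scl_lin hl X]
    have h6 : ∀ m, e5 (D g T) p (bv m) (bv i) (bv j) (bv k) (bv l) =
        pd m (T ![i, j, k, l]) p - (∑ s, Gam g s m i p * T ![s, j, k, l] p +
        ∑ s, Gam g s m j p * T ![i, s, k, l] p + ∑ s, Gam g s m k p * T ![i, j, s, l] p +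
        ∑ s, Gam g s m l p * T ![i, j, k, s] p) := by
      intro m
      have h7 := hev 5 (D g T) ![m, i, j, k, l]
      have h8 : (fun a => bv (![m, i, j, k, l] a)) =
          (![bv m, bv i, bv j, bv k, bv l] : Fin 5 → Pt n) := by
        ext a
        fin_cases a <;> rfl
      rw [h8] at h7
      have h9 : e5 (D g T) p (bv m) (bv i) (bv j) (bv k) (bv l) = D g T ![m, i, j, k, l] p := h7
      rw [h9]
      have ht : Fin.tail (![m, i, j, k, l] : Fin 5 → Fin n) = ![i, j, k, l] := by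
        ext a
        fin_cases a <;> rfl
      have u0 : ∀ s, Function.update (![i, j, k, l] : Fin 4 → Fin n) 0 s = ![s, j, k, l] := by
        intro s
        ext a
        fin_cases a <;> rfl
      have u1 : ∀ s, Function.update (![i, j, k, l] : Fin 4 → Fin n) 1 s = ![i, s, k, l] := by
        intro s
        ext a
        fin_cases a <;> rfl
      have u2 : ∀ s, Function.update (![i, j, k, l] : Fin 4 → Fin n) 2 s = ![i, j, s, l] := by
        intro s
        ext a
        fin_cases a <;> rfl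
      have u3 : ∀ s, Function.update (![i, j, k, l] : Fin 4 → Fin n) 3 s = ![i, j, k, s] := by
        intro s
        ext a
        fin_cases a <;> rfl
      unfold D
      rw [ht, Fin.sum_univ_four]
      simp only [u0, u1, u2, u3]
      rfl
    have h10 : ∀ (F : Fin n → ℝ) (a : Fin n),
        ∑ s, Γ s a * F s = ∑ m, X m * ∑ s, Gam g s m a p * F s := by
      intro F a
      rw [hΓ]
      simp only [Matrix.of_apply, Finset.sum_mul, Finset.mul_sum]
      rw [Finset.sum_comm]
      exact Finset.sum_congr rfl fun s _ => Finset.sum_congr rfl fun m _ => by ring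
    rw [h10 fun s => T ![s, j, k, l] p, h10 fun s => T ![i, s, k, l] p,
      h10 fun s => T ![i, j, s, l] p, h10 fun s => T ![i, j, k, s] p]
    simp only [h6, ← Finset.sum_add_distrib, ← Finset.sum_sub_distrib]
    refine Finset.sum_congr rfl fun m _ => ?_
    simp only [Finset.sum_add_distrib]
    ring
  simp only [hfin]
  exact hmain

end

end Pool.Agent.Lib.MP_9d59e9_gt.KO
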