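import Pool.Agent.Lib.MP_9d59e9_gt.KO.Spec

/-!
# MP_9d59e9_gt, project KO: Skw

A skew endomorphism acting on tensors as a derivation has no nonzero real eigenvalue.
-/

set_option autoImplicit false

namespace Pool.Agent.Lib.MP_9d59e9_gt.KO

open scoped BigOperators

private theorem lin_zero {V : Type} [AddCommGroup V] [Module ℝ V] {f : V → ℝ} (hf : Lin1 f) :
    f 0 = 0 := by
  have h := hf.smul 0 0
  simpa using h

private theorem lin_sum {V : Type} [AddCommGroup V] [Module ℝ V] {f : V → ℝ} (hf : Lin1 f)
    {ι : Type} (s : Finset ι) (a : ι → ℝ) (w : ι → V) :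
    f (∑ i ∈ s, a i • w i) = ∑ i ∈ s, a i * f (w i) := by
  classical
  induction s using Finset.induction_on with
  | empty => simp [lin_zero hf]
  | insert i s hi ih =>
    rw [Finset.sum_insert hi, Finset.sum_insert hi, hf.add, hf.smul, ih]

/-- the multilinear map given by a tensor field at a point -/
private noncomputable def mT {n k : ℕ} (T : TF n k) (x : Pt n)
    (h : ∀ (v : Fin k → Pt n) (j : Fin k), Lin1 fun u => ev T x (Function.update v j u)) :
    MultilinearMap ℝ (fun _ : Fin k => Pt n) ℝ where
  toFun v := ev T x v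
  map_update_add' := by
    intro inst v j a b
    have hi : inst = instDecidableEqFin k := Subsingleton.elim _ _
    subst hi
    exact (h v j).add a b
  map_update_smul' := by
    intro inst v j r a
    have hi : inst = instDecidableEqFin k := Subsingleton.elim _ _
    subst hi
    exact (h v j).smul r a

private theorem ev_zero {n k : ℕ} (T : TF n k) (x : Pt n)
    (h : ∀ (v : Fin k → Pt n) (j : Fin k), Lin1 fun u => ev T x (Function.update v j u))
    (e : Fin n → Pt n) (a : Pt n → Fin n → ℝ) (ha : ∀ v, v = ∑ i, a v i • e i)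
    (h0 : ∀ I : Fin k → Fin n, ev T x (fun j => e (I j)) = 0) (v : Fin k → Pt n) :
    ev T x v = 0 := by
  have h1 : ev T x v = mT T x h v := rfl
  have h2 : v = fun j => ∑ i, a (v j) i • e i := by
    funext j
    exact ha (v j)
  rw [h1, h2, MultilinearMap.map_sum]
  refine Finset.sum_eq_zero fun I _ => ?_
  rw [MultilinearMap.map_smul_univ]
  have h3 : mT T x h (fun j => e (I j)) = 0 := h0 I
  rw [h3, smul_zero]

private theorem sum_skew {n k : ℕ} (j : Fin k) (φ : Fin n → Fin n → ℝ)
    (hφ : ∀ s i, φ s i = -φ i s) (t : (Fin k → Fin n) → ℝ) :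
    ∑ I : Fin k → Fin n, ∑ s : Fin n, φ s (I j) * t (Function.update I j s) * t I = 0 := by
  set F : (Fin k → Fin n) × Fin n → ℝ := fun p =>
    φ p.2 (p.1 j) * t (Function.update p.1 j p.2) * t p.1 with hF
  have h1 : ∑ I : Fin k → Fin n, ∑ s : Fin n, φ s (I j) * t (Function.update I j s) * t I
      = ∑ p : (Fin k → Fin n) × Fin n, F p := by
    rw [Fintype.sum_prod_type]
  have hinv : Function.Involutive
      (fun p : (Fin k → Fin n) × Fin n => (Function.update p.1 j p.2, p.1 j)) := by
    intro p
    simp
  have h2 : ∑ p : (Fin k → Fin n) × Fin n, F (hinv.toPerm _ p)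
      = ∑ p : (Fin k → Fin n) × Fin n, F p := Equiv.sum_comp (hinv.toPerm _) F
  have h3 : ∀ p : (Fin k → Fin n) × Fin n, F (hinv.toPerm _ p) = -F p := by
    intro p
    simp only [hF, Function.Involutive.coe_toPerm, Function.update_self, Function.update_idem,
      Function.update_eq_self]
    rw [hφ (p.1 j) p.2]
    ring
  have h4 : ∑ p : (Fin k → Fin n) × Fin n, F (hinv.toPerm _ p)
      = -∑ p : (Fin k → Fin n) × Fin n, F p := by
    rw [← Finset.sum_neg_distrib]
    exact Finset.sum_congr rfl fun p _ => h3 p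
  rw [h1]
  linarith [h2, h4]

theorem tSkw (hOnb : S_Onb) (hLin : S_Lin) : S_Skw := by
  intro n g x hg k T Φ c hΦ hT
  obtain ⟨⟨e, he, hex⟩, hip, -⟩ := hOnb n g x hg
  have hlin : ∀ (v : Fin k → Pt n) (j : Fin k),
      Lin1 fun u => ev T x (Function.update v j u) := fun v j => (hLin n x).1 k T v j
  set t : (Fin k → Fin n) → ℝ := fun I => ev T x (fun j => e (I j)) with ht
  set φ : Fin n → Fin n → ℝ := fun s i => ip g x (Φ (e i)) (e s) with hφdef
  have hφ : ∀ s i, φ s i = -φ i s := by
    intro s i
    simp only [hφdef]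
    rw [hΦ (e i) (e s), hip.symm (e i) (Φ (e s))]
  have hup : ∀ (I : Fin k → Fin n) (j : Fin k) (s : Fin n),
      Function.update (fun l => e (I l)) j (e s) = fun l => e (Function.update I j s l) := by
    intro I j s
    funext l
    by_cases hl : l = j
    · subst hl
      simp
    · simp [Function.update_of_ne hl]
  have h1 : ∀ (I : Fin k → Fin n) (j : Fin k),
      ev T x (Function.update (fun l => e (I l)) j (Φ (e (I j))))
        = ∑ s, φ s (I j) * t (Function.update I j s) := by
    intro I j
    conv_lhs => rw [hex (Φ (e (I j)))]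
    rw [lin_sum (hlin (fun l => e (I l)) j)]
    refine Finset.sum_congr rfl fun s _ => ?_
    rw [hup I j s]
  have h2 : ∀ I : Fin k → Fin n,
      ∑ j, ∑ s, φ s (I j) * t (Function.update I j s) = c * t I := by
    intro I
    rw [← hT (fun l => e (I l))]
    exact Finset.sum_congr rfl fun j _ => (h1 I j).symm
  have h3 : c * ∑ I, t I ^ 2 = 0 := by
    have h4 : c * ∑ I, t I ^ 2
        = ∑ I : Fin k → Fin n, ∑ j, ∑ s, φ s (I j) * t (Function.update I j s) * t I := by
      rw [Finset.mul_sum]
      refine Finset.sum_congr rfl fun I _ => ?_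
      have h5 : c * t I ^ 2 = (c * t I) * t I := by ring
      rw [h5, ← h2 I, Finset.sum_mul]
      refine Finset.sum_congr rfl fun j _ => ?_
      rw [Finset.sum_mul]
    rw [h4, Finset.sum_comm]
    exact Finset.sum_eq_zero fun j _ => sum_skew j φ hφ t
  rcases mul_eq_zero.mp h3 with h | h
  · exact Or.inl h
  · right
    have h0 : ∀ I, t I = 0 := by
      intro I
      have h5 := (Finset.sum_eq_zero_iff_of_nonneg fun I _ => sq_nonneg (t I)).mp h I
        (Finset.mem_univ I)
      exact pow_eq_zero_iff (two_ne_zero) |>.mp h5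
    intro v
    exact ev_zero T x hlin e (fun v i => ip g x v (e i)) hex h0 v

end Pool.Agent.Lib.MP_9d59e9_gt.KO
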