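import Pool.Agent.Lib.MP_9d59e9_gt.KO.Spec

/-!
# MP_9d59e9_gt, project KO, module Smo: smoothness
-/

set_option autoImplicit false

namespace Pool.Agent.Lib.MP_9d59e9_gt.KO

open scoped BigOperators ContDiff
open Set

noncomputable section

private theorem smo_det {n m : ℕ} (Ω : Set (Pt n)) (A : Pt n → Matrix (Fin m) (Fin m) ℝ)
    (h : ∀ i j, ContDiffOn ℝ ∞ (fun x => A x i j) Ω) :
    ContDiffOn ℝ ∞ (fun x => (A x).det) Ω := by
  simp only [Matrix.det_apply]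
  refine ContDiffOn.sum fun σ _ => ?_
  have h1 : ContDiffOn ℝ ∞ (fun x => ∏ i, A x (σ i) i) Ω :=
    contDiffOn_prod fun i _ => h (σ i) i
  have h2 : (fun x => Equiv.Perm.sign σ • ∏ i, A x (σ i) i) =
      fun x => ((Equiv.Perm.sign σ : ℤ) : ℝ) * ∏ i, A x (σ i) i := by
    funext x
    rw [Units.smul_def, zsmul_eq_mul]
  rw [h2]
  exact contDiffOn_const.mul h1

private theorem smo_adj {n m : ℕ} (Ω : Set (Pt n)) (A : Pt n → Matrix (Fin m) (Fin m) ℝ)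
    (h : ∀ i j, ContDiffOn ℝ ∞ (fun x => A x i j) Ω) (i j : Fin m) :
    ContDiffOn ℝ ∞ (fun x => (A x).adjugate i j) Ω := by
  simp only [Matrix.adjugate_apply]
  refine smo_det Ω _ fun a b => ?_
  simp only [Matrix.updateRow_apply]
  by_cases hab : a = j
  · simp only [hab, if_true]
    exact contDiffOn_const
  · simp only [hab, if_false]
    exact h a b

private theorem smo_inv {n : ℕ} (g : Pt n → Matrix (Fin n) (Fin n) ℝ) (Ω : Set (Pt n))
    (hg : IsMetricOn g Ω) (i j : Fin n) : ContDiffOn ℝ ∞ (fun x => (g x)⁻¹ i j) Ω := by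
  have h1 : (fun x => (g x)⁻¹ i j) = fun x => ((g x).det)⁻¹ * (g x).adjugate i j := by
    funext x
    rw [Matrix.inv_def, Matrix.smul_apply, smul_eq_mul, Ring.inverse_eq_inv']
  rw [h1]
  exact ((smo_det Ω g hg.smooth).inv fun x hx => (hg.pos x hx).det_pos.ne').mul
    (smo_adj Ω g hg.smooth i j)

private theorem smo_pd {n : ℕ} (Ω : Set (Pt n)) (hΩ : IsOpen Ω) (f : Pt n → ℝ)
    (h : ContDiffOn ℝ ∞ f Ω) (i : Fin n) : ContDiffOn ℝ ∞ (pd i f) Ω := by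
  have h1 : ContDiffOn ℝ ∞ (fderiv ℝ f) Ω := h.fderiv_of_isOpen hΩ (by simp)
  exact h1.clm_apply contDiffOn_const

private theorem smo_Gam {n : ℕ} (g : Pt n → Matrix (Fin n) (Fin n) ℝ) (Ω : Set (Pt n))
    (hg : IsMetricOn g Ω) (k i j : Fin n) : ContDiffOn ℝ ∞ (Gam g k i j) Ω := by
  refine contDiffOn_const.mul (ContDiffOn.sum fun l _ => ?_)
  refine (smo_inv g Ω hg k l).mul ?_
  exact ((smo_pd Ω hg.isOpen _ (hg.smooth j l) i).add
    (smo_pd Ω hg.isOpen _ (hg.smooth i l) j)).sub (smo_pd Ω hg.isOpen _ (hg.smooth i j) l)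

private theorem smo_curv {n : ℕ} (g : Pt n → Matrix (Fin n) (Fin n) ℝ) (Ω : Set (Pt n))
    (hg : IsMetricOn g Ω) (a b m p : Fin n) : ContDiffOn ℝ ∞ (curv g a b m p) Ω := by
  refine ((smo_pd Ω hg.isOpen _ (smo_Gam g Ω hg a p b) m).sub
    (smo_pd Ω hg.isOpen _ (smo_Gam g Ω hg a m b) p)).add (ContDiffOn.sum fun l _ => ?_)
  exact ((smo_Gam g Ω hg a m l).mul (smo_Gam g Ω hg l p b)).sub
    ((smo_Gam g Ω hg a p l).mul (smo_Gam g Ω hg l m b))

private theorem smo_D {n : ℕ} (g : Pt n → Matrix (Fin n) (Fin n) ℝ) (Ω : Set (Pt n))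
    (hg : IsMetricOn g Ω) (k : ℕ) (T : TF n k) (hT : Sm Ω T) : Sm Ω (D g T) := by
  intro I
  refine (smo_pd Ω hg.isOpen _ (hT _) (I 0)).sub (ContDiffOn.sum fun j _ =>
    ContDiffOn.sum fun s _ => ?_)
  exact (smo_Gam g Ω hg s (I 0) (I j.succ)).mul (hT _)

private theorem smo_R4 {n : ℕ} (g : Pt n → Matrix (Fin n) (Fin n) ℝ) (Ω : Set (Pt n))
    (hg : IsMetricOn g Ω) : Sm Ω (R4 g) := by
  intro I
  exact ContDiffOn.sum fun e _ => (hg.smooth e (I 3)).mul (smo_curv g Ω hg e (I 2) (I 0) (I 1))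

theorem tSmo : S_Smo := by
  intro n g Ω hg
  have hN : Sm Ω (N g) := smo_D g Ω hg 4 _ (smo_R4 g Ω hg)
  refine ⟨smo_inv g Ω hg, smo_Gam g Ω hg, smo_curv g Ω hg, smo_D g Ω hg,
    fun I => hg.smooth (I 0) (I 1), smo_R4 g Ω hg, hN, smo_D g Ω hg 5 _ hN, ?_, ?_, ?_, ?_⟩
  · intro x₀ I
    exact ContDiffOn.sum fun a _ => contDiffOn_const.mul (hN _)
  · intro T hT
    exact ContDiffOn.sum fun i _ => ContDiffOn.sum fun j _ => ContDiffOn.sum fun k _ =>
      ContDiffOn.sum fun l _ => ((smo_inv g Ω hg i k).mul (smo_inv g Ω hg j l)).mul (hT _)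
  · intro t1 h1 I
    exact ((smo_D g Ω hg 1 t1 h1 I).neg).add ((h1 _).mul (h1 _))
  · intro k T hT v
    exact ContDiffOn.sum fun I _ => (hT I).mul contDiffOn_const

end

end Pool.Agent.Lib.MP_9d59e9_gt.KO
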