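import Pool.Agent.Lib.MP_9d59e9_gt.KO.Spec

/-!
# MP_9d59e9_gt, project KO, part Sym: the symmetries of the curvature tensor
-/

set_option autoImplicit false

namespace Pool.Agent.Lib.MP_9d59e9_gt.KO

open scoped BigOperators ContDiff
open Set

noncomputable section

private theorem sum_fn_succ {n k : ℕ} (f : (Fin (k + 1) → Fin n) → ℝ) :
    ∑ I, f I = ∑ i, ∑ J : Fin k → Fin n, f (Fin.cons i J) := by
  rw [← (Fin.consEquiv (fun _ : Fin (k + 1) => Fin n)).sum_comp f, Fintype.sum_prod_type]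
  rfl

private theorem sum_fn_zero {n : ℕ} (f : (Fin 0 → Fin n) → ℝ) : ∑ I, f I = f ![] := by
  rw [Fintype.sum_unique]
  congr 1

private theorem e4_expand {n : ℕ} (T : TF n 4) (x a b c d : Pt n) :
    e4 T x a b c d = ∑ i, ∑ j, ∑ k, ∑ l, T ![i, j, k, l] x * (a i * (b j * (c k * d l))) := by
  unfold e4 ev
  rw [sum_fn_succ]
  refine Finset.sum_congr rfl fun i _ => ?_
  rw [sum_fn_succ]
  refine Finset.sum_congr rfl fun j _ => ?_
  rw [sum_fn_succ]
  refine Finset.sum_congr rfl fun k _ => ?_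
  rw [sum_fn_succ]
  refine Finset.sum_congr rfl fun l _ => ?_
  rw [sum_fn_zero]
  simp only [Fin.prod_univ_succ, Finset.univ_eq_empty, Finset.prod_empty, mul_one]
  rfl

private theorem metric_symm {n : ℕ} {g : Pt n → Matrix (Fin n) (Fin n) ℝ} {x : Pt n}
    (h : (g x).PosDef) (i j : Fin n) : g x i j = g x j i := by
  have := h.1.apply j i
  simpa using this

private theorem ip_symm {n : ℕ} {g : Pt n → Matrix (Fin n) (Fin n) ℝ} {x : Pt n}
    (h : (g x).PosDef) (u v : Pt n) : ip g x u v = ip g x v u := by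
  unfold ip
  rw [Finset.sum_comm]
  refine Finset.sum_congr rfl fun i _ => Finset.sum_congr rfl fun j _ => ?_
  rw [metric_symm h j i]
  ring

private theorem ip_Rv {n : ℕ} (g : Pt n → Matrix (Fin n) (Fin n) ℝ) (x u v w z : Pt n) :
    ip g x (Rv g x u v w) z = e4 (R4 g) x u v w z := by
  rw [e4_expand]
  unfold ip Rv R4
  simp only [Matrix.cons_val_zero, Matrix.cons_val_one, Matrix.cons_val]
  simp only [Finset.sum_mul, Finset.mul_sum]
  -- left: ∑ e, ∑ l, ∑ k, ∑ i, ∑ j ; right: ∑ i, ∑ j, ∑ k, ∑ l, ∑ e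
  have hL : ∀ F : Fin n → Fin n → Fin n → Fin n → Fin n → ℝ,
      (∑ e, ∑ l, ∑ k, ∑ i, ∑ j, F e l k i j) = ∑ i, ∑ j, ∑ k, ∑ l, ∑ e, F e l k i j := by
    intro F
    have key : ∀ G : Fin n × Fin n × Fin n × Fin n × Fin n → ℝ,
        (∑ q : Fin n × Fin n × Fin n × Fin n × Fin n,
            G (q.2.2.2.2, q.2.2.2.1, q.2.2.1, q.1, q.2.1)) = ∑ q, G q := by
      intro G
      let E : (Fin n × Fin n × Fin n × Fin n × Fin n) ≃ (Fin n × Fin n × Fin n × Fin n × Fin n) :=
        { toFun := fun q => (q.2.2.2.2, q.2.2.2.1, q.2.2.1, q.1, q.2.1)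
          invFun := fun q => (q.2.2.2.1, q.2.2.2.2, q.2.2.1, q.2.1, q.1)
          left_inv := fun q => rfl
          right_inv := fun q => rfl }
      exact E.sum_comp G
    have := key fun q => F q.1 q.2.1 q.2.2.1 q.2.2.2.1 q.2.2.2.2
    simp only [Fintype.sum_prod_type] at this
    exact this.symm
  rw [hL]
  refine Finset.sum_congr rfl fun i _ => Finset.sum_congr rfl fun j _ =>
    Finset.sum_congr rfl fun k _ => Finset.sum_congr rfl fun l _ =>
    Finset.sum_congr rfl fun e _ => ?_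
  ring

private theorem pd_congr {n : ℕ} {Ω : Set (Pt n)} (hΩ : IsOpen Ω) {x : Pt n} (hx : x ∈ Ω)
    {f h : Pt n → ℝ} (hfh : ∀ y ∈ Ω, f y = h y) (i : Fin n) : pd i f x = pd i h x := by
  unfold pd
  have : f =ᶠ[nhds x] h := by
    filter_upwards [hΩ.mem_nhds hx] with y hy using hfh y hy
  rw [this.fderiv_eq]

private theorem pd_zero_of {n : ℕ} {Ω : Set (Pt n)} (hΩ : IsOpen Ω) {x : Pt n} (hx : x ∈ Ω)
    {f : Pt n → ℝ} (hf : ∀ y ∈ Ω, f y = 0) (i : Fin n) : pd i f x = 0 := by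
  rw [pd_congr hΩ hx (h := fun _ => 0) hf i]
  unfold pd
  simp

private theorem curv_bianchi {n : ℕ} {g : Pt n → Matrix (Fin n) (Fin n) ℝ} {Ω : Set (Pt n)}
    (hΩ : IsOpen Ω) (hsym : ∀ y ∈ Ω, ∀ k i j, Gam g k i j y = Gam g k j i y) {x : Pt n}
    (hx : x ∈ Ω) (a b m p : Fin n) :
    curv g a b m p x + curv g a m p b x + curv g a p b m x = 0 := by
  unfold curv
  have h1 : pd m (Gam g a p b) x = pd m (Gam g a b p) x :=
    pd_congr hΩ hx (fun y hy => hsym y hy a p b) m
  have h2 : pd p (Gam g a m b) x = pd p (Gam g a b m) x :=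
    pd_congr hΩ hx (fun y hy => hsym y hy a m b) p
  have h3 : pd b (Gam g a p m) x = pd b (Gam g a m p) x :=
    pd_congr hΩ hx (fun y hy => hsym y hy a p m) b
  have h4 : (∑ l, (Gam g a m l x * Gam g l p b x - Gam g a p l x * Gam g l m b x))
      + (∑ l, (Gam g a p l x * Gam g l b m x - Gam g a b l x * Gam g l p m x))
      + (∑ l, (Gam g a b l x * Gam g l m p x - Gam g a m l x * Gam g l b p x)) = 0 := by
    rw [← Finset.sum_add_distrib, ← Finset.sum_add_distrib]
    refine Finset.sum_eq_zero fun l _ => ?_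
    rw [hsym x hx l p b, hsym x hx l m b, hsym x hx l p m]
    ring
  linarith

private theorem R4_skew {n : ℕ} (g : Pt n → Matrix (Fin n) (Fin n) ℝ) (x : Pt n)
    (i j k l : Fin n) : R4 g ![j, i, k, l] x = -R4 g ![i, j, k, l] x := by
  unfold R4
  simp only [Matrix.cons_val_zero, Matrix.cons_val_one, Matrix.cons_val]
  rw [← Finset.sum_neg_distrib]
  refine Finset.sum_congr rfl fun e _ => ?_
  have : curv g e k j i x = -curv g e k i j x := by
    unfold curv
    rw [neg_add, ← Finset.sum_neg_distrib]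
    have : (∑ l, (Gam g e j l x * Gam g l i k x - Gam g e i l x * Gam g l j k x))
        = ∑ l, -(Gam g e i l x * Gam g l j k x - Gam g e j l x * Gam g l i k x) :=
      Finset.sum_congr rfl fun l _ => by ring
    rw [this]
    ring
  rw [this]
  ring

private theorem R4_bianchi {n : ℕ} {g : Pt n → Matrix (Fin n) (Fin n) ℝ} {Ω : Set (Pt n)}
    (hΩ : IsOpen Ω) (hsym : ∀ y ∈ Ω, ∀ k i j, Gam g k i j y = Gam g k j i y) {x : Pt n}
    (hx : x ∈ Ω) (i j k l : Fin n) :
    R4 g ![i, j, k, l] x + R4 g ![j, k, i, l] x + R4 g ![k, i, j, l] x = 0 := by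
  unfold R4
  simp only [Matrix.cons_val_zero, Matrix.cons_val_one, Matrix.cons_val]
  rw [← Finset.sum_add_distrib, ← Finset.sum_add_distrib]
  refine Finset.sum_eq_zero fun e _ => ?_
  have := curv_bianchi hΩ hsym hx e k i j
  linear_combination (g x e l) * this

private theorem e4_skew {n : ℕ} (g : Pt n → Matrix (Fin n) (Fin n) ℝ) (x a b c d : Pt n) :
    e4 (R4 g) x b a c d = -e4 (R4 g) x a b c d := by
  rw [e4_expand, e4_expand, Finset.sum_comm, ← Finset.sum_neg_distrib]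
  refine Finset.sum_congr rfl fun i _ => ?_
  rw [← Finset.sum_neg_distrib]
  refine Finset.sum_congr rfl fun j _ => ?_
  rw [← Finset.sum_neg_distrib]
  refine Finset.sum_congr rfl fun k _ => ?_
  rw [← Finset.sum_neg_distrib]
  refine Finset.sum_congr rfl fun l _ => ?_
  rw [R4_skew g x i j k l]
  ring

private theorem e4_bianchi {n : ℕ} {g : Pt n → Matrix (Fin n) (Fin n) ℝ} {Ω : Set (Pt n)}
    (hΩ : IsOpen Ω) (hsym : ∀ y ∈ Ω, ∀ k i j, Gam g k i j y = Gam g k j i y) {x : Pt n}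
    (hx : x ∈ Ω) (a b c d : Pt n) :
    e4 (R4 g) x a b c d + e4 (R4 g) x b c a d + e4 (R4 g) x c a b d = 0 := by
  have h2 : e4 (R4 g) x b c a d
      = ∑ i, ∑ j, ∑ k, ∑ l, R4 g ![j, k, i, l] x * (a i * (b j * (c k * d l))) := by
    rw [e4_expand]
    -- ∑ j, ∑ k, ∑ i → ∑ i, ∑ j, ∑ k
    have : ∀ F : Fin n → Fin n → Fin n → ℝ, (∑ j, ∑ k, ∑ i, F i j k) = ∑ i, ∑ j, ∑ k, F i j k := by
      intro F
      calc (∑ j, ∑ k, ∑ i, F i j k) = ∑ j, ∑ i, ∑ k, F i j k :=
            Finset.sum_congr rfl fun j _ => Finset.sum_comm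
        _ = _ := Finset.sum_comm
    rw [this fun i j k => ∑ l, R4 g ![j, k, i, l] x * (b j * (c k * (a i * d l)))]
    refine Finset.sum_congr rfl fun i _ => Finset.sum_congr rfl fun j _ =>
      Finset.sum_congr rfl fun k _ => Finset.sum_congr rfl fun l _ => ?_
    ring
  have h3 : e4 (R4 g) x c a b d
      = ∑ i, ∑ j, ∑ k, ∑ l, R4 g ![k, i, j, l] x * (a i * (b j * (c k * d l))) := by
    rw [e4_expand]
    have : ∀ F : Fin n → Fin n → Fin n → ℝ, (∑ k, ∑ i, ∑ j, F i j k) = ∑ i, ∑ j, ∑ k, F i j k := by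
      intro F
      calc (∑ k, ∑ i, ∑ j, F i j k) = ∑ i, ∑ k, ∑ j, F i j k := Finset.sum_comm
        _ = _ := Finset.sum_congr rfl fun j _ => Finset.sum_comm
    rw [this fun i j k => ∑ l, R4 g ![k, i, j, l] x * (c k * (a i * (b j * d l)))]
    refine Finset.sum_congr rfl fun i _ => Finset.sum_congr rfl fun j _ =>
      Finset.sum_congr rfl fun k _ => Finset.sum_congr rfl fun l _ => ?_
    ring
  rw [h2, h3, e4_expand, ← Finset.sum_add_distrib, ← Finset.sum_add_distrib]
  refine Finset.sum_eq_zero fun i _ => ?_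
  rw [← Finset.sum_add_distrib, ← Finset.sum_add_distrib]
  refine Finset.sum_eq_zero fun j _ => ?_
  rw [← Finset.sum_add_distrib, ← Finset.sum_add_distrib]
  refine Finset.sum_eq_zero fun k _ => ?_
  rw [← Finset.sum_add_distrib, ← Finset.sum_add_distrib]
  refine Finset.sum_eq_zero fun l _ => ?_
  linear_combination (a i * (b j * (c k * d l))) * R4_bianchi hΩ hsym hx i j k l

private theorem D_zero_of {n k : ℕ} (g : Pt n → Matrix (Fin n) (Fin n) ℝ) {Ω : Set (Pt n)}
    (hΩ : IsOpen Ω) {T : TF n k} (hT : ∀ y ∈ Ω, ∀ I, T I y = 0) {x : Pt n} (hx : x ∈ Ω)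
    (I : Fin (k + 1) → Fin n) : D g T I x = 0 := by
  unfold D
  rw [pd_zero_of hΩ hx (fun y hy => hT y hy _) (I 0)]
  have : (∑ j : Fin k, ∑ s, Gam g s (I 0) (I j.succ) x
      * T (Function.update (Fin.tail I) j s) x) = 0 :=
    Finset.sum_eq_zero fun j _ => Finset.sum_eq_zero fun s _ => by rw [hT x hx]; ring
  rw [this, sub_zero]

private theorem ev_zero_of {n k : ℕ} {T : TF n k} {x : Pt n} (hT : ∀ I, T I x = 0)
    (v : Fin k → Pt n) : ev T x v = 0 := by
  unfold ev
  exact Finset.sum_eq_zero fun I _ => by rw [hT I]; ring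

theorem tSym (hMet : S_Met) (hRic : S_Ric) (hUp : S_Up) (hLin : S_Lin) (hSmo : S_Smo) :
    S_Sym := by
  intro n g Ω hM x hx
  have hpos := hM.pos x hx
  have hgs : ∀ y ∈ Ω, ∀ k i j, Gam g k i j y = Gam g k j i y := fun y hy =>
    (hMet n g Ω hM y hy).1
  obtain ⟨_, hbv, _, _, _, _, hl4, _, _⟩ := hLin n x
  have hip := ip_Rv g x
  -- a12
  have ha12 : ∀ a b c d, e4 (R4 g) x b a c d = -e4 (R4 g) x a b c d := fun a b c d =>
    e4_skew g x a b c d
  have hbi : ∀ a b c d, e4 (R4 g) x a b c d + e4 (R4 g) x b c a d + e4 (R4 g) x c a b d = 0 :=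
    fun a b c d => e4_bianchi hM.isOpen hgs hx a b c d
  -- a34
  have ha34 : ∀ a b c d, e4 (R4 g) x a b d c = -e4 (R4 g) x a b c d := by
    intro a b c d
    have hG : Sm Ω (G2 g) := (hSmo n g Ω hM).2.2.2.2.1
    have hD0 : ∀ y ∈ Ω, ∀ I, D g (G2 g) I y = 0 := fun y hy => (hMet n g Ω hM y hy).2.2.1
    have h := hRic n g Ω hM x hx 2 (G2 g) hG a b ![c, d]
    rw [ev_zero_of (fun I => D_zero_of g hM.isOpen hD0 hx I),
      ev_zero_of (fun I => D_zero_of g hM.isOpen hD0 hx I)] at h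
    rw [Fin.sum_univ_two] at h
    have hu0 : Function.update ![c, d] 0 (Rv g x a b (![c, d] 0)) = ![Rv g x a b c, d] := by
      funext j
      fin_cases j <;> simp
    have hu1 : Function.update ![c, d] 1 (Rv g x a b (![c, d] 1)) = ![c, Rv g x a b d] := by
      funext j
      fin_cases j <;> simp
    rw [hu0, hu1] at h
    have he2 : ∀ u v, ip g x u v = e2 (G2 g) x u v := (hMet n g Ω hM x hx).2.2.2.1
    have e0 : ev (G2 g) x ![Rv g x a b c, d] = ip g x (Rv g x a b c) d := (he2 _ _).symm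
    have e1 : ev (G2 g) x ![c, Rv g x a b d] = ip g x c (Rv g x a b d) := (he2 _ _).symm
    rw [e0, e1, ip_symm hpos c, hip, hip] at h
    linarith
  have hUpx := hUp n g x hpos
  refine ⟨⟨?_, ha12, ha34, ?_, hbi⟩, hip, ?_, ?_⟩
  · intro b c d
    exact (hl4 (R4 g)).2.2.2 b c d
  · intro a b c d
    have h1 := hbi a b c d
    have h2 := hbi b c d a
    have h3 := hbi c d a b
    have h4 := hbi d a b c
    have s1 := ha12 a b c d
    have s2 := ha12 a c b d
    have s3 := ha12 b c a d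
    have s4 := ha12 b d a c
    have s5 := ha12 c d a b
    have s6 := ha12 a d b c
    have t1 := ha34 a b c d
    have t2 := ha34 a c b d
    have t3 := ha34 b c a d
    have t4 := ha34 b d a c
    have t5 := ha34 c d a b
    have t6 := ha34 a d b c
    have u1 := ha34 b a c d
    have u2 := ha34 c a b d
    have u3 := ha34 c b a d
    have u4 := ha34 d b a c
    have u5 := ha34 d c a b
    have u6 := ha34 d a b c
    linarith
  · intro u v w
    refine hUpx.2 _ _ fun z => ?_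
    rw [hip, hUpx.1]
    have : (Fin.snoc ![u, v, w] z : Fin 4 → Pt n) = ![u, v, w, z] := by
      funext j
      fin_cases j <;> rfl
    unfold e4
    rw [this]
  · intro a b c d
    have h := hbv 4 (R4 g) ![c, d, b, a]
    have hv : (fun j => bv (![c, d, b, a] j) : Fin 4 → Pt n) = ![bv c, bv d, bv b, bv a] := by
      funext j
      fin_cases j <;> rfl
    rw [hv] at h
    unfold e4
    rw [h]
    unfold R4
    simp only [Matrix.cons_val_zero, Matrix.cons_val_one, Matrix.cons_val]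
    exact Finset.sum_congr rfl fun e _ => by rw [metric_symm hpos a e]

end

end Pool.Agent.Lib.MP_9d59e9_gt.KO
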