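import Pool.Agent.Lib.MP_9d59e9_gt.KO.Spec

/-!
# MP_9d59e9_gt, project KO, module Thm

The structure theorem in the internal formalism, from `Pi1`, `Pi2`, `Wed` and `Sym`.
-/

set_option autoImplicit false

namespace Pool.Agent.Lib.MP_9d59e9_gt.KO

open scoped BigOperators ContDiff Topology
open Set

noncomputable section

/-- the structure theorem in the internal formalism -/
theorem tThm (hPi1 : S_Pi1) (hPi2 : S_Pi2) (hWed : S_Wed) (hSym : S_Sym) (hSmo : S_Smo)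
    (_hLin : S_Lin) : S_Thm := by
  rintro n g Ω t1 t2 hK p hp ⟨x₀, u, v, w, z, hne⟩
  obtain ⟨-, h2, h3, h4, h5⟩ := hPi1 n g Ω t1 t2 hK x₀
  have hsub : {x | x ∈ Ω ∧ scal g (Nc g x₀) x ≠ 0} ⊆ Ω := fun x hx => hx.1
  have hpV : p ∈ {x | x ∈ Ω ∧ scal g (Nc g x₀) x ≠ 0} := ⟨hp, h2 p hp ⟨u, v, w, z, hne⟩⟩
  have hm : IsMetricOn g {x | x ∈ Ω ∧ scal g (Nc g x₀) x ≠ 0} :=
    ⟨h3, fun i j => (hK.met.smooth i j).mono hsub, fun x hx => hK.met.pos x (hsub hx)⟩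
  obtain ⟨V, hV, hVo, hpV', w, hw, hww⟩ := hWed n g _ (Pit g x₀) hm h4
    (fun x hx => (h5 x hx.1 hx.2).1) (fun x hx => (h5 x hx.1 hx.2).2.1)
    (fun x hx => (h5 x hx.1 hx.2).2.2.1)
    (fun x hx => (hPi2 n g Ω t1 t2 hK x₀ x hx.1 hx.2).2) p hpV
  obtain ⟨-, -, -, -, -, sR, -, -, -, hsc, -, -⟩ := hSmo n g Ω hK.met
  refine ⟨V, hV.trans hsub, hVo, hpV', fun x => -(1 / 2) * scal g (R4 g) x, w, ?_, hw, ?_⟩
  · exact contDiffOn_const.mul ((hsc (R4 g) sR).mono (hV.trans hsub))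
  · intro x hx a b c d
    have hx' := hV hx
    rw [(hSym n g Ω hK.met x hx'.1).2.2.2 a b c d,
      (hPi2 n g Ω t1 t2 hK x₀ x hx'.1 hx'.2).1]
    have e1 := hww x hx c d b a
    have e2 := hw.skew x hx b a
    rw [e2] at e1
    linear_combination -(1 / 2) * scal g (R4 g) x * e1

end

end Pool.Agent.Lib.MP_9d59e9_gt.KO
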