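import Pool.Agent.Lib.MP_9d59e9_gt.KO.Spec

/-!
# MP_9d59e9_gt, project KO: raising an index
-/

set_option autoImplicit false

namespace Pool.Agent.Lib.MP_9d59e9_gt.KO

open scoped BigOperators

private theorem ip_dot {n : ℕ} (g : Pt n → Matrix (Fin n) (Fin n) ℝ) (x u v : Pt n) :
    ip g x u v = dotProduct (Matrix.vecMul u (g x)) v := by
  unfold ip dotProduct Matrix.vecMul dotProduct
  rw [Finset.sum_comm]
  refine Finset.sum_congr rfl fun j _ => ?_
  rw [Finset.sum_mul]
  refine Finset.sum_congr rfl fun i _ => ?_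
  ring

private theorem ev_snoc {n k : ℕ} (T : TF n (k + 1)) (x : Pt n) (v : Fin k → Pt n) (z : Pt n) :
    ev T x (Fin.snoc v z) = ∑ I, T I x * ((∏ j : Fin k, v j (I j.castSucc)) * z (I (Fin.last k))) := by
  unfold ev
  refine Finset.sum_congr rfl fun I _ => ?_
  rw [Fin.prod_univ_castSucc]
  simp only [Fin.snoc_castSucc, Fin.snoc_last]

private theorem ev_last {n k : ℕ} (T : TF n (k + 1)) (x : Pt n) (v : Fin k → Pt n) (z : Pt n) :
    ev T x (Fin.snoc v z) = ∑ b, ev T x (Fin.snoc v (Pi.single b 1)) * z b := by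
  simp only [ev_snoc, Finset.sum_mul]
  rw [Finset.sum_comm]
  refine Finset.sum_congr rfl fun I _ => ?_
  rw [Finset.sum_eq_single (I (Fin.last k))]
  · rw [Pi.single_eq_same]
    ring
  · intro b _ hb
    rw [Pi.single_eq_of_ne (Ne.symm hb)]
    ring
  · intro h
    exact absurd (Finset.mem_univ _) h

/-- raising an index -/
theorem tUp : S_Up := by
  intro n g x hg
  have hT : (g x).transpose = g x := by
    have h := hg.isHermitian.eq
    rwa [Matrix.conjTranspose_eq_transpose_of_trivial] at h
  have hdet : IsUnit (g x).det := isUnit_iff_ne_zero.mpr (ne_of_gt hg.det_pos)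
  constructor
  · intro k T v z
    rw [ev_last, ip_dot]
    unfold dotProduct
    refine Finset.sum_congr rfl fun b _ => ?_
    congr 1
    have h1 : up g T x v = Matrix.mulVec (g x)⁻¹ (fun b => ev T x (Fin.snoc v (Pi.single b 1))) := rfl
    have h2 : Matrix.vecMul (up g T x v) (g x) = Matrix.mulVec (g x) (up g T x v) := by
      conv_lhs => rw [← hT]
      rw [Matrix.vecMul_transpose]
    rw [h2, h1, Matrix.mulVec_mulVec, Matrix.mul_nonsing_inv _ hdet, Matrix.one_mulVec]
  · intro u w h
    have h3 : Matrix.vecMul u (g x) = Matrix.vecMul w (g x) := by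
      funext i
      have h4 := h (Pi.single i 1)
      rw [ip_dot, ip_dot, dotProduct_single_one, dotProduct_single_one] at h4
      exact h4
    have h5 := congrArg (fun y => Matrix.vecMul y (g x)⁻¹) h3
    simp only [Matrix.vecMul_vecMul, Matrix.mul_nonsing_inv _ hdet, Matrix.vecMul_one] at h5
    exact h5

end Pool.Agent.Lib.MP_9d59e9_gt.KO
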