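import Mathlib
import Pool.Agent.Lib.MP_9d59e9_gt.KO.Spec

/-!
# KO/Wed: from the tensor of rank one to the area form
-/

set_option autoImplicit false

namespace Pool.Agent.Lib.MP_9d59e9_gt.KO

open scoped BigOperators ContDiff
open Set

noncomputable section

private lemma wed_lin {n : ℕ} {f : Pt n → ℝ} (hf : Lin1 f) (v : Pt n) :
    f v = ∑ i, v i * f (bv i) := by
  have h : v = ∑ i, v i • (bv i : Pt n) := by
    funext j
    simp [Finset.sum_apply, Pi.single_apply]
  have hl : IsLinearMap ℝ f := ⟨hf.add, hf.smul⟩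
  have h2 : f (∑ i, v i • (bv i : Pt n)) = ∑ i, v i * f (bv i) := by
    have := map_sum (hl.mk' f) (fun i => v i • (bv i : Pt n)) Finset.univ
    simp only [IsLinearMap.mk'_apply] at this
    rw [this]
    exact Finset.sum_congr rfl fun i _ => hf.smul _ _
  rw [← h2, ← h]

private lemma wed_zero {n : ℕ} {f : Pt n → ℝ} (hf : Lin1 f) : f 0 = 0 := by
  have := hf.smul 0 0
  simpa using this

private lemma wed_e4 (hLin : S_Lin) {n : ℕ} (T : TF n 4) (x : Pt n) (a b c d : Fin n) :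
    e4 T x (bv a) (bv b) (bv c) (bv d) = T ![a, b, c, d] x := by
  have h := (hLin n x).2.1 4 T ![a, b, c, d]
  rw [← h]
  unfold e4
  congr 1
  funext j
  fin_cases j <;> rfl

private lemma wed_e2 (hLin : S_Lin) {n : ℕ} (T : TF n 2) (x : Pt n) (a b : Fin n) :
    e2 T x (bv a) (bv b) = T ![a, b] x := by
  have h := (hLin n x).2.1 2 T ![a, b]
  rw [← h]
  unfold e2
  congr 1
  funext j
  fin_cases j <;> rfl

private lemma wed_e3 (hLin : S_Lin) {n : ℕ} (T : TF n 3) (x : Pt n) (a b c : Fin n) :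
    e3 T x (bv a) (bv b) (bv c) = T ![a, b, c] x := by
  have h := (hLin n x).2.1 3 T ![a, b, c]
  rw [← h]
  unfold e3
  congr 1
  funext j
  fin_cases j <;> rfl

private lemma wed_D {n : ℕ} (g : Pt n → Matrix (Fin n) (Fin n) ℝ) (w : Fin n → Fin n → Pt n → ℝ)
    (x : Pt n) (e a b : Fin n) :
    D g (fun I => w (I 0) (I 1) : TF n 2) ![e, a, b] x = cov2 g w e a b x := by
  unfold D cov2
  rw [Fin.sum_univ_two]
  have h1 : Fin.tail ![e, a, b] = ![a, b] := rfl
  have h2 : ∀ s, Function.update ![a, b] 0 s = ![s, b] := by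
    intro s
    funext j
    fin_cases j <;> simp [Function.update]
  have h3 : ∀ s, Function.update ![a, b] 1 s = ![a, s] := by
    intro s
    funext j
    fin_cases j <;> simp [Function.update]
  rw [h1]
  simp only [h2, h3]
  have h4 : (![e, a, b] : Fin 3 → Fin n) (Fin.succ 0) = a := rfl
  have h5 : (![e, a, b] : Fin 3 → Fin n) (Fin.succ 1) = b := rfl
  have h6 : (![e, a, b] : Fin 3 → Fin n) 0 = e := rfl
  rw [h4, h5, h6]
  simp only [Matrix.cons_val_zero, Matrix.cons_val_one]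
  ring

private lemma wed_par (hCvE : S_CvE) (hCvb : S_Cvb) (hLin : S_Lin) {n : ℕ}
    (g : Pt n → Matrix (Fin n) (Fin n) ℝ) (V₀ V : Set (Pt n)) (P : TF n 4) (W : TF n 2)
    (hV₀ : IsOpen V₀) (hV : IsOpen V) (hVV : V ⊆ V₀) (hP : Sm V₀ P) (hW : Sm V W)
    (hDP : ∀ x ∈ V₀, ∀ X u v w z, e5 (D g P) x X u v w z = 0)
    (hWP : ∀ x ∈ V, ∀ a b a' b', e2 W x a b * e2 W x a' b' = 2 * e4 P x a b a' b')
    (x : Pt n) (hx : x ∈ V) (X a b a' b' : Pt n) :
    e3 (D g W) x X a b * e2 W x a' b' + e2 W x a b * e3 (D g W) x X a' b' = 0 := by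
  have c0 := fun v₀ : Pt n => (hCvb n g x X).1 v₀
  have z1 : ∀ b : Pt n, e2 W x 0 b = 0 := fun b => wed_zero (((hLin n x).2.2.2.2.1 W).2 b)
  have z2 : ∀ a : Pt n, e2 W x a 0 = 0 := fun a => wed_zero (((hLin n x).2.2.2.2.1 W).1 a)
  have h1 := ((hCvE n g V hV x hx X).2.1 W hW) _ a 0 _ b 0 (c0 a) (c0 b)
  have h2 := ((hCvE n g V hV x hx X).2.1 W hW) _ a' 0 _ b' 0 (c0 a') (c0 b')
  rw [z1, z2, add_zero, add_zero] at h1 h2
  have h3 := ((hCvE n g V₀ hV₀ x (hVV hx) X).2.2.1 P hP) _ a 0 _ b 0 _ a' 0 _ b' 0 (c0 a) (c0 b)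
    (c0 a') (c0 b')
  have L4 := (hLin n x).2.2.2.2.2.2.1 P
  have y1 : e4 P x 0 b a' b' = 0 := wed_zero (L4.2.2.2 b a' b')
  have y2 : e4 P x a 0 a' b' = 0 := wed_zero (L4.2.2.1 a a' b')
  have y3 : e4 P x a b 0 b' = 0 := wed_zero (L4.2.1 a b b')
  have y4 : e4 P x a b a' 0 = 0 := wed_zero (L4.1 a b a')
  rw [hDP x (hVV hx), y1, y2, y3, y4] at h3
  have h4 := h1.mul h2
  have h5 := h3.const_mul 2
  have hev : ∀ᶠ t : ℝ in nhds 0, x + t • X ∈ V := by
    have hc : ContinuousAt (fun t : ℝ => x + t • X) 0 := by fun_prop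
    have h0 : x + (0 : ℝ) • X = x := by simp
    exact hc.eventually_mem (by rw [h0]; exact hV.mem_nhds hx)
  have h6 := h5.congr_of_eventuallyEq (hev.mono fun t ht => hWP _ ht (a - t • Chr g x X a)
    (b - t • Chr g x X b) (a' - t • Chr g x X a') (b' - t • Chr g x X b'))
  have h7 := h4.unique h6
  simp only [zero_smul, sub_zero, add_zero, mul_zero] at h7
  linarith

theorem tWed (hNrm : S_Nrm) (hCvE : S_CvE) (hCvb : S_Cvb) (hLin : S_Lin) (hSmo : S_Smo) :
    S_Wed := by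
  have _ := hSmo
  intro n g V₀ P hg hP hcur hrk hsc hDP p hp
  have hE : ∀ x a b c d, e4 P x (bv a) (bv b) (bv c) (bv d) = P ![a, b, c, d] x :=
    fun x a b c d => wed_e4 hLin P x a b c d
  -- the indices
  obtain ⟨c, d, hcd⟩ : ∃ c d : Fin n, 0 < P ![c, d, c, d] p := by
    obtain ⟨h1, h2⟩ := hNrm n g p (hg.pos p hp) P (hrk p hp) fun a a' b b' => (hcur p hp).sw _ _ _ _
    have hne : ∃ a a' b b', e4 P p a a' b b' ≠ 0 := by
      by_contra hcon
      push Not at hcon
      have h3 : scal g P p = 0 := by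
        unfold scal
        refine Finset.sum_eq_zero fun i _ => Finset.sum_eq_zero fun j _ =>
          Finset.sum_eq_zero fun k _ => Finset.sum_eq_zero fun l _ => ?_
        rw [← hE, hcon, mul_zero]
      rw [hsc p hp] at h3
      exact one_ne_zero h3
    obtain ⟨_, c, d, h4⟩ := h2 hne
    refine ⟨c, d, ?_⟩
    have h5 := h1 (bv c) (bv d)
    rw [hsc p hp, mul_one] at h5
    rw [← hE]
    exact lt_of_le_of_ne h5 (Ne.symm h4)
  set q : Pt n → ℝ := fun x => P ![c, d, c, d] x with hq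
  let V : Set (Pt n) := V₀ ∩ q ⁻¹' (Ioi 0)
  have hVo : IsOpen V := (hP ![c, d, c, d]).continuousOn.isOpen_inter_preimage hg.isOpen isOpen_Ioi
  have hVV : V ⊆ V₀ := inter_subset_left
  have hqpos : ∀ x ∈ V, 0 < q x := fun x hx => hx.2
  let w : Fin n → Fin n → Pt n → ℝ := fun a b x => √2 * P ![a, b, c, d] x / √(q x)
  have hsq : ∀ x ∈ V, ∀ s t : ℝ, (√2 * s / √(q x)) * (√2 * t / √(q x)) = 2 * (s * t) / q x := by
    intro x hx s t
    have h1 : √(q x) * √(q x) = q x := Real.mul_self_sqrt (hqpos x hx).le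
    have h2 : √2 * √2 = (2 : ℝ) := Real.mul_self_sqrt (by norm_num)
    have h3 : √(q x) ≠ 0 := (Real.sqrt_pos.2 (hqpos x hx)).ne'
    have h4 : (√2 * s / √(q x)) * (√2 * t / √(q x))
        = (√2 * √2) * (s * t) / (√(q x) * √(q x)) := by
      rw [div_mul_div_comm]
      congr 1
      ring
    rw [h4, h1, h2]
  have hwsm : ∀ a b, ContDiffOn ℝ ∞ (w a b) V := by
    intro a b
    refine ContDiffOn.div (contDiffOn_const.mul ((hP _).mono hVV)) ?_ ?_
    · exact ContDiffOn.sqrt ((hP _).mono hVV) fun x hx => (hqpos x hx).ne'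
    · intro x hx
      exact (Real.sqrt_pos.2 (hqpos x hx)).ne'
  let W : TF n 2 := fun I => w (I 0) (I 1)
  have hWsm : Sm V W := fun I => hwsm _ _
  -- the value of W
  have hWv : ∀ x a b, e2 W x a b = √2 * e4 P x a b (bv c) (bv d) / √(q x) := by
    intro x a b
    have L2 := (hLin n x).2.2.2.2.1 W
    have L4 := (hLin n x).2.2.2.2.2.2.1 P
    have h1 : e2 W x a b = ∑ i, a i * ∑ j, b j * e2 W x (bv i) (bv j) := by
      rw [wed_lin (L2.2 b) a]
      refine Finset.sum_congr rfl fun i _ => ?_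
      congr 1
      exact wed_lin (L2.1 (bv i)) b
    have h2 : e4 P x a b (bv c) (bv d)
        = ∑ i, a i * ∑ j, b j * e4 P x (bv i) (bv j) (bv c) (bv d) := by
      rw [wed_lin (L4.2.2.2 b (bv c) (bv d)) a]
      refine Finset.sum_congr rfl fun i _ => ?_
      congr 1
      exact wed_lin (L4.2.2.1 (bv i) (bv c) (bv d)) b
    rw [h1, h2, Finset.mul_sum, Finset.sum_div]
    refine Finset.sum_congr rfl fun i _ => ?_
    have h3 : ∑ j, b j * e2 W x (bv i) (bv j)
        = √2 * (∑ j, b j * e4 P x (bv i) (bv j) (bv c) (bv d)) / √(q x) := by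
      rw [Finset.mul_sum, Finset.sum_div]
      refine Finset.sum_congr rfl fun j _ => ?_
      rw [wed_e2 hLin, hE]
      change b j * (√2 * P ![i, j, c, d] x / √(q x)) = _
      ring
    rw [h3]
    ring
  have hWP : ∀ x ∈ V, ∀ a b a' b', e2 W x a b * e2 W x a' b' = 2 * e4 P x a b a' b' := by
    intro x hx a b a' b'
    rw [hWv, hWv, hsq x hx]
    have h1 := hrk x (hVV hx) a b (bv c) (bv d) (bv c) (bv d) a' b'
    rw [(hcur x (hVV hx)).sw a' b' (bv c) (bv d), hE x c d c d] at h1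
    rw [h1]
    change 2 * (_ * q x) / q x = _
    have h3 := (hqpos x hx).ne'
    field_simp
  have hwP : ∀ x ∈ V, ∀ a b a' b', w a b x * w a' b' x
      = 2 * e4 P x (bv a) (bv b) (bv a') (bv b') := by
    intro x hx a b a' b'
    rw [← hWP x hx, wed_e2 hLin, wed_e2 hLin]
    rfl
  have hpar : ∀ x ∈ V, ∀ X a b, e3 (D g W) x X a b = 0 := by
    intro x hx X a b
    have key := wed_par hCvE hCvb hLin g V₀ V P W hg.isOpen hVo hVV hP hWsm hDP hWP x hx X
    have hpos : 0 < e2 W x (bv c) (bv d) := by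
      rw [hWv, hE]
      change 0 < √2 * q x / √(q x)
      have := hqpos x hx
      positivity
    have k1 := key (bv c) (bv d) (bv c) (bv d)
    have k2 : e3 (D g W) x X (bv c) (bv d) = 0 := by
      have : e3 (D g W) x X (bv c) (bv d) * e2 W x (bv c) (bv d) = 0 := by linarith
      exact (mul_eq_zero.1 this).resolve_right hpos.ne'
    have k3 := key a b (bv c) (bv d)
    rw [k2, mul_zero, add_zero] at k3
    exact (mul_eq_zero.1 k3).resolve_right hpos.ne'
  refine ⟨V, hVV, hVo, ⟨hp, hcd⟩, w, ⟨hwsm, ?_, ?_, ?_, ?_⟩, hwP⟩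
  · intro x hx a b
    change √2 * P ![a, b, c, d] x / √(q x) = -(√2 * P ![b, a, c, d] x / √(q x))
    rw [← hE, ← hE, (hcur x (hVV hx)).a12 (bv b) (bv a)]
    ring
  · intro x hx a b c' d'
    rw [hwP x hx, hwP x hx, hwP x hx]
    have := (hcur x (hVV hx)).bi (bv a) (bv b) (bv c') (bv d')
    linarith
  · intro x hx
    have h1 : ∑ a, ∑ b, ∑ c', ∑ d', (g x)⁻¹ a c' * (g x)⁻¹ b d' * (w a b x * w c' d' x)
        = 2 * scal g P x := by
      unfold scal
      rw [Finset.mul_sum]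
      refine Finset.sum_congr rfl fun a _ => ?_
      rw [Finset.mul_sum]
      refine Finset.sum_congr rfl fun b _ => ?_
      rw [Finset.mul_sum]
      refine Finset.sum_congr rfl fun c' _ => ?_
      rw [Finset.mul_sum]
      refine Finset.sum_congr rfl fun d' _ => ?_
      rw [hwP x hx, hE]
      ring
    rw [h1, hsc x (hVV hx), mul_one]
  · intro x hx e a b
    have h1 := hpar x hx (bv e) (bv a) (bv b)
    rw [wed_e3 hLin] at h1
    exact (wed_D g w x e a b).symm.trans h1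

end

end Pool.Agent.Lib.MP_9d59e9_gt.KO
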