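import Mathlib
import Pool.Agent.Lib.MP_9d59e9_gt.KO.Smo
import Pool.Agent.Lib.MP_9d59e9_gt.KO.Lin
import Pool.Agent.Lib.MP_9d59e9_gt.KO.Crv
import Pool.Agent.Lib.MP_9d59e9_gt.KO.Cvb
import Pool.Agent.Lib.MP_9d59e9_gt.KO.CvE
import Pool.Agent.Lib.MP_9d59e9_gt.KO.Met
import Pool.Agent.Lib.MP_9d59e9_gt.KO.Onb
import Pool.Agent.Lib.MP_9d59e9_gt.KO.Up
import Pool.Agent.Lib.MP_9d59e9_gt.KO.CvI
import Pool.Agent.Lib.MP_9d59e9_gt.KO.CvU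
import Pool.Agent.Lib.MP_9d59e9_gt.KO.Ric
import Pool.Agent.Lib.MP_9d59e9_gt.KO.Sym
import Pool.Agent.Lib.MP_9d59e9_gt.KO.CvR
import Pool.Agent.Lib.MP_9d59e9_gt.KO.Opn
import Pool.Agent.Lib.MP_9d59e9_gt.KO.Bi2
import Pool.Agent.Lib.MP_9d59e9_gt.KO.Bi3
import Pool.Agent.Lib.MP_9d59e9_gt.KO.Brg
import Pool.Agent.Lib.MP_9d59e9_gt.KO.Q1
import Pool.Agent.Lib.MP_9d59e9_gt.KO.QR
import Pool.Agent.Lib.MP_9d59e9_gt.KO.LemL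
import Pool.Agent.Lib.MP_9d59e9_gt.KO.A3a
import Pool.Agent.Lib.MP_9d59e9_gt.KO.A3b
import Pool.Agent.Lib.MP_9d59e9_gt.KO.A3
import Pool.Agent.Lib.MP_9d59e9_gt.KO.P3
import Pool.Agent.Lib.MP_9d59e9_gt.KO.A4
import Pool.Agent.Lib.MP_9d59e9_gt.KO.P4
import Pool.Agent.Lib.MP_9d59e9_gt.KO.Skw
import Pool.Agent.Lib.MP_9d59e9_gt.KO.P5a
import Pool.Agent.Lib.MP_9d59e9_gt.KO.P5b
import Pool.Agent.Lib.MP_9d59e9_gt.KO.P5c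
import Pool.Agent.Lib.MP_9d59e9_gt.KO.A5a
import Pool.Agent.Lib.MP_9d59e9_gt.KO.A5b
import Pool.Agent.Lib.MP_9d59e9_gt.KO.A5k
import Pool.Agent.Lib.MP_9d59e9_gt.KO.A5
import Pool.Agent.Lib.MP_9d59e9_gt.KO.P5
import Pool.Agent.Lib.MP_9d59e9_gt.KO.Den
import Pool.Agent.Lib.MP_9d59e9_gt.KO.Scl
import Pool.Agent.Lib.MP_9d59e9_gt.KO.Nrm
import Pool.Agent.Lib.MP_9d59e9_gt.KO.NN
import Pool.Agent.Lib.MP_9d59e9_gt.KO.Pi1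
import Pool.Agent.Lib.MP_9d59e9_gt.KO.Pi2
import Pool.Agent.Lib.MP_9d59e9_gt.KO.Wed
import Pool.Agent.Lib.MP_9d59e9_gt.KO.Prj
import Pool.Agent.Lib.MP_9d59e9_gt.KO.Thm
import Pool.Agent.Lib.MP_9d59e9_gt.KO.End

/-!
# MP_9d59e9_gt, project KO: assembly
-/

set_option autoImplicit false

namespace Pool.Agent.Lib.MP_9d59e9_gt.KO

theorem sSmo : S_Smo := tSmo
theorem sLin : S_Lin := tLin
theorem sCrv : S_Crv := tCrv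
theorem sCvb : S_Cvb := tCvb
theorem sCvE : S_CvE := tCvE sCrv
theorem sMet : S_Met := tMet
theorem sOnb : S_Onb := tOnb
theorem sUp : S_Up := tUp
theorem sCvI : S_CvI := tCvI sCvE sMet sSmo
theorem sCvU : S_CvU := tCvU sCrv sCvI sUp sSmo sCvb sLin
theorem sRic : S_Ric := tRic sSmo sCrv sCvb sMet sLin
theorem sSym : S_Sym := tSym sMet sRic sUp sLin sSmo
theorem sCvR : S_CvR := tCvR sCvU sSym sSmo
theorem sOpn : S_Opn := tOpn sUp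
theorem sBi2 : S_Bi2 := tBi2 sCrv sRic sSym sCvE sCvb sCvR sLin sSmo sUp sOpn
theorem sBi3 : S_Bi3 := tBi3 sBi2 sCvE sCvb sLin sSmo
theorem sBrg : S_Brg := tBrg sSmo sMet sLin
theorem sQ1 : S_Q1 := tQ1 sBi3 sBi2 sCvE sCvb sLin sSmo
theorem sQR : S_QR := tQR sRic sSmo
theorem sLemL : S_LemL := tLemL
theorem sA3a : S_A3a := tA3a
theorem sA3b : S_A3b := tA3b sLemL sA3a
theorem sA3 : S_A3 := tA3 sA3a sA3b
theorem sP3 : S_P3 := tP3 sA3 sQ1 sQR sSym sBi2 sOnb sLin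
theorem sA4 : S_A4 := tA4
theorem sP4 : S_P4 := tP4 sP3 sA4 sCvE sCvb sLin sSmo sSym sBi2
theorem sSkw : S_Skw := tSkw sOnb sLin
theorem sP5a : S_P5a := tP5a sQR sRic sCrv sCvE sCvb sLin sSmo sSym sSkw
theorem sP5b : S_P5b := tP5b sP5a sCvE sCvR sCvb sLin sSmo sUp sOpn
theorem sP5c : S_P5c := tP5c sP5b sCvE sCvR sCvb sLin sSmo sUp sOpn
theorem sA5a : S_A5a := tA5a
theorem sA5b : S_A5b := tA5b sA5a
theorem sA5k : S_A5k := tA5k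
theorem sA5 : S_A5 := tA5 sA5a sA5b sA5k
theorem sP5 : S_P5 := tP5 sA5 sP5a sP5b sP5c sOnb sBi2 sOpn sLin sSmo sCvE sCvb
theorem sDen : S_Den := tDen sP5 sSmo sLin
theorem sScl : S_Scl := tScl sSmo sMet sCrv sCvb sLin
theorem sNrm : S_Nrm := tNrm sLin
theorem sNN : S_NN := tNN sDen sP3 sP4 sLin sSmo
theorem sPi1 : S_Pi1 := tPi1 sNN sNrm sLin sSmo sBi2
theorem sPi2 : S_Pi2 := tPi2 sPi1 sDen sP4 sScl sCvE sCvb sLin sSmo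
theorem sWed : S_Wed := tWed sNrm sCvE sCvb sLin sSmo
theorem sPrj : S_Prj := tPrj sSmo sMet
theorem sThm : S_Thm := tThm sPi1 sPi2 sWed sSym sSmo sLin
theorem sEnd : S_End := tEnd sThm sBrg sPrj

end Pool.Agent.Lib.MP_9d59e9_gt.KO
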