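import Pool.Agent.Lib.MP_9d59e9_gt.KO.Spec

set_option autoImplicit false

namespace Pool.Agent.Lib.MP_9d59e9_gt.KO

open scoped BigOperators ContDiff Topology
open Set

noncomputable section

private theorem ip_add_left {n : ℕ} (g : Pt n → Matrix (Fin n) (Fin n) ℝ) (x u v z : Pt n) :
    ip g x (u + v) z = ip g x u z + ip g x v z := by
  simp only [ip, Pi.add_apply, ← Finset.sum_add_distrib]
  exact Finset.sum_congr rfl fun i _ => Finset.sum_congr rfl fun j _ => by ring

private theorem ip_zero_left {n : ℕ} (g : Pt n → Matrix (Fin n) (Fin n) ℝ) (x z : Pt n) :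
    ip g x 0 z = 0 := by
  simp [ip]

private theorem ip_zero_right {n : ℕ} (g : Pt n → Matrix (Fin n) (Fin n) ℝ) (x z : Pt n) :
    ip g x z 0 = 0 := by
  simp [ip]

private theorem ip_sum_left {n : ℕ} {ι : Type} (s : Finset ι)
    (g : Pt n → Matrix (Fin n) (Fin n) ℝ) (x z : Pt n) (u : ι → Pt n) :
    ip g x (∑ i ∈ s, u i) z = ∑ i ∈ s, ip g x (u i) z := by
  classical
  induction s using Finset.induction_on with
  | empty => rw [Finset.sum_empty, Finset.sum_empty, ip_zero_left]
  | insert a s ha ih => rw [Finset.sum_insert ha, Finset.sum_insert ha, ip_add_left, ih]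

private theorem snoc_curve {n k : ℕ} (v : Fin k → ℝ → Pt n) (c : ℝ → Pt n) (t : ℝ) :
    (fun j => (Fin.snoc (α := fun _ => ℝ → Pt n) v c : Fin (k + 1) → ℝ → Pt n) j t) =
      Fin.snoc (α := fun _ => Pt n) (fun j => v j t) (c t) := by
  funext j
  refine Fin.lastCases ?_ (fun i => ?_) j
  · rw [Fin.snoc_last, Fin.snoc_last]
  · rw [Fin.snoc_castSucc, Fin.snoc_castSucc]

theorem tCvU (hCrv : S_Crv) (hCvI : S_CvI) (hUp : S_Up) (hSmo : S_Smo) (hCvb : S_Cvb)
    (hLin : S_Lin) : S_CvU := by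
  intro n g Ω hg p hp X k T hT v v₀ δ hv
  have hΩ := hg.isOpen
  obtain ⟨smI, -, -, -, -⟩ := hSmo n g Ω hg
  obtain ⟨cb1, cb2, -, -⟩ := hCvb n g p X
  obtain ⟨linu, -⟩ := hLin n p
  -- the curve lemma with one more slot
  have crv : ∀ (c : ℝ → Pt n) (c₀ ε : Pt n), Cv g p X c c₀ ε →
      HasDerivAt (fun t : ℝ => ev T (p + t • X)
        (Fin.snoc (α := fun _ => Pt n) (fun j => v j t) (c t)))
        (ev (D g T) p (Fin.snoc (α := fun _ => Pt n) (Fin.cons X v₀) c₀) +
          (∑ j, ev T p (Fin.snoc (α := fun _ => Pt n) (Function.update v₀ j (δ j)) c₀) +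
            ev T p (Fin.snoc (α := fun _ => Pt n) v₀ ε))) 0 := by
    intro c c₀ ε hc
    have h1 := hCrv n g Ω hΩ (k + 1) T hT p hp X (Fin.snoc (α := fun _ => ℝ → Pt n) v c)
      (Fin.snoc (α := fun _ => Pt n) v₀ c₀) (Fin.snoc (α := fun _ => Pt n) δ ε) (by
        intro j
        refine Fin.lastCases ?_ (fun i => ?_) j
        · rw [Fin.snoc_last, Fin.snoc_last, Fin.snoc_last]
          exact hc
        · rw [Fin.snoc_castSucc, Fin.snoc_castSucc, Fin.snoc_castSucc]
          exact hv i)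
    simp only [snoc_curve] at h1
    rw [Fin.sum_univ_castSucc] at h1
    simp only [Fin.snoc_castSucc, Fin.snoc_last, Fin.update_snoc_last, ← Fin.snoc_update] at h1
    rw [← Fin.cons_snoc_eq_snoc_cons]
    exact h1
  set W : ℝ → Pt n := fun t => up g T (p + t • X) (fun j => v j t) with hW
  have hv0 : (fun j => v j 0) = v₀ := funext fun j => (hv j).1
  have hp0 : p + (0 : ℝ) • X = p := by rw [zero_smul, add_zero]
  have hW0 : W 0 = up g T p v₀ := by
    rw [hW]
    simp only [hp0, hv0]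
  -- differentiability
  obtain ⟨W', hW'⟩ : ∃ W' : Pt n, HasDerivAt W W' 0 := by
    have h1 : ∀ a b, ∃ d : ℝ, HasDerivAt (fun t : ℝ => (g (p + t • X))⁻¹ a b) d 0 := by
      intro a b
      have h2 : DifferentiableAt ℝ (fun x => (g x)⁻¹ a b) p :=
        ((smI a b).contDiffAt (hΩ.mem_nhds hp)).differentiableAt (by simp)
      exact ⟨_, h2.hasFDerivAt.hasLineDerivAt X⟩
    choose dg hdg using h1
    have h3 : ∀ b, ∃ d : ℝ, HasDerivAt (fun t : ℝ => ev T (p + t • X)
        (Fin.snoc (α := fun _ => Pt n) (fun j => v j t) (Pi.single b 1))) d 0 := fun b =>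
      ⟨_, crv (fun _ => Pi.single b 1) _ _ (cb2 (Pi.single b 1))⟩
    choose de hde using h3
    refine ⟨fun a => ∑ b, (dg a b * ev T (p + (0 : ℝ) • X)
        (Fin.snoc (α := fun _ => Pt n) (fun j => v j 0) (Pi.single b 1)) +
        (g (p + (0 : ℝ) • X))⁻¹ a b * de b), hasDerivAt_pi.2 fun a => ?_⟩
    exact HasDerivAt.fun_sum fun b _ => (hdg a b).mul (hde b)
  have hcvW : Cv g p X W (up g T p v₀) (W' + Chr g p X (up g T p v₀)) := by
    refine ⟨hW0, ?_⟩
    have : -(Chr g p X (up g T p v₀)) + (W' + Chr g p X (up g T p v₀)) = W' := by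
      rw [add_comm W', neg_add_cancel_left]
    rw [this]
    exact hW'
  obtain ⟨upp, nondeg⟩ := hUp n g p (hg.pos p hp)
  have key : W' + Chr g p X (up g T p v₀) = up g (D g T) p (Fin.cons X v₀) +
      ∑ j, up g T p (Function.update v₀ j (δ j)) := by
    refine nondeg _ _ fun z => ?_
    have h1 := hCvI n g Ω hg p hp X W _ _ _ z 0 hcvW (cb1 z)
    have h2 := crv _ z 0 (cb1 z)
    have hev : (fun t : ℝ => ip g (p + t • X) (W t) (z - t • Chr g p X z)) =ᶠ[𝓝 0]
        fun t : ℝ => ev T (p + t • X)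
          (Fin.snoc (α := fun _ => Pt n) (fun j => v j t) (z - t • Chr g p X z)) := by
      have hc : ContinuousAt (fun t : ℝ => p + t • X) 0 := by fun_prop
      have hmem : Ω ∈ 𝓝 (p + (0 : ℝ) • X) := by
        rw [hp0]
        exact hΩ.mem_nhds hp
      filter_upwards [hc.preimage_mem_nhds hmem] with t ht
      exact ((hUp n g (p + t • X) (hg.pos _ ht)).1 k T (fun j => v j t) _)
    have h3 := (h1.congr_of_eventuallyEq hev.symm).unique h2
    rw [ip_zero_right, add_zero] at h3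
    have h4 : ev T p (Fin.snoc (α := fun _ => Pt n) v₀ 0) = 0 := by
      have h5 := (linu (k + 1) T (Fin.snoc (α := fun _ => Pt n) v₀ 0) (Fin.last k)).smul 0 0
      rw [Fin.update_snoc_last, zero_mul, smul_zero] at h5
      exact h5
    rw [h3, h4, add_zero, ip_add_left, ip_sum_left, upp]
    simp only [upp]
  rw [← key]
  exact hcvW

end

end Pool.Agent.Lib.MP_9d59e9_gt.KO
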