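import Pool.Agent.Lib.MP_9d59e9_gt.KO.Spec

/-!
# MP_9d59e9_gt, project KO: a linear algebra lemma
-/

set_option autoImplicit false

namespace Pool.Agent.Lib.MP_9d59e9_gt.KO

theorem tLemL : S_LemL := by
  intro V P H v hsym hrk hv c₀ hc₀
  by_contra h0
  obtain ⟨a, b, c, d, ha, hb, hc, hd, hne⟩ := hrk
  have key : ∀ x y, P x → P y → v c₀ ^ 2 * H x y = v x * v y * H c₀ c₀ := by
    intro x y hx hy
    have e1 := hv c₀ x y hc₀ hx hy
    have e2 := hv c₀ y c₀ hc₀ hy hc₀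
    rw [hsym y c₀] at e2
    calc v c₀ ^ 2 * H x y = v c₀ * (v c₀ * H x y) := by ring
      _ = v c₀ * (v x * H c₀ y) := by rw [e1]
      _ = v x * (v c₀ * H c₀ y) := by ring
      _ = v x * (v y * H c₀ c₀) := by rw [e2]
      _ = v x * v y * H c₀ c₀ := by ring
  refine hne ?_
  have h4 : v c₀ ^ 2 * v c₀ ^ 2 ≠ 0 := by positivity
  apply mul_left_cancel₀ h4
  calc v c₀ ^ 2 * v c₀ ^ 2 * (H a b * H c d)
      = (v c₀ ^ 2 * H a b) * (v c₀ ^ 2 * H c d) := by ring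
    _ = (v c₀ ^ 2 * H a d) * (v c₀ ^ 2 * H c b) := by
        rw [key a b ha hb, key c d hc hd, key a d ha hd, key c b hc hb]
        ring
    _ = v c₀ ^ 2 * v c₀ ^ 2 * (H a d * H c b) := by ring

end Pool.Agent.Lib.MP_9d59e9_gt.KO
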