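import Pool.Agent.Lib.MP_9d59e9_gt.KO.Spec

/-!
# KO/P5c: the key identity
-/

set_option autoImplicit false

namespace Pool.Agent.Lib.MP_9d59e9_gt.KO

open scoped BigOperators ContDiff
open Set

noncomputable section

private lemma p5c_z {V : Type} [AddCommGroup V] [Module ℝ V] {f : V → ℝ} (h : Lin1 f) : f 0 = 0 := by
  have := h.smul 0 0
  simpa using this

private lemma p5c_ip_add {n : ℕ} (g : Pt n → Matrix (Fin n) (Fin n) ℝ) (x u v z : Pt n) :
    ip g x (u + v) z = ip g x u z + ip g x v z := by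
  simp only [ip, Pi.add_apply, add_mul, mul_add, Finset.sum_add_distrib]

private lemma p5c_ip_smul {n : ℕ} (g : Pt n → Matrix (Fin n) (Fin n) ℝ) (x u z : Pt n) (r : ℝ) :
    ip g x (r • u) z = r * ip g x u z := by
  simp only [ip, Pi.smul_apply, smul_eq_mul, Finset.mul_sum]
  refine Finset.sum_congr rfl fun i _ => Finset.sum_congr rfl fun j _ => ?_
  ring

private lemma p5c_ev {n : ℕ} {Ω : Set (Pt n)} (hO : IsOpen Ω) {p : Pt n} (hp : p ∈ Ω) (w : Pt n) :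
    ∀ᶠ t : ℝ in nhds 0, p + t • w ∈ Ω := by
  have hc : Continuous fun t : ℝ => p + t • w := by fun_prop
  have h0 : (fun t : ℝ => p + t • w) 0 ∈ Ω := by simpa using hp
  exact hc.continuousAt.eventually (hO.mem_nhds h0)

theorem tP5c (hP5b : S_P5b) (hCvE : S_CvE) (hCvR : S_CvR) (hCvb : S_Cvb) (hLin : S_Lin)
    (hSmo : S_Smo) (hUp : S_Up) (hOpn : S_Opn) : S_P5c := by
  intro n g Ω t1 t2 hK ht2 p hp w z x y c d e f
  have hO := hK.met.isOpen
  have hg := hK.met.pos p hp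
  obtain ⟨-, E2, E4, E5⟩ := hCvE n g Ω hO p hp w
  obtain ⟨-, -, -, -, -, sR, sN, -, -, -, sh, -⟩ := hSmo n g Ω hK.met
  have sh := sh t1 hK.s1
  obtain ⟨-, -, -, -, L2, -, L4, L5, -⟩ := hLin n p
  obtain ⟨O1, O2⟩ := hOpn n g p hg
  have hnd := (hUp n g p hg).2
  -- the equation with `t₂ = 0`
  have hks : ∀ a b u v w z, e6 (N2 g) p a b u v w z = -(e1 t1 p a) * e5 (N g) p b u v w z := by
    intro a b u v w z
    have h := hK.ks p hp a b u v w z
    rw [ht2 p hp a b, zero_mul, add_zero] at h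
    linarith
  -- parallel curves
  let P : Pt n → ℝ → Pt n := fun v t => v - t • Chr g p w v
  have hP : ∀ v, Cv g p w (P v) v 0 := (hCvb n g p w).1
  have P0 : ∀ v, P v 0 = v := fun v => (hP v).1
  have hNv : ∀ v, Cv g p w (fun t => Nv g (p + t • w) (P z t) (P x t) (P y t) (P v t))
      (Nv g p z x y v) (-(e1 t1 p w) • Nv g p z x y v) := by
    intro v
    have h := (hCvR n g Ω hK.met p hp w (P z) z 0 (P x) x 0 (P y) y 0 (P v) v 0 (hP z) (hP x)
      (hP y) (hP v)).2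
    have e : N2v g p w z x y v + (Nv g p 0 x y v + Nv g p z 0 y v + Nv g p z x 0 v
        + Nv g p z x y 0) = -(e1 t1 p w) • Nv g p z x y v := by
      apply hnd
      intro u
      rw [p5c_ip_add, p5c_ip_add, p5c_ip_add, p5c_ip_add, p5c_ip_smul, O1, O1, O1, O1, O1, O2,
        p5c_z ((L5 (N g)).2.2.2.2 x y v u), p5c_z ((L5 (N g)).2.2.2.1 z y v u),
        p5c_z ((L5 (N g)).2.2.1 z x v u), p5c_z ((L5 (N g)).2.1 z x y u), hks]
      ring
    rw [e] at h
    exact h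
  have hRv : Cv g p w (fun t => Rv g (p + t • w) (P x t) (P y t) (P z t))
      (Rv g p x y z) (Nv g p w x y z) := by
    have h := (hCvR n g Ω hK.met p hp w (P z) z 0 (P x) x 0 (P y) y 0 (P z) z 0 (hP z) (hP x)
      (hP y) (hP z)).1
    have e : Nv g p w x y z + (Rv g p 0 y z + Rv g p x 0 z + Rv g p x y 0) = Nv g p w x y z := by
      have e1 : Rv g p 0 y z = 0 := by
        funext a
        simp [Rv]
      have e2 : Rv g p x 0 z = 0 := by
        funext a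
        simp [Rv]
      have e3 : Rv g p x y 0 = 0 := by
        funext a
        simp [Rv]
      rw [e1, e2, e3, add_zero, add_zero, add_zero]
    rw [e] at h
    exact h
  -- zero slots, scalars
  have z4 := L4 (R4 g)
  have z5 := L5 (N g)
  have z2 := L2 (hT g t1)
  have d1 := E4 (R4 g) sR _ _ _ _ _ _ _ _ _ _ _ _ (hNv c) (hP d) (hP e) (hP f)
  have d2 := E4 (R4 g) sR _ _ _ _ _ _ _ _ _ _ _ _ (hP c) (hNv d) (hP e) (hP f)
  have d3 := E4 (R4 g) sR _ _ _ _ _ _ _ _ _ _ _ _ (hP c) (hP d) (hNv e) (hP f)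
  have d4 := E4 (R4 g) sR _ _ _ _ _ _ _ _ _ _ _ _ (hP c) (hP d) (hP e) (hNv f)
  have d5 := E5 (N g) sN _ _ _ _ _ _ _ _ _ _ _ _ _ _ _ hRv (hP c) (hP d) (hP e) (hP f)
  have d6 := E2 (hT g t1) sh _ _ _ _ _ _ (hP z) (hP x)
  have d7 := E2 (hT g t1) sh _ _ _ _ _ _ (hP z) (hP y)
  have d8 := E5 (N g) sN _ _ _ _ _ _ _ _ _ _ _ _ _ _ _ (hP y) (hP c) (hP d) (hP e) (hP f)
  have d9 := E5 (N g) sN _ _ _ _ _ _ _ _ _ _ _ _ _ _ _ (hP x) (hP c) (hP d) (hP e) (hP f)
  have hl := ((((d1.add d2).add d3).add d4).neg).add d5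
  have hr := (d6.mul d8).sub (d7.mul d9)
  have hev := p5c_ev hO hp w
  have hU := hl.unique (hr.congr_of_eventuallyEq (by
    filter_upwards [hev] with t ht
    exact (hP5b n g Ω t1 t2 hK ht2 (p + t • w) ht).1 (P z t) (P x t) (P y t) (P c t) (P d t)
      (P e t) (P f t)))
  have hN : D g (R4 g) = N g := rfl
  have hN2 : D g (N g) = N2 g := rfl
  have hα := (hP5b n g Ω t1 t2 hK ht2 p hp).1 z x y c d e f
  have hβ := (hP5b n g Ω t1 t2 hK ht2 p hp).2 z x y w c d e f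
  rw [hN, hN2] at hU
  have a1 : ∀ a b c, e4 (R4 g) p a b c 0 = 0 := fun a b c => p5c_z (z4.1 a b c)
  have a2 : ∀ a b d, e4 (R4 g) p a b 0 d = 0 := fun a b d => p5c_z (z4.2.1 a b d)
  have a3 : ∀ a c d, e4 (R4 g) p a 0 c d = 0 := fun a c d => p5c_z (z4.2.2.1 a c d)
  have a4 : ∀ b c d, e4 (R4 g) p 0 b c d = 0 := fun b c d => p5c_z (z4.2.2.2 b c d)
  have b1 : ∀ a b c d, e5 (N g) p a b c d 0 = 0 := fun a b c d => p5c_z (z5.1 a b c d)
  have b2 : ∀ a b c e, e5 (N g) p a b c 0 e = 0 := fun a b c e => p5c_z (z5.2.1 a b c e)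
  have b3 : ∀ a b d e, e5 (N g) p a b 0 d e = 0 := fun a b d e => p5c_z (z5.2.2.1 a b d e)
  have b4 : ∀ a c d e, e5 (N g) p a 0 c d e = 0 := fun a c d e => p5c_z (z5.2.2.2.1 a c d e)
  have b5 : ∀ b c d e, e5 (N g) p 0 b c d e = 0 := fun b c d e => p5c_z (z5.2.2.2.2 b c d e)
  have c1 : ∀ a, e2 (hT g t1) p a 0 = 0 := fun a => p5c_z (z2.1 a)
  have c2 : ∀ b, e2 (hT g t1) p 0 b = 0 := fun b => p5c_z (z2.2 b)
  have s1 : ∀ (r : ℝ) a b c d, e4 (R4 g) p (r • a) b c d = r * e4 (R4 g) p a b c d :=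
    fun r a b c d => (z4.2.2.2 b c d).smul r a
  have s2 : ∀ (r : ℝ) a b c d, e4 (R4 g) p a (r • b) c d = r * e4 (R4 g) p a b c d :=
    fun r a b c d => (z4.2.2.1 a c d).smul r b
  have s3 : ∀ (r : ℝ) a b c d, e4 (R4 g) p a b (r • c) d = r * e4 (R4 g) p a b c d :=
    fun r a b c d => (z4.2.1 a b d).smul r c
  have s4 : ∀ (r : ℝ) a b c d, e4 (R4 g) p a b c (r • d) = r * e4 (R4 g) p a b c d :=
    fun r a b c d => (z4.1 a b c).smul r d
  simp only [zero_smul, add_zero, zero_add, P0, hks, a1, a2, a3, a4, b1, b2, b3, b4, b5, c1, c2,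
    s1, s2, s3, s4] at hU
  simp only [act4] at hα
  simp only [act5] at hβ
  linear_combination hU + e1 t1 p w * hα - hβ

end

end Pool.Agent.Lib.MP_9d59e9_gt.KO
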