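import Mathlib
import Pool.Agent.Lib.MP_9d59e9_gt.KO.Spec

/-!
# MP_9d59e9_gt, project KO: the tensor `Π`
-/

set_option autoImplicit false

namespace Pool.Agent.Lib.MP_9d59e9_gt.KO

open scoped BigOperators ContDiff
open Set

noncomputable section

private theorem e4_Nc {n : ℕ} (g : Pt n → Matrix (Fin n) (Fin n) ℝ) (x₀ x u v w z : Pt n) :
    e4 (Nc g x₀) x u v w z = e5 (N g) x x₀ u v w z := by
  unfold e4 e5 ev Nc
  have h1 : ∀ J : Fin 5 → Fin n, N g J x * ∏ j, (![x₀, u, v, w, z] : Fin 5 → Pt n) j (J j)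
      = (fun p : Fin n × (Fin 4 → Fin n) => x₀ p.1 * N g (Fin.cons p.1 p.2) x *
          ∏ j, (![u, v, w, z] : Fin 4 → Pt n) j (p.2 j)) ((Fin.consEquiv fun _ => Fin n).symm J) := by
    intro J
    obtain ⟨p, rfl⟩ := (Fin.consEquiv fun _ : Fin 5 => Fin n).surjective J
    rw [Equiv.symm_apply_apply]
    have hc : (Fin.consEquiv fun _ : Fin 5 => Fin n) p = Fin.cons p.1 p.2 := rfl
    rw [hc, Fin.prod_univ_succ (n := 4)]
    simp only [Fin.cons_zero, Fin.cons_succ, Matrix.cons_val_zero, Matrix.cons_val_succ]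
    ring
  rw [Finset.sum_congr rfl fun J _ => h1 J,
    Equiv.sum_comp (Fin.consEquiv fun _ : Fin 5 => Fin n).symm
      (fun p : Fin n × (Fin 4 → Fin n) => x₀ p.1 * N g (Fin.cons p.1 p.2) x *
          ∏ j, (![u, v, w, z] : Fin 4 → Pt n) j (p.2 j)),
    Fintype.sum_prod_type, Finset.sum_comm]
  refine Finset.sum_congr rfl fun I _ => ?_
  rw [Finset.sum_mul]

private theorem e4_Pit {n : ℕ} (g : Pt n → Matrix (Fin n) (Fin n) ℝ) (x₀ x u v w z : Pt n) :
    e4 (Pit g x₀) x u v w z = e4 (Nc g x₀) x u v w z / scal g (Nc g x₀) x := by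
  unfold e4 ev Pit
  rw [Finset.sum_div]
  refine Finset.sum_congr rfl fun I _ => ?_
  ring

private theorem scal_Pit {n : ℕ} (g : Pt n → Matrix (Fin n) (Fin n) ℝ) (x₀ x : Pt n) :
    scal g (Pit g x₀) x = scal g (Nc g x₀) x / scal g (Nc g x₀) x := by
  have h : ∀ r : ℝ, (∑ i, ∑ j, ∑ k, ∑ l, (g x)⁻¹ i k * (g x)⁻¹ j l *
      (Nc g x₀ ![i, j, k, l] x / r)) = scal g (Nc g x₀) x / r := by
    intro r
    unfold scal
    simp only [Finset.sum_div]
    refine Finset.sum_congr rfl fun i _ => Finset.sum_congr rfl fun j _ =>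
      Finset.sum_congr rfl fun k _ => Finset.sum_congr rfl fun l _ => ?_
    ring
  exact h (scal g (Nc g x₀) x)

theorem tPi1 (hNN : S_NN) (hNrm : S_Nrm) (_hLin : S_Lin) (hSmo : S_Smo) (hBi2 : S_Bi2) :
    S_Pi1 := by
  intro n g Ω t1 t2 hks x₀
  have hmet := hks.met
  obtain ⟨-, -, -, -, -, -, -, -, hNc, hsc, -, -⟩ := hSmo n g Ω hmet
  have hf : ContDiffOn ℝ ∞ (scal g (Nc g x₀)) Ω := hsc _ (hNc x₀)
  have hcur : ∀ x ∈ Ω, Crvt (e4 (Nc g x₀) x) := by
    intro x hx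
    have h := (hBi2 n g Ω hmet x hx).cur x₀
    have he : e4 (Nc g x₀) x = e5 (N g) x x₀ := by
      funext u v w z; exact e4_Nc g x₀ x u v w z
    rw [he]; exact h
  have hrk : ∀ x ∈ Ω, RkOne (e4 (Nc g x₀) x) := by
    intro x hx a a' b b' c c' d d'
    simp only [e4_Nc]
    exact (hNN n g Ω t1 t2 hks x hx x₀ x₀ a a' b b' c c' d d').1
  refine ⟨fun x u v w z => e4_Nc g x₀ x u v w z, ?_, ?_, ?_, ?_⟩
  · rintro p hp ⟨u, v, w, z, hne⟩
    refine ((hNrm n g p (hmet.pos p hp) (Nc g x₀) (hrk p hp)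
      (fun a a' b b' => (hcur p hp).sw a a' b b')).2 ⟨u, v, w, z, ?_⟩).1
    rw [e4_Nc]; exact hne
  · have h := hf.continuousOn.isOpen_inter_preimage hmet.isOpen
      (isOpen_compl_singleton (x := (0 : ℝ)))
    exact h
  · intro I
    have h1 : ContDiffOn ℝ ∞ (Nc g x₀ I) {x | x ∈ Ω ∧ scal g (Nc g x₀) x ≠ 0} :=
      (hNc x₀ I).mono fun x hx => hx.1
    have h2 : ContDiffOn ℝ ∞ (scal g (Nc g x₀)) {x | x ∈ Ω ∧ scal g (Nc g x₀) x ≠ 0} :=
      hf.mono fun x hx => hx.1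
    exact h1.div h2 fun x hx => hx.2
  · intro x hx hne
    have hP : e4 (Pit g x₀) x = fun u v w z => e4 (Nc g x₀) x u v w z / scal g (Nc g x₀) x := by
      funext u v w z; exact e4_Pit g x₀ x u v w z
    have hc := hcur x hx
    refine ⟨?_, ?_, ?_, ?_⟩
    · rw [hP]
      refine ⟨?_, ?_, ?_, ?_, ?_⟩
      · intro b c d
        refine ⟨fun a a' => ?_, fun r a => ?_⟩
        · rw [(hc.lin b c d).add, add_div]
        · rw [(hc.lin b c d).smul, mul_div_assoc]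
      · intro a b c d; rw [hc.a12, neg_div]
      · intro a b c d; rw [hc.a34, neg_div]
      · intro a b c d; rw [hc.sw]
      · intro a b c d
        rw [← add_div, ← add_div, hc.bi, zero_div]
    · rw [hP]
      intro a a' b b' c c' d d'
      rw [div_mul_div_comm, div_mul_div_comm, hrk x hx a a' b b' c c' d d']
    · rw [scal_Pit, div_self hne]
    · intro u v w z
      rw [e4_Pit, e4_Nc, mul_div_cancel₀ _ hne]

end

end Pool.Agent.Lib.MP_9d59e9_gt.KO
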